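import Mathlib

set_option autoImplicit false

/-!
# Every CM field: random elements of an absolutely irreducible group of integer matrices (definitions)

`G` is a finite group, `ρ : G →* M_d(ℤ)` a representation, `c ∈ G` with `ρ c = -1`, `N d = |G|`.

* `AI ρ c N`: Schur's orthogonality relations `∑ γ, ρ(γ⁻¹)_ij ρ(γ)_kl = N δ_il δ_jk` (this says that `ρ` is
  absolutely irreducible over `ℚ`).
* `Eqd c s g`: the map `s : S → G`, `card S = g`, is equidistributed up to `c`.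
* `mat ρ s f = ∑ x, ± ρ (s x)`, the signs given by `f : S → Bool`; `Sing ρ s`: the `f` with `det (mat ρ s f) = 0`.
* `rm m A`: the integer matrix `A` modulo `m`; `th m ρ x u γ = u ⬝ ρ(γ) x` in `ZMod m`.
* `sn m t = |sin (2 π t / m)|`, `Yl t`: the representative of `2 t` of least absolute value.
* `sig m ρ x u`: the mean of `sn (th γ) ^ 2` over `γ ∈ G`.  `Ball m ρ x r`: the `u` with `sig ≤ r ^ 2`.
* `al ρ w = ∑ j, ξ_j ρ(γ_j)` for `w : Fin k → G × Fin 4`, `w j = (γ_j, i_j)`, `ξ = 1, 0, 0, -1` for `i = 0, 1, 2, 3`.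
* `thT, sigT, NWalkT`: the same for tuples `x, u : Fin J → Fin d → ZMod m`.
* `crk l A`: the dimension of the kernel of the integer matrix `A` modulo the prime `l`.
* `Prim x`: some coordinate of `x` is a unit.
-/

namespace Pool.Agent.H9.EC

open Finset Matrix

section
variable {d : ℕ} {G : Type} [Group G] [Fintype G]

/-- Schur's orthogonality relations and `ρ c = -1`. -/
structure AI (ρ : G →* Matrix (Fin d) (Fin d) ℤ) (c : G) (N : ℕ) : Prop where
  card : N * d = Fintype.card G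
  schur : ∀ i j k l, ∑ γ, ρ γ⁻¹ i j * ρ γ k l = if i = l ∧ j = k then (N : ℤ) else 0
  neg : ρ c = -1

/-- The map `s` is equidistributed up to `c`. -/
structure Eqd {S : Type} [Fintype S] (c : G) (s : S → G) (g : ℕ) : Prop where
  card : Fintype.card S = g
  pos : 1 ≤ g
  eqd : ∀ F : G → ℝ, (∀ γ, F (c * γ) = F γ) → (Fintype.card G : ℝ) * ∑ x, F (s x) = g * ∑ γ, F γ

/-- The sign of a Boolean. -/
def sg (b : Bool) : ℤ := if b then 1 else -1

/-- `∑ x, ± ρ (s x)`. -/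
def mat {S : Type} [Fintype S] (ρ : G →* Matrix (Fin d) (Fin d) ℤ) (s : S → G) (f : S → Bool) :
    Matrix (Fin d) (Fin d) ℤ := ∑ x, sg (f x) • ρ (s x)

/-- The number of the sign functions `f` with `det (mat ρ s f) = 0`. -/
noncomputable def NSing {S : Type} [Fintype S] (ρ : G →* Matrix (Fin d) (Fin d) ℤ) (s : S → G) : ℕ :=
  Nat.card {f : S → Bool // (mat ρ s f).det = 0}

/-- The integer matrix `A` modulo `m`. -/
def rm (m : ℕ) (A : Matrix (Fin d) (Fin d) ℤ) : Matrix (Fin d) (Fin d) (ZMod m) :=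
  A.map (Int.castRingHom (ZMod m))

/-- The number of the `f` with `mat ρ s f x = 0` modulo `m`. -/
noncomputable def NKer {S : Type} [Fintype S] (m : ℕ) (ρ : G →* Matrix (Fin d) (Fin d) ℤ) (s : S → G)
    (x : Fin d → ZMod m) : ℕ := Nat.card {f : S → Bool // rm m (mat ρ s f) *ᵥ x = 0}

/-- `u ⬝ ρ(γ) x`. -/
def th (m : ℕ) (ρ : G →* Matrix (Fin d) (Fin d) ℤ) (x u : Fin d → ZMod m) (γ : G) : ZMod m :=
  u ⬝ᵥ (rm m (ρ γ) *ᵥ x)

/-- `|sin (2 π t / m)|`. -/
noncomputable def sn (m : ℕ) (t : ZMod m) : ℝ := |Real.sin (2 * Real.pi * t.val / m)|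

/-- The representative of `2 t` of least absolute value. -/
def Yl {m : ℕ} (t : ZMod m) : ℤ := (2 * t).valMinAbs

/-- The mean of `sn (th γ) ^ 2`. -/
noncomputable def sig (m : ℕ) (ρ : G →* Matrix (Fin d) (Fin d) ℤ) (x u : Fin d → ZMod m) : ℝ :=
  (∑ γ, sn m (th m ρ x u γ) ^ 2) / Fintype.card G

open Classical in
/-- The `u` with `sig ≤ r ^ 2`. -/
noncomputable def Ball (m : ℕ) [NeZero m] (ρ : G →* Matrix (Fin d) (Fin d) ℤ) (x : Fin d → ZMod m)
    (r : ℝ) : Finset (Fin d → ZMod m) := univ.filter (fun u => sig m ρ x u ≤ r ^ 2)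

/-- The coefficients `1, 0, 0, -1`. -/
def xi : Fin 4 → ℤ := ![1, 0, 0, -1]

/-- The sum of `k` terms `ξ_j ρ(γ_j)`. -/
def al (ρ : G →* Matrix (Fin d) (Fin d) ℤ) {k : ℕ} (w : Fin k → G × Fin 4) :
    Matrix (Fin d) (Fin d) ℤ := ∑ j, xi (w j).2 • ρ (w j).1

/-- The number of the `w` with `al ρ w x = 0` modulo `m`. -/
noncomputable def NWalk (m : ℕ) (ρ : G →* Matrix (Fin d) (Fin d) ℤ) (k : ℕ)
    (x : Fin d → ZMod m) : ℕ := Nat.card {w : Fin k → G × Fin 4 // rm m (al ρ w) *ᵥ x = 0}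

/-- `∑ i, u i ⬝ ρ(γ) (x i)`. -/
def thT (m : ℕ) (ρ : G →* Matrix (Fin d) (Fin d) ℤ) {J : ℕ} (x u : Fin J → Fin d → ZMod m) (γ : G) :
    ZMod m := ∑ i, th m ρ (x i) (u i) γ

/-- The mean of `sn (thT γ) ^ 2`. -/
noncomputable def sigT (m : ℕ) (ρ : G →* Matrix (Fin d) (Fin d) ℤ) {J : ℕ}
    (x u : Fin J → Fin d → ZMod m) : ℝ := (∑ γ, sn m (thT m ρ x u γ) ^ 2) / Fintype.card G

/-- The number of the `w` with `al ρ w (x i) = 0` modulo `m` for all `i`. -/
noncomputable def NWalkT (m : ℕ) (ρ : G →* Matrix (Fin d) (Fin d) ℤ) (k : ℕ) {J : ℕ}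
    (x : Fin J → Fin d → ZMod m) : ℕ :=
  Nat.card {w : Fin k → G × Fin 4 // ∀ i, rm m (al ρ w) *ᵥ x i = 0}

/-- The dimension of the kernel of `A` modulo `l`. -/
noncomputable def crk (l : ℕ) [Fact l.Prime] (A : Matrix (Fin d) (Fin d) ℤ) : ℕ :=
  Module.finrank (ZMod l) (LinearMap.ker (Matrix.mulVecLin (rm l A)))

end

/-- Some coordinate of `x` is a unit. -/
def Prim {d m : ℕ} (x : Fin d → ZMod m) : Prop := ∃ i, IsUnit (x i)

end Pool.Agent.H9.EC
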