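import Pool.Agent.H9.EC.Defs2

set_option autoImplicit false

/-!
Simple facts on `mx`, `nv`, `Bx`, `BM` (module H9 EC MXB).

PROOF.  `Finset.le_sup`, `Finset.sup_le_iff`, `Finset.exists_mem_eq_sup` (nonempty), `Fintype.mem_piFinset`,
`Int.natAbs_le`/`abs_le`.
-/

namespace Pool.Agent.H9.EC

open Finset Matrix

private theorem nat_abs_iff (x : ℤ) (T : ℕ) : x.natAbs ≤ T ↔ |x| ≤ (T : ℤ) := by
  rw [Int.abs_eq_natAbs, Nat.cast_le]

theorem le_mx {d : ℕ} (A : Matrix (Fin d) (Fin d) ℤ) (i j : Fin d) : |A i j| ≤ (mx A : ℤ) := by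
  rw [← nat_abs_iff]
  unfold mx
  refine le_trans ?_ (le_sup (f := fun i => univ.sup fun j => (A i j).natAbs) (mem_univ i))
  exact le_sup (f := fun j => (A i j).natAbs) (mem_univ j)

theorem mx_le {d : ℕ} (A : Matrix (Fin d) (Fin d) ℤ) (T : ℕ) : mx A ≤ T ↔ ∀ i j, |A i j| ≤ (T : ℤ) := by
  constructor
  · intro h i j
    exact (le_mx A i j).trans (by exact_mod_cast h)
  · intro h
    unfold mx
    refine Finset.sup_le fun i _ => Finset.sup_le fun j _ => ?_
    exact (nat_abs_iff _ _).2 (h i j)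

theorem mx_pos {d : ℕ} (A : Matrix (Fin d) (Fin d) ℤ) (h : A ≠ 0) : 1 ≤ mx A := by
  by_contra hcon
  have h0 : mx A ≤ 0 := by omega
  apply h
  ext i j
  have h1 := (mx_le A 0).1 h0 i j
  rw [Nat.cast_zero] at h1
  exact abs_eq_zero.1 (le_antisymm h1 (abs_nonneg _))

theorem mem_BM {d : ℕ} (A : Matrix (Fin d) (Fin d) ℤ) (T : ℕ) : A ∈ BM d T ↔ mx A ≤ T := by
  rw [mx_le]
  unfold BM
  constructor
  · intro h i j
    have h1 := Fintype.mem_piFinset.1 (Fintype.mem_piFinset.1 h i) j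
    rw [mem_Icc] at h1
    exact abs_le.2 h1
  · intro h
    refine Fintype.mem_piFinset.2 fun i => Fintype.mem_piFinset.2 fun j => ?_
    rw [mem_Icc]
    exact abs_le.1 (h i j)

theorem le_nv {d : ℕ} (v : Fin d → ℤ) (i : Fin d) : |v i| ≤ (nv v : ℤ) := by
  rw [← nat_abs_iff]
  exact le_sup (f := fun i => (v i).natAbs) (mem_univ i)

theorem nv_le {d : ℕ} (v : Fin d → ℤ) (T : ℕ) : nv v ≤ T ↔ ∀ i, |v i| ≤ (T : ℤ) := by
  constructor
  · intro h i
    exact (le_nv v i).trans (by exact_mod_cast h)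
  · intro h
    exact Finset.sup_le fun i _ => (nat_abs_iff _ _).2 (h i)

theorem nv_pos {d : ℕ} (v : Fin d → ℤ) (h : v ≠ 0) : 1 ≤ nv v := by
  by_contra hcon
  have h0 : nv v ≤ 0 := by omega
  apply h
  ext i
  have h1 := (nv_le v 0).1 h0 i
  rw [Nat.cast_zero] at h1
  exact abs_eq_zero.1 (le_antisymm h1 (abs_nonneg _))

theorem nv_attained {d : ℕ} (v : Fin d → ℤ) (h : v ≠ 0) : ∃ i, |v i| = (nv v : ℤ) := by
  have hne : (univ : Finset (Fin d)).Nonempty := by
    by_contra hcon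
    rw [not_nonempty_iff_eq_empty] at hcon
    apply h
    ext i
    have := mem_univ i
    rw [hcon] at this
    simp at this
  obtain ⟨i, -, hi⟩ := exists_mem_eq_sup univ hne (fun i => (v i).natAbs)
  refine ⟨i, ?_⟩
  rw [Int.abs_eq_natAbs]
  exact congrArg _ hi.symm

theorem nv_smul {d : ℕ} (t : ℤ) (v : Fin d → ℤ) : nv (t • v) = t.natAbs * nv v := by
  apply le_antisymm
  · refine Finset.sup_le fun i _ => ?_
    rw [Pi.smul_apply, smul_eq_mul, Int.natAbs_mul]
    exact Nat.mul_le_mul_left _ (le_sup (f := fun i => (v i).natAbs) (mem_univ i))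
  · by_cases hv : v = 0
    · subst hv
      have h0 : nv (0 : Fin d → ℤ) = 0 := by
        have h1 : nv (0 : Fin d → ℤ) ≤ 0 := (nv_le _ _).2 fun i => by simp
        omega
      rw [h0, Nat.mul_zero]
      exact Nat.zero_le _
    · obtain ⟨i, hi⟩ := nv_attained v hv
      have h1 : (v i).natAbs = nv v := by
        rw [Int.abs_eq_natAbs] at hi
        exact_mod_cast hi
      rw [← h1, ← Int.natAbs_mul]
      have h2 := le_sup (f := fun i => ((t • v) i).natAbs) (mem_univ i)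
      exact h2

theorem mem_Bx {d : ℕ} (v : Fin d → ℤ) (T : ℕ) : v ∈ Bx d T ↔ nv v ≤ T := by
  rw [nv_le]
  unfold Bx
  rw [Fintype.mem_piFinset]
  refine forall_congr' fun i => ?_
  rw [mem_Icc, abs_le]

end Pool.Agent.H9.EC
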