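import Pool.Agent.H9.EC.SnBd
import Pool.Agent.H9.EC.MxB

set_option autoImplicit false

/-!
The integer matrix `AM` (module H9 EC AMT).

PROOF.  `AM_mod`: by `Yl_cast`, `AM_ij = ∑ γ, 2 th(γ) ρ(γ⁻¹)_ij = 2 ∑ γ, ∑ k, ∑ l, u_k ρ(γ)_kl x_l ρ(γ⁻¹)_ij`
`= 2 ∑ k, ∑ l, u_k x_l N δ_il δ_jk = 2 N x_i u_j` modulo `m`, by `hA.schur` (cast to `ZMod m`).
`AM_le`: `|AM_ij| ≤ ∑ γ, |Yl (th γ)| |ρ(γ⁻¹)_ij| ≤ K ∑ γ, (m/2) sn(th γ)` (`Yl_le`) and
`∑ γ, sn(th γ) ≤ √(|G| ∑ γ, sn²) = |G| √sig` by Cauchy-Schwarz (`Finset.sum_mul_sq_le_sq_mul_sq`, `sq_sum_le_card_mul_sum_sq`).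
`mx_le` (with `Nat.floor`, or `Finset.exists_mem_eq_sup`; `mx A = 0` if `d = 0`).
-/

namespace Pool.Agent.H9.EC

open Finset Matrix

variable {d : ℕ} {G : Type} [Group G] [Fintype G] {ρ : G →* Matrix (Fin d) (Fin d) ℤ} {c : G} {N : ℕ}

theorem AM_mod (hA : AI ρ c N) (m : ℕ) [NeZero m] (x u : Fin d → ZMod m) (i j : Fin d) :
    ((AM m ρ x u i j : ℤ) : ZMod m) = 2 * (N : ZMod m) * x i * u j := by
  have h1 : ((AM m ρ x u i j : ℤ) : ZMod m) =
      ∑ γ, 2 * th m ρ x u γ * ((ρ γ⁻¹ i j : ℤ) : ZMod m) := by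
    unfold AM
    rw [Matrix.sum_apply, Int.cast_sum]
    refine sum_congr rfl fun γ _ => ?_
    rw [Matrix.smul_apply, smul_eq_mul, Int.cast_mul, Yl_cast]
  have h2 : ∀ γ, th m ρ x u γ = ∑ k, ∑ l, u k * x l * ((ρ γ k l : ℤ) : ZMod m) := by
    intro γ
    unfold th rm
    simp only [dotProduct, Matrix.mulVec, Matrix.map_apply, mul_sum, Int.coe_castRingHom]
    refine sum_congr rfl fun k _ => sum_congr rfl fun l _ => ?_
    ring
  have h3 : ∀ k l, ∑ γ, ((ρ γ⁻¹ i j : ℤ) : ZMod m) * ((ρ γ k l : ℤ) : ZMod m) =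
      if i = l ∧ j = k then (N : ZMod m) else 0 := by
    intro k l
    have h4 := congrArg (Int.cast : ℤ → ZMod m) (hA.schur i j k l)
    rw [Int.cast_sum] at h4
    simp only [Int.cast_mul] at h4
    rw [h4]
    split_ifs <;> simp
  have h5 : ∀ γ, 2 * th m ρ x u γ * ((ρ γ⁻¹ i j : ℤ) : ZMod m) =
      ∑ k, ∑ l, 2 * u k * x l * (((ρ γ⁻¹ i j : ℤ) : ZMod m) * ((ρ γ k l : ℤ) : ZMod m)) := by
    intro γ
    rw [h2, mul_sum, sum_mul]
    refine sum_congr rfl fun k _ => ?_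
    rw [mul_sum, sum_mul]
    refine sum_congr rfl fun l _ => ?_
    ring
  rw [h1, sum_congr rfl fun γ _ => h5 γ, sum_comm]
  have h6 : ∀ k, ∑ γ, ∑ l, 2 * u k * x l *
      (((ρ γ⁻¹ i j : ℤ) : ZMod m) * ((ρ γ k l : ℤ) : ZMod m)) =
      ∑ l, 2 * u k * x l * (if i = l ∧ j = k then (N : ZMod m) else 0) := by
    intro k
    rw [sum_comm]
    refine sum_congr rfl fun l _ => ?_
    rw [← mul_sum, h3]
  rw [sum_congr rfl fun k _ => h6 k, sum_eq_single j, sum_eq_single i]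
  · rw [if_pos ⟨rfl, rfl⟩]
    ring
  · intro l _ hl
    rw [if_neg (fun h => hl h.1.symm), mul_zero]
  · intro h; exact absurd (mem_univ _) h
  · intro k _ hk
    refine sum_eq_zero fun l _ => ?_
    rw [if_neg (fun h => hk h.2.symm), mul_zero]
  · intro h; exact absurd (mem_univ _) h

private theorem sn_sum (m : ℕ) (x u : Fin d → ZMod m) :
    ∑ γ, sn m (th m ρ x u γ) ≤ Fintype.card G * √(sig m ρ x u) := by
  have hG : (0 : ℝ) < Fintype.card G := Nat.cast_pos.2 Fintype.card_pos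
  have h0 : 0 ≤ ∑ γ, sn m (th m ρ x u γ) := sum_nonneg fun γ _ => sn_nonneg _ _
  have h1 : (∑ γ, sn m (th m ρ x u γ)) ^ 2 ≤ (Fintype.card G : ℝ) ^ 2 * sig m ρ x u := by
    have h2 := sq_sum_le_card_mul_sum_sq (s := (univ : Finset G)) (f := fun γ => sn m (th m ρ x u γ))
    rw [card_univ] at h2
    refine h2.trans (le_of_eq ?_)
    unfold sig
    field_simp
  rw [← Real.sqrt_sq h0, ← Real.sqrt_sq hG.le, ← Real.sqrt_mul (sq_nonneg _)]
  exact Real.sqrt_le_sqrt h1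

private theorem mx_real {A : Matrix (Fin d) (Fin d) ℤ} {B : ℝ} (hB : 0 ≤ B)
    (h : ∀ i j, |(A i j : ℝ)| ≤ B) : (mx A : ℝ) ≤ B := by
  refine le_trans ?_ (Nat.floor_le hB)
  have h1 : mx A ≤ ⌊B⌋₊ := by
    rw [mx_le]
    intro i j
    have h2 : (A i j).natAbs ≤ ⌊B⌋₊ := by
      apply Nat.le_floor
      rw [Nat.cast_natAbs, Int.cast_abs]
      exact h i j
    rw [Int.abs_eq_natAbs]
    exact_mod_cast h2
  exact_mod_cast h1

theorem AM_le (K : ℕ) (hK : ∀ γ i j, |ρ γ i j| ≤ (K : ℤ)) (m : ℕ) [NeZero m] (x u : Fin d → ZMod m) :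
    2 * (mx (AM m ρ x u) : ℝ) ≤ K * Fintype.card G * m * √(sig m ρ x u) := by
  have h0 : 0 ≤ (K * Fintype.card G * m * √(sig m ρ x u) / 2 : ℝ) := by positivity
  have h1 : (mx (AM m ρ x u) : ℝ) ≤ K * Fintype.card G * m * √(sig m ρ x u) / 2 := by
    refine mx_real h0 fun i j => ?_
    have h2 : (AM m ρ x u i j : ℝ) = ∑ γ, (Yl (th m ρ x u γ) : ℝ) * (ρ γ⁻¹ i j : ℝ) := by
      unfold AM
      rw [Matrix.sum_apply, Int.cast_sum]
      refine sum_congr rfl fun γ _ => ?_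
      rw [Matrix.smul_apply, smul_eq_mul, Int.cast_mul]
    rw [h2, le_div_iff₀ two_pos]
    calc |∑ γ, (Yl (th m ρ x u γ) : ℝ) * (ρ γ⁻¹ i j : ℝ)| * 2
        ≤ (∑ γ, |(Yl (th m ρ x u γ) : ℝ) * (ρ γ⁻¹ i j : ℝ)|) * 2 :=
          mul_le_mul_of_nonneg_right (abs_sum_le_sum_abs _ _) two_pos.le
      _ = ∑ γ, 2 * |(Yl (th m ρ x u γ) : ℝ)| * |(ρ γ⁻¹ i j : ℝ)| := by
          rw [sum_mul]
          refine sum_congr rfl fun γ _ => ?_
          rw [abs_mul]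
          ring
      _ ≤ ∑ γ, m * sn m (th m ρ x u γ) * K := by
          refine sum_le_sum fun γ _ => ?_
          have h3 : |(ρ γ⁻¹ i j : ℝ)| ≤ K := by
            have h4 := hK γ⁻¹ i j
            rw [← Int.cast_abs]
            exact_mod_cast h4
          exact mul_le_mul (Yl_le _) h3 (abs_nonneg _) (mul_nonneg (Nat.cast_nonneg _) (sn_nonneg _ _))
      _ = K * m * ∑ γ, sn m (th m ρ x u γ) := by
          rw [mul_sum]
          refine sum_congr rfl fun γ _ => ?_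
          ring
      _ ≤ K * m * (Fintype.card G * √(sig m ρ x u)) :=
          mul_le_mul_of_nonneg_left (sn_sum m x u) (by positivity)
      _ = K * Fintype.card G * m * √(sig m ρ x u) := by ring
  linarith

end Pool.Agent.H9.EC
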