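import Pool.Agent.H9.EC.SnBd

set_option autoImplicit false

/-!
A translate of the coordinates in which most vectors are short (module H9 EC AVG).

PROOF.  For fixed `i`, `∑ γ, (Yl (th u (γ b_i)))² ≤ (m²/4) ∑ γ, sn(th u (γ b_i))² = (m²/4) |G| sig u` (`Yl_le`; reindex
`γ ↦ γ b_i`, `Fintype.sum_equiv (Equiv.mulRight _)`).  So `∑ γ, ∑ i, (Yl ..)² ≤ |G| d r² m² / 4` for `u ∈ A`, and the number of the `γ` with
`∑ i, (Yl ..)² > d r² m²` is at most `|G| / 4` (if `d r² m² = 0` then it is `0`, all the `Yl` vanish).  Summing over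
`u ∈ A` and exchanging the sums, the number of the `γ` for which more than half of the `u ∈ A` are bad (`2 #bad > |A|`) is at most
`|G| / 2`: `∑ γ, #bad(γ) ≤ |A| |G| / 4`.  In the same way the number of the `γ` with
`∑ i, ∑ j, (Yl (th (v j) (γ b_i)))² > d² r² m²` is at most `|G| / 4`.  `1/2 + 1/4 < 1` and `G` is not empty, so some `γ` is good
for both.  (`Fintype.card G > 0`, `Finset.card_union_le`, Markov: `Finset.card_nsmul_le_sum`.)
-/

namespace Pool.Agent.H9.EC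

open Finset Matrix

private theorem avg_markov {G : Type} [Fintype G] (f : G → ℝ) (hf : ∀ γ, 0 ≤ f γ) (D : ℝ)
    (hD : 0 ≤ D) (h : 4 * ∑ γ, f γ ≤ Fintype.card G * D) :
    4 * (univ.filter fun γ => D < f γ).card ≤ Fintype.card G := by
  classical
  by_contra hcon
  push Not at hcon
  have hne : (univ.filter fun γ => D < f γ).Nonempty := by
    rw [← card_pos]
    omega
  have h1 : ∑ _γ ∈ univ.filter (fun γ => D < f γ), D < ∑ γ ∈ univ.filter (fun γ => D < f γ), f γ :=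
    sum_lt_sum_of_nonempty hne fun γ hγ => (mem_filter.1 hγ).2
  have h2 : ∑ γ ∈ univ.filter (fun γ => D < f γ), f γ ≤ ∑ γ, f γ :=
    sum_le_sum_of_subset_of_nonneg (subset_univ _) fun γ _ _ => hf γ
  rw [sum_const, nsmul_eq_mul] at h1
  have h3 : ((Fintype.card G : ℕ) : ℝ) ≤ 4 * ((univ.filter fun γ => D < f γ).card : ℝ) := by
    exact_mod_cast hcon.le
  nlinarith [mul_le_mul_of_nonneg_right h3 hD]

private theorem avg_sum {d : ℕ} {G : Type} [Group G] [Fintype G]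
    (ρ : G →* Matrix (Fin d) (Fin d) ℤ) (m : ℕ) [NeZero m] (x : Fin d → ZMod m) (b : Fin d → G)
    (r : ℝ) (u : Fin d → ZMod m) (hu : sig m ρ x u ≤ r ^ 2) :
    4 * ∑ γ : G, ∑ i, (Yl (th m ρ x u (γ * b i)) : ℝ) ^ 2 ≤
      Fintype.card G * (d * r ^ 2 * m ^ 2) := by
  have hG : 0 < (Fintype.card G : ℝ) := by exact_mod_cast Fintype.card_pos
  have h1 : ∀ i, ∑ γ : G, sn m (th m ρ x u (γ * b i)) ^ 2 =
      ∑ γ : G, sn m (th m ρ x u γ) ^ 2 := fun i =>
    Fintype.sum_equiv (Equiv.mulRight (b i)) _ _ (fun γ => rfl)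
  have h2 : ∑ γ : G, sn m (th m ρ x u γ) ^ 2 ≤ Fintype.card G * r ^ 2 := by
    unfold sig at hu
    rw [div_le_iff₀ hG] at hu
    linarith
  have h3 : ∀ t : ZMod m, 4 * (Yl t : ℝ) ^ 2 ≤ m ^ 2 * sn m t ^ 2 := by
    intro t
    have h4 := Yl_le t
    have h5 : (2 * |(Yl t : ℝ)|) ^ 2 ≤ (m * sn m t) ^ 2 := pow_le_pow_left₀ (by positivity) h4 2
    rw [mul_pow, sq_abs, mul_pow] at h5
    linarith
  rw [sum_comm, mul_sum]
  calc ∑ i, 4 * ∑ γ : G, (Yl (th m ρ x u (γ * b i)) : ℝ) ^ 2 ≤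
        ∑ _i : Fin d, (m : ℝ) ^ 2 * (Fintype.card G * r ^ 2) := by
        refine sum_le_sum fun i _ => ?_
        rw [mul_sum]
        calc ∑ γ : G, 4 * (Yl (th m ρ x u (γ * b i)) : ℝ) ^ 2 ≤
              ∑ γ : G, (m : ℝ) ^ 2 * sn m (th m ρ x u (γ * b i)) ^ 2 :=
              sum_le_sum fun γ _ => h3 _
          _ = (m : ℝ) ^ 2 * ∑ γ : G, sn m (th m ρ x u γ) ^ 2 := by rw [← mul_sum, h1]
          _ ≤ (m : ℝ) ^ 2 * (Fintype.card G * r ^ 2) :=
              mul_le_mul_of_nonneg_left h2 (by positivity)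
    _ = Fintype.card G * (d * r ^ 2 * m ^ 2) := by
        rw [sum_const, card_univ, Fintype.card_fin, nsmul_eq_mul]
        ring

theorem choose_translate {d : ℕ} {G : Type} [Group G] [Fintype G]
    (ρ : G →* Matrix (Fin d) (Fin d) ℤ) (m : ℕ) [NeZero m] (x : Fin d → ZMod m) (b : Fin d → G)
    (r : ℝ) (A : Finset (Fin d → ZMod m)) (hA : ∀ u ∈ A, sig m ρ x u ≤ r ^ 2)
    (v : Fin d → Fin d → ZMod m) (hv : ∀ j, sig m ρ x (v j) ≤ r ^ 2) :
    ∃ γ : G,
      A.card ≤ 2 * (A.filter (fun u => ∑ i, (Yl (th m ρ x u (γ * b i)) : ℝ) ^ 2 ≤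
        d * r ^ 2 * m ^ 2)).card ∧
      ∑ i, ∑ j, (Yl (th m ρ x (v j) (γ * b i)) : ℝ) ^ 2 ≤ d ^ 2 * r ^ 2 * m ^ 2 := by
  classical
  have hG : 0 < Fintype.card G := Fintype.card_pos
  obtain ⟨D, hD⟩ : ∃ D : ℝ, D = d * r ^ 2 * m ^ 2 := ⟨_, rfl⟩
  have hD0 : 0 ≤ D := by
    rw [hD]
    positivity
  obtain ⟨S, hS⟩ : ∃ S : (Fin d → ZMod m) → G → ℝ,
      ∀ u γ, S u γ = ∑ i, (Yl (th m ρ x u (γ * b i)) : ℝ) ^ 2 := ⟨_, fun _ _ => rfl⟩
  have hS0 : ∀ u γ, 0 ≤ S u γ := by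
    intro u γ
    rw [hS]
    exact sum_nonneg fun i _ => sq_nonneg _
  have hsum : ∀ u, sig m ρ x u ≤ r ^ 2 → 4 * ∑ γ : G, S u γ ≤ Fintype.card G * D := by
    intro u hu
    rw [hD]
    simp only [hS]
    exact avg_sum ρ m x b r u hu
  have hu : ∀ u ∈ A, 4 * (univ.filter fun γ : G => D < S u γ).card ≤ Fintype.card G :=
    fun u hu => avg_markov _ (hS0 u) D hD0 (hsum u (hA u hu))
  have hv2 : 4 * (univ.filter fun γ : G => (d : ℝ) * D < ∑ j, S (v j) γ).card ≤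
      Fintype.card G := by
    refine avg_markov _ (fun γ => sum_nonneg fun j _ => hS0 _ γ) _ (by positivity) ?_
    rw [sum_comm, mul_sum]
    calc ∑ j, 4 * ∑ γ : G, S (v j) γ ≤ ∑ j : Fin d, (Fintype.card G : ℝ) * D :=
          sum_le_sum fun j _ => hsum _ (hv j)
      _ = Fintype.card G * (d * D) := by
          rw [sum_const, card_univ, Fintype.card_fin, nsmul_eq_mul]
          ring
  obtain ⟨bad, hbd⟩ : ∃ bad : G → ℕ, ∀ γ, bad γ = (A.filter fun u => D < S u γ).card :=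
    ⟨_, fun _ => rfl⟩
  have hbad : ∑ γ : G, bad γ = ∑ u ∈ A, (univ.filter fun γ : G => D < S u γ).card := by
    simp only [hbd, card_filter]
    rw [sum_comm]
  have hbad2 : 4 * ∑ γ : G, bad γ ≤ A.card * Fintype.card G := by
    rw [hbad, mul_sum]
    refine (sum_le_sum hu).trans ?_
    rw [sum_const, smul_eq_mul]
  obtain ⟨E1, hE1⟩ : ∃ E1 : Finset G, E1 = univ.filter fun γ => A.card < 2 * bad γ := ⟨_, rfl⟩
  obtain ⟨E2, hE2⟩ : ∃ E2 : Finset G, E2 = univ.filter fun γ => (d : ℝ) * D < ∑ j, S (v j) γ :=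
    ⟨_, rfl⟩
  rw [← hE2] at hv2
  have hE1c : 2 * E1.card ≤ Fintype.card G := by
    rcases Nat.eq_zero_or_pos A.card with h0 | h0
    · have h1 : E1 = ∅ := by
        rw [hE1, filter_eq_empty_iff]
        intro γ _
        have h2 : bad γ ≤ A.card := by
          rw [hbd]
          exact card_filter_le _ _
        omega
      rw [h1, card_empty]
      omega
    · have h1 : E1.card * A.card ≤ ∑ γ ∈ E1, 2 * bad γ := by
        rw [← smul_eq_mul]
        refine card_nsmul_le_sum _ _ _ fun γ hγ => ?_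
        rw [hE1, mem_filter] at hγ
        exact hγ.2.le
      have h2 : ∑ γ ∈ E1, 2 * bad γ ≤ ∑ γ, 2 * bad γ := sum_le_sum_of_subset (subset_univ _)
      rw [← mul_sum, ← mul_sum] at h2
      rw [← mul_sum] at h1
      have h3 : A.card * (2 * E1.card) ≤ A.card * Fintype.card G := by nlinarith
      exact Nat.le_of_mul_le_mul_left h3 h0
  have hlt : (E1 ∪ E2).card < Fintype.card G := by
    have := card_union_le E1 E2
    omega
  obtain ⟨γ, hγ⟩ : ∃ γ, γ ∉ E1 ∪ E2 := by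
    by_contra hcon
    push Not at hcon
    have h1 : E1 ∪ E2 = univ := eq_univ_of_forall hcon
    rw [h1, card_univ] at hlt
    omega
  rw [mem_union, not_or, hE1, hE2, mem_filter, mem_filter, not_and, not_and] at hγ
  refine ⟨γ, ?_, ?_⟩
  · have h1 := hγ.1 (mem_univ γ)
    have h2 : (A.filter (fun u => ∑ i, (Yl (th m ρ x u (γ * b i)) : ℝ) ^ 2 ≤
        d * r ^ 2 * m ^ 2)).card + bad γ = A.card := by
      rw [hbd, ← card_filter_add_card_filter_not (s := A)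
        (fun u => ∑ i, (Yl (th m ρ x u (γ * b i)) : ℝ) ^ 2 ≤ d * r ^ 2 * m ^ 2)]
      congr 2
      ext u
      rw [mem_filter, mem_filter, hS, hD, not_le]
    omega
  · have h1 := not_lt.1 (hγ.2 (mem_univ γ))
    have h2 : ∑ i, ∑ j, (Yl (th m ρ x (v j) (γ * b i)) : ℝ) ^ 2 = ∑ j, S (v j) γ := by
      rw [sum_comm]
      exact sum_congr rfl fun j _ => (hS _ _).symm
    rw [h2]
    refine h1.trans (le_of_eq ?_)
    rw [hD]
    ring

end Pool.Agent.H9.EC
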