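import Pool.Agent.H9.EC.Defs

set_option autoImplicit false

/-!
Bases of translates modulo a prime (module H9 EC BST).

`l` a prime that does not divide `|G|`, `y_1, .., y_J` independent vectors over `F = ZMod l`: there are elements
`b_p ∈ G`, `p ∈ Fin J × Fin d`, such that for every `γ` the numbers `∑ i, u_i ⬝ ρ(γ b_p) y_i` determine
`u_1, .., u_J`.

PROOF.  `N` is invertible modulo `l` (`N d = |G|`).  By Schur's relations modulo `l`, every matrix `A` over `F` is
`A = N⁻¹ ∑ γ, tr(ρ(γ⁻¹) A) ρ(γ)` (compare the entries: `∑ γ, ∑ i j, ρ(γ⁻¹)_ij A_ji ρ(γ)_kl = N A_kl`).  Let `V = Fin J → Fin d → F`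
and `z_γ = (ρ(γ) y_i)_i ∈ V`.  The `z_γ` span `V`: for a target `z ∈ V` there is a matrix `A` with `A y_i = z_i`
(the `y_i` are independent: `LinearIndependent.extend` / `LinearMap.exists_extend` or
`exists_leftInverse`), and `z = N⁻¹ ∑ γ, tr(ρ(γ⁻¹) A) z_γ`.  So some of the `z_γ` form a basis of `V`
(`Module.Basis.extend`, `exists_linearIndependent`, or `Submodule.exists_fun_fin_finrank_span_eq`), it has `J d`
elements; index it by `Fin J × Fin d`.  For `γ ∈ G` the operator `(v_i) ↦ (ρ(γ) v_i)` of `V` is invertible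
(inverse `ρ(γ⁻¹)`), so the `z_(γ b_p)` also span `V`.  If all `thT l ρ y u (γ b_p) = ∑ i, u_i ⬝ (z_(γ b_p))_i` vanish then
`∑ i, u_i ⬝ v_i = 0` for all `v ∈ V`, so `u = 0`.
-/

namespace Pool.Agent.H9.EC

open Finset Matrix

theorem bas_mul {d : ℕ} (m : ℕ) (A B : Matrix (Fin d) (Fin d) ℤ) : rm m (A * B) = rm m A * rm m B := by
  unfold rm
  exact Matrix.map_mul

theorem bas_one {d : ℕ} (m : ℕ) : rm m (1 : Matrix (Fin d) (Fin d) ℤ) = 1 := by
  unfold rm
  exact Matrix.map_one _ (map_zero _) (map_one _)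

theorem bas_schur {d : ℕ} {G : Type} [Group G] [Fintype G] {ρ : G →* Matrix (Fin d) (Fin d) ℤ} {c : G}
    {N : ℕ} (hA : AI ρ c N) (l : ℕ) (A : Matrix (Fin d) (Fin d) (ZMod l)) (k m : Fin d) :
    ∑ γ, (∑ i, ∑ j, rm l (ρ γ⁻¹) i j * A j i) * rm l (ρ γ) k m = (N : ZMod l) * A k m := by
  have h1 : ∀ i j, ∑ γ, rm l (ρ γ⁻¹) i j * rm l (ρ γ) k m =
      if i = m ∧ j = k then (N : ZMod l) else 0 := by
    intro i j
    have h2 := congrArg (Int.castRingHom (ZMod l)) (hA.schur i j k m)
    rw [map_sum] at h2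
    simp only [map_mul] at h2
    unfold rm
    simp only [Matrix.map_apply]
    rw [h2]
    split_ifs
    · exact map_natCast _ _
    · exact map_zero _
  calc ∑ γ, (∑ i, ∑ j, rm l (ρ γ⁻¹) i j * A j i) * rm l (ρ γ) k m
      = ∑ γ, ∑ i, ∑ j, A j i * (rm l (ρ γ⁻¹) i j * rm l (ρ γ) k m) := by
        refine Finset.sum_congr rfl fun γ _ => ?_
        rw [Finset.sum_mul]
        refine Finset.sum_congr rfl fun i _ => ?_
        rw [Finset.sum_mul]
        refine Finset.sum_congr rfl fun j _ => ?_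
        ring
    _ = ∑ i, ∑ j, A j i * ∑ γ, rm l (ρ γ⁻¹) i j * rm l (ρ γ) k m := by
        rw [Finset.sum_comm]
        refine Finset.sum_congr rfl fun i _ => ?_
        rw [Finset.sum_comm]
        refine Finset.sum_congr rfl fun j _ => ?_
        rw [Finset.mul_sum]
    _ = ∑ i, ∑ j, A j i * (if i = m ∧ j = k then (N : ZMod l) else 0) := by
        refine Finset.sum_congr rfl fun i _ => Finset.sum_congr rfl fun j _ => ?_
        rw [h1]
    _ = (N : ZMod l) * A k m := by
        rw [Finset.sum_eq_single m]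
        · rw [Finset.sum_eq_single k]
          · rw [if_pos ⟨rfl, rfl⟩, mul_comm]
          · intro j _ hj
            rw [if_neg fun h => hj h.2, mul_zero]
          · intro h
            exact absurd (Finset.mem_univ _) h
        · intro i _ hi
          refine Finset.sum_eq_zero fun j _ => ?_
          rw [if_neg fun h => hi h.1, mul_zero]
        · intro h
          exact absurd (Finset.mem_univ _) h

theorem bas_ext {d : ℕ} (l : ℕ) [Fact l.Prime] {J : ℕ}
    (y : Fin J → Fin d → ZMod l) (hy : LinearIndependent (ZMod l) y) (z : Fin J → Fin d → ZMod l) :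
    ∃ A : Matrix (Fin d) (Fin d) (ZMod l), ∀ i, A *ᵥ y i = z i := by
  have h1 := linearIndependent_iff_injective_fintypeLinearCombination.1 hy
  obtain ⟨g, hg⟩ := LinearMap.exists_leftInverse_of_injective _ (LinearMap.ker_eq_bot.2 h1)
  have h2 : ∀ i, g (y i) = Pi.single i 1 := by
    intro i
    have h3 := LinearMap.congr_fun hg (Pi.single i 1)
    rw [LinearMap.comp_apply, LinearMap.id_apply, Fintype.linearCombination_apply_single,
      one_smul] at h3
    exact h3
  refine ⟨LinearMap.toMatrix' ((Fintype.linearCombination (ZMod l) z).comp g), fun i => ?_⟩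
  rw [LinearMap.toMatrix'_mulVec, LinearMap.comp_apply, h2, Fintype.linearCombination_apply_single,
    one_smul]

theorem bas_span {d : ℕ} {G : Type} [Group G] [Fintype G] {ρ : G →* Matrix (Fin d) (Fin d) ℤ} {c : G}
    {N : ℕ} (hA : AI ρ c N) (l : ℕ) [Fact l.Prime] (hl : ¬ l ∣ Fintype.card G) {J : ℕ}
    (y : Fin J → Fin d → ZMod l) (hy : LinearIndependent (ZMod l) y) :
    Submodule.span (ZMod l) (Set.range fun (γ : G) (i : Fin J) => rm l (ρ γ) *ᵥ y i) = ⊤ := by
  have hN : (N : ZMod l) ≠ 0 := by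
    intro h
    rw [ZMod.natCast_eq_zero_iff] at h
    apply hl
    rw [← hA.card]
    exact Dvd.dvd.mul_right h d
  rw [Submodule.eq_top_iff']
  intro z
  obtain ⟨A, hAz⟩ := bas_ext l y hy z
  have h1 : z = (N : ZMod l)⁻¹ • ∑ γ, (∑ i, ∑ j, rm l (ρ γ⁻¹) i j * A j i) •
      (fun i : Fin J => rm l (ρ γ) *ᵥ y i) := by
    funext i k
    rw [← hAz i]
    rw [Pi.smul_apply, Pi.smul_apply, Finset.sum_apply, Finset.sum_apply]
    simp only [Pi.smul_apply, smul_eq_mul]
    unfold Matrix.mulVec dotProduct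
    have h2 : ∀ γ, (∑ i, ∑ j, rm l (ρ γ⁻¹) i j * A j i) * ∑ m, rm l (ρ γ) k m * y i m =
        ∑ m, (∑ i, ∑ j, rm l (ρ γ⁻¹) i j * A j i) * rm l (ρ γ) k m * y i m := by
      intro γ
      rw [Finset.mul_sum]
      exact Finset.sum_congr rfl fun m _ => (mul_assoc _ _ _).symm
    rw [Finset.sum_congr rfl fun γ _ => h2 γ, Finset.sum_comm, Finset.mul_sum]
    refine Finset.sum_congr rfl fun m _ => ?_
    rw [← Finset.sum_mul, bas_schur hA l A k m, ← mul_assoc, ← mul_assoc, inv_mul_cancel₀ hN,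
      one_mul]
  rw [h1]
  refine Submodule.smul_mem _ _ (Submodule.sum_mem _ fun γ _ => Submodule.smul_mem _ _ ?_)
  exact Submodule.subset_span ⟨γ, rfl⟩

theorem bas_T {d : ℕ} {G : Type} [Group G] [Fintype G] {ρ : G →* Matrix (Fin d) (Fin d) ℤ} {c : G}
    {N : ℕ} (hA : AI ρ c N) (l : ℕ) [Fact l.Prime] (hl : ¬ l ∣ Fintype.card G) {J : ℕ}
    (y : Fin J → Fin d → ZMod l) (hy : LinearIndependent (ZMod l) y) :
    ∃ b : Fin J × Fin d → G, ∀ (γ : G) (u : Fin J → Fin d → ZMod l),
      (∀ p, thT l ρ y u (γ * b p) = 0) → u = 0 := by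
  have hsp := bas_span hA l hl y hy
  obtain ⟨f, hf, hfs, -⟩ := Submodule.exists_fun_fin_finrank_span_eq (ZMod l)
    (Set.range fun (γ : G) (i : Fin J) => rm l (ρ γ) *ᵥ y i)
  have hr : Module.finrank (ZMod l) (Submodule.span (ZMod l)
      (Set.range fun (γ : G) (i : Fin J) => rm l (ρ γ) *ᵥ y i)) = J * d := by
    rw [hsp, finrank_top, Module.finrank_pi_fintype]
    simp
  choose g hg using hf
  have e : Fin J × Fin d ≃ Fin (Module.finrank (ZMod l) (Submodule.span (ZMod l)
      (Set.range fun (γ : G) (i : Fin J) => rm l (ρ γ) *ᵥ y i))) :=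
    finProdFinEquiv.trans (finCongr hr.symm)
  refine ⟨fun p => g (e p), fun γ u hu => ?_⟩
  have h1 : ∀ v : Fin J → Fin d → ZMod l, ∑ i, u i ⬝ᵥ (rm l (ρ γ) *ᵥ v i) = 0 := by
    intro v
    have hv : v ∈ Submodule.span (ZMod l) (Set.range f) := by
      rw [hfs, hsp]
      exact Submodule.mem_top
    induction hv using Submodule.span_induction with
    | mem x hx =>
      obtain ⟨q, rfl⟩ := hx
      have h2 := hu (e.symm q)
      rw [← hg q]
      unfold thT th at h2
      dsimp only at h2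
      rw [Equiv.apply_symm_apply] at h2
      rw [← h2]
      refine Finset.sum_congr rfl fun i _ => ?_
      rw [map_mul, bas_mul, Matrix.mulVec_mulVec]
    | zero => simp
    | add x x' _ _ h h' =>
      simp only [Pi.add_apply, Matrix.mulVec_add, dotProduct_add, Finset.sum_add_distrib]
      rw [h, h', add_zero]
    | smul a x _ h =>
      simp only [Pi.smul_apply, Matrix.mulVec_smul, dotProduct_smul, ← Finset.smul_sum]
      rw [h, smul_zero]
  funext i
  have h3 : ∀ w : Fin d → ZMod l, u i ⬝ᵥ w = 0 := by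
    intro w
    have h4 := h1 (Pi.single i (rm l (ρ γ⁻¹) *ᵥ w))
    rw [Finset.sum_eq_single i] at h4
    · rw [Pi.single_eq_same, Matrix.mulVec_mulVec, ← bas_mul, ← map_mul, mul_inv_cancel, map_one,
        bas_one, Matrix.one_mulVec] at h4
      exact h4
    · intro j _ hj
      rw [Pi.single_eq_of_ne hj, Matrix.mulVec_zero, dotProduct_zero]
    · intro h
      exact absurd (Finset.mem_univ _) h
  exact dotProduct_eq_zero _ h3

end Pool.Agent.H9.EC
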