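import Pool.Agent.H9.EC.BasT

set_option autoImplicit false

/-!
Bases of translates modulo a prime power (module H9 EC BSX).

PROOF.  `m = l^a`, `a ≥ 1`.  `red : ZMod (l^a) → ZMod l` (`ZMod.castHom (dvd_pow_self l _) (ZMod l)`); `t` is a unit iff
`red t ≠ 0`, i.e. iff `l ∤ t.val` (`ZMod.isUnit_iff_coprime` or `ZMod.isUnit_natCast`...).  `red` commutes with `rm`, `*ᵥ`, `⬝ᵥ`.
`bas_x`: apply `bas_T` with `J = 1` to the reduction of `x` (nonzero as `x` is primitive) and get `b_i`.  Suppose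
`th x u (γ b_i) = 0` for all `i` and `u ≠ 0`.  Then `u = l^e u'` with `e < a`, `u'` having a coordinate that is a unit
(take `e` maximal such that `l^e` divides all `(u j).val`), and `l^e th x u' (γ b_i) = 0` in `ZMod (l^a)`, so
`l ∣ (th x u' (γ b_i)).val`, so `th (red x) (red u') (γ b_i) = 0` modulo `l` for all `i`, so `red u' = 0`: contradiction.
`bas_u`: `u₀ = l^e u'` with `e < a` and `u'` primitive, as before.  Apply `bas_T` (`J = 1`) to the transposed situation, or directly: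
the row vectors `red u' ᵥ* rm l (ρ γ)`, `γ ∈ G`, span `(ZMod l)^d` (every row vector `w` is `red u' ᵥ* A` for a matrix `A`
and `A = N⁻¹ ∑ γ, tr(ρ(γ⁻¹) A) ρ(γ)`), so there are `b'_j`, `j : Fin d`, such that the `red u' ᵥ* rm l (ρ (b'_j))` are a
basis.  If `∑ j, k_j u₀ ᵥ* rm (ρ (b'_j)) = 0` then `l^e ∑ j, k_j u' ᵥ* rm (ρ (b'_j)) = 0`, so modulo `l`
`∑ j, k_j (red u' ᵥ* rm l (ρ (b'_j))) = 0` and `l ∣ k_j` for all `j`.
-/

namespace Pool.Agent.H9.EC

open Finset Matrix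

private theorem bsx_dec {d : ℕ} (l a : ℕ) [Fact l.Prime] (f : ZMod (l ^ a) →+* ZMod l)
    (u : Fin d → ZMod (l ^ a)) (hu : u ≠ 0) :
    ∃ (e : ℕ) (u' : Fin d → ZMod (l ^ a)), e < a ∧ u = (l : ZMod (l ^ a)) ^ e • u' ∧
      f ∘ u' ≠ 0 := by
  classical
  have hl : l.Prime := Fact.out
  have : NeZero (l ^ a) := ⟨pow_ne_zero _ hl.ne_zero⟩
  have ha : ¬ ∀ j, l ^ a ∣ (u j).val := by
    intro h
    apply hu
    funext j
    have h1 : (u j).val = 0 := Nat.eq_zero_of_dvd_of_lt (h j) (ZMod.val_lt (u j))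
    exact (ZMod.val_eq_zero (u j)).1 h1
  have hex : ∃ k, ¬ ∀ j, l ^ k ∣ (u j).val := ⟨a, ha⟩
  obtain ⟨k, hk⟩ : ∃ k, k = Nat.find hex := ⟨_, rfl⟩
  have hk1 : ¬ ∀ j, l ^ k ∣ (u j).val := by
    rw [hk]
    exact Nat.find_spec hex
  have hka : k ≤ a := by
    rw [hk]
    exact Nat.find_min' hex ha
  have hk0 : k ≠ 0 := by
    intro h0
    apply hk1
    intro j
    rw [h0, pow_zero]
    exact one_dvd _
  have hmin : ∀ j, l ^ (k - 1) ∣ (u j).val := by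
    by_contra hcon
    have := Nat.find_min' hex hcon
    omega
  choose w hw using hmin
  refine ⟨k - 1, fun j => (w j : ZMod (l ^ a)), by omega, ?_, ?_⟩
  · funext j
    have h1 : u j = ((u j).val : ZMod (l ^ a)) := (ZMod.natCast_zmod_val (u j)).symm
    rw [h1, hw j, Nat.cast_mul, Nat.cast_pow]
    rfl
  · intro h0
    apply hk1
    intro j
    have h1 : f ((w j : ℕ) : ZMod (l ^ a)) = 0 := congrFun h0 j
    rw [map_natCast, ZMod.natCast_eq_zero_iff] at h1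
    obtain ⟨q, hq⟩ := h1
    rw [hw j, hq]
    refine ⟨q, ?_⟩
    have h2 : l ^ k = l ^ (k - 1) * l := by
      rw [← pow_succ]
      congr 1
      omega
    rw [h2]
    ring

private theorem bsx_zero (l a : ℕ) [Fact l.Prime] (f : ZMod (l ^ a) →+* ZMod l) {e : ℕ}
    (he : e < a) {t : ZMod (l ^ a)} (h : (l : ZMod (l ^ a)) ^ e * t = 0) : f t = 0 := by
  have hl : l.Prime := Fact.out
  have : NeZero (l ^ a) := ⟨pow_ne_zero _ hl.ne_zero⟩
  have h1 : t = ((t.val : ℕ) : ZMod (l ^ a)) := (ZMod.natCast_zmod_val t).symm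
  have h2 : ((l ^ e * t.val : ℕ) : ZMod (l ^ a)) = 0 := by
    rw [Nat.cast_mul, Nat.cast_pow, ← h1]
    exact h
  rw [ZMod.natCast_eq_zero_iff] at h2
  have h3 : l ^ e * l ∣ l ^ e * t.val := by
    refine dvd_trans ?_ h2
    rw [← pow_succ]
    exact pow_dvd_pow _ he
  have h4 : l ∣ t.val := Nat.dvd_of_mul_dvd_mul_left (pow_pos hl.pos e) h3
  rw [h1, map_natCast, ZMod.natCast_eq_zero_iff]
  exact h4

private theorem bsx_rm {d : ℕ} (l a : ℕ) (f : ZMod (l ^ a) →+* ZMod l)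
    (A : Matrix (Fin d) (Fin d) ℤ) : (rm (l ^ a) A).map f = rm l A := by
  unfold rm
  ext i j
  simp only [Matrix.map_apply, Int.coe_castRingHom, map_intCast]

private theorem bsx_th {d : ℕ} {G : Type} [Group G] (ρ : G →* Matrix (Fin d) (Fin d) ℤ) (l a : ℕ)
    (f : ZMod (l ^ a) →+* ZMod l) (x u : Fin d → ZMod (l ^ a)) (γ : G) :
    f (th (l ^ a) ρ x u γ) = th l ρ (f ∘ x) (f ∘ u) γ := by
  unfold th
  rw [RingHom.map_dotProduct]
  congr 1
  funext i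
  show f ((rm (l ^ a) (ρ γ) *ᵥ x) i) = _
  rw [RingHom.map_mulVec, bsx_rm]

private def bsx_dual {d : ℕ} {G : Type} [Group G] (ρ : G →* Matrix (Fin d) (Fin d) ℤ) :
    G →* Matrix (Fin d) (Fin d) ℤ where
  toFun γ := (ρ γ⁻¹)ᵀ
  map_one' := by rw [inv_one, map_one, Matrix.transpose_one]
  map_mul' a b := by rw [_root_.mul_inv_rev, map_mul, Matrix.transpose_mul]

private theorem bsx_AI {d : ℕ} {G : Type} [Group G] [Fintype G]
    {ρ : G →* Matrix (Fin d) (Fin d) ℤ} {c : G} {N : ℕ} (hA : AI ρ c N) :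
    AI (bsx_dual ρ) c N where
  card := hA.card
  schur := by
    intro i j k l
    show ∑ γ : G, ρ (γ⁻¹)⁻¹ j i * ρ γ⁻¹ l k = _
    have h := hA.schur l k j i
    rw [sum_congr rfl (g := fun γ => ρ γ⁻¹ l k * ρ γ j i)
      (fun γ _ => by rw [inv_inv, mul_comm]), h]
    by_cases h1 : i = l ∧ j = k
    · rw [if_pos h1, if_pos ⟨h1.1.symm, h1.2.symm⟩]
    · rw [if_neg h1, if_neg fun h2 => h1 ⟨h2.1.symm, h2.2.symm⟩]
  neg := by
    show (ρ c⁻¹)ᵀ = -1
    have h : ρ c * ρ c⁻¹ = 1 := by rw [← map_mul, mul_inv_cancel, map_one]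
    rw [hA.neg, neg_one_mul] at h
    have h1 : ρ c⁻¹ = -1 := by rw [← h, neg_neg]
    rw [h1, Matrix.transpose_neg, Matrix.transpose_one]

private theorem bsx_li {d l : ℕ} [Fact l.Prime] {y : Fin d → ZMod l} (hy : y ≠ 0) :
    LinearIndependent (ZMod l) (fun _ : Fin 1 => y) := by
  rw [linearIndependent_unique_iff]
  exact hy

variable {d : ℕ} {G : Type} [Group G] [Fintype G] {ρ : G →* Matrix (Fin d) (Fin d) ℤ} {c : G} {N : ℕ}

theorem bas_x (hA : AI ρ c N) (l a : ℕ) [Fact l.Prime] (hl : ¬ l ∣ Fintype.card G) (ha : 1 ≤ a)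
    (x : Fin d → ZMod (l ^ a)) (hx : Prim x) :
    ∃ b : Fin d → G, ∀ (γ : G) (u : Fin d → ZMod (l ^ a)),
      (∀ i, th (l ^ a) ρ x u (γ * b i) = 0) → u = 0 := by
  classical
  have hd : l ∣ l ^ a := dvd_pow_self l (by omega)
  obtain ⟨f⟩ : Nonempty (ZMod (l ^ a) →+* ZMod l) := ⟨ZMod.castHom hd (ZMod l)⟩
  obtain ⟨i0, hi0⟩ := hx
  have hfx : f ∘ x ≠ 0 := by
    intro h
    have h1 : f (x i0) = 0 := congrFun h i0
    have h2 : IsUnit (f (x i0)) := hi0.map f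
    rw [h1] at h2
    exact not_isUnit_zero h2
  obtain ⟨b, hb⟩ := bas_T hA l hl (J := 1) (fun _ => f ∘ x) (bsx_li hfx)
  refine ⟨fun i => b (0, i), fun γ u h => ?_⟩
  by_contra hu
  obtain ⟨e, u', he, hu', hfu⟩ := bsx_dec l a f u hu
  apply hfu
  have h1 := hb γ (fun _ => f ∘ u') (by
    rintro ⟨q, i⟩
    obtain rfl : q = 0 := Subsingleton.elim _ _
    unfold thT
    rw [Fin.sum_univ_one, ← bsx_th]
    apply bsx_zero l a f he
    have h2 := h i
    unfold th at h2 ⊢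
    rw [hu', smul_dotProduct, smul_eq_mul] at h2
    exact h2)
  exact congrFun h1 0

theorem bas_u (hA : AI ρ c N) (l a : ℕ) [Fact l.Prime] (hl : ¬ l ∣ Fintype.card G) (ha : 1 ≤ a)
    (u₀ : Fin d → ZMod (l ^ a)) (hu : u₀ ≠ 0) :
    ∃ b : Fin d → G, ∀ k : Fin d → ℤ,
      (∑ j, (k j : ZMod (l ^ a)) • (u₀ ᵥ* rm (l ^ a) (ρ (b j))) = 0) → ∀ j, (l : ℤ) ∣ k j := by
  classical
  have hd : l ∣ l ^ a := dvd_pow_self l (by omega)
  obtain ⟨f⟩ : Nonempty (ZMod (l ^ a) →+* ZMod l) := ⟨ZMod.castHom hd (ZMod l)⟩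
  obtain ⟨e, u', he, hu', hfu⟩ := bsx_dec l a f u₀ hu
  obtain ⟨b, hb⟩ := bas_T (bsx_AI hA) l hl (J := 1) (fun _ => f ∘ u') (bsx_li hfu)
  obtain ⟨Z, hZ⟩ : ∃ Z : Matrix (Fin d) (Fin d) (ZMod l),
      ∀ i j, Z i j = ((f ∘ u') ᵥ* rm l (ρ (b (0, i))⁻¹)) j := ⟨fun i j => _, fun _ _ => rfl⟩
  have hdet : Z.det ≠ 0 := by
    intro h0
    obtain ⟨w, hw0, hw⟩ := Matrix.exists_mulVec_eq_zero_iff.2 h0
    apply hw0
    have h1 := hb 1 (fun _ => w) (by
      rintro ⟨q, i⟩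
      obtain rfl : q = 0 := Subsingleton.elim _ _
      unfold thT
      rw [Fin.sum_univ_one, one_mul]
      show w ⬝ᵥ (rm l ((ρ (b (0, i))⁻¹)ᵀ) *ᵥ (f ∘ u')) = 0
      have h2 : rm l ((ρ (b (0, i))⁻¹)ᵀ) = (rm l (ρ (b (0, i))⁻¹))ᵀ := rfl
      rw [h2, Matrix.mulVec_transpose, dotProduct_comm]
      have h3 := congrFun hw i
      rw [Pi.zero_apply] at h3
      rw [← h3]
      show _ = (Z i) ⬝ᵥ w
      congr 1
      funext j
      exact (hZ i j).symm)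
    exact congrFun h1 0
  refine ⟨fun j => (b (0, j))⁻¹, fun k hk => ?_⟩
  have hvec : (fun j => ((k j : ℤ) : ZMod l)) ᵥ* Z = 0 := by
    funext i
    have h1 := congrFun hk i
    rw [Finset.sum_apply, Pi.zero_apply] at h1
    have h2 : (l : ZMod (l ^ a)) ^ e *
        (∑ j, ((k j : ℤ) : ZMod (l ^ a)) * (u' ᵥ* rm (l ^ a) (ρ (b (0, j))⁻¹)) i) = 0 := by
      rw [← h1, mul_sum]
      refine sum_congr rfl fun j _ => ?_
      rw [hu', Matrix.smul_vecMul, Pi.smul_apply, Pi.smul_apply, smul_eq_mul, smul_eq_mul]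
      ring
    have h3 := bsx_zero l a f he h2
    rw [map_sum] at h3
    show ∑ j, ((k j : ℤ) : ZMod l) * Z j i = 0
    rw [← h3]
    refine sum_congr rfl fun j _ => ?_
    rw [map_mul, map_intCast, RingHom.map_vecMul, bsx_rm, hZ]
  have hz : (fun j => ((k j : ℤ) : ZMod l)) = 0 := by
    by_contra hne
    exact hdet (Matrix.exists_vecMul_eq_zero_iff.1 ⟨_, hne, hvec⟩)
  intro j
  exact (ZMod.intCast_zmod_eq_zero_iff_dvd (k j) l).1 (congrFun hz j)

end Pool.Agent.H9.EC
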