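import Pool.Agent.H9.EC.SnBd

set_option autoImplicit false

/-!
The mean `sig` of `sn ^ 2`: `√sig` is a seminorm (module H9 EC SIG).

PROOF.  `th` is additive in `u` (`add_dotProduct`), `th (u ᵥ* rm (ρ b)) γ = th u (b γ)` (`rm` is a ring
homomorphism: `Matrix.map_mul`, `dotProduct_mulVec`, `vecMul_vecMul`).
`sig_nonneg`, `sig_le_one`: `0 ≤ sn ≤ 1`.  `sig_zero`: `th 0 γ = 0`, `sn_zero`.
`sig_add`: Minkowski's inequality for the square mean and `sn_add`: `√(mean (a + b)²) ≤ √(mean a²) + √(mean b²)`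
for `a, b ≥ 0` (e.g. `Real.Lp_add_le` with `p = 2`, or square both sides and use Cauchy-Schwarz
`Finset.sum_mul_sq_le_sq_mul_sq`).
`sig_nsmul`: induction on `n` with `sig_add`.
`sig_neg`: `sn_neg`.  `sig_vecMul`: the sum over `γ` is reindexed by `γ ↦ b γ`.
-/

namespace Pool.Agent.H9.EC

open Finset Matrix

variable {d : ℕ} {G : Type} [Group G] [Fintype G] (ρ : G →* Matrix (Fin d) (Fin d) ℤ) (m : ℕ) [NeZero m]
  (x : Fin d → ZMod m)

private theorem rm_mul' (A B : Matrix (Fin d) (Fin d) ℤ) : rm m (A * B) = rm m A * rm m B := by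
  unfold rm
  exact Matrix.map_mul

theorem th_add (u u' : Fin d → ZMod m) (γ : G) : th m ρ x (u + u') γ = th m ρ x u γ + th m ρ x u' γ := by
  unfold th
  rw [add_dotProduct]

theorem th_vecMul (u : Fin d → ZMod m) (b γ : G) :
    th m ρ x (u ᵥ* rm m (ρ b)) γ = th m ρ x u (b * γ) := by
  unfold th
  rw [map_mul, rm_mul', ← Matrix.mulVec_mulVec, Matrix.dotProduct_mulVec u]

theorem sig_nonneg (u : Fin d → ZMod m) : 0 ≤ sig m ρ x u := by
  unfold sig
  exact div_nonneg (sum_nonneg fun γ _ => sq_nonneg _) (Nat.cast_nonneg _)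

theorem sig_le_one (u : Fin d → ZMod m) : sig m ρ x u ≤ 1 := by
  unfold sig
  have hG : (0 : ℝ) < Fintype.card G := Nat.cast_pos.2 Fintype.card_pos
  rw [div_le_one hG]
  calc ∑ γ, sn m (th m ρ x u γ) ^ 2 ≤ ∑ _γ : G, (1 : ℝ) :=
        sum_le_sum fun γ _ => pow_le_one₀ (sn_nonneg _ _) (sn_le_one _ _)
    _ = Fintype.card G := by rw [sum_const, card_univ, nsmul_eq_mul, mul_one]

theorem sig_zero : sig m ρ x 0 = 0 := by
  unfold sig th
  simp [zero_dotProduct, sn_zero]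

theorem sig_neg (u : Fin d → ZMod m) : sig m ρ x (-u) = sig m ρ x u := by
  unfold sig th
  simp_rw [neg_dotProduct, sn_neg]

theorem sig_add (u u' : Fin d → ZMod m) :
    √(sig m ρ x (u + u')) ≤ √(sig m ρ x u) + √(sig m ρ x u') := by
  have hG : (0 : ℝ) < Fintype.card G := Nat.cast_pos.2 Fintype.card_pos
  have hA : 0 ≤ ∑ γ, sn m (th m ρ x u γ) ^ 2 := sum_nonneg fun γ _ => sq_nonneg _
  have hB : 0 ≤ ∑ γ, sn m (th m ρ x u' γ) ^ 2 := sum_nonneg fun γ _ => sq_nonneg _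
  have hcs := Real.sum_mul_le_sqrt_mul_sqrt univ (fun γ => sn m (th m ρ x u γ))
    (fun γ => sn m (th m ρ x u' γ))
  have h1 : ∑ γ, sn m (th m ρ x (u + u') γ) ^ 2 ≤
      (√(∑ γ, sn m (th m ρ x u γ) ^ 2) + √(∑ γ, sn m (th m ρ x u' γ) ^ 2)) ^ 2 := by
    calc ∑ γ, sn m (th m ρ x (u + u') γ) ^ 2
        ≤ ∑ γ, (sn m (th m ρ x u γ) + sn m (th m ρ x u' γ)) ^ 2 := by
          refine sum_le_sum fun γ _ => pow_le_pow_left₀ (sn_nonneg _ _) ?_ 2
          rw [th_add]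
          exact sn_add _ _
      _ = ∑ γ, sn m (th m ρ x u γ) ^ 2 + 2 * ∑ γ, sn m (th m ρ x u γ) * sn m (th m ρ x u' γ) +
          ∑ γ, sn m (th m ρ x u' γ) ^ 2 := by
          simp_rw [add_sq]
          rw [sum_add_distrib, sum_add_distrib, mul_sum]
          simp_rw [mul_assoc]
      _ ≤ ∑ γ, sn m (th m ρ x u γ) ^ 2 + 2 * (√(∑ γ, sn m (th m ρ x u γ) ^ 2) *
          √(∑ γ, sn m (th m ρ x u' γ) ^ 2)) + ∑ γ, sn m (th m ρ x u' γ) ^ 2 := by
          gcongr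
      _ = _ := by
          rw [add_sq, Real.sq_sqrt hA, Real.sq_sqrt hB]
          ring
  unfold sig
  rw [Real.sqrt_div' _ hG.le, Real.sqrt_div' _ hG.le, Real.sqrt_div' _ hG.le, ← add_div]
  refine div_le_div_of_nonneg_right ?_ (Real.sqrt_nonneg _)
  exact Real.sqrt_le_iff.2 ⟨by positivity, h1⟩

theorem sig_nsmul (n : ℕ) (u : Fin d → ZMod m) : √(sig m ρ x (n • u)) ≤ n * √(sig m ρ x u) := by
  induction n with
  | zero =>
    rw [zero_smul, sig_zero]
    simp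
  | succ n ih =>
    rw [succ_nsmul]
    refine (sig_add ρ m x _ _).trans ?_
    push_cast
    linarith

theorem sig_vecMul (u : Fin d → ZMod m) (b : G) : sig m ρ x (u ᵥ* rm m (ρ b)) = sig m ρ x u := by
  unfold sig
  simp_rw [th_vecMul]
  congr 1
  exact Fintype.sum_equiv (Equiv.mulLeft b) _ _ fun γ => rfl

end Pool.Agent.H9.EC
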