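import Pool.Agent.H9.EC.SnBd
import Pool.Agent.H9.EC.SigN

set_option autoImplicit false

/-!
Half of the points of a box are short (module H9 EC BOX).

PROOF.  Let `q = 2 h + 1`, `n_j ∈ {-h, .., h}` independent and uniform.  `second_moment`: the mean of `(∑ j, n_j a_j)²` is
`(h (h+1) / 3) ∑ j, a_j²`, `h (h+1)/3 ≤ q²/12` (expand the square; the mean of `n_i n_j` is `0` for `i ≠ j`, by the symmetry
`n_i ↦ -n_i`, i.e. `Fin.rev`, and `∑_{n=-h}^{h} n² = h (h+1) (2h+1)/3`).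
(1) `sig(∑ j, n_j v_j) ≤ (1/|G|) ∑ γ, (π/m)² (∑ j, n_j Y_j(γ))²` with `Y_j(γ) = Yl (th (v j) γ)`: `sn_le`, as
`2 th(∑ n_j v_j) γ = ∑ n_j 2 th(v_j) γ` is the class of `∑ n_j Y_j(γ)` (`Yl_cast`).  Its mean over `n` is at most
`(π²/m²) (q²/12) ∑ j, (1/|G|) ∑ γ, Y_j(γ)² ≤ (π² q²/12) ∑ j, sig(v_j)/4 ≤ (π²/48) q² d r²` (`Yl_le`: `Y² ≤ m² sn²/4`),
and `π²/48 < 0.21`.  So at most `0.21 q^d` of the `n` have `sig > q² d r²` (if `d r² = 0`: `sig(v_j) = 0`, all is `0`).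
(2) the mean of `∑ i, (∑ j, n_j y_ij)²` is at most `(q²/12) d² r² m²`, so at most `q^d / 12` of the `n` violate the second
condition.  `0.21 + 1/12 < 1/2`.
-/

namespace Pool.Agent.H9.EC

open Finset Matrix

private theorem bx_s1 (m : ℕ) (c : ℝ) :
    ∑ k ∈ range m, ((k : ℝ) - c) = m * (m - 1) / 2 - m * c := by
  induction m with
  | zero => simp
  | succ m ih =>
    rw [sum_range_succ, ih]
    push_cast
    ring

private theorem bx_s2 (m : ℕ) (c : ℝ) :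
    ∑ k ∈ range m, ((k : ℝ) - c) ^ 2 =
      (m - 1) * m * (2 * m - 1) / 6 - c * (m * (m - 1)) + m * c ^ 2 := by
  induction m with
  | zero => simp
  | succ m ih =>
    rw [sum_range_succ, ih]
    push_cast
    ring

private theorem bx_T1 (h : ℕ) : ∑ k : Fin (2 * h + 1), (((k : ℕ) : ℝ) - h) = 0 := by
  rw [Fin.sum_univ_eq_sum_range (fun k => ((k : ℝ) - h)) (2 * h + 1), bx_s1]
  push_cast
  ring

private theorem bx_T2 (h : ℕ) : ∑ k : Fin (2 * h + 1), (((k : ℕ) : ℝ) - h) ^ 2 ≤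
    (2 * h + 1) * ((2 * h + 1 : ℝ) ^ 2 / 12) := by
  rw [Fin.sum_univ_eq_sum_range (fun k => ((k : ℝ) - h) ^ 2) (2 * h + 1), bx_s2]
  push_cast
  nlinarith [(Nat.cast_nonneg h : (0 : ℝ) ≤ h)]

private theorem bx_sq {K M : Type} [Fintype K] [Fintype M] (A : K → ℝ) (L : M → ℝ) :
    ∑ k, ∑ n, (A k + L n) ^ 2 = Fintype.card M * ∑ k, A k ^ 2 + 2 * (∑ k, A k) * (∑ n, L n) +
      Fintype.card K * ∑ n, L n ^ 2 := by
  have h1 : ∀ k, ∑ n, (A k + L n) ^ 2 =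
      Fintype.card M * A k ^ 2 + 2 * A k * (∑ n, L n) + ∑ n, L n ^ 2 := by
    intro k
    simp_rw [add_sq]
    rw [sum_add_distrib, sum_add_distrib, sum_const, card_univ, nsmul_eq_mul, ← mul_sum]
  simp_rw [h1]
  rw [sum_add_distrib, sum_add_distrib, sum_const, card_univ, nsmul_eq_mul, ← mul_sum,
    ← sum_mul, ← mul_sum]

theorem second_moment {d : ℕ} (h : ℕ) (a : Fin d → ℝ) :
    ∑ n : Fin d → Fin (2 * h + 1), (∑ j, (((n j : ℕ) : ℝ) - h) * a j) ^ 2 ≤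
      (2 * h + 1 : ℝ) ^ d * ((2 * h + 1 : ℝ) ^ 2 / 12) * ∑ j, (a j) ^ 2 := by
  induction d with
  | zero => simp
  | succ d ih =>
    have e := (Fin.consEquiv (fun _ : Fin (d + 1) => Fin (2 * h + 1))).sum_comp
      (fun n => (∑ j, (((n j : ℕ) : ℝ) - h) * a j) ^ 2)
    rw [← e, Fintype.sum_prod_type]
    have h1 : ∀ (k : Fin (2 * h + 1)) (n : Fin d → Fin (2 * h + 1)),
        (∑ j, (((Fin.consEquiv (fun _ : Fin (d + 1) => Fin (2 * h + 1)) (k, n) j : ℕ) : ℝ) - h)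
          * a j) = (((k : ℕ) : ℝ) - h) * a 0 + ∑ j : Fin d, (((n j : ℕ) : ℝ) - h) * a j.succ := by
      intro k n
      rw [Fin.sum_univ_succ]
      rfl
    simp_rw [h1]
    rw [bx_sq (fun k : Fin (2 * h + 1) => (((k : ℕ) : ℝ) - h) * a 0)
      (fun n : Fin d → Fin (2 * h + 1) => ∑ j : Fin d, (((n j : ℕ) : ℝ) - h) * a j.succ)]
    have h2 := ih (fun j => a j.succ)
    have h3 : ∑ k : Fin (2 * h + 1), (((k : ℕ) : ℝ) - h) * a 0 = 0 := by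
      rw [← sum_mul, bx_T1, zero_mul]
    have h4 : ∑ k : Fin (2 * h + 1), ((((k : ℕ) : ℝ) - h) * a 0) ^ 2 ≤
        (2 * h + 1) * ((2 * h + 1 : ℝ) ^ 2 / 12) * a 0 ^ 2 := by
      simp_rw [mul_pow]
      rw [← sum_mul]
      exact mul_le_mul_of_nonneg_right (bx_T2 h) (sq_nonneg _)
    rw [h3, Fin.sum_univ_succ (fun j => a j ^ 2)]
    have c1 : (Fintype.card (Fin d → Fin (2 * h + 1)) : ℝ) = (2 * h + 1 : ℝ) ^ d := by
      rw [Fintype.card_fun, Fintype.card_fin, Fintype.card_fin]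
      push_cast
      ring
    have c2 : (Fintype.card (Fin (2 * h + 1)) : ℝ) = 2 * h + 1 := by
      rw [Fintype.card_fin]
      push_cast
      ring
    rw [c1, c2]
    have q0 : (0 : ℝ) ≤ 2 * h + 1 := by positivity
    calc (2 * h + 1 : ℝ) ^ d * ∑ k : Fin (2 * h + 1), ((((k : ℕ) : ℝ) - h) * a 0) ^ 2 +
          2 * 0 * (∑ n : Fin d → Fin (2 * h + 1), ∑ j : Fin d, (((n j : ℕ) : ℝ) - h) * a j.succ) +
          (2 * h + 1) * ∑ n : Fin d → Fin (2 * h + 1),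
            (∑ j : Fin d, (((n j : ℕ) : ℝ) - h) * a j.succ) ^ 2
        ≤ (2 * h + 1 : ℝ) ^ d * ((2 * h + 1) * ((2 * h + 1 : ℝ) ^ 2 / 12) * a 0 ^ 2) +
          2 * 0 * (∑ n : Fin d → Fin (2 * h + 1), ∑ j : Fin d, (((n j : ℕ) : ℝ) - h) * a j.succ) +
          (2 * h + 1) * ((2 * h + 1 : ℝ) ^ d * ((2 * h + 1 : ℝ) ^ 2 / 12) *
            ∑ j : Fin d, (a j.succ) ^ 2) := by gcongr
      _ = (2 * h + 1 : ℝ) ^ (d + 1) * ((2 * h + 1 : ℝ) ^ 2 / 12) *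
          (a 0 ^ 2 + ∑ j : Fin d, (a j.succ) ^ 2) := by ring

/-- Markov's inequality for a finite sum -/
private theorem bx_markov {M : Type} [Fintype M] (f : M → ℝ) (hf : ∀ n, 0 ≤ f n) {c T : ℝ}
    (hc : 0 ≤ c) (hT : 0 ≤ T) (h : ∑ n, f n ≤ c * T * Fintype.card M) [DecidablePred fun n => T < f n] :
    ((univ.filter (fun n => T < f n)).card : ℝ) ≤ c * Fintype.card M := by
  rcases hT.eq_or_lt with h0 | h0
  · have h1 : ∑ n, f n = 0 := by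
      refine le_antisymm ?_ (sum_nonneg fun n _ => hf n)
      rw [← h0] at h
      simpa using h
    have h2 : (univ.filter (fun n => T < f n)) = ∅ := by
      rw [filter_eq_empty_iff]
      intro n _ hn
      have h3 := (sum_eq_zero_iff_of_nonneg (fun n _ => hf n)).1 h1 n (mem_univ n)
      rw [h3, ← h0] at hn
      exact lt_irrefl _ hn
    rw [h2, card_empty, Nat.cast_zero]
    positivity
  · have h1 : ((univ.filter (fun n => T < f n)).card : ℝ) * T ≤ ∑ n, f n := by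
      calc ((univ.filter (fun n => T < f n)).card : ℝ) * T
          = ∑ _n ∈ univ.filter (fun n => T < f n), T := by rw [sum_const, nsmul_eq_mul]
        _ ≤ ∑ n ∈ univ.filter (fun n => T < f n), f n :=
            sum_le_sum fun n hn => (mem_filter.1 hn).2.le
        _ ≤ ∑ n, f n := sum_le_sum_of_subset_of_nonneg (filter_subset _ _) fun n _ _ => hf n
    have h2 : ((univ.filter (fun n => T < f n)).card : ℝ) * T ≤ (c * Fintype.card M) * T := by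
      linarith
    exact le_of_mul_le_mul_right h2 h0

private theorem bx_th {d : ℕ} {G : Type} [Group G]
    (ρ : G →* Matrix (Fin d) (Fin d) ℤ) (m : ℕ) (x : Fin d → ZMod m)
    (v : Fin d → Fin d → ZMod m) (c : Fin d → ZMod m) (γ : G) :
    th m ρ x (∑ j, c j • v j) γ = ∑ j, c j * th m ρ x (v j) γ := by
  unfold th
  rw [sum_dotProduct]
  refine sum_congr rfl fun j _ => ?_
  rw [smul_dotProduct, smul_eq_mul]

private theorem bx_one {d : ℕ} {G : Type} [Group G] [Fintype G]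
    (ρ : G →* Matrix (Fin d) (Fin d) ℤ) (m : ℕ) [NeZero m] (x : Fin d → ZMod m)
    (v : Fin d → Fin d → ZMod m) (h : ℕ) (γ : G) :
    ∑ n : Fin d → Fin (2 * h + 1),
      sn m (th m ρ x (∑ j, ((((n j : ℕ) : ℤ) - h : ℤ) : ZMod m) • v j) γ) ^ 2 ≤
    (2 * h + 1 : ℝ) ^ d * (Real.pi ^ 2 / 48 * (2 * h + 1 : ℝ) ^ 2) *
      ∑ j, sn m (th m ρ x (v j) γ) ^ 2 := by
  have hm : (0 : ℝ) < m := Nat.cast_pos.2 (Nat.pos_of_ne_zero (NeZero.ne m))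
  have h1 : ∀ n : Fin d → Fin (2 * h + 1),
      sn m (th m ρ x (∑ j, ((((n j : ℕ) : ℤ) - h : ℤ) : ZMod m) • v j) γ) ^ 2 ≤
        Real.pi ^ 2 / m ^ 2 *
          (∑ j, (((n j : ℕ) : ℝ) - h) * ((Yl (th m ρ x (v j) γ) : ℤ) : ℝ)) ^ 2 := by
    intro n
    have h2 : (((∑ j, (((n j : ℕ) : ℤ) - h) * Yl (th m ρ x (v j) γ) : ℤ)) : ZMod m) =
        2 * th m ρ x (∑ j, ((((n j : ℕ) : ℤ) - h : ℤ) : ZMod m) • v j) γ := by
      rw [bx_th, Int.cast_sum, mul_sum]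
      refine sum_congr rfl fun j _ => ?_
      rw [Int.cast_mul, Yl_cast]
      ring
    have h3 := sn_le _ _ h2
    have h4 := sn_nonneg m (th m ρ x (∑ j, ((((n j : ℕ) : ℤ) - h : ℤ) : ZMod m) • v j) γ)
    have h5 := pow_le_pow_left₀ h4 h3 2
    refine h5.trans (le_of_eq ?_)
    rw [div_pow, mul_pow, sq_abs]
    push_cast
    ring
  have hY : ∀ j, ((Yl (th m ρ x (v j) γ) : ℤ) : ℝ) ^ 2 ≤
      m ^ 2 / 4 * sn m (th m ρ x (v j) γ) ^ 2 := by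
    intro j
    have h2 := Yl_le (th m ρ x (v j) γ)
    have h3 := pow_le_pow_left₀ (by positivity) h2 2
    rw [mul_pow, mul_pow, sq_abs] at h3
    linarith
  calc ∑ n : Fin d → Fin (2 * h + 1),
      sn m (th m ρ x (∑ j, ((((n j : ℕ) : ℤ) - h : ℤ) : ZMod m) • v j) γ) ^ 2
      ≤ ∑ n : Fin d → Fin (2 * h + 1), Real.pi ^ 2 / m ^ 2 *
          (∑ j, (((n j : ℕ) : ℝ) - h) * ((Yl (th m ρ x (v j) γ) : ℤ) : ℝ)) ^ 2 :=
        sum_le_sum fun n _ => h1 n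
    _ = Real.pi ^ 2 / m ^ 2 * ∑ n : Fin d → Fin (2 * h + 1),
          (∑ j, (((n j : ℕ) : ℝ) - h) * ((Yl (th m ρ x (v j) γ) : ℤ) : ℝ)) ^ 2 := by
        rw [mul_sum]
    _ ≤ Real.pi ^ 2 / m ^ 2 * ((2 * h + 1 : ℝ) ^ d * ((2 * h + 1 : ℝ) ^ 2 / 12) *
          ∑ j, ((Yl (th m ρ x (v j) γ) : ℤ) : ℝ) ^ 2) := by
        gcongr
        exact second_moment h _
    _ ≤ Real.pi ^ 2 / m ^ 2 * ((2 * h + 1 : ℝ) ^ d * ((2 * h + 1 : ℝ) ^ 2 / 12) *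
          ∑ j, m ^ 2 / 4 * sn m (th m ρ x (v j) γ) ^ 2) := by
        gcongr with j _
        exact hY j
    _ = (2 * h + 1 : ℝ) ^ d * (Real.pi ^ 2 / 48 * (2 * h + 1 : ℝ) ^ 2) *
      ∑ j, sn m (th m ρ x (v j) γ) ^ 2 := by
        rw [← mul_sum]
        field_simp
        ring

private theorem bx_sig {d : ℕ} {G : Type} [Group G] [Fintype G]
    (ρ : G →* Matrix (Fin d) (Fin d) ℤ) (m : ℕ) [NeZero m] (x : Fin d → ZMod m) (r : ℝ)
    (v : Fin d → Fin d → ZMod m) (hv : ∀ j, sig m ρ x (v j) ≤ r ^ 2) (h : ℕ) :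
    ∑ n : Fin d → Fin (2 * h + 1),
      sig m ρ x (∑ j, ((((n j : ℕ) : ℤ) - h : ℤ) : ZMod m) • v j) ≤
    21 / 100 * ((2 * h + 1 : ℝ) ^ 2 * d * r ^ 2) *
      Fintype.card (Fin d → Fin (2 * h + 1)) := by
  have hG : (0 : ℝ) < Fintype.card G := Nat.cast_pos.2 Fintype.card_pos
  have c1 : (Fintype.card (Fin d → Fin (2 * h + 1)) : ℝ) = (2 * h + 1 : ℝ) ^ d := by
    rw [Fintype.card_fun, Fintype.card_fin, Fintype.card_fin]
    push_cast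
    ring
  rw [c1]
  have h1 : ∑ n : Fin d → Fin (2 * h + 1),
      sig m ρ x (∑ j, ((((n j : ℕ) : ℤ) - h : ℤ) : ZMod m) • v j) ≤
      (2 * h + 1 : ℝ) ^ d * (Real.pi ^ 2 / 48 * (2 * h + 1 : ℝ) ^ 2) * ∑ j, sig m ρ x (v j) := by
    unfold sig
    rw [← sum_div, sum_comm, ← sum_div, sum_comm (s := univ) (t := univ)
      (f := fun j γ => sn m (th m ρ x (v j) γ) ^ 2), ← mul_div_assoc]
    refine div_le_div_of_nonneg_right ?_ hG.le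
    rw [mul_sum]
    exact sum_le_sum fun γ _ => bx_one ρ m x v h γ
  have h2 : ∑ j, sig m ρ x (v j) ≤ d * r ^ 2 := by
    calc ∑ j, sig m ρ x (v j) ≤ ∑ _j : Fin d, r ^ 2 := sum_le_sum fun j _ => hv j
      _ = d * r ^ 2 := by rw [sum_const, card_univ, Fintype.card_fin, nsmul_eq_mul]
  have hpi : Real.pi ^ 2 / 48 ≤ 21 / 100 := by
    have h3 := Real.pi_lt_d2
    have h4 := Real.pi_pos
    nlinarith
  calc _ ≤ _ := h1
    _ ≤ (2 * h + 1 : ℝ) ^ d * (21 / 100 * (2 * h + 1 : ℝ) ^ 2) * (d * r ^ 2) := by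
        gcongr
        exact sum_nonneg fun j _ => sig_nonneg ρ m x _
    _ = 21 / 100 * ((2 * h + 1 : ℝ) ^ 2 * d * r ^ 2) * (2 * h + 1 : ℝ) ^ d := by ring

theorem box_half {d : ℕ} {G : Type} [Group G] [Fintype G]
    (ρ : G →* Matrix (Fin d) (Fin d) ℤ) (m : ℕ) [NeZero m] (x : Fin d → ZMod m) (r : ℝ)
    (v : Fin d → Fin d → ZMod m) (hv : ∀ j, sig m ρ x (v j) ≤ r ^ 2) (h : ℕ)
    (y : Fin d → Fin d → ℤ) (hy : ∑ i, ∑ j, (y i j : ℝ) ^ 2 ≤ d ^ 2 * r ^ 2 * m ^ 2) :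
    (2 * h + 1) ^ d ≤ 2 * (univ.filter (fun n : Fin d → Fin (2 * h + 1) =>
      sig m ρ x (∑ j, ((((n j : ℕ) : ℤ) - h : ℤ) : ZMod m) • v j) ≤ (2 * h + 1 : ℝ) ^ 2 * d * r ^ 2 ∧
      ∑ i, (∑ j, (((n j : ℕ) : ℝ) - h) * (y i j : ℝ)) ^ 2 ≤
        (2 * h + 1 : ℝ) ^ 2 * d ^ 2 * r ^ 2 * m ^ 2)).card := by
  classical
  have c1 : (Fintype.card (Fin d → Fin (2 * h + 1)) : ℝ) = (2 * h + 1 : ℝ) ^ d := by
    rw [Fintype.card_fun, Fintype.card_fin, Fintype.card_fin]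
    push_cast
    ring
  have m1 := bx_markov (M := Fin d → Fin (2 * h + 1))
    (fun n => sig m ρ x (∑ j, ((((n j : ℕ) : ℤ) - h : ℤ) : ZMod m) • v j))
    (fun n => sig_nonneg ρ m x _) (c := 21 / 100) (T := (2 * h + 1 : ℝ) ^ 2 * d * r ^ 2)
    (by norm_num) (by positivity) (bx_sig ρ m x r v hv h)
  have hs2 : ∑ n : Fin d → Fin (2 * h + 1), ∑ i, (∑ j, (((n j : ℕ) : ℝ) - h) * (y i j : ℝ)) ^ 2 ≤
      1 / 12 * ((2 * h + 1 : ℝ) ^ 2 * d ^ 2 * r ^ 2 * m ^ 2) *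
        Fintype.card (Fin d → Fin (2 * h + 1)) := by
    rw [sum_comm, c1]
    calc ∑ i, ∑ n : Fin d → Fin (2 * h + 1), (∑ j, (((n j : ℕ) : ℝ) - h) * (y i j : ℝ)) ^ 2
        ≤ ∑ i, (2 * h + 1 : ℝ) ^ d * ((2 * h + 1 : ℝ) ^ 2 / 12) * ∑ j, (y i j : ℝ) ^ 2 :=
          sum_le_sum fun i _ => second_moment h _
      _ = (2 * h + 1 : ℝ) ^ d * ((2 * h + 1 : ℝ) ^ 2 / 12) * ∑ i, ∑ j, (y i j : ℝ) ^ 2 := by
          rw [mul_sum]
      _ ≤ (2 * h + 1 : ℝ) ^ d * ((2 * h + 1 : ℝ) ^ 2 / 12) * (d ^ 2 * r ^ 2 * m ^ 2) := by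
          gcongr
      _ = _ := by ring
  have m2 := bx_markov (M := Fin d → Fin (2 * h + 1))
    (fun n => ∑ i, (∑ j, (((n j : ℕ) : ℝ) - h) * (y i j : ℝ)) ^ 2)
    (fun n => sum_nonneg fun i _ => sq_nonneg _) (c := 1 / 12)
    (T := (2 * h + 1 : ℝ) ^ 2 * d ^ 2 * r ^ 2 * m ^ 2)
    (by norm_num) (by positivity) hs2
  have hcov : (univ : Finset (Fin d → Fin (2 * h + 1))) ⊆
      (univ.filter (fun n : Fin d → Fin (2 * h + 1) =>
      sig m ρ x (∑ j, ((((n j : ℕ) : ℤ) - h : ℤ) : ZMod m) • v j) ≤ (2 * h + 1 : ℝ) ^ 2 * d * r ^ 2 ∧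
      ∑ i, (∑ j, (((n j : ℕ) : ℝ) - h) * (y i j : ℝ)) ^ 2 ≤
        (2 * h + 1 : ℝ) ^ 2 * d ^ 2 * r ^ 2 * m ^ 2)) ∪
      ((univ.filter (fun n : Fin d → Fin (2 * h + 1) => (2 * h + 1 : ℝ) ^ 2 * d * r ^ 2 <
        sig m ρ x (∑ j, ((((n j : ℕ) : ℤ) - h : ℤ) : ZMod m) • v j))) ∪
      (univ.filter (fun n : Fin d → Fin (2 * h + 1) =>
        (2 * h + 1 : ℝ) ^ 2 * d ^ 2 * r ^ 2 * m ^ 2 <
        ∑ i, (∑ j, (((n j : ℕ) : ℝ) - h) * (y i j : ℝ)) ^ 2))) := by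
    intro n _
    rw [mem_union, mem_union, mem_filter, mem_filter, mem_filter]
    by_cases k1 : sig m ρ x (∑ j, ((((n j : ℕ) : ℤ) - h : ℤ) : ZMod m) • v j) ≤
        (2 * h + 1 : ℝ) ^ 2 * d * r ^ 2
    · by_cases k2 : ∑ i, (∑ j, (((n j : ℕ) : ℝ) - h) * (y i j : ℝ)) ^ 2 ≤
        (2 * h + 1 : ℝ) ^ 2 * d ^ 2 * r ^ 2 * m ^ 2
      · exact Or.inl ⟨mem_univ _, k1, k2⟩
      · exact Or.inr (Or.inr ⟨mem_univ _, not_le.1 k2⟩)
    · exact Or.inr (Or.inl ⟨mem_univ _, not_le.1 k1⟩)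
  have hc := card_le_card hcov
  rw [card_univ] at hc
  have hc2 := hc.trans ((card_union_le _ _).trans (Nat.add_le_add_left (card_union_le _ _) _))
  have hc3 : (Fintype.card (Fin d → Fin (2 * h + 1)) : ℝ) ≤
      ((univ.filter (fun n : Fin d → Fin (2 * h + 1) =>
      sig m ρ x (∑ j, ((((n j : ℕ) : ℤ) - h : ℤ) : ZMod m) • v j) ≤ (2 * h + 1 : ℝ) ^ 2 * d * r ^ 2 ∧
      ∑ i, (∑ j, (((n j : ℕ) : ℝ) - h) * (y i j : ℝ)) ^ 2 ≤
        (2 * h + 1 : ℝ) ^ 2 * d ^ 2 * r ^ 2 * m ^ 2)).card : ℝ) +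
      (((univ.filter (fun n : Fin d → Fin (2 * h + 1) => (2 * h + 1 : ℝ) ^ 2 * d * r ^ 2 <
        sig m ρ x (∑ j, ((((n j : ℕ) : ℤ) - h : ℤ) : ZMod m) • v j))).card : ℝ) +
      ((univ.filter (fun n : Fin d → Fin (2 * h + 1) =>
        (2 * h + 1 : ℝ) ^ 2 * d ^ 2 * r ^ 2 * m ^ 2 <
        ∑ i, (∑ j, (((n j : ℕ) : ℝ) - h) * (y i j : ℝ)) ^ 2)).card : ℝ)) := by
    exact_mod_cast hc2
  have hcn : (0 : ℝ) ≤ Fintype.card (Fin d → Fin (2 * h + 1)) := Nat.cast_nonneg _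
  have hfin : (Fintype.card (Fin d → Fin (2 * h + 1)) : ℝ) ≤
      2 * ((univ.filter (fun n : Fin d → Fin (2 * h + 1) =>
      sig m ρ x (∑ j, ((((n j : ℕ) : ℤ) - h : ℤ) : ZMod m) • v j) ≤ (2 * h + 1 : ℝ) ^ 2 * d * r ^ 2 ∧
      ∑ i, (∑ j, (((n j : ℕ) : ℝ) - h) * (y i j : ℝ)) ^ 2 ≤
        (2 * h + 1 : ℝ) ^ 2 * d ^ 2 * r ^ 2 * m ^ 2)).card : ℝ) := by
    linarith
  have hcc : Fintype.card (Fin d → Fin (2 * h + 1)) = (2 * h + 1) ^ d := by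
    rw [Fintype.card_fun, Fintype.card_fin, Fintype.card_fin]
  rw [hcc] at hfin
  exact_mod_cast hfin

end Pool.Agent.H9.EC
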