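import Mathlib

set_option autoImplicit false

/-!
The choice of the parameters (module H9 EC NMA; Mathlib only, real analysis).

PROOF.  All constants below are absolute and `g` is large.  Let `L = log g`.  `l^30 ≤ 4096^30 g^3`, so `log (l^30) ≤ 4 L`; `d ≤ g^0.34`
(from `d^50 ≤ g^17`).  Choose `h = ⌈g^(1/50)⌉`, so `2 g^(1/50) ≤ q := 2 h + 1 ≤ 3 g^(1/50)` (`g` large: `2 h + 1 ≤ 2 g^(1/50) + 3`),
`r = √(2 d log(l^30) / g)` (so `g/2 r² = d log(l^30)`; `r > 0` as `l ≥ 2`, `d ≥ 1`) and `k = d ⌈g^(1/4)⌉`, `d g^(1/4) ≤ k ≤ 2 d g^(1/4)`.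
(1) `16 q² d r² = 32 q² d² log(l^30) / g ≤ 32 · 9 · 4 g^(0.04 + 0.68 - 1) L ≤ 1`.
(2) `k · 25 q² d r² ≤ 2 d g^(1/4) · 50 q² d² · 4 L / g ≤ d · (2 · 50 · 9 · 4) g^(0.25 + 0.04 + 0.68 - 1) L ≤ d` as `g^0.03 ≥ C L`.
(3) `25 q² d r² = 50 q² d² log(l^30) / g ≤ 1/2` as in (1).
(4) `62 d l ≤ g` so `log (62 d l) ≤ L`, and `31 d l² L ≤ 31 · 4096² d g^(1/5) L ≤ 4 d g^(1/4) ≤ 4 k` as `g^0.05 ≥ C L`.
(5) `4 / l^30 ≤ 4 / g^3 ≤ 1/(2 g²)`, and `l^225 ≤ 4096^225 g^(22.5)`, `2^17 / q ≤ 2^16 / g^(1/50) ≤ 1`, so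
`(2^17/q)^d ≤ (2^17/q)^2500 ≤ 2^40000 g^(-50)`, and `32 (31 l^225 + 1) 2^40000 g^(-50) ≤ C g^(-27) ≤ 1/(2 g²)`.
Advice: keep the numbers `4096^225`, `2^40000` folded (`set`/`obtain ⟨C, hC⟩`); every inequality `C L ≤ g^c` or `C ≤ g^c` is
an eventual statement (`isLittleO_log_rpow_atTop`, `tendsto_rpow_atTop`), collect them with `Filter.Eventually.and`.
-/

namespace Pool.Agent.H9.EC

set_option exponentiation.threshold 50000 in
private theorem numA_fin {t l q : ℝ} {d : ℕ} (ht : (2 : ℝ) ^ 17 ≤ t) (hd : 2500 ≤ d) (hl1 : t ^ 10 ≤ l)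
    (hl2 : l ≤ 4096 * t ^ 10) (hq : 2 * t ^ 2 ≤ q) :
    4 / l ^ 30 + 32 * (31 * l ^ 225 + 1) * (2 ^ 17 / q) ^ d ≤ 1 / t ^ 200 := by
  have ht1 : (1 : ℝ) ≤ t := le_trans (by norm_num) ht
  have ht0 : (0 : ℝ) < t := by linarith
  have hl0 : (0 : ℝ) < l := lt_of_lt_of_le (by positivity) hl1
  have hq0 : (0 : ℝ) < q := lt_of_lt_of_le (by positivity) hq
  have h1 : 4 / l ^ 30 ≤ 1 / 2 * (1 / t ^ 200) := by
    have h2 : (8 : ℝ) * t ^ 200 ≤ l ^ 30 := by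
      calc (8 : ℝ) * t ^ 200 ≤ t ^ 100 * t ^ 200 := by
            refine mul_le_mul_of_nonneg_right ?_ (by positivity)
            calc (8 : ℝ) ≤ 2 ^ 17 := by norm_num
              _ ≤ t := ht
              _ ≤ t ^ 100 := le_self_pow₀ ht1 (by norm_num)
        _ = (t ^ 10) ^ 30 := by ring
        _ ≤ l ^ 30 := pow_le_pow_left₀ (by positivity) hl1 30
    rw [← mul_div_assoc, mul_one, div_le_div_iff₀ (by positivity) (by positivity)]
    linarith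
  have h3 : (2 ^ 17 / q) ^ d ≤ 2 ^ 40000 / t ^ 5000 := by
    have h4 : 2 ^ 17 / q ≤ 2 ^ 16 / t ^ 2 := by
      rw [div_le_div_iff₀ hq0 (by positivity)]
      linarith
    have h5 : 2 ^ 16 / t ^ 2 ≤ 1 := by
      rw [div_le_one (by positivity)]
      nlinarith
    have h6 : 0 ≤ 2 ^ 17 / q := by positivity
    calc (2 ^ 17 / q) ^ d ≤ (2 ^ 17 / q) ^ 2500 := pow_le_pow_of_le_one h6 (h4.trans h5) hd
      _ ≤ (2 ^ 16 / t ^ 2) ^ 2500 := pow_le_pow_left₀ h6 h4 _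
      _ = 2 ^ 40000 / t ^ 5000 := by
          rw [div_pow, ← pow_mul, ← pow_mul]
  have h7 : 31 * l ^ 225 + 1 ≤ 32 * (2 ^ 2700 * t ^ 2250) := by
    have h8 : l ^ 225 ≤ 2 ^ 2700 * t ^ 2250 := by
      calc l ^ 225 ≤ (4096 * t ^ 10) ^ 225 := pow_le_pow_left₀ hl0.le hl2 _
        _ = (2 ^ 12 * t ^ 10) ^ 225 := by norm_num
        _ = 2 ^ 2700 * t ^ 2250 := by rw [mul_pow, ← pow_mul, ← pow_mul]
    have h9 : (1 : ℝ) ≤ 2 ^ 2700 * t ^ 2250 := by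
      have e1 : (1 : ℝ) ≤ 2 ^ 2700 := one_le_pow₀ (by norm_num)
      have e2 : (1 : ℝ) ≤ t ^ 2250 := one_le_pow₀ ht1
      exact one_le_mul_of_one_le_of_one_le e1 e2
    linarith
  have h10 : 32 * (31 * l ^ 225 + 1) * (2 ^ 17 / q) ^ d ≤ 1 / 2 * (1 / t ^ 200) := by
    have h11 : 32 * (31 * l ^ 225 + 1) * (2 ^ 17 / q) ^ d ≤
        32 * (32 * (2 ^ 2700 * t ^ 2250)) * (2 ^ 40000 / t ^ 5000) :=
      mul_le_mul (mul_le_mul_of_nonneg_left h7 (by norm_num)) h3 (by positivity) (by positivity)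
    refine h11.trans ?_
    rw [← mul_div_assoc, ← mul_div_assoc, mul_one, div_le_div_iff₀ (by positivity) (by positivity)]
    have h12 : (2 : ℝ) ^ 42711 ≤ t ^ 2550 := by
      calc (2 : ℝ) ^ 42711 ≤ 2 ^ 43350 := pow_le_pow_right₀ (by norm_num) (by norm_num)
        _ = (2 ^ 17) ^ 2550 := by rw [← pow_mul]
        _ ≤ t ^ 2550 := pow_le_pow_left₀ (by positivity) ht _
    have h13 : (32 : ℝ) * (32 * (2 ^ 2700 * t ^ 2250)) * 2 ^ 40000 * t ^ 200 * 2 =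
        2 ^ 42711 * t ^ 2450 := by
      have e1 : (2 : ℝ) ^ 42711 = 2 ^ 2700 * 2 ^ 40000 * 2 ^ 11 := by
        rw [← pow_add, ← pow_add]
      rw [e1]
      have e2 : t ^ 2450 = t ^ 2250 * t ^ 200 := by rw [← pow_add]
      rw [e2]
      generalize (2 : ℝ) ^ 2700 = a
      generalize (2 : ℝ) ^ 40000 = b
      generalize t ^ 2250 = c
      generalize t ^ 200 = e
      ring
    have h14 : (2 : ℝ) ^ 42711 * t ^ 2450 ≤ t ^ 5000 := by
      calc (2 : ℝ) ^ 42711 * t ^ 2450 ≤ t ^ 2550 * t ^ 2450 :=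
            mul_le_mul_of_nonneg_right h12 (by positivity)
        _ = t ^ 5000 := by rw [← pow_add]
    have h15 := h13.le.trans h14
    have key : ∀ X Z : ℝ, X * 2 ≤ Z → X ≤ 1 / 2 * Z := fun X Z hXZ => by linarith
    exact key _ _ h15
  linarith

theorem num_A : ∃ g₀ : ℕ, ∀ g : ℕ, g₀ ≤ g → ∀ d : ℕ, 2500 ≤ d → d ^ 50 ≤ g ^ 17 → ∀ l : ℕ, 2 ≤ l →
    (g : ℝ) ^ (1 / 10 : ℝ) ≤ l → (l : ℝ) ≤ 4096 * (g : ℝ) ^ (1 / 10 : ℝ) →
    ∃ r : ℝ, 0 < r ∧ ∃ h k : ℕ,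
      d * Real.log ((l ^ 30 : ℕ) : ℝ) ≤ g / 2 * r ^ 2 ∧
      4 * (2 * h + 1 : ℝ) * √d * r ≤ 1 ∧
      k * (5 * (2 * h + 1) * √d * r) ^ 2 ≤ d ∧
      (5 * (2 * h + 1) * √d * r) ^ 2 ≤ 1 / 2 ∧
      (31 : ℝ) * d * l ^ 2 * Real.log (62 * d * l) ≤ 4 * k ∧
      4 / (l : ℝ) ^ 30 + 32 * (31 * (l : ℝ) ^ 225 + 1) * (2 ^ 17 / (2 * h + 1 : ℝ)) ^ d ≤
        1 / (g : ℝ) ^ 2 := by
  refine ⟨2 ^ 1700, fun g hg d hd hdg l hl hlg hlg' => ?_⟩
  have hg0 : 0 < g := lt_of_lt_of_le (Nat.pos_of_ne_zero (pow_ne_zero _ (by norm_num))) hg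
  have hgr : (0 : ℝ) < g := by exact_mod_cast hg0
  obtain ⟨t, ht⟩ : ∃ t : ℝ, t = (g : ℝ) ^ (1 / 100 : ℝ) := ⟨_, rfl⟩
  have ht0 : 0 < t := by
    rw [ht]
    exact Real.rpow_pos_of_pos hgr _
  have htg : t ^ 100 = g := by
    rw [ht, ← Real.rpow_natCast, ← Real.rpow_mul hgr.le]
    norm_num
  have h10 : (g : ℝ) ^ (1 / 10 : ℝ) = t ^ 10 := by
    rw [ht, ← Real.rpow_natCast, ← Real.rpow_mul hgr.le]
    norm_num
  rw [h10] at hlg hlg'
  have ht17 : (2 : ℝ) ^ 17 ≤ t := by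
    have h1 : ((2 : ℝ) ^ 17) ^ 100 ≤ t ^ 100 := by
      rw [htg, ← pow_mul]
      exact_mod_cast hg
    exact (pow_le_pow_iff_left₀ (by positivity) ht0.le (by norm_num)).1 h1
  have ht1 : (1 : ℝ) ≤ t := le_trans (by norm_num) ht17
  have htbig : (131072 : ℝ) ≤ t := le_trans (by norm_num) ht17
  have hd34 : (d : ℝ) ≤ t ^ 34 := by
    have h1 : (d : ℝ) ^ 50 ≤ (t ^ 34) ^ 50 := by
      have h2 : (d : ℝ) ^ 50 ≤ (g : ℝ) ^ 17 := by exact_mod_cast hdg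
      refine h2.trans (le_of_eq ?_)
      rw [← htg, ← pow_mul, ← pow_mul]
    exact (pow_le_pow_iff_left₀ (by positivity) (by positivity) (by norm_num)).1 h1
  have hdr : (1 : ℝ) ≤ d := by
    have : 1 ≤ d := by omega
    exact_mod_cast this
  have hd0 : (0 : ℝ) < d := by linarith
  have hlr : (2 : ℝ) ≤ l := by exact_mod_cast hl
  have hl0 : (0 : ℝ) < l := by linarith
  -- logarithms
  have hlogt : Real.log t ≤ t := (Real.log_le_sub_one_of_pos ht0).trans (by linarith)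
  have hlog4096 : Real.log 4096 ≤ 9 := by
    have h1 : Real.log 4096 = 12 * Real.log 2 := by
      rw [show (4096 : ℝ) = 2 ^ 12 by norm_num, Real.log_pow]
      norm_num
    have h2 := Real.log_two_lt_d9
    rw [h1]
    linarith
  have hlogl : Real.log l ≤ 19 * t := by
    calc Real.log l ≤ Real.log (4096 * t ^ 10) := Real.log_le_log hl0 hlg'
      _ = Real.log 4096 + 10 * Real.log t := by
          rw [Real.log_mul (by norm_num) (by positivity), Real.log_pow]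
          norm_num
      _ ≤ 19 * t := by linarith
  have hlogl0 : 0 < Real.log l := Real.log_pos (by linarith)
  obtain ⟨Λ, hΛ⟩ : ∃ Λ : ℝ, Λ = Real.log ((l ^ 30 : ℕ) : ℝ) := ⟨_, rfl⟩
  have hΛ1 : Λ = 30 * Real.log l := by
    rw [hΛ, Nat.cast_pow, Real.log_pow]
    norm_num
  have hΛ0 : 0 < Λ := by
    rw [hΛ1]
    linarith
  have hΛ2 : Λ ≤ 570 * t := by
    rw [hΛ1]
    linarith
  -- the parameters
  obtain ⟨h, hh⟩ : ∃ h : ℕ, h = ⌈t ^ 2⌉₊ := ⟨_, rfl⟩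
  obtain ⟨k, hk⟩ : ∃ k : ℕ, k = d * ⌈t ^ 25⌉₊ := ⟨_, rfl⟩
  have hh1 : t ^ 2 ≤ h := by
    rw [hh]
    exact Nat.le_ceil _
  have hh2 : (h : ℝ) ≤ t ^ 2 + 1 := by
    rw [hh]
    exact (Nat.ceil_lt_add_one (by positivity)).le
  have hk1 : d * t ^ 25 ≤ k := by
    rw [hk, Nat.cast_mul]
    exact mul_le_mul_of_nonneg_left (Nat.le_ceil _) hd0.le
  have hk2 : (k : ℝ) ≤ 2 * (d * t ^ 25) := by
    rw [hk, Nat.cast_mul]
    have h1 : ((⌈t ^ 25⌉₊ : ℕ) : ℝ) ≤ t ^ 25 + 1 := (Nat.ceil_lt_add_one (by positivity)).le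
    have h2 : (1 : ℝ) ≤ t ^ 25 := one_le_pow₀ ht1
    have h3 : (d : ℝ) * (⌈t ^ 25⌉₊ : ℕ) ≤ d * (t ^ 25 + 1) := mul_le_mul_of_nonneg_left h1 hd0.le
    nlinarith
  obtain ⟨q, hq⟩ : ∃ q : ℝ, q = 2 * h + 1 := ⟨_, rfl⟩
  have ht2 : (3 : ℝ) ≤ t ^ 2 := by nlinarith
  have hq1 : 2 * t ^ 2 ≤ q := by
    rw [hq]
    linarith
  have hq2 : q ≤ 3 * t ^ 2 := by
    rw [hq]
    linarith
  have hq0 : 0 < q := lt_of_lt_of_le (by positivity) hq1
  obtain ⟨r, hr⟩ : ∃ r : ℝ, r = √(2 * d * Λ / g) := ⟨_, rfl⟩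
  have hr0 : 0 < r := by
    rw [hr]
    exact Real.sqrt_pos.2 (by positivity)
  have hr2 : r ^ 2 = 2 * d * Λ / g := by
    rw [hr, Real.sq_sqrt (by positivity)]
  have hsd : √(d : ℝ) ^ 2 = d := Real.sq_sqrt hd0.le
  -- the main quantity
  have hmain : q ^ 2 * d * r ^ 2 * t ^ 27 ≤ 10260 := by
    rw [hr2, ← htg]
    have h1 : q ^ 2 ≤ 9 * t ^ 4 := by
      calc q ^ 2 ≤ (3 * t ^ 2) ^ 2 := pow_le_pow_left₀ hq0.le hq2 2
        _ = 9 * t ^ 4 := by ring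
    have h2 : (d : ℝ) ^ 2 ≤ t ^ 68 := by
      calc (d : ℝ) ^ 2 ≤ (t ^ 34) ^ 2 := pow_le_pow_left₀ hd0.le hd34 2
        _ = t ^ 68 := by rw [← pow_mul]
    have h3 : q ^ 2 * d * (2 * d * Λ / t ^ 100) * t ^ 27 =
        2 * (q ^ 2 * (d : ℝ) ^ 2 * Λ) * t ^ 27 / t ^ 100 := by ring
    rw [h3, div_le_iff₀ (by positivity)]
    have h4 : q ^ 2 * (d : ℝ) ^ 2 * Λ ≤ 9 * t ^ 4 * t ^ 68 * (570 * t) :=
      mul_le_mul (mul_le_mul h1 h2 (by positivity) (by positivity)) hΛ2 hΛ0.le (by positivity)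
    calc 2 * (q ^ 2 * (d : ℝ) ^ 2 * Λ) * t ^ 27 ≤ 2 * (9 * t ^ 4 * t ^ 68 * (570 * t)) * t ^ 27 := by
          refine mul_le_mul_of_nonneg_right ?_ (by positivity)
          linarith
      _ = 10260 * t ^ 100 := by ring
  have hQ0 : 0 ≤ q ^ 2 * d * r ^ 2 := by positivity
  have ht27 : (10260 * 100 : ℝ) ≤ t ^ 27 := by
    calc (10260 * 100 : ℝ) ≤ 131072 ^ 2 := by norm_num
      _ ≤ t ^ 2 := pow_le_pow_left₀ (by norm_num) htbig 2
      _ ≤ t ^ 27 := pow_le_pow_right₀ ht1 (by norm_num)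
  have hQ1 : q ^ 2 * d * r ^ 2 * 100 ≤ 1 := by
    have h1 : q ^ 2 * d * r ^ 2 * (10260 * 100) ≤ 10260 :=
      (mul_le_mul_of_nonneg_left ht27 hQ0).trans hmain
    linarith
  have hsq : ∀ c : ℝ, (c * q * √d * r) ^ 2 = c ^ 2 * (q ^ 2 * d * r ^ 2) := by
    intro c
    have e1 : (c * q * √(d : ℝ) * r) ^ 2 = c ^ 2 * (q ^ 2 * √(d : ℝ) ^ 2 * r ^ 2) := by ring
    rw [e1, hsd]
  refine ⟨r, hr0, h, k, ?_, ?_, ?_, ?_, ?_, ?_⟩
  · rw [← hΛ, hr2]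
    refine le_of_eq ?_
    field_simp
  · rw [← hq]
    have h1 : (4 * q * √d * r) ^ 2 ≤ 1 ^ 2 := by
      rw [hsq]
      linarith
    exact (pow_le_pow_iff_left₀ (by positivity) (by norm_num) (by norm_num)).1 h1
  · rw [← hq, hsq]
    have h1 : (k : ℝ) * (5 ^ 2 * (q ^ 2 * d * r ^ 2)) * t ^ 2 ≤ 513000 * d := by
      have h2 : (k : ℝ) * (5 ^ 2 * (q ^ 2 * d * r ^ 2)) * t ^ 2 ≤
          2 * (d * t ^ 25) * (5 ^ 2 * (q ^ 2 * d * r ^ 2)) * t ^ 2 :=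
        mul_le_mul_of_nonneg_right (mul_le_mul_of_nonneg_right hk2 (by positivity)) (by positivity)
      refine h2.trans ?_
      have h3 : 2 * (d * t ^ 25) * (5 ^ 2 * (q ^ 2 * d * r ^ 2)) * t ^ 2 =
          50 * d * (q ^ 2 * d * r ^ 2 * t ^ 27) := by ring
      rw [h3]
      have h4 : 50 * d * (q ^ 2 * d * r ^ 2 * t ^ 27) ≤ 50 * d * 10260 :=
        mul_le_mul_of_nonneg_left hmain (by positivity)
      linarith
    have h5 : (513000 : ℝ) ≤ t ^ 2 := by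
      calc (513000 : ℝ) ≤ 131072 ^ 2 := by norm_num
        _ ≤ t ^ 2 := pow_le_pow_left₀ (by norm_num) htbig 2
    have h6 : (k : ℝ) * (5 ^ 2 * (q ^ 2 * d * r ^ 2)) * t ^ 2 ≤ d * t ^ 2 :=
      h1.trans (by nlinarith)
    exact le_of_mul_le_mul_right h6 (by positivity)
  · rw [← hq, hsq]
    linarith
  · have h1 : Real.log (62 * d * l) ≤ 57 * t := by
      calc Real.log (62 * d * l) ≤ Real.log (62 * t ^ 34 * (4096 * t ^ 10)) := by
            refine Real.log_le_log (by positivity) ?_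
            exact mul_le_mul (mul_le_mul_of_nonneg_left hd34 (by norm_num)) hlg' hl0.le
              (by positivity)
        _ = Real.log (62 * 4096) + 44 * Real.log t := by
            rw [show 62 * t ^ 34 * (4096 * t ^ 10) = 62 * 4096 * t ^ 44 by ring,
              Real.log_mul (by norm_num) (by positivity), Real.log_pow]
            norm_num
        _ ≤ 13 + 44 * t := by
            have h2 : Real.log (62 * 4096) ≤ Real.log (2 ^ 18) :=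
              Real.log_le_log (by norm_num) (by norm_num)
            have h3 : Real.log (2 ^ 18) = 18 * Real.log 2 := by
              rw [Real.log_pow]
              norm_num
            have h4 := Real.log_two_lt_d9
            linarith
        _ ≤ 57 * t := by linarith
    have h2 : (l : ℝ) ^ 2 ≤ 4096 ^ 2 * t ^ 20 := by
      calc (l : ℝ) ^ 2 ≤ (4096 * t ^ 10) ^ 2 := pow_le_pow_left₀ hl0.le hlg' 2
        _ = 4096 ^ 2 * t ^ 20 := by rw [mul_pow, ← pow_mul]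
    have h62 : 0 ≤ Real.log (62 * d * l) := Real.log_nonneg (by nlinarith)
    calc (31 : ℝ) * d * l ^ 2 * Real.log (62 * d * l) ≤
          31 * d * (4096 ^ 2 * t ^ 20) * (57 * t) :=
          mul_le_mul (mul_le_mul_of_nonneg_left h2 (by positivity)) h1 h62 (by positivity)
      _ = d * t ^ 21 * (31 * 4096 ^ 2 * 57) := by ring
      _ ≤ d * t ^ 21 * (4 * t ^ 4) := by
          refine mul_le_mul_of_nonneg_left ?_ (by positivity)
          have h3 : (131072 : ℝ) ^ 4 ≤ t ^ 4 := pow_le_pow_left₀ (by norm_num) htbig 4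
          linarith [show (31 * 4096 ^ 2 * 57 : ℝ) ≤ 131072 ^ 4 by norm_num]
      _ = 4 * (d * t ^ 25) := by ring
      _ ≤ 4 * k := by linarith
  · rw [← hq]
    have h1 := numA_fin ht17 hd hlg hlg' hq1
    have h2 : (g : ℝ) ^ 2 = t ^ 200 := by rw [← htg, ← pow_mul]
    rw [h2]
    exact h1

end Pool.Agent.H9.EC
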