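import Mathlib

set_option autoImplicit false

/-!
A prime of size `g^(1/10)` that does not divide `n ≤ 2 g` (module H9 EC PRE; Mathlib only).

PROOF.  Let `x = ⌈g^(1/10)⌉ ≥ 2`, `x ≤ 2 g^(1/10)`.  By Bertrand's postulate
(`Nat.exists_prime_lt_and_le_two_mul`) there are primes `x < p_1 < p_2 < ... < p_11` with `p_(i+1) ≤ 2 p_i`, `p_1 ≤ 2 x`, so
`p_i ≤ 2^11 x ≤ 4096 g^(1/10)`.  If all of them divided `n`, their product would (pairwise coprime), and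
`n ≥ g^(11/10) > 2 g` for `g > 2^10`: contradiction.  They are odd as `p_i > 2`.
(Formally: by induction on `i`, for `n ≠ 0` either one of the first `i` primes does not divide `n` or a product of `i` primes
larger than `x^i` divides `n`; or use `Finset.prod_primes_dvd` for the set of the primes in `(x, 2^11 x]`.)
-/

namespace Pool.Agent.H9.EC

private theorem prime_step {x n : ℕ} (hx : 1 ≤ x) (i : ℕ) :
    (∃ l : ℕ, l.Prime ∧ x < l ∧ l ≤ 2 ^ i * x ∧ ¬ l ∣ n) ∨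
      ∃ q m : ℕ, x ≤ q ∧ q ≤ 2 ^ i * x ∧ m ∣ n ∧ x ^ i ≤ m ∧ ∀ t : ℕ, t.Prime → t ∣ m → t ≤ q := by
  induction i with
  | zero =>
    right
    refine ⟨x, 1, le_rfl, by simp, one_dvd _, by simp, ?_⟩
    intro t ht h1
    exact absurd (Nat.dvd_one.1 h1) ht.one_lt.ne'
  | succ i ih =>
    have hmon : 2 ^ i * x ≤ 2 ^ (i + 1) * x :=
      Nat.mul_le_mul_right x (Nat.pow_le_pow_right (by norm_num) (by omega))
    rcases ih with ⟨l, h1, h2, h3, h4⟩ | ⟨q, m, h1, h2, h3, h4, h5⟩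
    · exact Or.inl ⟨l, h1, h2, h3.trans hmon, h4⟩
    · obtain ⟨t, ht, hqt, htq⟩ := Nat.exists_prime_lt_and_le_two_mul q (by omega)
      have htx : t ≤ 2 ^ (i + 1) * x := by
        rw [pow_succ]
        have : 2 ^ i * 2 * x = 2 * (2 ^ i * x) := by ring
        omega
      by_cases hd : t ∣ n
      · right
        have hc : Nat.Coprime m t := by
          rw [Nat.coprime_comm, Nat.Prime.coprime_iff_not_dvd ht]
          intro h
          have := h5 t ht h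
          omega
        refine ⟨t, m * t, by omega, htx, hc.mul_dvd_of_dvd_of_dvd h3 hd, ?_, ?_⟩
        · rw [pow_succ]
          exact Nat.mul_le_mul h4 (by omega)
        · intro s hs h
          rcases (Nat.Prime.dvd_mul hs).1 h with h | h
          · have := h5 s hs h
            omega
          · exact Nat.le_of_dvd ht.pos h
      · exact Or.inl ⟨t, ht, by omega, htx, hd⟩

theorem prime_exists : ∃ g₀ : ℕ, ∀ g : ℕ, g₀ ≤ g → ∀ n : ℕ, 0 < n → n ≤ 2 * g →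
    ∃ l : ℕ, l.Prime ∧ l ≠ 2 ∧ ¬ l ∣ n ∧ (g : ℝ) ^ (1 / 10 : ℝ) ≤ l ∧
      (l : ℝ) ≤ 4096 * (g : ℝ) ^ (1 / 10 : ℝ) := by
  refine ⟨3 ^ 10, ?_⟩
  intro g hg n hn hng
  have hg0 : (0 : ℝ) ≤ (g : ℝ) := Nat.cast_nonneg g
  set r : ℝ := (g : ℝ) ^ (1 / 10 : ℝ) with hr
  have hr10 : r ^ 10 = (g : ℝ) := by
    rw [hr, ← Real.rpow_natCast, ← Real.rpow_mul hg0]
    norm_num
  have hr0 : 0 ≤ r := Real.rpow_nonneg hg0 _
  have hr3 : 3 ≤ r := by
    have h1 : (3 : ℝ) ^ 10 ≤ r ^ 10 := by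
      rw [hr10]
      exact_mod_cast hg
    exact le_of_pow_le_pow_left₀ (by norm_num) hr0 h1
  have hx1 : r ≤ (⌈r⌉₊ : ℝ) := Nat.le_ceil r
  have hx2 : (⌈r⌉₊ : ℝ) ≤ 2 * r := by
    have := (Nat.ceil_lt_add_one hr0).le
    linarith
  have hx3 : 3 ≤ ⌈r⌉₊ := by
    have h1 : (3 : ℝ) ≤ (⌈r⌉₊ : ℝ) := hr3.trans hx1
    exact_mod_cast h1
  rcases prime_step (x := ⌈r⌉₊) (n := n) (by omega) 11 with ⟨l, h1, h2, h3, h4⟩ |
    ⟨q, m, h1, h2, h3, h4, h5⟩
  · refine ⟨l, h1, by omega, h4, ?_, ?_⟩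
    · refine hx1.trans ?_
      exact_mod_cast h2.le
    · have h5 : (l : ℝ) ≤ 2 ^ 11 * (⌈r⌉₊ : ℝ) := by exact_mod_cast h3
      calc (l : ℝ) ≤ 2 ^ 11 * (⌈r⌉₊ : ℝ) := h5
        _ ≤ 2 ^ 11 * (2 * r) := by linarith
        _ = 4096 * r := by ring
  · exfalso
    have hmn : m ≤ 2 * g := (Nat.le_of_dvd hn h3).trans hng
    have h6 : (⌈r⌉₊ : ℝ) ^ 11 ≤ 2 * (g : ℝ) := by exact_mod_cast h4.trans hmn
    have h7 : r ^ 11 ≤ (⌈r⌉₊ : ℝ) ^ 11 := pow_le_pow_left₀ hr0 hx1 11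
    have h8 : r ^ 11 = (g : ℝ) * r := by rw [pow_succ, hr10]
    have hg1 : (0 : ℝ) < g := by
      have : 0 < g := by
        have : 0 < 3 ^ 10 := by norm_num
        omega
      exact_mod_cast this
    rw [h8] at h7
    nlinarith

end Pool.Agent.H9.EC
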