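import Pool.Agent.H9.EC.Comb
import Pool.Agent.H9.EC.PrimeE
import Pool.Agent.H9.EC.NumA

set_option autoImplicit false

/-!
Chapter A: absolutely irreducible representations of dimension `2500 ≤ d ≤ g^0.34` (module H9 EC CHA).

PROOF.  `prime_exists` with `n = card G` (positive), `num_A`, `nsing_prime`.
-/

namespace Pool.Agent.H9.EC

open Finset Matrix

theorem chA : ∃ g₀ : ℕ, ∀ g : ℕ, g₀ ≤ g → ∀ d : ℕ, 2500 ≤ d → d ^ 50 ≤ g ^ 17 →
    ∀ (G : Type) [Group G] [Fintype G] (ρ : G →* Matrix (Fin d) (Fin d) ℤ) (c : G) (N : ℕ),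
    AI ρ c N → Fintype.card G ≤ 2 * g → ∀ (S : Type) [Fintype S] (s : S → G), Eqd c s g →
    (NSing ρ s : ℝ) ≤ 2 ^ g * (1 / (g : ℝ) ^ 2) := by
  obtain ⟨g₁, h1⟩ := prime_exists
  obtain ⟨g₂, h2⟩ := num_A
  refine ⟨max g₁ g₂, ?_⟩
  intro g hg d hd hdg G _ _ ρ c N hA hG S _ s hE
  obtain ⟨l, hl, hl2, hlG, hl3, hl4⟩ := h1 g ((le_max_left _ _).trans hg) (Fintype.card G)
    Fintype.card_pos hG
  haveI : Fact l.Prime := ⟨hl⟩
  obtain ⟨r, hr, h, k, c1, c2, c3, c4, c5, c6⟩ :=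
    h2 g ((le_max_right _ _).trans hg) d hd hdg l hl.two_le hl3 hl4
  refine (nsing_prime hA hE l hl2 hlG r hr h k c1 c2 c3 c4 c5).trans ?_
  exact mul_le_mul_of_nonneg_left c6 (by positivity)

end Pool.Agent.H9.EC
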