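import Mathlib

set_option autoImplicit false

/-!
The choice of the parameters in bounded dimension (module H9 EC NMB; Mathlib only, real analysis).

PROOF.  `δ = 1/(8 d³)`.  All constants `C` depend on `d, B` only; `g` is large.  By Bertrand let `p` be a prime,
`g^(1+δ) ≤ p ≤ 4 g^(1+δ)` (`n = ⌈g^(1+δ)⌉`, `Nat.exists_prime_lt_and_le_two_mul`); so `H + 2 < p` and `log p ≤ 3 log g`.
`r = √(4 d log p / g)` and `T = ⌈B p r / 2⌉`, so `1 ≤ T ≤ B p r` (`B p r / 2 ≥ 1`: `p r` is large), i.e. `T / p ≤ B r ≤ C (log g / g)^(1/2)` and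
`4 T² / p ≤ 4 B² p r² ≤ C g^δ log g`, `T ≤ g²` and `1 + log T ≤ 3 log g`.  So the second term is at most
`C (C g^δ log g + 1)^(d³) (log g / g)^(d/2) · 3 log g ≤ C g^(1/8) (log g)^(d³ + d + 1) g^(-3/2)` (as `d ≥ 3`), which is `≤ ε / (2 g)` for large `g`, and the
first is `2/(p-1) ≤ 4 g^(-1-δ) ≤ ε/(2 g)`.
-/

namespace Pool.Agent.H9.EC

open Filter Topology

private theorem nb_ev (δ C2 ε M : ℝ) (hδ : 0 < δ) (hε : 0 < ε) (hM : 0 < M) (H K : ℕ) :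
    ∀ᶠ x : ℝ in atTop, 4 ≤ x ∧ (H : ℝ) + 2 ≤ x ∧ M * Real.log x ≤ x ∧
      4 * x ^ (-δ) + C2 * (Real.log x ^ K / x ^ (3 / 8 : ℝ)) ≤ ε := by
  have h1 : Tendsto (fun x : ℝ => Real.log x ^ K / x ^ (3 / 8 : ℝ)) atTop (𝓝 0) := by
    have h2 := (isLittleO_log_rpow_rpow_atTop (K : ℝ) (s := 3 / 8) (by norm_num)).tendsto_div_nhds_zero
    refine h2.congr fun x => ?_
    rw [Real.rpow_natCast]
  have h3 : Tendsto (fun x : ℝ => 4 * x ^ (-δ) + C2 * (Real.log x ^ K / x ^ (3 / 8 : ℝ))) atTop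
      (𝓝 (4 * 0 + C2 * 0)) :=
    ((tendsto_rpow_neg_atTop hδ).const_mul 4).add (h1.const_mul C2)
  rw [mul_zero, mul_zero, add_zero] at h3
  have h4 := h3.eventually_le_const hε
  have h5 : ∀ᶠ x : ℝ in atTop, M * Real.log x ≤ x := by
    have h6 := Real.isLittleO_log_id_atTop.def (c := 1 / M) (by positivity)
    filter_upwards [h6, eventually_ge_atTop (1 : ℝ)] with x hx hx1
    rw [Real.norm_of_nonneg (Real.log_nonneg hx1), id, Real.norm_of_nonneg (by linarith)] at hx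
    calc M * Real.log x ≤ M * (1 / M * x) := mul_le_mul_of_nonneg_left hx hM.le
      _ = x := by field_simp
  filter_upwards [eventually_ge_atTop (4 : ℝ), eventually_ge_atTop ((H : ℝ) + 2), h5, h4]
    with x a1 a2 a3 a4
  exact ⟨a1, a2, a3, a4⟩

theorem num_B (d : ℕ) (hd : 3 ≤ d) (B H : ℕ) (hB : 1 ≤ B) (ε : ℝ) (hε : 0 < ε) :
    ∃ g₀ : ℕ, ∀ g : ℕ, g₀ ≤ g → ∃ p : ℕ, p.Prime ∧ H + 2 < p ∧ ∃ T : ℕ, 1 ≤ T ∧ ∃ r : ℝ, 0 ≤ r ∧
      B * p * r ≤ 2 * T ∧ 2 * d * Real.log p ≤ g / 2 * r ^ 2 ∧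
      2 / (p - 1 : ℝ) + 2 * d ^ 2 * 15 ^ (d - 1) * (4 * (T : ℝ) ^ 2 / p + 1) ^ (d ^ 3) *
        ((T : ℝ) / p) ^ d * (1 + Real.log T) ≤ ε / g := by
  have hd0 : (0 : ℝ) < d := Nat.cast_pos.2 (by omega)
  have hd3 : (3 : ℝ) ≤ d := by exact_mod_cast hd
  have hB1 : (1 : ℝ) ≤ B := by exact_mod_cast hB
  have hB0 : (0 : ℝ) < B := by linarith
  obtain ⟨δ, hδ⟩ : ∃ δ : ℝ, δ = 1 / (8 * (d : ℝ) ^ 3) := ⟨_, rfl⟩
  have hδ0 : 0 < δ := by rw [hδ]; positivity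
  have hδ1 : δ ≤ 1 := by
    rw [hδ, div_le_one (by positivity)]
    have : (1 : ℝ) ≤ (d : ℝ) ^ 3 := one_le_pow₀ (by linarith)
    linarith
  have hδd : δ * (d ^ 3 : ℕ) = 1 / 8 := by
    rw [hδ]
    push_cast
    field_simp
  obtain ⟨C1, hC1⟩ : ∃ C1 : ℝ, C1 = 192 * (B : ℝ) ^ 2 * d + 1 := ⟨_, rfl⟩
  have hC10 : 0 < C1 := by rw [hC1]; positivity
  obtain ⟨C2, hC2⟩ : ∃ C2 : ℝ, C2 = 2 * (d : ℝ) ^ 2 * 15 ^ (d - 1) * C1 ^ (d ^ 3) *
    ((B : ℝ) ^ 3 * (144 * (d : ℝ) ^ 2)) * 4 := ⟨_, rfl⟩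
  have hev := nb_ev δ C2 ε ((B : ℝ) ^ 2 * (12 * d)) hδ0 hε (by positivity) H (d ^ 3 + 3)
  have hev2 := (tendsto_natCast_atTop_atTop (R := ℝ)).eventually hev
  obtain ⟨g₀, hg₀⟩ := Filter.eventually_atTop.1 hev2
  refine ⟨g₀, fun g hg => ?_⟩
  obtain ⟨h4, hH, hM, hfin⟩ := hg₀ g hg
  obtain ⟨G, hG⟩ : ∃ G : ℝ, G = (g : ℝ) := ⟨_, rfl⟩
  rw [← hG] at h4 hH hM hfin ⊢
  have hG0 : 0 < G := by linarith
  obtain ⟨l, hl⟩ : ∃ l : ℝ, l = Real.log G := ⟨_, rfl⟩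
  rw [← hl] at hM hfin
  have he : Real.exp 1 ≤ 4 := by
    have := Real.exp_one_lt_d9
    linarith
  have hl1 : 1 ≤ l := by
    rw [hl, Real.le_log_iff_exp_le hG0]
    linarith
  have hl4 : Real.log 4 ≤ l := by
    rw [hl]
    exact Real.log_le_log (by norm_num) h4
  -- the power P = G ^ (1 + δ) = G * D
  obtain ⟨D, hD⟩ : ∃ D : ℝ, D = G ^ δ := ⟨_, rfl⟩
  have hD1 : 1 ≤ D := by
    rw [hD]
    exact Real.one_le_rpow (by linarith) hδ0.le
  have hD0 : 0 < D := by linarith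
  obtain ⟨P, hP⟩ : ∃ P : ℝ, P = G * D := ⟨_, rfl⟩
  have hGP : G ≤ P := by
    rw [hP]
    nlinarith
  have hP0 : 0 < P := by linarith
  have hlogP : Real.log P ≤ 2 * l := by
    rw [hP, Real.log_mul hG0.ne' hD0.ne', hD, Real.log_rpow hG0, ← hl]
    nlinarith
  have hn0 : ⌈P⌉₊ ≠ 0 := (Nat.ceil_pos.2 hP0).ne'
  obtain ⟨p, hp, hnp, hp2⟩ := Nat.exists_prime_lt_and_le_two_mul ⌈P⌉₊ hn0
  have hPp : P ≤ p := (Nat.le_ceil P).trans (by exact_mod_cast hnp.le)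
  have hp4 : (p : ℝ) ≤ 4 * P := by
    have h5 : (p : ℝ) ≤ 2 * (⌈P⌉₊ : ℝ) := by exact_mod_cast hp2
    have h6 := Nat.ceil_lt_add_one hP0.le
    linarith
  have hp0 : (0 : ℝ) < p := by linarith
  have hlp : Real.log p ≤ 3 * l := by
    calc Real.log p ≤ Real.log (4 * P) := Real.log_le_log hp0 hp4
      _ = Real.log 4 + Real.log P := Real.log_mul (by norm_num) hP0.ne'
      _ ≤ 3 * l := by linarith
  have hlp1 : 1 ≤ Real.log p := by
    have h5 : Real.log G ≤ Real.log p := Real.log_le_log hG0 (by linarith)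
    linarith
  obtain ⟨r, hr⟩ : ∃ r : ℝ, r = √(4 * d * Real.log p / G) := ⟨_, rfl⟩
  have hr0 : 0 ≤ r := by rw [hr]; exact Real.sqrt_nonneg _
  have hr2 : r ^ 2 = 4 * d * Real.log p / G := by
    rw [hr, Real.sq_sqrt (by positivity)]
  have hr2l : r ^ 2 ≤ 12 * d * l / G := by
    rw [hr2]
    refine div_le_div_of_nonneg_right ?_ hG0.le
    nlinarith
  have hBr : B * r ≤ 1 := by
    have h5 : (B * r) ^ 2 ≤ 1 := by
      rw [mul_pow]
      calc (B : ℝ) ^ 2 * r ^ 2 ≤ (B : ℝ) ^ 2 * (12 * d * l / G) :=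
            mul_le_mul_of_nonneg_left hr2l (by positivity)
        _ = ((B : ℝ) ^ 2 * (12 * d) * l) / G := by ring
        _ ≤ 1 := by
            rw [div_le_one hG0]
            exact hM
    exact (sq_le_one_iff₀ (by positivity)).1 h5
  have hpr : 2 ≤ p * r := by
    by_contra hcon
    push Not at hcon
    have h5 : (p * r) ^ 2 < 2 ^ 2 := by
      apply pow_lt_pow_left₀ hcon (by positivity)
      norm_num
    have h6 : (p * r) ^ 2 = 4 * d * Real.log p * ((p : ℝ) ^ 2 / G) := by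
      rw [mul_pow, hr2]
      ring
    have h7 : 1 ≤ (p : ℝ) ^ 2 / G := by
      rw [le_div_iff₀ hG0, one_mul]
      nlinarith
    have h8 : 4 ≤ 4 * d * Real.log p := by nlinarith
    nlinarith
  have hBpr : 2 ≤ B * p * r := by
    have h5 : p * r ≤ B * (p * r) := le_mul_of_one_le_left (by positivity) hB1
    linarith
  obtain ⟨T, hT⟩ : ∃ T : ℕ, T = ⌈B * p * r / 2⌉₊ := ⟨_, rfl⟩
  have hT1 : B * p * r / 2 ≤ T := by
    rw [hT]
    exact Nat.le_ceil _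
  have hT2 : (T : ℝ) ≤ B * p * r := by
    have h5 : (T : ℝ) < B * p * r / 2 + 1 := by
      rw [hT]
      exact Nat.ceil_lt_add_one (by positivity)
    linarith
  have hT1' : 1 ≤ T := by
    have h5 : (1 : ℝ) ≤ T := by linarith
    exact_mod_cast h5
  have hT0 : (0 : ℝ) < T := by
    have h5 : (1 : ℝ) ≤ T := by exact_mod_cast hT1'
    linarith
  have hTp : (T : ℝ) ≤ p := by
    calc (T : ℝ) ≤ B * p * r := hT2
      _ = p * (B * r) := by ring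
      _ ≤ p * 1 := mul_le_mul_of_nonneg_left hBr hp0.le
      _ = p := mul_one _
  have hTpB : (T : ℝ) / p ≤ B * r := by
    rw [div_le_iff₀ hp0]
    linarith
  have hTp0 : 0 ≤ (T : ℝ) / p := by positivity
  have hTp1 : (T : ℝ) / p ≤ 1 := hTpB.trans hBr
  have hs0 : 0 < √G := Real.sqrt_pos.2 hG0
  have hss : √G * √G = G := Real.mul_self_sqrt hG0.le
  have hdl : 1 ≤ 12 * d * l := by nlinarith
  have hr1 : r ≤ 12 * d * l / √G := by
    have h5 : r ^ 2 ≤ (12 * d * l / √G) ^ 2 := by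
      refine hr2l.trans ?_
      have h6 : (12 * d * l / √G) ^ 2 = (12 * d * l) * (12 * d * l) / G := by
        rw [div_pow, Real.sq_sqrt hG0.le]
        ring
      rw [h6]
      refine div_le_div_of_nonneg_right ?_ hG0.le
      nlinarith
    exact (pow_le_pow_iff_left₀ hr0 (by positivity) two_ne_zero).1 h5
  have hr3 : r ^ 3 ≤ 144 * (d : ℝ) ^ 2 * l ^ 2 / (G * √G) := by
    calc r ^ 3 = r ^ 2 * r := by ring
      _ ≤ (12 * d * l / G) * (12 * d * l / √G) :=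
          mul_le_mul hr2l hr1 hr0 (by positivity)
      _ = _ := by
          field_simp
          ring
  have hpow : ((T : ℝ) / p) ^ d ≤ (B : ℝ) ^ 3 * (144 * (d : ℝ) ^ 2 * l ^ 2 / (G * √G)) := by
    calc ((T : ℝ) / p) ^ d ≤ ((T : ℝ) / p) ^ 3 := pow_le_pow_of_le_one hTp0 hTp1 hd
      _ ≤ (B * r) ^ 3 := pow_le_pow_left₀ hTp0 hTpB 3
      _ = (B : ℝ) ^ 3 * r ^ 3 := by ring
      _ ≤ _ := mul_le_mul_of_nonneg_left hr3 (by positivity)
  have hA : 4 * (T : ℝ) ^ 2 / p + 1 ≤ C1 * (D * l) := by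
    have h5 : 4 * (T : ℝ) ^ 2 / p ≤ 192 * (B : ℝ) ^ 2 * d * (D * l) := by
      rw [div_le_iff₀ hp0]
      have h6 : (T : ℝ) ^ 2 ≤ (B * p * r) ^ 2 := pow_le_pow_left₀ hT0.le hT2 2
      have h7 : (B * p * r) ^ 2 = (B : ℝ) ^ 2 * (p : ℝ) ^ 2 * r ^ 2 := by ring
      have h8 : (p : ℝ) * r ^ 2 ≤ 48 * d * (D * l) := by
        calc (p : ℝ) * r ^ 2 ≤ (4 * P) * (12 * d * l / G) :=
              mul_le_mul hp4 hr2l (by positivity) (by positivity)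
          _ = 48 * d * (D * l) := by
              rw [hP]
              field_simp
              ring
      calc 4 * (T : ℝ) ^ 2 ≤ 4 * ((B : ℝ) ^ 2 * (p : ℝ) ^ 2 * r ^ 2) := by
            rw [← h7]
            linarith
        _ = 4 * (B : ℝ) ^ 2 * p * (p * r ^ 2) := by ring
        _ ≤ 4 * (B : ℝ) ^ 2 * p * (48 * d * (D * l)) :=
            mul_le_mul_of_nonneg_left h8 (by positivity)
        _ = 192 * (B : ℝ) ^ 2 * d * (D * l) * p := by ring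
    have h6 : 1 ≤ D * l := by nlinarith
    rw [hC1]
    linarith
  have hA2 : (4 * (T : ℝ) ^ 2 / p + 1) ^ (d ^ 3) ≤ C1 ^ (d ^ 3) * (G ^ (1 / 8 : ℝ) * l ^ (d ^ 3)) := by
    refine (pow_le_pow_left₀ (by positivity) hA (d ^ 3)).trans (le_of_eq ?_)
    rw [mul_pow, mul_pow]
    congr 2
    rw [hD, ← Real.rpow_natCast, ← Real.rpow_mul hG0.le, hδd]
  have hlT : 1 + Real.log T ≤ 4 * l := by
    have h5 : Real.log T ≤ Real.log p := Real.log_le_log hT0 hTp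
    linarith
  have hlT0 : 0 ≤ 1 + Real.log T := by
    have : 0 ≤ Real.log (T : ℝ) := Real.log_nonneg (by exact_mod_cast hT1')
    linarith
  have hpH : H + 2 < p := by
    have h5 : ((H + 2 : ℕ) : ℝ) ≤ ⌈P⌉₊ := by
      push_cast
      exact hH.trans (hGP.trans (Nat.le_ceil P))
    have h6 : H + 2 ≤ ⌈P⌉₊ := by exact_mod_cast h5
    omega
  refine ⟨p, hp, hpH, T, hT1', r, hr0, ?_, ?_, ?_⟩
  · linarith
  · rw [hr2]
    refine le_of_eq ?_
    field_simp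
    ring
  · have hfirst : 2 / (p - 1 : ℝ) ≤ 4 * G ^ (-δ) / G := by
      have h5 : (2 : ℝ) ≤ p := by exact_mod_cast hp.two_le
      have h6 : 2 / (p - 1 : ℝ) ≤ 4 / p := by
        rw [div_le_div_iff₀ (by linarith) hp0]
        linarith
      refine h6.trans ?_
      rw [Real.rpow_neg hG0.le, ← hD]
      have h7 : 4 * D⁻¹ / G = 4 / P := by
        rw [hP]
        field_simp
      rw [h7]
      exact div_le_div_of_nonneg_left (by norm_num) hP0 hPp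
    have hsecond : 2 * (d : ℝ) ^ 2 * 15 ^ (d - 1) * (4 * (T : ℝ) ^ 2 / p + 1) ^ (d ^ 3) *
        ((T : ℝ) / p) ^ d * (1 + Real.log T) ≤
        C2 * (l ^ (d ^ 3 + 3) / G ^ (3 / 8 : ℝ)) / G := by
      have hG8 : 0 < G ^ (1 / 8 : ℝ) := Real.rpow_pos_of_pos hG0 _
      have hG38 : 0 < G ^ (3 / 8 : ℝ) := Real.rpow_pos_of_pos hG0 _
      have hrel : G ^ (1 / 8 : ℝ) * G ^ (3 / 8 : ℝ) = √G := by
        rw [← Real.rpow_add hG0, Real.sqrt_eq_rpow]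
        norm_num
      calc 2 * (d : ℝ) ^ 2 * 15 ^ (d - 1) * (4 * (T : ℝ) ^ 2 / p + 1) ^ (d ^ 3) *
          ((T : ℝ) / p) ^ d * (1 + Real.log T)
          ≤ 2 * (d : ℝ) ^ 2 * 15 ^ (d - 1) * (C1 ^ (d ^ 3) * (G ^ (1 / 8 : ℝ) * l ^ (d ^ 3))) *
            ((B : ℝ) ^ 3 * (144 * (d : ℝ) ^ 2 * l ^ 2 / (G * √G))) * (4 * l) := by
            gcongr
        _ = C2 * (l ^ (d ^ 3 + 3) / G ^ (3 / 8 : ℝ)) / G := by
            rw [hC2, ← hrel, pow_add]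
            field_simp
    calc _ ≤ 4 * G ^ (-δ) / G + C2 * (l ^ (d ^ 3 + 3) / G ^ (3 / 8 : ℝ)) / G :=
          add_le_add hfirst hsecond
      _ = (4 * G ^ (-δ) + C2 * (l ^ (d ^ 3 + 3) / G ^ (3 / 8 : ℝ))) / G := by ring
      _ ≤ ε / G := div_le_div_of_nonneg_right hfin hG0.le

end Pool.Agent.H9.EC
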