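import Pool.Agent.H9.EC.PB
import Pool.Agent.H9.EC.NumB

set_option autoImplicit false

/-!
Chapter B: bounded dimension `d ≥ 3`, bounded entries and bounded group (module H9 EC CHB).

PROOF.  `num_B` with `B = max 1 (K H)`, `nsing_bdd` (a prime `p > H + 2` is odd and does not divide `|G| ≤ H`;
`K |G| p r ≤ B p r`).
-/

namespace Pool.Agent.H9.EC

open Finset Matrix

theorem chB0 (d : ℕ) (hd : 3 ≤ d) (K H : ℕ) (ε : ℝ) (hε : 0 < ε) : ∃ g₀ : ℕ, ∀ g : ℕ, g₀ ≤ g →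
    ∀ (G : Type) [Group G] [Fintype G] (ρ : G →* Matrix (Fin d) (Fin d) ℤ) (c : G) (N : ℕ),
    AI ρ c N → Fintype.card G ≤ H → (∀ γ i j, |ρ γ i j| ≤ (K : ℤ)) →
    ∀ (S : Type) [Fintype S] (s : S → G), Eqd c s g →
    (NSing ρ s : ℝ) ≤ 2 ^ g * (ε / g) := by
  obtain ⟨g₀, h⟩ := num_B d hd (max 1 (K * H)) H (le_max_left _ _) ε hε
  refine ⟨g₀, fun g hg G _ _ ρ c N hA hH hK S _ s hE => ?_⟩
  obtain ⟨p, hp, hHp, T, hT, r, hr, h1, h2, h3⟩ := h g hg
  haveI : Fact p.Prime := ⟨hp⟩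
  have hpG : ¬ p ∣ Fintype.card G := by
    intro hdv
    have := Nat.le_of_dvd Fintype.card_pos hdv
    omega
  have hKG : (K * Fintype.card G : ℝ) ≤ (max 1 (K * H) : ℕ) := by
    have h4 : K * Fintype.card G ≤ max 1 (K * H) :=
      (Nat.mul_le_mul_left K hH).trans (le_max_right _ _)
    exact_mod_cast h4
  have hT2 : (K * Fintype.card G * p * r : ℝ) ≤ 2 * T := by
    refine le_trans ?_ h1
    exact mul_le_mul_of_nonneg_right
      (mul_le_mul_of_nonneg_right hKG (Nat.cast_nonneg p)) hr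
  refine (nsing_bdd (by omega) hA K hK hE p (by omega) hpG T hT r hr hT2 h2).trans ?_
  exact mul_le_mul_of_nonneg_left h3 (by positivity)

end Pool.Agent.H9.EC
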