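import Pool.Agent.H9.EC.PC

set_option autoImplicit false

/-!
Chapter C: dimension two, bounded entries and bounded group (module H9 EC CHC).

PROOF.  `B = max 1 (K H)`.  For `g` large let `t = g / (8 B² log g)` and, by Bertrand (`Nat.exists_prime_lt_and_le_two_mul`), `p` a prime
with `⌊t⌋ < p ≤ 2 ⌊t⌋`; for `g ≥ g₀` it is larger than `H + 2`, so it is odd and does not divide `|G| ≤ H` (nor is it `2`).
`hp3`: `2 log p (K |G|)² p ≤ 2 log g · B² · 2 t = g / 2 ≤ g` (`p ≤ g`).  `nsing_two` (with `max 1 K` in place of `K`) gives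
`NSing ≤ 2^g (2/(p-1) + 72 (1 + log g) B² / g)`, `p - 1 ≥ t - 1 ≥ t/2`, so `2/(p-1) ≤ 4/t = 32 B² log g / g`; and `1 + log g ≤ 2 log g`.
`C = 32 B² + 144 B²`.
-/

namespace Pool.Agent.H9.EC

open Finset Matrix

private theorem chC_ev (D : ℝ) (hD : 0 < D) : ∃ g₀ : ℕ, ∀ g : ℕ, g₀ ≤ g →
    1 ≤ Real.log g ∧ D * Real.log g ≤ g := by
  have h1 : ∀ᶠ x : ℝ in Filter.atTop, ‖Real.log x‖ ≤ D⁻¹ * ‖id x‖ :=
    Real.isLittleO_log_id_atTop.def (inv_pos.2 hD)
  have h2 : ∀ᶠ g : ℕ in Filter.atTop, ‖Real.log (g : ℝ)‖ ≤ D⁻¹ * ‖id (g : ℝ)‖ :=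
    tendsto_natCast_atTop_atTop.eventually h1
  have h3 : ∀ᶠ g : ℕ in Filter.atTop, 1 ≤ Real.log (g : ℝ) :=
    tendsto_natCast_atTop_atTop.eventually (Real.tendsto_log_atTop.eventually_ge_atTop 1)
  obtain ⟨g₀, hg⟩ := Filter.eventually_atTop.1 (h2.and h3)
  refine ⟨g₀, fun g hgg => ⟨(hg g hgg).2, ?_⟩⟩
  have h4 := (hg g hgg).1
  have h5 : Real.log (g : ℝ) ≤ D⁻¹ * g := by
    refine (Real.le_norm_self _).trans (h4.trans (le_of_eq ?_))
    rw [id, Real.norm_of_nonneg (Nat.cast_nonneg g)]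
  calc D * Real.log g ≤ D * (D⁻¹ * g) := mul_le_mul_of_nonneg_left h5 hD.le
    _ = g := by rw [← mul_assoc, mul_inv_cancel₀ hD.ne', one_mul]

theorem chC0 (K H : ℕ) : ∃ C : ℝ, ∃ g₀ : ℕ, ∀ g : ℕ, g₀ ≤ g →
    ∀ (G : Type) [Group G] [Fintype G] (ρ : G →* Matrix (Fin 2) (Fin 2) ℤ) (c : G) (N : ℕ),
    AI ρ c N → Fintype.card G ≤ H → (∀ γ i j, |ρ γ i j| ≤ (K : ℤ)) →
    ∀ (S : Type) [Fintype S] (s : S → G), Eqd c s g →
    (NSing ρ s : ℝ) ≤ 2 ^ g * (C * Real.log g / g) := by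
  have hBpos : (1 : ℝ) ≤ max 1 (((max 1 K : ℕ) : ℝ) * H) := le_max_left _ _
  set B : ℝ := max 1 (((max 1 K : ℕ) : ℝ) * H) with hB
  have hB0 : 0 < B := by linarith
  obtain ⟨g₀, hg₀⟩ := chC_ev (8 * B ^ 2 * (H + 3)) (by positivity)
  refine ⟨176 * B ^ 2, g₀, ?_⟩
  intro g hg G _ _ ρ c N hAI hcard hK S _ s hE
  obtain ⟨hlog, hbig⟩ := hg₀ g hg
  have hg1 : (1 : ℝ) ≤ g := by exact_mod_cast hE.pos
  have hg0 : (0 : ℝ) < g := by linarith
  have hlog0 : 0 < Real.log g := by linarith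
  have hB1 : 1 ≤ B ^ 2 := one_le_pow₀ hBpos
  set t : ℝ := g / (8 * B ^ 2 * Real.log g) with ht
  have hden : 0 < 8 * B ^ 2 * Real.log g := by positivity
  have htH : (H : ℝ) + 3 ≤ t := by
    rw [ht, le_div_iff₀ hden]
    refine le_trans (le_of_eq ?_) hbig
    ring
  have hH0 : (0 : ℝ) ≤ H := Nat.cast_nonneg H
  have ht0 : 0 ≤ t := by linarith
  have hn1 : H + 3 ≤ ⌊t⌋₊ := Nat.le_floor (by push_cast; exact htH)
  obtain ⟨p, hp, hp1, hp2⟩ := Nat.exists_prime_lt_and_le_two_mul ⌊t⌋₊ (by omega)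
  have : Fact p.Prime := ⟨hp⟩
  have hpt : (p : ℝ) ≤ 2 * t := by
    have h1 : (p : ℝ) ≤ 2 * (⌊t⌋₊ : ℝ) := by exact_mod_cast hp2
    have h2 := Nat.floor_le ht0
    linarith
  have hpt2 : t < p := by
    have h1 := Nat.lt_floor_add_one t
    have h2 : ((⌊t⌋₊ : ℝ) + 1) ≤ p := by exact_mod_cast hp1
    linarith
  have hp0 : (0 : ℝ) < p := by linarith
  have hGpos : 0 < Fintype.card G := Fintype.card_pos
  have hndvd : ¬ p ∣ Fintype.card G := by
    intro hd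
    have := Nat.le_of_dvd hGpos hd
    omega
  have hmul : t * (8 * B ^ 2 * Real.log g) = g := by
    rw [ht, div_mul_cancel₀ _ hden.ne']
  have hKG : ((max 1 K : ℕ) : ℝ) * (Fintype.card G : ℝ) ≤ B := by
    refine le_trans ?_ (le_max_right _ _)
    exact mul_le_mul_of_nonneg_left (by exact_mod_cast hcard) (Nat.cast_nonneg _)
  have hKG0 : 0 ≤ ((max 1 K : ℕ) : ℝ) * (Fintype.card G : ℝ) := by positivity
  have hKG2 : (((max 1 K : ℕ) : ℝ) * (Fintype.card G : ℝ)) ^ 2 ≤ B ^ 2 :=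
    pow_le_pow_left₀ hKG0 hKG 2
  have hpg : (p : ℝ) ≤ g := by
    have h1 : 2 * t ≤ t * (8 * B ^ 2 * Real.log g) := by nlinarith [mul_le_mul hB1 hlog (by norm_num) (by positivity)]
    linarith
  have hlp : Real.log p ≤ Real.log g := Real.log_le_log hp0 hpg
  have hlp0 : 0 ≤ Real.log p := Real.log_nonneg (by
    have : (1 : ℝ) ≤ p := by exact_mod_cast hp.one_le
    exact this)
  have hp3 : 2 * Real.log p * ((((max 1 K : ℕ) : ℝ) * Fintype.card G) ^ 2 * p) ≤ g := by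
    calc 2 * Real.log p * ((((max 1 K : ℕ) : ℝ) * Fintype.card G) ^ 2 * p)
        ≤ 2 * Real.log g * (B ^ 2 * (2 * t)) := by
          refine mul_le_mul (by linarith) ?_ (by positivity) (by positivity)
          exact mul_le_mul hKG2 hpt hp0.le (by positivity)
      _ = t * (8 * B ^ 2 * Real.log g) / 2 := by ring
      _ = g / 2 := by rw [hmul]
      _ ≤ g := by linarith
  have hK2 : ∀ γ i j, |ρ γ i j| ≤ ((max 1 K : ℕ) : ℤ) := fun γ i j =>
    (hK γ i j).trans (by exact_mod_cast le_max_right 1 K)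
  have key := nsing_two hAI (max 1 K) (le_max_left _ _) hK2 hE p (by omega) hndvd hp3
  refine key.trans (mul_le_mul_of_nonneg_left ?_ (by positivity))
  have hb1 : 2 / ((p : ℝ) - 1) ≤ 32 * B ^ 2 * Real.log g / g := by
    have h1 : t / 2 ≤ (p : ℝ) - 1 := by linarith
    have h2 : 0 < t / 2 := by linarith
    calc 2 / ((p : ℝ) - 1) ≤ 2 / (t / 2) := div_le_div_of_nonneg_left (by norm_num) h2 h1
      _ = 32 * B ^ 2 * Real.log g / g := by
          rw [ht]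
          field_simp
          norm_num
  have hb2 : 72 * (1 + Real.log p) * (((max 1 K : ℕ) : ℝ) * Fintype.card G) ^ 2 / g ≤
      144 * B ^ 2 * Real.log g / g := by
    refine div_le_div_of_nonneg_right ?_ hg0.le
    calc 72 * (1 + Real.log p) * (((max 1 K : ℕ) : ℝ) * Fintype.card G) ^ 2
        ≤ 72 * (2 * Real.log g) * B ^ 2 := by
          refine mul_le_mul (by linarith) hKG2 (by positivity) (by positivity)
      _ = 144 * B ^ 2 * Real.log g := by ring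
  calc _ ≤ 32 * B ^ 2 * Real.log g / g + 144 * B ^ 2 * Real.log g / g := add_le_add hb1 hb2
    _ = 176 * B ^ 2 * Real.log g / g := by ring

end Pool.Agent.H9.EC
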