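import Pool.Agent.H9.EC.Defs

set_option autoImplicit false

/-!
Minkowski's bound for finite groups of integer matrices (module H9 EC MNK).

PROOF.  The map `γ ↦ rm 3 (ρ γ)` is injective, so `|G| ≤ 3^(d²)`: if not, there is `γ ≠ 1` in `G` with `ρ γ ≡ 1` modulo `3`
(`rm 3` is a monoid homomorphism: quotient of two elements with equal image), and a power of it has prime order `q`
(`orderOf`, `exists_prime_orderOf_dvd_card` in the subgroup of all such `γ`, or `γ^(n/q)`), still with `ρ γ ≡ 1` modulo `3`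
and `ρ γ ≠ 1` (injectivity).  Write `ρ γ = 1 + 3^s B` with `s ≥ 1` and `B` not divisible by `3` (an integer matrix `≠ 0` has a
largest power of `3` dividing all its entries).  `(1 + 3^s B)^q = 1` gives `∑_{i ≥ 1} choose(q, i) 3^(s i) B^i = 0`
(`Commute.add_pow` / `add_pow`).  If `q ≠ 3`: modulo `3^(s+1)` only the term `i = 1` remains: `q 3^s B ≡ 0`, so `3 ∣ B`.  If `q = 3`:
`3^(s+1) B + 3^(2s+1) B² + 3^(3s) B³ = 0`; `2 s + 1, 3 s ≥ s + 2`, so modulo `3^(s+2)`: `3^(s+1) B ≡ 0` and `3 ∣ B`.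
Contradiction.
-/

namespace Pool.Agent.H9.EC

open Finset Matrix

private theorem bin {d : ℕ} (n : ℕ) (X : Matrix (Fin d) (Fin d) ℤ) :
    ∃ Z : Matrix (Fin d) (Fin d) ℤ, (1 + X) ^ n = 1 + (n : ℤ) • X + X ^ 2 * Z := by
  induction n with
  | zero => exact ⟨0, by simp⟩
  | succ n ih =>
    obtain ⟨Z, hZ⟩ := ih
    refine ⟨(n : ℤ) • 1 + Z * (1 + X), ?_⟩
    rw [pow_succ, hZ]
    have h1 : ((n + 1 : ℕ) : ℤ) • X = (n : ℤ) • X + X := by
      rw [Nat.cast_add, add_smul, Nat.cast_one, one_smul]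
    rw [h1]
    simp only [add_mul, mul_add, mul_one, one_mul, Matrix.mul_smul, Matrix.smul_mul, pow_two,
      Matrix.mul_assoc]
    abel

private theorem step {d : ℕ} {q s : ℕ} (hq : q.Prime) (hs : 1 ≤ s) (A B : Matrix (Fin d) (Fin d) ℤ)
    (hA : A ^ q = 1) (hB : A = 1 + (3 : ℤ) ^ s • B) : ∃ C, A = 1 + (3 : ℤ) ^ (s + 1) • C := by
  suffices h : ∃ C : Matrix (Fin d) (Fin d) ℤ, B = (3 : ℤ) • C by
    obtain ⟨C, hC⟩ := h
    refine ⟨C, ?_⟩
    rw [hB, hC, smul_smul, pow_succ]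
  obtain ⟨t, rfl⟩ : ∃ t, s = t + 1 := ⟨s - 1, by omega⟩
  by_cases h3 : q = 3
  · subst h3
    rw [hB] at hA
    have h1 : (3 : ℤ) ^ (t + 2) • (B + (3 : ℤ) • ((3 : ℤ) ^ t • (B * B) +
        (3 : ℤ) ^ (2 * t) • (B * B * B))) = 0 := by
      have h2 : ((1 : Matrix (Fin d) (Fin d) ℤ) + (3 : ℤ) ^ (t + 1) • B) ^ 3 =
          1 + (3 : ℤ) ^ (t + 2) • (B + (3 : ℤ) • ((3 : ℤ) ^ t • (B * B) +
            (3 : ℤ) ^ (2 * t) • (B * B * B))) := by
        have h4 : ((1 : Matrix (Fin d) (Fin d) ℤ) + (3 : ℤ) ^ (t + 1) • B) ^ 3 =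
          1 + (3 : ℤ) • ((3 : ℤ) ^ (t + 1) • B) + (3 : ℤ) • (((3 : ℤ) ^ (t + 1) • B) *
            ((3 : ℤ) ^ (t + 1) • B)) + (((3 : ℤ) ^ (t + 1) • B) *
            ((3 : ℤ) ^ (t + 1) • B)) * ((3 : ℤ) ^ (t + 1) • B) := by
          generalize (3 : ℤ) ^ (t + 1) • B = X
          have h5 : (3 : ℤ) • X = X + X + X := by
            rw [show (3 : ℤ) = 1 + 1 + 1 by norm_num, add_smul, add_smul, one_smul]
          have h6 : (3 : ℤ) • (X * X) = X * X + X * X + X * X := by
            rw [show (3 : ℤ) = 1 + 1 + 1 by norm_num, add_smul, add_smul, one_smul]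
          rw [h5, h6, pow_succ, pow_two]
          simp only [add_mul, mul_add, mul_one, one_mul]
          abel
        rw [h4]
        simp only [Matrix.smul_mul, Matrix.mul_smul, smul_smul, smul_add]
        rw [add_assoc, add_assoc]
        congr 2
        · congr 1; ring
        · congr 2 <;> ring
      rw [h2] at hA
      exact add_eq_left.mp hA
    rw [smul_eq_zero] at h1
    rcases h1 with h1 | h1
    · exact absurd h1 (by positivity)
    · refine ⟨-((3 : ℤ) ^ t • (B * B) + (3 : ℤ) ^ (2 * t) • (B * B * B)), ?_⟩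
      rw [smul_neg]
      exact eq_neg_of_add_eq_zero_left h1
  · obtain ⟨Z, hZ⟩ := bin q ((3 : ℤ) ^ (t + 1) • B)
    rw [← hB, hA] at hZ
    have h1 : (3 : ℤ) ^ (t + 1) • ((q : ℤ) • B + (3 : ℤ) • ((3 : ℤ) ^ t • (B * B * Z))) = 0 := by
      have h2 : (3 : ℤ) ^ (t + 1) • ((q : ℤ) • B + (3 : ℤ) • ((3 : ℤ) ^ t • (B * B * Z))) =
          (q : ℤ) • ((3 : ℤ) ^ (t + 1) • B) + ((3 : ℤ) ^ (t + 1) • B) ^ 2 * Z := by
        rw [pow_two]
        simp only [Matrix.smul_mul, Matrix.mul_smul, smul_smul, smul_add]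
        congr 2 <;> ring
      rw [h2]
      rw [add_assoc] at hZ
      exact (add_eq_left.mp hZ.symm)
    rw [smul_eq_zero] at h1
    rcases h1 with h1 | h1
    · exact absurd h1 (by positivity)
    · have h4 : ∀ i j, (3 : ℤ) ∣ B i j := by
        intro i j
        have h5 := congrFun (congrFun h1 i) j
        simp only [Matrix.add_apply, Matrix.smul_apply, smul_eq_mul, Matrix.zero_apply] at h5
        have h6 : (3 : ℤ) ∣ (q : ℤ) * B i j := by
          refine ⟨-((3 : ℤ) ^ t * (B * B * Z) i j), ?_⟩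
          linarith
        have h7 : IsCoprime (3 : ℤ) (q : ℤ) := by
          have h8 : Nat.Coprime 3 q := (Nat.coprime_primes Nat.prime_three hq).mpr (Ne.symm h3)
          exact_mod_cast Nat.isCoprime_iff_coprime.mpr h8
        exact h7.dvd_of_dvd_mul_left h6
      choose C hC using h4
      refine ⟨Matrix.of C, ?_⟩
      ext i j
      rw [hC i j]
      simp

private theorem all {d : ℕ} {q : ℕ} (hq : q.Prime) (A B : Matrix (Fin d) (Fin d) ℤ)
    (hA : A ^ q = 1) (hB : A = 1 + (3 : ℤ) • B) (s : ℕ) : ∃ C, A = 1 + (3 : ℤ) ^ (s + 1) • C := by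
  induction s with
  | zero => exact ⟨B, by rw [zero_add, pow_one]; exact hB⟩
  | succ s ih =>
    obtain ⟨C, hC⟩ := ih
    exact step hq (by omega) A C hA hC

private theorem one_of {d : ℕ} {q : ℕ} (hq : q.Prime) (A B : Matrix (Fin d) (Fin d) ℤ)
    (hA : A ^ q = 1) (hB : A = 1 + (3 : ℤ) • B) : A = 1 := by
  rw [← sub_eq_zero]
  ext i j
  obtain ⟨C, hC⟩ := all hq A B hA hB ((A - 1) i j).natAbs
  rw [Matrix.zero_apply]
  refine Int.eq_zero_of_abs_lt_dvd (m := (3 : ℤ) ^ (((A - 1) i j).natAbs + 1)) ?_ ?_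
  · have h1 : A - 1 = (3 : ℤ) ^ (((A - 1) i j).natAbs + 1) • C := by
      nth_rewrite 1 [hC]
      abel
    have h2 := congrFun (congrFun h1 i) j
    rw [Matrix.smul_apply, smul_eq_mul] at h2
    exact ⟨_, h2⟩
  · rw [Int.abs_eq_natAbs]
    generalize ((A - 1) i j).natAbs = k
    have h1 : k < 3 ^ (k + 1) :=
      (Nat.lt_pow_self (by norm_num : 1 < 3)).trans_le (Nat.pow_le_pow_right (by norm_num) (by omega))
    exact_mod_cast h1

theorem card_le_mink {d : ℕ} {G : Type} [Group G] [Fintype G] (ρ : G →* Matrix (Fin d) (Fin d) ℤ)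
    (hi : Function.Injective ρ) : Fintype.card G ≤ 3 ^ (d * d) := by
  classical
  let φ : G →* Matrix (Fin d) (Fin d) (ZMod 3) :=
    ((Int.castRingHom (ZMod 3)).mapMatrix.toMonoidHom).comp ρ
  have hφ : Function.Injective φ := by
    rw [injective_iff_map_eq_one]
    intro γ hγ
    by_contra h1
    have h2 : orderOf γ ≠ 1 := by
      rw [Ne, orderOf_eq_one_iff]; exact h1
    obtain ⟨q, hq, hqd⟩ := Nat.exists_prime_and_dvd h2
    have h3 : 0 < orderOf γ := orderOf_pos γ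
    obtain ⟨k, hk⟩ := hqd
    have h4 : (γ ^ k) ^ q = 1 := by
      rw [← pow_mul, mul_comm, ← hk, pow_orderOf_eq_one]
    have h5 : γ ^ k ≠ 1 := by
      intro h6
      have h7 := orderOf_dvd_of_pow_eq_one h6
      have hk0 : 0 < k := by
        rcases Nat.eq_zero_or_pos k with h8 | h8
        · rw [h8, mul_zero] at hk; omega
        · exact h8
      have h8 := Nat.le_of_dvd hk0 h7
      have h9 := hq.two_le
      nlinarith
    apply h5
    apply hi
    rw [map_one]
    have h6 : φ (γ ^ k) = 1 := by rw [map_pow, hγ, one_pow]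
    have h7 : ∀ i j, (3 : ℤ) ∣ (ρ (γ ^ k) - 1) i j := by
      intro i j
      have h8 := congrFun (congrFun h6 i) j
      have h9 : (((ρ (γ ^ k) - 1) i j : ℤ) : ZMod 3) = 0 := by
        have h10 : ((ρ (γ ^ k) i j : ℤ) : ZMod 3) = (1 : Matrix (Fin d) (Fin d) (ZMod 3)) i j := h8
        rw [Matrix.sub_apply, Int.cast_sub, h10, Matrix.one_apply, Matrix.one_apply]
        split_ifs <;> simp
      exact (ZMod.intCast_zmod_eq_zero_iff_dvd _ 3).mp h9
    choose C hC using h7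
    refine one_of hq (ρ (γ ^ k)) (Matrix.of C) ?_ ?_
    · rw [← map_pow, h4, map_one]
    · have h8 : ρ (γ ^ k) - 1 = (3 : ℤ) • Matrix.of C := by
        ext i j
        rw [hC i j]
        simp
      rw [← h8]
      abel
  refine (Fintype.card_le_of_injective φ hφ).trans (le_of_eq ?_)
  have h1 : Fintype.card (Matrix (Fin d) (Fin d) (ZMod 3)) =
      Fintype.card (Fin d → Fin d → ZMod 3) := rfl
  rw [h1]
  simp only [Fintype.card_pi, ZMod.card, prod_const, card_univ, Fintype.card_fin]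
  rw [← pow_mul]

end Pool.Agent.H9.EC
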