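import Pool.Agent.H9.EC.FinR

set_option autoImplicit false

/-!
The same uniformly in the group (module H9 EC UNK).

PROOF.  For every `n ≤ H` there are finitely many group structures on `Fin n` (a group structure is determined by its
multiplication: `Group.ext`, an injection into `Fin n → Fin n → Fin n`); `K` = the maximum (or the sum) of the numbers of
`fin_reps` for all of them (`Fin n` with each structure, its canonical `Fintype`).  A group `G` with `card G = n` is isomorphic to `Fin n` with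
the structure transported by `e : G ≃ Fin n` (`Fintype.equivFin`, `Equiv.group`, `Equiv.mulEquiv`); transport `ρ` by
`ρ ∘ e⁻¹` (`MonoidHom.comp`), apply `fin_reps`, and transport back (`AI` and the bounds are invariant: reindex the sums by `e`).
-/

namespace Pool.Agent.H9.EC

open Finset Matrix

private theorem ai_comp {d : ℕ} {G G' : Type} [Group G] [Fintype G] [Group G'] [Fintype G']
    (e : G' ≃* G) {ρ : G →* Matrix (Fin d) (Fin d) ℤ} {c : G} {N : ℕ} (h : AI ρ c N) :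
    AI (ρ.comp e.toMonoidHom) (e.symm c) N := by
  refine ⟨?_, ?_, ?_⟩
  · rw [h.card]
    exact Fintype.card_congr e.symm.toEquiv
  · intro i j k l
    rw [← h.schur i j k l]
    refine Fintype.sum_equiv e.toEquiv _ _ fun γ => ?_
    change ρ (e γ⁻¹) i j * ρ (e γ) k l = ρ (e γ)⁻¹ i j * ρ (e γ) k l
    rw [map_inv]
  · change ρ (e (e.symm c)) = -1
    rw [e.apply_symm_apply]
    exact h.neg

private theorem transfer {d K : ℕ} {G G' : Type} [Group G] [Fintype G] [Group G'] [Fintype G']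
    (e : G' ≃* G) (hK : ∀ (ρ : G' →* Matrix (Fin d) (Fin d) ℤ) (c : G') (N : ℕ), AI ρ c N →
      ∃ ρ' : G' →* Matrix (Fin d) (Fin d) ℤ, AI ρ' c N ∧ (∀ γ i j, |ρ' γ i j| ≤ (K : ℤ)) ∧
        Eqv ρ ρ') (ρ : G →* Matrix (Fin d) (Fin d) ℤ) (c : G) (N : ℕ) (h : AI ρ c N) :
    ∃ ρ' : G →* Matrix (Fin d) (Fin d) ℤ, AI ρ' c N ∧ (∀ γ i j, |ρ' γ i j| ≤ (K : ℤ)) ∧
      Eqv ρ ρ' := by
  obtain ⟨ρ1, h1, h2, P, hP, h3⟩ := hK _ _ _ (ai_comp e h)
  refine ⟨ρ1.comp e.symm.toMonoidHom, ?_, ?_, P, hP, ?_⟩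
  · have h4 := ai_comp e.symm h1
    rwa [e.symm_symm, e.apply_symm_apply] at h4
  · intro γ i j
    exact h2 (e.symm γ) i j
  · intro γ
    have h4 := h3 (e.symm γ)
    change P * ρ (e (e.symm γ)) = ρ1 (e.symm γ) * P at h4
    rw [e.apply_symm_apply] at h4
    exact h4

private theorem fin_groups (n : ℕ) : Finite (Group (Fin n)) := by
  refine Finite.of_injective (β := Fin n → Fin n → Fin n) (fun i => i.mul) ?_
  intro g g' h
  apply Group.ext
  ext x y
  exact congrArg Fin.val (congrFun (congrFun h x) y)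

theorem uni_reps (d H : ℕ) : ∃ K : ℕ, ∀ (G : Type) [Group G] [Fintype G], Fintype.card G ≤ H →
    ∀ (ρ : G →* Matrix (Fin d) (Fin d) ℤ) (c : G) (N : ℕ), AI ρ c N →
      ∃ ρ' : G →* Matrix (Fin d) (Fin d) ℤ, AI ρ' c N ∧ (∀ γ i j, |ρ' γ i j| ≤ (K : ℤ)) ∧
        Eqv ρ ρ' := by
  have : ∀ n : Fin (H + 1), Finite (Group (Fin n)) := fun n => fin_groups n
  choose F hF using fun (x : Σ n : Fin (H + 1), Group (Fin n)) => @fin_reps (Fin x.1) x.2 _ d
  obtain ⟨K, hK⟩ := (Set.finite_range F).bddAbove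
  refine ⟨K, ?_⟩
  intro G _ _ hG ρ c N h
  let e0 : Fin (Fintype.card G) ≃ G := (Fintype.equivFin G).symm
  let i0 : Group (Fin (Fintype.card G)) := e0.group
  let e : @MulEquiv (Fin (Fintype.card G)) G i0.toDivInvMonoid.toMonoid.toMulOneClass.toMul _ :=
    @Equiv.mulEquiv _ _ e0 _
  refine @transfer d K G (Fin (Fintype.card G)) _ _ i0 _ e ?_ ρ c N h
  intro ρ1 c1 N1 h1
  have h2 : F ⟨⟨Fintype.card G, Nat.lt_succ_of_le hG⟩, i0⟩ ≤ K := hK ⟨_, rfl⟩
  obtain ⟨ρ', h3, h4, h5⟩ := hF ⟨⟨Fintype.card G, Nat.lt_succ_of_le hG⟩, i0⟩ ρ1 c1 N1 h1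
  refine ⟨ρ', h3, fun γ i j => (h4 γ i j).trans ?_, h5⟩
  exact_mod_cast h2

end Pool.Agent.H9.EC
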