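import Pool.Agent.H9.EC.ChB
import Pool.Agent.H9.EC.ChC
import Pool.Agent.H9.EC.Mink
import Pool.Agent.H9.EC.UniK

set_option autoImplicit false

/-!
Chapters B and C for faithful representations (module H9 EC CBC).

PROOF.  `nsing_eqv`: `P * mat ρ s f = mat ρ' s f * P` (sum over `x`), so the determinants of `mat ρ s f` and `mat ρ' s f` are equal
(cancel `det P`): the two sets of `f` are equal.  `chB`, `chC`: `|G| ≤ H = 3^(d²)` by `card_le_mink`, `uni_reps d H` gives `K`, then `chB0`, `chC0` for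
`ρ'`, and `nsing_eqv`.
-/

namespace Pool.Agent.H9.EC

open Finset Matrix

theorem nsing_eqv {d : ℕ} {G : Type} [Group G] [Fintype G] {ρ ρ' : G →* Matrix (Fin d) (Fin d) ℤ}
    (h : Eqv ρ ρ') {S : Type} [Fintype S] (s : S → G) : NSing ρ s = NSing ρ' s := by
  obtain ⟨P, hP, hc⟩ := h
  have hm : ∀ f : S → Bool, P * mat ρ s f = mat ρ' s f * P := by
    intro f
    unfold mat
    rw [Finset.mul_sum, Finset.sum_mul]
    refine Finset.sum_congr rfl fun x _ => ?_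
    rw [Matrix.mul_smul, Matrix.smul_mul, hc]
  have hd : ∀ f : S → Bool, (mat ρ s f).det = (mat ρ' s f).det := by
    intro f
    have h1 := congrArg Matrix.det (hm f)
    rw [Matrix.det_mul, Matrix.det_mul, mul_comm (mat ρ' s f).det] at h1
    exact mul_left_cancel₀ hP h1
  unfold NSing
  simp only [hd]

theorem chB (d : ℕ) (hd : 3 ≤ d) (ε : ℝ) (hε : 0 < ε) : ∃ g₀ : ℕ, ∀ g : ℕ, g₀ ≤ g →
    ∀ (G : Type) [Group G] [Fintype G] (ρ : G →* Matrix (Fin d) (Fin d) ℤ) (c : G) (N : ℕ),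
    AI ρ c N → Function.Injective ρ → ∀ (S : Type) [Fintype S] (s : S → G), Eqd c s g →
    (NSing ρ s : ℝ) ≤ 2 ^ g * (ε / g) := by
  obtain ⟨K, hK⟩ := uni_reps d (3 ^ (d * d))
  obtain ⟨g₀, hg₀⟩ := chB0 d hd K (3 ^ (d * d)) ε hε
  refine ⟨g₀, fun g hg G _ _ ρ c N hA hi S _ s hE => ?_⟩
  have hcard := card_le_mink ρ hi
  obtain ⟨ρ', hA', hb, he⟩ := hK G hcard ρ c N hA
  rw [nsing_eqv he s]
  exact hg₀ g hg G ρ' c N hA' hcard hb S s hE

theorem chC : ∃ C : ℝ, ∃ g₀ : ℕ, ∀ g : ℕ, g₀ ≤ g →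
    ∀ (G : Type) [Group G] [Fintype G] (ρ : G →* Matrix (Fin 2) (Fin 2) ℤ) (c : G) (N : ℕ),
    AI ρ c N → Function.Injective ρ → ∀ (S : Type) [Fintype S] (s : S → G), Eqd c s g →
    (NSing ρ s : ℝ) ≤ 2 ^ g * (C * Real.log g / g) := by
  obtain ⟨K, hK⟩ := uni_reps 2 (3 ^ (2 * 2))
  obtain ⟨C, g₀, hg₀⟩ := chC0 K (3 ^ (2 * 2))
  refine ⟨C, g₀, fun g hg G _ _ ρ c N hA hi S _ s hE => ?_⟩
  have hcard := card_le_mink ρ hi
  obtain ⟨ρ', hA', hb, he⟩ := hK G hcard ρ c N hA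
  rw [nsing_eqv he s]
  exact hg₀ g hg G ρ' c N hA' hcard hb S s hE

end Pool.Agent.H9.EC
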