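import Mathlib

set_option autoImplicit false

/-!
A Gaussian sum and the harmonic sum (module H9 EC TEL; Mathlib only).

PROOF.  `tel_sum`: `exp(-y) ≤ 1 / (1 + y/2)²` for `y ≥ 0` (`1 + y/2 ≤ exp(y/2)`).  With `y = s a²` and
`t_a = 1 / (1 + s a (a - 1) / 2)`: `t_a - t_(a+1) = s a / ((1 + s a(a-1)/2) (1 + s a(a+1)/2))` and
`(1 + s a(a-1)/2) (1 + s a(a+1)/2) = 1 + s a² + s² a² (a² - 1)/4 ≤ (1 + s a²/2)²`.  So `s a exp(-s a²) ≤ t_a - t_(a+1)`, and the sum
telescopes to at most `t_1 = 1`.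
`harm_sum`: Mathlib `harmonic_le_one_add_log` (or induction with `log(1 + 1/a) ≥ 1/(a+1)`).
-/

namespace Pool.Agent.H9.EC

open Finset

private theorem tel_step (s : ℝ) (hs : 0 < s) (a : ℝ) (ha : 1 ≤ a) :
    s * (a * Real.exp (-(s * a ^ 2))) ≤
      1 / (1 + s * a * (a - 1) / 2) - 1 / (1 + s * a * (a + 1) / 2) := by
  have ha0 : 0 < a := by linarith
  have hP : 0 < 1 + s * a * (a - 1) / 2 := by
    have : 0 ≤ s * a * (a - 1) := mul_nonneg (by positivity) (by linarith)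
    linarith
  have hQ : 0 < 1 + s * a * (a + 1) / 2 := by positivity
  have hR : 0 < 1 + s * a ^ 2 / 2 := by positivity
  have h1 : (1 + s * a ^ 2 / 2) ^ 2 ≤ Real.exp (s * a ^ 2) := by
    have h2 : 1 + s * a ^ 2 / 2 ≤ Real.exp (s * a ^ 2 / 2) := by
      have := Real.add_one_le_exp (s * a ^ 2 / 2)
      linarith
    calc (1 + s * a ^ 2 / 2) ^ 2 ≤ Real.exp (s * a ^ 2 / 2) ^ 2 :=
          pow_le_pow_left₀ hR.le h2 2
      _ = Real.exp (s * a ^ 2) := by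
          rw [← Real.exp_nat_mul]
          congr 1
          push_cast
          ring
  have h3 : (1 + s * a * (a - 1) / 2) * (1 + s * a * (a + 1) / 2) ≤ (1 + s * a ^ 2 / 2) ^ 2 := by
    nlinarith [sq_nonneg (s * a)]
  have h4 : 1 / (1 + s * a * (a - 1) / 2) - 1 / (1 + s * a * (a + 1) / 2) =
      s * a / ((1 + s * a * (a - 1) / 2) * (1 + s * a * (a + 1) / 2)) := by
    rw [div_sub_div _ _ hP.ne' hQ.ne']
    congr 1
    ring
  rw [h4, le_div_iff₀ (mul_pos hP hQ)]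
  have h5 : Real.exp (-(s * a ^ 2)) * ((1 + s * a * (a - 1) / 2) * (1 + s * a * (a + 1) / 2)) ≤
      1 := by
    rw [Real.exp_neg, inv_mul_le_iff₀ (Real.exp_pos _), mul_one]
    exact h3.trans h1
  have h6 : 0 < s * a := by positivity
  calc s * (a * Real.exp (-(s * a ^ 2))) * ((1 + s * a * (a - 1) / 2) * (1 + s * a * (a + 1) / 2))
      = s * a * (Real.exp (-(s * a ^ 2)) *
          ((1 + s * a * (a - 1) / 2) * (1 + s * a * (a + 1) / 2))) := by ring
    _ ≤ s * a * 1 := mul_le_mul_of_nonneg_left h5 h6.le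
    _ = s * a := mul_one _

theorem tel_sum (s : ℝ) (hs : 0 < s) (T : ℕ) :
    ∑ a ∈ Icc 1 T, (a : ℝ) * Real.exp (-(s * (a : ℝ) ^ 2)) ≤ 1 / s := by
  have key : s * ∑ a ∈ Icc 1 T, (a : ℝ) * Real.exp (-(s * (a : ℝ) ^ 2)) ≤
      1 - 1 / (1 + s * (T + 1) * T / 2) := by
    induction T with
    | zero => simp
    | succ T ih =>
      rw [Finset.sum_Icc_succ_top (by omega : 1 ≤ T + 1), mul_add]
      have h1 := tel_step s hs ((T + 1 : ℕ) : ℝ) (by push_cast; linarith [Nat.cast_nonneg (α := ℝ) T])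
      have e1 : (1 + s * ((T + 1 : ℕ) : ℝ) * (((T + 1 : ℕ) : ℝ) - 1) / 2) =
          1 + s * (T + 1) * T / 2 := by
        push_cast
        ring
      have e2 : (1 + s * ((T + 1 : ℕ) : ℝ) * (((T + 1 : ℕ) : ℝ) + 1) / 2) =
          1 + s * (((T + 1 : ℕ) : ℝ) + 1) * ((T + 1 : ℕ) : ℝ) / 2 := by
        ring
      rw [e1, e2] at h1
      linarith
  have h2 : 0 ≤ 1 / (1 + s * ((T : ℝ) + 1) * T / 2) := by positivity
  rw [le_div_iff₀ hs]
  linarith

theorem harm_sum (T : ℕ) (hT : 1 ≤ T) : ∑ a ∈ Icc 1 T, (1 : ℝ) / a ≤ 1 + Real.log T := by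
  have h1 := harmonic_le_one_add_log T
  rw [harmonic_eq_sum_Icc] at h1
  push_cast at h1
  simpa only [one_div] using h1

end Pool.Agent.H9.EC
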