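import Pool.Agent.H9.EC.Shell
import Pool.Agent.H9.EC.Tel

set_option autoImplicit false

/-!
A sum over the nonzero vectors and their primitive parts (module H9 EC SMV).

PROOF.  `v = h(v) v'(v)`, so `h(v) nv(v') = nv v ≤ T` and `v'` is a nonzero vector of `Bx d T`; `v ↦ (v', h)` is injective.  So the
sum is at most `∑_{v' ∈ Bx, v' ≠ 0} #{h : 1 ≤ h ≤ T / nv v'} (5 T / nv v')^(d-1) ≤ 5^(d-1) T^d ∑_{v'} nv(v')^(-d)` and by
`shell_sum` and `harm_sum` this is at most `5^(d-1) T^d · 2 d 3^(d-1) (1 + log T)`; `2 d · 15^(d-1)` is the constant.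
-/

namespace Pool.Agent.H9.EC

open Finset Matrix

open Classical in
theorem sum_prim {d : ℕ} (hd : 1 ≤ d) (T : ℕ) (hT : 1 ≤ T) (hf : (Fin d → ℤ) → ℕ)
    (pf : (Fin d → ℤ) → Fin d → ℤ) (hv : ∀ v : Fin d → ℤ, v ≠ 0 → 1 ≤ hf v ∧ v = (hf v : ℤ) • pf v) :
    ∑ v ∈ (Bx d T).filter (fun v => v ≠ 0), (5 * T / nv (pf v) : ℝ) ^ (d - 1) ≤
      2 * d * 15 ^ (d - 1) * (T : ℝ) ^ d * (1 + Real.log T) := by
  have hT0 : (0 : ℝ) < T := by exact_mod_cast hT
  have hpf : ∀ v : Fin d → ℤ, v ≠ 0 → pf v ≠ 0 := by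
    intro v h0 h1
    apply h0
    rw [(hv v h0).2, h1, smul_zero]
  have hnv : ∀ v : Fin d → ℤ, v ≠ 0 → nv v = hf v * nv (pf v) := by
    intro v h0
    conv_lhs => rw [(hv v h0).2]
    rw [nv_smul, Int.natAbs_natCast]
  have hmaps : ∀ v ∈ (Bx d T).filter (fun v => v ≠ 0), pf v ∈ (Bx d T).filter (fun v => v ≠ 0) := by
    intro v h
    rw [mem_filter, mem_Bx] at h
    rw [mem_filter, mem_Bx]
    refine ⟨?_, hpf v h.2⟩
    have h1 := hnv v h.2
    have h2 := (hv v h.2).1
    nlinarith [h.1, Nat.zero_le (nv (pf v))]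
  set F : ℕ → ℝ := fun a => (T / a : ℝ) * (5 * T / a : ℝ) ^ (d - 1) with hF
  have hF0 : ∀ a, 0 ≤ F a := fun a => by rw [hF]; positivity
  calc ∑ v ∈ (Bx d T).filter (fun v => v ≠ 0), (5 * T / nv (pf v) : ℝ) ^ (d - 1)
      = ∑ u ∈ (Bx d T).filter (fun v => v ≠ 0), ∑ v ∈ ((Bx d T).filter (fun v => v ≠ 0)).filter
          (fun v => pf v = u), (5 * T / nv (pf v) : ℝ) ^ (d - 1) :=
        (Finset.sum_fiberwise_of_maps_to hmaps _).symm
    _ ≤ ∑ u ∈ (Bx d T).filter (fun v => v ≠ 0), F (nv u) := by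
        apply Finset.sum_le_sum
        intro u hu
        rw [mem_filter, mem_Bx] at hu
        have hnu : 1 ≤ nv u := nv_pos u hu.2
        have h1 : ∑ v ∈ ((Bx d T).filter (fun v => v ≠ 0)).filter (fun v => pf v = u),
            (5 * T / nv (pf v) : ℝ) ^ (d - 1) =
            ((((Bx d T).filter (fun v => v ≠ 0)).filter (fun v => pf v = u)).card : ℝ) *
              (5 * T / nv u : ℝ) ^ (d - 1) := by
          rw [← nsmul_eq_mul, ← Finset.sum_const]
          apply Finset.sum_congr rfl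
          intro v h
          rw [mem_filter] at h
          rw [h.2]
        rw [h1, hF]
        apply mul_le_mul_of_nonneg_right _ (by positivity)
        have h2 : (((Bx d T).filter (fun v => v ≠ 0)).filter (fun v => pf v = u)).card ≤ T / nv u := by
          calc _ ≤ (Icc 1 (T / nv u)).card := by
                apply Finset.card_le_card_of_injOn hf
                · intro v h
                  rw [Finset.mem_coe, mem_filter, mem_filter, mem_Bx] at h
                  rw [Finset.mem_coe, mem_Icc]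
                  refine ⟨(hv v h.1.2).1, (Nat.le_div_iff_mul_le (by omega)).mpr ?_⟩
                  have h3 := hnv v h.1.2
                  rw [h.2] at h3
                  rw [← h3]
                  exact h.1.1
                · intro v h v' h' hvv
                  rw [Finset.mem_coe, mem_filter, mem_filter] at h h'
                  rw [(hv v h.1.2).2, (hv v' h'.1.2).2, h.2, h'.2, hvv]
            _ = T / nv u := by rw [Nat.card_Icc, Nat.add_sub_cancel]
        calc _ ≤ ((T / nv u : ℕ) : ℝ) := by exact_mod_cast h2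
          _ ≤ _ := Nat.cast_div_le
    _ ≤ ∑ a ∈ Icc 1 T, 2 * d * 3 ^ (d - 1) * (a : ℝ) ^ (d - 1) * F a := shell_sum T F hF0
    _ = 2 * d * 15 ^ (d - 1) * (T : ℝ) ^ d * ∑ a ∈ Icc 1 T, (1 : ℝ) / a := by
        rw [Finset.mul_sum]
        apply Finset.sum_congr rfl
        intro a ha
        rw [mem_Icc] at ha
        have ha0 : (0 : ℝ) < a := by exact_mod_cast (by omega : 0 < a)
        rw [hF]
        obtain ⟨e, rfl⟩ : ∃ e, d = e + 1 := ⟨d - 1, by omega⟩
        simp only [Nat.add_sub_cancel]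
        have h15 : (15 : ℝ) ^ e = 3 ^ e * 5 ^ e := by
          rw [← mul_pow]
          norm_num
        rw [h15, div_pow, mul_pow, pow_succ (T : ℝ)]
        field_simp
    _ ≤ 2 * d * 15 ^ (d - 1) * (T : ℝ) ^ d * (1 + Real.log T) :=
        mul_le_mul_of_nonneg_left (harm_sum T hT) (by positivity)

end Pool.Agent.H9.EC
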