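import Pool.Agent.H9.EC.Vec1
import Pool.Agent.H9.EC.SumV

set_option autoImplicit false

/-!
The number of the small integer matrices of rank one modulo `p` (module H9 EC CNB).

PROOF.  Let `hf, pf` be the choice functions of `dec_vec`.  Every `A ∈ 𝒜` has a row `i₀` with `v = A_(i₀) ≠ 0`, `v ∈ Bx d T`.  For
every other row `w = A_i` and all `j, k` the minor `v_j w_k - v_k w_j` is divisible by `p` (take `h2` with rows `i₀, i`) and at most `2 T²` in
absolute value, so it is `p μ` with `|μ| ≤ 2 T²/p`: there are at most `(4 T²/p + 1)^(d²)` possibilities for the `μ_jk`, and for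
each of them at most `4 T / nv(v') + 1 ≤ 5 T / nv(v')` rows `w` (`card_minor`; `nv v' ≤ nv v ≤ T`).  So with
`R(v) = (4 T²/p + 1)^(d²) · 5 T / nv (pf v)`: `|𝒜| ≤ ∑_{i₀} ∑_v R(v)^(d-1)` (a matrix with given `i₀` and `v` is determined by its other `d - 1`
rows) and `(4 T²/p + 1)^(d² (d-1)) ≤ (4 T²/p + 1)^(d³)`; `sum_prim`.  The constant is `2 d² 15^(d-1)`.
-/

namespace Pool.Agent.H9.EC

open Finset Matrix

open Classical in
private theorem card_rows {d : ℕ} (T p : ℕ) (hT : 1 ≤ T) (hp : 1 ≤ p) (v v' : Fin d → ℤ) (h : ℕ) (hh : 1 ≤ h)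
    (hv : v = (h : ℤ) • v') (b : Fin d → ℤ) (hb : ∑ k, b k * v' k = 1) (hvT : nv v ≤ T) :
    (((Bx d T).filter (fun w => ∀ j k, (p : ℤ) ∣ v j * w k - v k * w j)).card : ℝ) ≤
      (4 * (T : ℝ) ^ 2 / p + 1) ^ (d ^ 2) * (5 * T / nv v') := by
  set W := (Bx d T).filter (fun w => ∀ j k, (p : ℤ) ∣ v j * w k - v k * w j) with hW
  set m : ℕ := 2 * T ^ 2 / p with hm
  set V : Finset ℤ := (Icc (-(m : ℤ)) m).image (fun z => (p : ℤ) * z) with hV
  set M : Finset (Fin d → Fin d → ℤ) := Fintype.piFinset fun _ => Fintype.piFinset fun _ => V with hM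
  have hv'0 : v' ≠ 0 := by
    rintro rfl
    simp at hb
  have hn1 : 1 ≤ nv v' := nv_pos v' hv'0
  have hnT : nv v' ≤ T := by
    have h1 : nv v = h * nv v' := by
      conv_lhs => rw [hv]
      rw [nv_smul, Int.natAbs_natCast]
    nlinarith
  have hn0 : (0 : ℝ) < nv v' := by exact_mod_cast hn1
  have hT0 : (0 : ℝ) < T := by exact_mod_cast hT
  have hp0 : (0 : ℝ) < p := by exact_mod_cast hp
  have hmaps : ∀ w ∈ W, (fun j k => v j * w k - v k * w j) ∈ M := by
    intro w hw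
    rw [hW, mem_filter, mem_Bx] at hw
    rw [hM, Fintype.mem_piFinset]
    intro j
    rw [Fintype.mem_piFinset]
    intro k
    obtain ⟨z, hz⟩ := hw.2 j k
    rw [hV, Finset.mem_image]
    refine ⟨z, ?_, hz.symm⟩
    have h1 : |v j * w k - v k * w j| ≤ 2 * (T : ℤ) ^ 2 := by
      have h2 := (nv_le v T).mp hvT
      have h3 := (nv_le w T).mp hw.1
      calc |v j * w k - v k * w j| ≤ |v j * w k| + |v k * w j| := abs_sub _ _
        _ = |v j| * |w k| + |v k| * |w j| := by rw [abs_mul, abs_mul]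
        _ ≤ T * T + T * T := by
            apply add_le_add
            · exact mul_le_mul (h2 j) (h3 k) (abs_nonneg _) (by positivity)
            · exact mul_le_mul (h2 k) (h3 j) (abs_nonneg _) (by positivity)
        _ = 2 * (T : ℤ) ^ 2 := by ring
    rw [hz, abs_mul, Nat.abs_cast] at h1
    have h4 : z.natAbs * p ≤ 2 * T ^ 2 := by
      have h5 : ((z.natAbs * p : ℕ) : ℤ) ≤ ((2 * T ^ 2 : ℕ) : ℤ) := by
        push_cast
        linarith
      exact_mod_cast h5
    have h6 : z.natAbs ≤ m := (Nat.le_div_iff_mul_le (by omega)).mpr h4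
    rw [mem_Icc]
    omega
  have hcard := Finset.card_eq_sum_card_fiberwise (s := W) (t := M)
    (f := fun (w : Fin d → ℤ) (j k : Fin d) => v j * w k - v k * w j) hmaps
  have hfib : ∀ μ ∈ M, ((W.filter (fun w => (fun j k => v j * w k - v k * w j) = μ)).card : ℝ) ≤
      5 * T / nv v' := by
    intro μ _
    have h1 := card_minor v v' h hh hv b hb T μ (W.filter (fun w => (fun j k => v j * w k - v k * w j) = μ)) (by
      intro w hw
      rw [mem_filter, hW, mem_filter, mem_Bx] at hw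
      refine ⟨hw.1.1, fun j k => ?_⟩
      have := congrFun (congrFun hw.2 j) k
      exact this)
    refine h1.trans ?_
    have h2 : (1 : ℝ) ≤ T / nv v' := by
      rw [le_div_iff₀ hn0, one_mul]
      exact_mod_cast hnT
    calc (4 * T / nv v' + 1 : ℝ) ≤ 4 * T / nv v' + T / nv v' := by linarith
      _ = 5 * T / nv v' := by ring
  have hMc : (M.card : ℝ) ≤ (4 * (T : ℝ) ^ 2 / p + 1) ^ (d ^ 2) := by
    rw [hM, Fintype.card_piFinset, Finset.prod_const, Fintype.card_piFinset, Finset.prod_const,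
      Finset.card_univ, Fintype.card_fin, ← pow_mul, ← sq]
    push_cast
    apply pow_le_pow_left₀ (by positivity)
    have h1 : V.card ≤ 2 * m + 1 := by
      calc V.card ≤ (Icc (-(m : ℤ)) m).card := Finset.card_image_le
        _ = 2 * m + 1 := by
            rw [Int.card_Icc]
            omega
    have h2 : (m : ℝ) ≤ 2 * (T : ℝ) ^ 2 / p := by
      have := @Nat.cast_div_le ℝ _ _ _ (2 * T ^ 2) p
      push_cast at this
      exact this
    calc (V.card : ℝ) ≤ ((2 * m + 1 : ℕ) : ℝ) := by exact_mod_cast h1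
      _ = 2 * (m : ℝ) + 1 := by push_cast; ring
      _ ≤ 2 * (2 * (T : ℝ) ^ 2 / p) + 1 := by linarith
      _ = 4 * (T : ℝ) ^ 2 / p + 1 := by ring
  calc (W.card : ℝ) = ∑ μ ∈ M, ((W.filter (fun w => (fun j k => v j * w k - v k * w j) = μ)).card : ℝ) := by
        rw [hcard]
        push_cast
        rfl
    _ ≤ ∑ μ ∈ M, (5 * T / nv v' : ℝ) := Finset.sum_le_sum hfib
    _ = M.card * (5 * T / nv v' : ℝ) := by rw [Finset.sum_const, nsmul_eq_mul]
    _ ≤ (4 * (T : ℝ) ^ 2 / p + 1) ^ (d ^ 2) * (5 * T / nv v') :=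
        mul_le_mul_of_nonneg_right hMc (by positivity)

open Classical in
theorem cnt_rank1 {d : ℕ} (hd : 1 ≤ d) (T p : ℕ) (hT : 1 ≤ T) (hp : 1 ≤ p)
    (𝒜 : Finset (Matrix (Fin d) (Fin d) ℤ)) (h0 : ∀ A ∈ 𝒜, A ≠ 0) (h1 : ∀ A ∈ 𝒜, mx A ≤ T)
    (h2 : ∀ A ∈ 𝒜, ∀ i j k l, (p : ℤ) ∣ A i j * A k l - A i l * A k j) :
    (𝒜.card : ℝ) ≤ 2 * d ^ 2 * 15 ^ (d - 1) * (4 * (T : ℝ) ^ 2 / p + 1) ^ (d ^ 3) *
      (T : ℝ) ^ d * (1 + Real.log T) := by
  have hT0 : (0 : ℝ) < T := by exact_mod_cast hT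
  have hp0 : (0 : ℝ) < p := by exact_mod_cast hp
  have hdec : ∀ v : Fin d → ℤ, ∃ (h : ℕ) (v' : Fin d → ℤ) (b : Fin d → ℤ), v ≠ 0 → (1 ≤ h ∧ v = (h : ℤ) • v' ∧
      ∑ k, b k * v' k = 1) := by
    intro v
    by_cases hv : v = 0
    · exact ⟨0, 0, 0, fun h => absurd hv h⟩
    · obtain ⟨h, v', h1, h2, b, h3⟩ := dec_vec v hv
      exact ⟨h, v', b, fun _ => ⟨h1, h2, h3⟩⟩
  choose hf pf bf hprop using hdec
  set S := (Bx d T).filter (fun v => v ≠ 0) with hS
  set C : ℝ := (4 * (T : ℝ) ^ 2 / p + 1) ^ (d ^ 2) with hC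
  have hbase : (1 : ℝ) ≤ 4 * (T : ℝ) ^ 2 / p + 1 := by
    have : (0 : ℝ) ≤ 4 * (T : ℝ) ^ 2 / p := by positivity
    linarith
  have hC0 : 0 ≤ C := by rw [hC]; positivity
  have hsub : 𝒜 ⊆ univ.biUnion (fun i₀ : Fin d => S.biUnion (fun v => 𝒜.filter (fun A => A i₀ = v))) := by
    intro A hA
    obtain ⟨i₀, hi⟩ : ∃ i, A i ≠ 0 := by
      by_contra hcon
      push Not at hcon
      apply h0 A hA
      ext i j
      exact congrFun (hcon i) j
    rw [Finset.mem_biUnion]
    refine ⟨i₀, mem_univ _, ?_⟩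
    rw [Finset.mem_biUnion]
    refine ⟨A i₀, ?_, ?_⟩
    · rw [hS, mem_filter, mem_Bx]
      refine ⟨?_, hi⟩
      rw [nv_le]
      intro j
      exact (mx_le A T).mp (h1 A hA) i₀ j
    · rw [mem_filter]
      exact ⟨hA, rfl⟩
  have hone : ∀ i₀ : Fin d, ∀ v ∈ S, ((𝒜.filter (fun A => A i₀ = v)).card : ℝ) ≤
      C ^ (d - 1) * (5 * T / nv (pf v)) ^ (d - 1) := by
    intro i₀ v hv
    rw [hS, mem_filter, mem_Bx] at hv
    obtain ⟨q1, q2, q3⟩ := hprop v hv.2
    set W := (Bx d T).filter (fun w => ∀ j k, (p : ℤ) ∣ v j * w k - v k * w j) with hW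
    have hrow := card_rows T p hT hp v (pf v) (hf v) q1 q2 (bf v) q3 hv.1
    rw [← hW, ← hC] at hrow
    have hc1 : (𝒜.filter (fun A => A i₀ = v)).card ≤
        (Fintype.piFinset (fun i : Fin d => if i = i₀ then {v} else W)).card := by
      apply Finset.card_le_card_of_injOn (fun A => (fun i j => A i j))
      · intro A hA
        rw [Finset.mem_coe, mem_filter] at hA
        rw [Finset.mem_coe, Fintype.mem_piFinset]
        intro i
        by_cases hi : i = i₀
        · rw [if_pos hi, Finset.mem_singleton, hi]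
          exact hA.2
        · rw [if_neg hi, hW, mem_filter, mem_Bx]
          refine ⟨?_, ?_⟩
          · rw [nv_le]
            intro j
            exact (mx_le A T).mp (h1 A hA.1) i j
          · intro j k
            have h3 := h2 A hA.1 i₀ j i k
            rw [hA.2] at h3
            exact h3
      · intro A _ B _ hAB
        ext i j
        exact congrFun (congrFun hAB i) j
    have hc2 : (Fintype.piFinset (fun i : Fin d => if i = i₀ then {v} else W)).card = W.card ^ (d - 1) := by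
      rw [Fintype.card_piFinset, ← Finset.mul_prod_erase univ _ (mem_univ i₀), if_pos rfl,
        Finset.card_singleton, one_mul]
      rw [Finset.prod_congr rfl (g := fun _ => W.card)]
      · rw [Finset.prod_const, Finset.card_erase_of_mem (mem_univ _), Finset.card_univ, Fintype.card_fin]
      · intro i hi
        rw [if_neg (Finset.ne_of_mem_erase hi)]
    calc ((𝒜.filter (fun A => A i₀ = v)).card : ℝ) ≤ ((W.card ^ (d - 1) : ℕ) : ℝ) := by
          rw [← hc2]
          exact_mod_cast hc1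
      _ = (W.card : ℝ) ^ (d - 1) := by push_cast; ring
      _ ≤ (C * (5 * T / nv (pf v))) ^ (d - 1) := pow_le_pow_left₀ (Nat.cast_nonneg _) hrow _
      _ = C ^ (d - 1) * (5 * T / nv (pf v)) ^ (d - 1) := by rw [mul_pow]
  have hsum := sum_prim hd T hT hf pf (fun v hv => ⟨(hprop v hv).1, (hprop v hv).2.1⟩)
  rw [← hS] at hsum
  have hlog : 0 ≤ Real.log T := Real.log_nonneg (by exact_mod_cast hT)
  calc (𝒜.card : ℝ) ≤ ((univ.biUnion (fun i₀ : Fin d => S.biUnion (fun v =>
        𝒜.filter (fun A => A i₀ = v)))).card : ℝ) := by exact_mod_cast Finset.card_le_card hsub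
    _ ≤ ∑ i₀ : Fin d, ∑ v ∈ S, ((𝒜.filter (fun A => A i₀ = v)).card : ℝ) := by
        have h3 : (univ.biUnion (fun i₀ : Fin d => S.biUnion (fun v => 𝒜.filter (fun A => A i₀ = v)))).card ≤
            ∑ i₀ : Fin d, ∑ v ∈ S, (𝒜.filter (fun A => A i₀ = v)).card :=
          Finset.card_biUnion_le.trans (Finset.sum_le_sum fun i₀ _ => Finset.card_biUnion_le)
        exact_mod_cast h3
    _ ≤ ∑ _i₀ : Fin d, ∑ v ∈ S, C ^ (d - 1) * (5 * T / nv (pf v)) ^ (d - 1) :=
        Finset.sum_le_sum fun i₀ _ => Finset.sum_le_sum fun v hv => hone i₀ v hv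
    _ = d * (C ^ (d - 1) * ∑ v ∈ S, (5 * T / nv (pf v) : ℝ) ^ (d - 1)) := by
        rw [Finset.sum_const, Finset.card_univ, Fintype.card_fin, nsmul_eq_mul, ← Finset.mul_sum]
    _ ≤ d * ((4 * (T : ℝ) ^ 2 / p + 1) ^ (d ^ 3) *
          (2 * d * 15 ^ (d - 1) * (T : ℝ) ^ d * (1 + Real.log T))) := by
        apply mul_le_mul_of_nonneg_left _ (Nat.cast_nonneg _)
        apply mul_le_mul _ hsum (Finset.sum_nonneg fun v _ => pow_nonneg (div_nonneg
          (mul_nonneg (by norm_num) hT0.le) (Nat.cast_nonneg _)) _) (pow_nonneg (by linarith) _)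
        rw [hC, ← pow_mul]
        apply pow_le_pow_right₀ hbase
        calc d ^ 2 * (d - 1) ≤ d ^ 2 * d := Nat.mul_le_mul_left _ (Nat.sub_le _ _)
          _ = d ^ 3 := by ring
    _ = 2 * d ^ 2 * 15 ^ (d - 1) * (4 * (T : ℝ) ^ 2 / p + 1) ^ (d ^ 3) *
      (T : ℝ) ^ d * (1 + Real.log T) := by ring

end Pool.Agent.H9.EC
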