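import Pool.Agent.H9.EC.SnBd
import Pool.Agent.H87.EC.Orth

set_option autoImplicit false

/-!
The number of the walks with `al ρ w x = 0` modulo `m` (module H9 EC WLK).

PROOF.  `m` odd.  With `e(t) = exp(2 π i t.val / m)` (see `Four.lean` in the same folder for the orthogonality relation),
`NWalk m^d = ∑ w, ∑ u, e(u ⬝ al w x) = ∑ w, ∑ u, e(2 u ⬝ al w x)` (the map `u ↦ 2 u` is a bijection), and
`u ⬝ al w x = ∑ j, ξ_j θ_j`, `θ_j = th u γ_j`, so the sum over `w : Fin k → G × Fin 4` is a product of `k` equal factors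
`∑ γ, (2 + e(2 θ_γ) + e(-2 θ_γ)) = ∑ γ, (2 + 2 cos(4 π θ_γ.val / m)) = ∑ γ, 4 cos²(2 π θ_γ.val / m) =
4 ∑ γ, (1 - sn(θ_γ)²) = 4 |G| (1 - sig)`.
For tuples (`nwalkT_eq`) the same with `u : Fin J → Fin d → ZMod m` and `∑ i, u_i ⬝ al w (x_i)`.
(It is enough to prove `nwalkT_eq` and to deduce `nwalk_eq` with `J = 1`, or to copy the proof.)
-/

namespace Pool.Agent.H9.EC

open Finset Matrix

open Pool.Agent.H87.EC

/-- the sum over the coefficients -/
private theorem walk_fac {m : ℕ} [NeZero m] (t : ZMod m) :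
    ∑ i : Fin 4, ec (2 * ((xi i : ZMod m) * t)) = ((4 * (1 - sn m t ^ 2) : ℝ) : ℂ) := by
  obtain ⟨x, hx⟩ : ∃ x : ℝ, x = 2 * Real.pi * t.val / m := ⟨_, rfl⟩
  have h1 : sn m t ^ 2 = Real.sin x ^ 2 := by
    unfold sn
    rw [sq_abs, hx]
  have h2 : ec t + ec (-t) = ((2 * Real.cos x : ℝ) : ℂ) := by
    rw [ec_two, hx]
  have h3 : ec t * ec (-t) = 1 := by rw [← ec_add, add_neg_cancel, ec_zero]
  have h4 : ∑ i : Fin 4, ec (2 * ((xi i : ZMod m) * t)) = (ec t + ec (-t)) ^ 2 := by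
    have e1 : ec (2 * t) = ec t ^ 2 := by rw [two_mul, ec_add, pow_two]
    have e2 : ec (2 * -t) = ec (-t) ^ 2 := by rw [two_mul, ec_add, pow_two]
    rw [Fin.sum_univ_four]
    simp only [xi, Matrix.cons_val_zero, Matrix.cons_val_one, Matrix.cons_val, Int.cast_one,
      Int.cast_zero, Int.cast_neg, one_mul, zero_mul, mul_zero, neg_mul, ec_zero]
    rw [show (2 : ZMod m) * -t = 2 * -t from rfl, e1, e2]
    linear_combination (-2 : ℂ) * h3
  rw [h4, h2, h1, ← Complex.ofReal_pow]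
  congr 1
  have h5 := Real.sin_sq_add_cos_sq x
  linear_combination (4 : ℝ) * h5

/-- the general formula -/
private theorem walk_core {ι G : Type} [Fintype ι] [DecidableEq ι] [Fintype G] [Nonempty G] {m : ℕ}
    [NeZero m] (hm : Odd m) (k : ℕ) (y : (Fin k → G × Fin 4) → ι → ZMod m)
    (T : (ι → ZMod m) → G → ZMod m)
    (hy : ∀ w u, ∑ i, u i * y w i = ∑ j, (xi (w j).2 : ZMod m) * T u (w j).1) :
    (Nat.card {w : Fin k → G × Fin 4 // y w = 0} : ℝ) * (m : ℝ) ^ Fintype.card ι =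
      (4 * Fintype.card G : ℝ) ^ k *
        ∑ u : ι → ZMod m, (1 - (∑ γ, sn m (T u γ) ^ 2) / Fintype.card G) ^ k := by
  classical
  have h1 := card_zero y
  have hG : (Fintype.card G : ℝ) ≠ 0 := by
    have : Fintype.card G ≠ 0 := Fintype.card_ne_zero
    exact_mod_cast this
  -- multiplication by two
  have h2 : IsUnit (2 : ZMod m) := by
    have h3 : ((2 : ℕ) : ZMod m) = 2 := by norm_num
    rw [← h3, ZMod.isUnit_iff_coprime]
    exact Nat.coprime_two_left.2 hm
  obtain ⟨v, hv⟩ := h2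
  have h4 : ((Nat.card {w : Fin k → G × Fin 4 // y w = 0} : ℝ) * (m : ℝ) ^ Fintype.card ι : ℂ) =
      ((∑ u : ι → ZMod m, (∑ γ, 4 * (1 - sn m (T u γ) ^ 2)) ^ k : ℝ) : ℂ) := by
    push_cast
    rw [h1, sum_comm]
    have h5 : ∀ u : ι → ZMod m, ∑ w, ec (∑ i, (2 * u i) * y w i) =
        (∑ γ, 4 * (1 - (sn m (T u γ) : ℂ) ^ 2)) ^ k := by
      intro u
      have h6 : ∀ w, ec (∑ i, (2 * u i) * y w i) =
          ∏ j : Fin k, ec (2 * ((xi (w j).2 : ZMod m) * T u (w j).1)) := by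
        intro w
        rw [← ec_sum, ← mul_sum, ← hy w u, mul_sum]
        congr 1
        exact sum_congr rfl fun i _ => mul_assoc _ _ _
      rw [sum_congr rfl fun w _ => h6 w]
      have h7 := Fintype.prod_sum (κ := fun _ : Fin k => G × Fin 4)
        (fun (_ : Fin k) (p : G × Fin 4) => ec (2 * ((xi p.2 : ZMod m) * T u p.1)))
      rw [← h7, prod_const, card_univ, Fintype.card_fin, Fintype.sum_prod_type]
      congr 1
      refine sum_congr rfl fun γ _ => ?_
      have h8 := walk_fac (T u γ)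
      push_cast at h8
      exact h8
    rw [← sum_congr rfl fun u _ => h5 u]
    have h9 := Equiv.sum_comp (Equiv.piCongrRight fun _ : ι => Units.mulLeft v)
      (fun u : ι → ZMod m => ∑ w, ec (∑ i, u i * y w i))
    rw [← h9]
    refine sum_congr rfl fun u _ => sum_congr rfl fun w _ => ?_
    congr 1
    refine sum_congr rfl fun i _ => ?_
    show (v : ZMod m) * u i * y w i = _
    rw [hv]
  have h10 : (Nat.card {w : Fin k → G × Fin 4 // y w = 0} : ℝ) * (m : ℝ) ^ Fintype.card ι =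
      ∑ u : ι → ZMod m, (∑ γ, 4 * (1 - sn m (T u γ) ^ 2)) ^ k := by
    exact_mod_cast h4
  rw [h10, mul_sum]
  refine sum_congr rfl fun u _ => ?_
  rw [← mul_pow, ← mul_sum, sum_sub_distrib, sum_const, card_univ, nsmul_eq_mul, mul_one]
  congr 1
  field_simp

variable {d : ℕ} {G : Type} [Group G] [Fintype G] (ρ : G →* Matrix (Fin d) (Fin d) ℤ) (m : ℕ) [NeZero m]

/-- the exponent -/
private theorem walk_exp {k : ℕ} (w : Fin k → G × Fin 4) (x u : Fin d → ZMod m) :
    ∑ i, u i * (rm m (al ρ w) *ᵥ x) i = ∑ j, (xi (w j).2 : ZMod m) * th m ρ x u (w j).1 := by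
  have h5 : rm m (al ρ w) = ∑ j, (xi (w j).2 : ZMod m) • rm m (ρ (w j).1) := by
    ext a b
    unfold rm al
    rw [Matrix.map_apply, Matrix.sum_apply, Matrix.sum_apply, map_sum]
    refine sum_congr rfl fun x' _ => ?_
    rw [Matrix.smul_apply, Matrix.smul_apply, Matrix.map_apply, smul_eq_mul, smul_eq_mul, map_mul]
    rfl
  show u ⬝ᵥ (rm m (al ρ w) *ᵥ x) = _
  rw [h5, Matrix.sum_mulVec, dotProduct_sum]
  refine sum_congr rfl fun x' _ => ?_
  rw [Matrix.smul_mulVec, dotProduct_smul, smul_eq_mul]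
  rfl

theorem nwalk_eq (hm : Odd m) (k : ℕ) (x : Fin d → ZMod m) :
    (NWalk m ρ k x : ℝ) * (m : ℝ) ^ d =
      (4 * Fintype.card G : ℝ) ^ k * ∑ u : Fin d → ZMod m, (1 - sig m ρ x u) ^ k := by
  have h := walk_core hm k (fun w : Fin k → G × Fin 4 => rm m (al ρ w) *ᵥ x)
    (fun u γ => th m ρ x u γ) (fun w u => walk_exp ρ m w x u)
  rw [Fintype.card_fin] at h
  exact h

theorem nwalkT_eq (hm : Odd m) (k : ℕ) {J : ℕ} (x : Fin J → Fin d → ZMod m) :
    (NWalkT m ρ k x : ℝ) * (m : ℝ) ^ (J * d) =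
      (4 * Fintype.card G : ℝ) ^ k * ∑ u : Fin J → Fin d → ZMod m, (1 - sigT m ρ x u) ^ k := by
  have h := walk_core (ι := Fin J × Fin d) hm k
    (fun (w : Fin k → G × Fin 4) (p : Fin J × Fin d) => (rm m (al ρ w) *ᵥ x p.1) p.2)
    (fun u γ => thT m ρ x (fun a b => u (a, b)) γ) (fun w u => by
      rw [Fintype.sum_prod_type]
      have h1 : ∀ a : Fin J, ∑ b, u (a, b) * (rm m (al ρ w) *ᵥ x a) b =
          ∑ j, (xi (w j).2 : ZMod m) * th m ρ (x a) (fun b => u (a, b)) (w j).1 := fun a =>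
        walk_exp ρ m w (x a) (fun b => u (a, b))
      rw [sum_congr rfl fun a _ => h1 a, sum_comm]
      refine sum_congr rfl fun j _ => ?_
      unfold thT
      rw [mul_sum])
  rw [Fintype.card_prod, Fintype.card_fin, Fintype.card_fin] at h
  have h2 : NWalkT m ρ k x = Nat.card {w : Fin k → G × Fin 4 //
      (fun p : Fin J × Fin d => (rm m (al ρ w) *ᵥ x p.1) p.2) = 0} := by
    unfold NWalkT
    refine Nat.card_congr (Equiv.subtypeEquivRight fun w => ?_)
    constructor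
    · intro hw
      funext p
      show (rm m (al ρ w) *ᵥ x p.1) p.2 = 0
      rw [hw p.1]
      rfl
    · intro hw a
      funext b
      exact congrFun hw (a, b)
  rw [h2, h]
  congr 1
  rw [← (Equiv.curry (Fin J) (Fin d) (ZMod m)).sum_comp]
  rfl

end Pool.Agent.H9.EC
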