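import Pool.Agent.H9.EC.SnBd
import Pool.Agent.H9.EC.Walk
import Pool.Agent.H9.EC.BasT

set_option autoImplicit false

/-!
The walk is equidistributed on independent tuples modulo `l` (module H9 EC WTL).

PROOF.  By `nwalkT_eq` (with `m = l`) it is enough to show `∑ u, (1 - sigT u)^k ≤ 2`.  `b` from `bas_T`; let
`n = J d ≥ 1` (for `d = 0` there is no independent nonempty tuple... `J ≥ 1` and independence force `d ≥ 1`).  For each `p`,
`∑ γ, sn(thT u (γ b_p))² = |G| sigT u` (reindex), so `sigT u = (1/|G|) ∑ γ, X_γ(u)` with `X_γ(u) = (1/n) ∑ p, sn(thT u (γ b_p))²`.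
`(1 - sigT u)^k ≤ exp(-k sigT u) ≤ (1/|G|) ∑ γ, exp(-k X_γ(u))` (`Real.one_sub_le_exp_neg`... and Jensen for the convex function `exp`:
`ConvexOn.map_sum_le` with `convexOn_exp`; note `0 ≤ 1 - sigT u`).  For fixed `γ` the map `u ↦ (thT u (γ b_p))_p` is injective
(additive in `u`, kernel `0` by `bas_T`), so
`∑ u, exp(-(k/n) ∑ p, sn(t_p)²) ≤ ∑ t : Fin J × Fin d → ZMod l, ∏ p, exp(-(k/n) sn(t_p)²) = (∑ t : ZMod l, exp(-(k/n) sn(t)²))^n`
(`Finset.prod_univ_sum`, `Fintype.piFinset_univ`).  For `t ≠ 0`, `sn t ≥ 2 / l` (`Yl_le` with `|Yl t| ≥ 1`: `Yl t = 0` would give `2 t = 0`,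
`t = 0`), so the inner sum is at most `1 + l exp(-4 k / (n l²)) ≤ 1 + l exp(-log(2 n l)) = 1 + 1/(2 n)`, and
`(1 + 1/(2n))^n ≤ exp(1/2) ≤ 2`.
-/

namespace Pool.Agent.H9.EC

open Finset Matrix

theorem wtl_half : Real.exp (1 / 2) ≤ 2 := by
  have h1 : Real.exp (1 / 2) ^ 2 = Real.exp 1 := by
    rw [← Real.exp_nat_mul]
    norm_num
  have h2 := Real.exp_one_lt_d9
  have h3 := Real.exp_pos (1 / 2)
  nlinarith

theorem wtl_sn {l : ℕ} [Fact l.Prime] (hl2 : l ≠ 2) {t : ZMod l} (ht : t ≠ 0) :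
    2 / (l : ℝ) ≤ sn l t := by
  have hp : l.Prime := Fact.out
  haveI : NeZero l := ⟨hp.ne_zero⟩
  have hl0 : (0 : ℝ) < l := Nat.cast_pos.2 hp.pos
  have h1 := Yl_le t
  have h2 : Yl t ≠ 0 := by
    intro h
    have h3 := Yl_cast t
    rw [h, Int.cast_zero] at h3
    have h4 : (2 : ZMod l) ≠ 0 := by
      intro h5
      have h6 : ((2 : ℕ) : ZMod l) = 0 := by exact_mod_cast h5
      rw [ZMod.natCast_eq_zero_iff] at h6
      exact hl2 ((Nat.prime_dvd_prime_iff_eq hp Nat.prime_two).1 h6)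
    exact (mul_ne_zero h4 ht) h3.symm
  have h3 : (1 : ℝ) ≤ |(Yl t : ℝ)| := by
    have := Int.one_le_abs h2
    exact_mod_cast this
  rw [div_le_iff₀ hl0, mul_comm]
  linarith

theorem wtl_inner {l : ℕ} [Fact l.Prime] [NeZero l] (hl2 : l ≠ 2) {n : ℝ} (hn : 0 < n) {k : ℝ}
    (hk0 : 0 ≤ k) (hk : n * (l : ℝ) ^ 2 * Real.log (2 * n * l) ≤ 4 * k) :
    ∑ t : ZMod l, Real.exp (-(k / n) * sn l t ^ 2) ≤ 1 + 1 / (2 * n) := by
  have hp : l.Prime := Fact.out
  have hl0 : (0 : ℝ) < l := Nat.cast_pos.2 hp.pos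
  rw [← Finset.add_sum_erase _ _ (Finset.mem_univ (0 : ZMod l)), sn_zero]
  have h0 : Real.exp (-(k / n) * 0 ^ 2) = 1 := by
    norm_num
  rw [h0]
  have h1 : ∀ t ∈ (Finset.univ : Finset (ZMod l)).erase 0,
      Real.exp (-(k / n) * sn l t ^ 2) ≤ 1 / (2 * n * l) := by
    intro t ht
    have ht0 : t ≠ 0 := (Finset.mem_erase.1 ht).1
    have h2 := wtl_sn hl2 ht0
    have h3 : (2 / (l : ℝ)) ^ 2 ≤ sn l t ^ 2 := by
      have : 0 ≤ 2 / (l : ℝ) := by positivity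
      exact pow_le_pow_left₀ this h2 2
    have h4 : Real.log (2 * n * l) ≤ k / n * (2 / (l : ℝ)) ^ 2 := by
      rw [div_pow, div_mul_div_comm, le_div_iff₀ (by positivity)]
      nlinarith
    have h5 : Real.log (2 * n * l) ≤ k / n * sn l t ^ 2 :=
      h4.trans (mul_le_mul_of_nonneg_left h3 (by positivity))
    have h6 : (1 : ℝ) / (2 * n * l) = Real.exp (-Real.log (2 * n * l)) := by
      rw [Real.exp_neg, Real.exp_log (by positivity), one_div]
    rw [h6]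
    apply Real.exp_le_exp.2
    linarith
  have h2 := Finset.sum_le_card_nsmul _ _ _ h1
  have h3 : ((Finset.univ : Finset (ZMod l)).erase 0).card ≤ l := by
    refine (Finset.card_le_univ _).trans ?_
    rw [ZMod.card]
  have h4 : (((Finset.univ : Finset (ZMod l)).erase 0).card : ℝ) ≤ l := by exact_mod_cast h3
  rw [nsmul_eq_mul] at h2
  have h5 : (l : ℝ) * (1 / (2 * n * l)) = 1 / (2 * n) := by
    field_simp
  have h6 : (((Finset.univ : Finset (ZMod l)).erase 0).card : ℝ) * (1 / (2 * n * l)) ≤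
      (l : ℝ) * (1 / (2 * n * l)) := mul_le_mul_of_nonneg_right h4 (by positivity)
  linarith

theorem wtl_prod {l : ℕ} [Fact l.Prime] [NeZero l] (hl2 : l ≠ 2) {ι : Type} [Fintype ι] [DecidableEq ι]
    [Nonempty ι] {k : ℝ} (hk0 : 0 ≤ k)
    (hk : (Fintype.card ι : ℝ) * (l : ℝ) ^ 2 * Real.log (2 * (Fintype.card ι : ℝ) * l) ≤ 4 * k) :
    ∑ t : ι → ZMod l, Real.exp (-(k / (Fintype.card ι : ℝ)) * ∑ p, sn l (t p) ^ 2) ≤ 2 := by
  have hn : (0 : ℝ) < (Fintype.card ι : ℝ) := Nat.cast_pos.2 Fintype.card_pos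
  have h1 := wtl_inner hl2 hn hk0 hk
  have h2 : ∑ t : ι → ZMod l, Real.exp (-(k / (Fintype.card ι : ℝ)) * ∑ p, sn l (t p) ^ 2) =
      (∑ t : ZMod l, Real.exp (-(k / (Fintype.card ι : ℝ)) * sn l t ^ 2)) ^ Fintype.card ι := by
    have h3 := Fintype.prod_sum (κ := fun _ : ι => ZMod l)
      (fun (_ : ι) (t : ZMod l) => Real.exp (-(k / (Fintype.card ι : ℝ)) * sn l t ^ 2))
    rw [Finset.prod_const, Finset.card_univ] at h3
    rw [h3]
    refine Finset.sum_congr rfl fun t _ => ?_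
    rw [← Real.exp_sum, Finset.mul_sum]
  rw [h2]
  have h4 : (0 : ℝ) ≤ ∑ t : ZMod l, Real.exp (-(k / (Fintype.card ι : ℝ)) * sn l t ^ 2) :=
    Finset.sum_nonneg fun t _ => (Real.exp_pos _).le
  calc (∑ t : ZMod l, Real.exp (-(k / (Fintype.card ι : ℝ)) * sn l t ^ 2)) ^ Fintype.card ι
      ≤ (1 + 1 / (2 * (Fintype.card ι : ℝ))) ^ Fintype.card ι := pow_le_pow_left₀ h4 h1 _
    _ ≤ (Real.exp (1 / (2 * (Fintype.card ι : ℝ)))) ^ Fintype.card ι := by
        refine pow_le_pow_left₀ (by positivity) ?_ _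
        have := Real.add_one_le_exp (1 / (2 * (Fintype.card ι : ℝ)))
        linarith
    _ = Real.exp (1 / 2) := by
        rw [← Real.exp_nat_mul]
        congr 1
        field_simp
    _ ≤ 2 := wtl_half

theorem wtl_th {d : ℕ} {G : Type} [Group G] {ρ : G →* Matrix (Fin d) (Fin d) ℤ} {l J : ℕ}
    (y u v : Fin J → Fin d → ZMod l) (γ : G) :
    thT l ρ y (u - v) γ = thT l ρ y u γ - thT l ρ y v γ := by
  unfold thT th
  rw [← Finset.sum_sub_distrib]
  exact Finset.sum_congr rfl fun i _ => sub_dotProduct _ _ _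

theorem walk_tuple {d : ℕ} {G : Type} [Group G] [Fintype G] {ρ : G →* Matrix (Fin d) (Fin d) ℤ}
    {c : G} {N : ℕ} (hA : AI ρ c N) (l : ℕ) [Fact l.Prime] (hl2 : l ≠ 2)
    (hl : ¬ l ∣ Fintype.card G) {J : ℕ} (hJ : 1 ≤ J) (y : Fin J → Fin d → ZMod l)
    (hy : LinearIndependent (ZMod l) y) (k : ℕ)
    (hk : (J : ℝ) * d * l ^ 2 * Real.log (2 * J * d * l) ≤ 4 * k) :
    (NWalkT l ρ k y : ℝ) * (l : ℝ) ^ (J * d) ≤ 2 * (4 * Fintype.card G : ℝ) ^ k := by
  have hp : l.Prime := Fact.out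
  haveI : NeZero l := ⟨hp.ne_zero⟩
  have hodd : Odd l := hp.odd_of_ne_two hl2
  have hd : 1 ≤ d := by
    by_contra h
    have h0 : d = 0 := by omega
    subst h0
    exact hy.ne_zero ⟨0, hJ⟩ (Subsingleton.elim _ _)
  rw [nwalkT_eq ρ l hodd k y, mul_comm (2 : ℝ)]
  refine mul_le_mul_of_nonneg_left ?_ (by positivity)
  obtain ⟨b, hb⟩ := bas_T hA l hl y hy
  have hg : (0 : ℝ) < Fintype.card G := Nat.cast_pos.2 Fintype.card_pos
  have hne : Nonempty (Fin J × Fin d) := ⟨(⟨0, hJ⟩, ⟨0, hd⟩)⟩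
  have hn : (0 : ℝ) < Fintype.card (Fin J × Fin d) := Nat.cast_pos.2 Fintype.card_pos
  have hcard : ((Fintype.card (Fin J × Fin d) : ℕ) : ℝ) = (J : ℝ) * d := by
    rw [Fintype.card_prod, Fintype.card_fin, Fintype.card_fin, Nat.cast_mul]
  have hk' : (Fintype.card (Fin J × Fin d) : ℝ) * (l : ℝ) ^ 2 *
      Real.log (2 * (Fintype.card (Fin J × Fin d) : ℝ) * l) ≤ 4 * (k : ℝ) := by
    rw [hcard, show (2 : ℝ) * ((J : ℝ) * d) * l = 2 * J * d * l by ring]
    exact hk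
  -- the sum for one `γ`
  have h1 : ∀ γ : G, ∑ u : Fin J → Fin d → ZMod l,
      Real.exp (-((k : ℝ) / (Fintype.card (Fin J × Fin d) : ℝ)) *
        ∑ p, sn l (thT l ρ y u (γ * b p)) ^ 2) ≤ 2 := by
    intro γ
    have hinj : Function.Injective (fun (u : Fin J → Fin d → ZMod l) (p : Fin J × Fin d) =>
        thT l ρ y u (γ * b p)) := by
      intro u v huv
      rw [← sub_eq_zero]
      refine hb γ _ fun p => ?_
      rw [wtl_th, sub_eq_zero]
      exact congrFun huv p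
    calc ∑ u : Fin J → Fin d → ZMod l,
        Real.exp (-((k : ℝ) / (Fintype.card (Fin J × Fin d) : ℝ)) *
          ∑ p, sn l (thT l ρ y u (γ * b p)) ^ 2)
        = ∑ t ∈ Finset.univ.image (fun (u : Fin J → Fin d → ZMod l) (p : Fin J × Fin d) =>
            thT l ρ y u (γ * b p)),
          Real.exp (-((k : ℝ) / (Fintype.card (Fin J × Fin d) : ℝ)) * ∑ p, sn l (t p) ^ 2) := by
          rw [Finset.sum_image fun _ _ _ _ h => hinj h]
      _ ≤ ∑ t : Fin J × Fin d → ZMod l,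
          Real.exp (-((k : ℝ) / (Fintype.card (Fin J × Fin d) : ℝ)) * ∑ p, sn l (t p) ^ 2) :=
          Finset.sum_le_sum_of_subset_of_nonneg (Finset.subset_univ _)
            fun _ _ _ => (Real.exp_pos _).le
      _ ≤ 2 := wtl_prod hl2 (Nat.cast_nonneg k) hk'
  -- one `u`
  have h2 : ∀ u : Fin J → Fin d → ZMod l, (1 - sigT l ρ y u) ^ k ≤
      ∑ γ : G, (Fintype.card G : ℝ)⁻¹ *
        Real.exp (-((k : ℝ) / (Fintype.card (Fin J × Fin d) : ℝ)) *
          ∑ p, sn l (thT l ρ y u (γ * b p)) ^ 2) := by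
    intro u
    have h3 : sigT l ρ y u ≤ 1 := by
      unfold sigT
      rw [div_le_one hg]
      calc ∑ γ, sn l (thT l ρ y u γ) ^ 2 ≤ ∑ _γ : G, (1 : ℝ) := by
            refine Finset.sum_le_sum fun γ _ => ?_
            have h4 := sn_nonneg l (thT l ρ y u γ)
            have h5 := sn_le_one l (thT l ρ y u γ)
            nlinarith
        _ = Fintype.card G := by
            rw [Finset.sum_const, Finset.card_univ, nsmul_eq_mul, mul_one]
    have h4 : (1 - sigT l ρ y u) ^ k ≤ Real.exp (-((k : ℝ) * sigT l ρ y u)) := by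
      have h5 : 1 - sigT l ρ y u ≤ Real.exp (-sigT l ρ y u) := Real.one_sub_le_exp_neg _
      calc (1 - sigT l ρ y u) ^ k ≤ (Real.exp (-sigT l ρ y u)) ^ k :=
            pow_le_pow_left₀ (by linarith) h5 k
        _ = Real.exp (-((k : ℝ) * sigT l ρ y u)) := by
            rw [← Real.exp_nat_mul, mul_neg]
    refine h4.trans ?_
    have h6 : ∀ p, ∑ γ, sn l (thT l ρ y u (γ * b p)) ^ 2 = ∑ γ, sn l (thT l ρ y u γ) ^ 2 := by
      intro p
      exact Fintype.sum_equiv (Equiv.mulRight (b p)) _ _ fun γ => rfl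
    have h7 : -((k : ℝ) * sigT l ρ y u) = ∑ γ : G, (Fintype.card G : ℝ)⁻¹ •
        (-((k : ℝ) / (Fintype.card (Fin J × Fin d) : ℝ)) *
          ∑ p, sn l (thT l ρ y u (γ * b p)) ^ 2) := by
      simp only [smul_eq_mul]
      rw [← Finset.mul_sum, ← Finset.mul_sum, Finset.sum_comm, Finset.sum_congr rfl fun p _ => h6 p,
        Finset.sum_const, Finset.card_univ, nsmul_eq_mul]
      unfold sigT
      field_simp
    rw [h7]
    refine (convexOn_exp.map_sum_le (fun _ _ => (inv_pos.2 hg).le) ?_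
      (fun _ _ => Set.mem_univ _)).trans (le_of_eq rfl)
    rw [Finset.sum_const, Finset.card_univ, nsmul_eq_mul, mul_inv_cancel₀ hg.ne']
  calc ∑ u : Fin J → Fin d → ZMod l, (1 - sigT l ρ y u) ^ k
      ≤ ∑ u : Fin J → Fin d → ZMod l, ∑ γ : G, (Fintype.card G : ℝ)⁻¹ *
        Real.exp (-((k : ℝ) / (Fintype.card (Fin J × Fin d) : ℝ)) *
          ∑ p, sn l (thT l ρ y u (γ * b p)) ^ 2) := Finset.sum_le_sum fun u _ => h2 u
    _ = ∑ γ : G, (Fintype.card G : ℝ)⁻¹ * ∑ u : Fin J → Fin d → ZMod l,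
        Real.exp (-((k : ℝ) / (Fintype.card (Fin J × Fin d) : ℝ)) *
          ∑ p, sn l (thT l ρ y u (γ * b p)) ^ 2) := by
        rw [Finset.sum_comm]
        exact Finset.sum_congr rfl fun γ _ => (Finset.mul_sum _ _ _).symm
    _ ≤ ∑ _γ : G, (Fintype.card G : ℝ)⁻¹ * 2 :=
        Finset.sum_le_sum fun γ _ => mul_le_mul_of_nonneg_left (h1 γ) (inv_pos.2 hg).le
    _ = 2 := by
        rw [Finset.sum_const, Finset.card_univ, nsmul_eq_mul, ← mul_assoc, mul_inv_cancel₀ hg.ne',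
          one_mul]

end Pool.Agent.H9.EC
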