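import Pool.Agent.H9.EC.Tup
import Pool.Agent.H9.EC.WTail

set_option autoImplicit false

/-!
The tail of the corank of the walk (module H9 EC TAL).

PROOF.  For every `w` with `j ≤ crk l (al ρ w)` the kernel `K_w` of `rm l (al ρ w)` has, by `tup_ge`,
`l^(J j) ≤ 4 #{y : Fin J → Fin d → ZMod l, independent, all y_i ∈ K_w}`.  Sum over these `w` and exchange the sums:
`#{w : j ≤ crk} l^(J j) ≤ 4 ∑_{y independent} #{w : all y_i ∈ K_w} = 4 ∑_{y independent} NWalkT l ρ k y`, and by
`walk_tuple` each term is at most `2 (4 |G|)^k / l^(J d)`; the number of all `y` is `l^(J d)`.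
(`y ∈ ker (mulVecLin A) ↔ A *ᵥ y = 0`: `LinearMap.mem_ker`, `Matrix.mulVecLin_apply`.)
-/

namespace Pool.Agent.H9.EC

open Finset Matrix

open Classical in
private theorem swap_le {W Y : Type} [Fintype W] [Fintype Y] (P : W → Prop) (Q : Y → Prop)
    (R : W → Y → Prop) (L : ℕ) (h : ∀ w, P w → L ≤ 4 * Nat.card {y : Y // Q y ∧ R w y}) :
    Nat.card {w : W // P w} * L ≤
      4 * ∑ y ∈ univ.filter (fun y : Y => Q y), Nat.card {w : W // R w y} := by
  have h1 : Nat.card {w : W // P w} = (univ.filter P).card := by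
    rw [Nat.card_eq_fintype_card, Fintype.card_subtype]
  have h2 : ∀ y : Y, Nat.card {w : W // R w y} = (univ.filter (fun w => R w y)).card := by
    intro y
    rw [Nat.card_eq_fintype_card, Fintype.card_subtype]
  have h3 : ∀ w : W, Nat.card {y : Y // Q y ∧ R w y} =
      (univ.filter (fun y => Q y ∧ R w y)).card := by
    intro w
    rw [Nat.card_eq_fintype_card, Fintype.card_subtype]
  have h4 : ∑ y ∈ univ.filter (fun y : Y => Q y), Nat.card {w : W // R w y} =
      ∑ w : W, (univ.filter (fun y => Q y ∧ R w y)).card := by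
    have h5 : ∑ y ∈ univ.filter (fun y : Y => Q y), Nat.card {w : W // R w y} =
        ∑ y : Y, ∑ w : W, if Q y ∧ R w y then 1 else 0 := by
      rw [sum_filter]
      refine sum_congr rfl fun y _ => ?_
      rw [h2, card_filter]
      by_cases hy : Q y
      · simp [hy]
      · simp [hy]
    rw [h5, sum_comm]
    refine sum_congr rfl fun w _ => ?_
    rw [card_filter]
  rw [h4, h1, ← smul_eq_mul, ← sum_const, mul_sum]
  refine (sum_le_sum fun w hw => ?_).trans (sum_le_sum_of_subset (filter_subset _ _))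
  rw [← h3]
  exact h w (mem_filter.1 hw).2

theorem crk_tail {d : ℕ} {G : Type} [Group G] [Fintype G] {ρ : G →* Matrix (Fin d) (Fin d) ℤ}
    {c : G} {N : ℕ} (hA : AI ρ c N) (l : ℕ) [Fact l.Prime] (hl2 : l ≠ 2)
    (hl : ¬ l ∣ Fintype.card G) {J : ℕ} (hJ : 1 ≤ J) (j : ℕ) (hj : J ≤ j) (k : ℕ)
    (hk : (J : ℝ) * d * l ^ 2 * Real.log (2 * J * d * l) ≤ 4 * k) :
    (Nat.card {w : Fin k → G × Fin 4 // j ≤ crk l (al ρ w)} : ℝ) * (l : ℝ) ^ (J * j) ≤
      8 * (4 * Fintype.card G : ℝ) ^ k := by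
  classical
  have hl0 : 0 < l := (Fact.out : l.Prime).pos
  haveI : NeZero l := ⟨hl0.ne'⟩
  have hlr : (0 : ℝ) < l := by exact_mod_cast hl0
  have h1 := swap_le (W := Fin k → G × Fin 4) (Y := Fin J → Fin d → ZMod l)
    (fun w => j ≤ crk l (al ρ w)) (fun y => LinearIndependent (ZMod l) y)
    (fun w y => ∀ i, rm l (al ρ w) *ᵥ y i = 0) (l ^ (J * j)) (by
      intro w hw
      have h2 := tup_ge l hl2 (LinearMap.ker (Matrix.mulVecLin (rm l (al ρ w)))) J j hj hw
      simpa only [LinearMap.mem_ker, Matrix.mulVecLin_apply] using h2)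
  have h2 : (Nat.card {w : Fin k → G × Fin 4 // j ≤ crk l (al ρ w)} : ℝ) * (l : ℝ) ^ (J * j) ≤
      4 * ∑ y ∈ univ.filter (fun y : Fin J → Fin d → ZMod l => LinearIndependent (ZMod l) y),
        (NWalkT l ρ k y : ℝ) := by
    have h3 := (Nat.cast_le (α := ℝ)).2 h1
    push_cast at h3
    exact h3
  refine h2.trans ?_
  have hpos : (0 : ℝ) < (l : ℝ) ^ (J * d) := pow_pos hlr _
  have h4 : (∑ y ∈ univ.filter (fun y : Fin J → Fin d → ZMod l => LinearIndependent (ZMod l) y),
        (NWalkT l ρ k y : ℝ)) * (l : ℝ) ^ (J * d) ≤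
      (l : ℝ) ^ (J * d) * (2 * (4 * Fintype.card G : ℝ) ^ k) := by
    rw [sum_mul]
    have h5 : ∀ y ∈ univ.filter (fun y : Fin J → Fin d → ZMod l => LinearIndependent (ZMod l) y),
        (NWalkT l ρ k y : ℝ) * (l : ℝ) ^ (J * d) ≤ 2 * (4 * Fintype.card G : ℝ) ^ k :=
      fun y hy => walk_tuple hA l hl2 hl hJ y (mem_filter.1 hy).2 k hk
    refine (sum_le_sum h5).trans ?_
    rw [sum_const, nsmul_eq_mul]
    refine mul_le_mul_of_nonneg_right ?_ (by positivity)
    have h6 : (univ.filter (fun y : Fin J → Fin d → ZMod l => LinearIndependent (ZMod l) y)).card ≤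
        l ^ (J * d) := by
      refine (card_filter_le _ _).trans (le_of_eq ?_)
      rw [card_univ, Fintype.card_fun, Fintype.card_fun, ZMod.card, Fintype.card_fin,
        Fintype.card_fin, ← pow_mul, mul_comm d J]
    exact_mod_cast h6
  have h7 : ∑ y ∈ univ.filter (fun y : Fin J → Fin d → ZMod l => LinearIndependent (ZMod l) y),
        (NWalkT l ρ k y : ℝ) ≤ 2 * (4 * Fintype.card G : ℝ) ^ k := by
    rw [mul_comm] at h4
    exact le_of_mul_le_mul_left h4 hpos
  linarith

end Pool.Agent.H9.EC
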