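import Pool.Agent.H9.EC.KerP
import Pool.Agent.H9.EC.Tail

set_option autoImplicit false

/-!
The mean number of the primitive vectors killed by the walk (module H9 EC EXK).

PROOF.  `m = l^30`.  Exchange the sums: `∑_{x primitive} NWalk m ρ k x ≤ ∑ w, #{x : rm m (al w) x = 0} ≤ ∑ w, (l^30)^(crk l (al w))`
(`card_ker_le`).  With `κ = crk ≤ d`, `l^(30 κ) ≤ 1 + ∑_{j = 1}^{κ} l^(30 j)`, so the sum is at most
`(4 |G|)^k + ∑_{j = 1}^{d} l^(30 j) #{w : j ≤ crk}` (the number of all `w` is `(4 |G|)^k`).  By `crk_tail` with `J = min j 31`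
(its condition for `J ≤ 31` follows from `hk`, monotone in `J`; for `d = 0` there is nothing to show):
for `j ≤ 30` the term is at most `8 l^(30 j - j²) (4|G|)^k ≤ 8 l^225 (4|G|)^k`; for `j ≥ 31` it is at most
`8 l^(30 j - 31 j) (4|G|)^k = 8 l^(-j) (4|G|)^k ≤ 8 · 3^(-j) (4|G|)^k`, and `∑_j 3^(-j) ≤ 1/2`.  Total:
`1 + 30 · 8 l^225 + 4 ≤ 8 (31 l^225 + 1)`.
-/

namespace Pool.Agent.H9.EC

open Finset Matrix

private theorem exk_crk_le {d : ℕ} (l : ℕ) [Fact l.Prime] (A : Matrix (Fin d) (Fin d) ℤ) :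
    crk l A ≤ d := by
  unfold crk
  refine (Submodule.finrank_le _).trans ?_
  rw [Module.finrank_fin_fun]

/-- exchange of the sums -/
private theorem exk_swap {d : ℕ} {G : Type} [Group G] [Fintype G]
    (ρ : G →* Matrix (Fin d) (Fin d) ℤ) (l : ℕ) [Fact l.Prime] (k : ℕ)
    (s : Finset (Fin d → ZMod (l ^ 30))) :
    ∑ x ∈ s, (NWalk (l ^ 30) ρ k x : ℝ) ≤
      ∑ w : Fin k → G × Fin 4, ((l : ℝ) ^ 30) ^ crk l (al ρ w) := by
  classical
  have h1 : ∀ x, (NWalk (l ^ 30) ρ k x : ℝ) =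
      ∑ w : Fin k → G × Fin 4, if rm (l ^ 30) (al ρ w) *ᵥ x = 0 then (1 : ℝ) else 0 := by
    intro x
    unfold NWalk
    rw [Nat.card_eq_fintype_card, Fintype.card_subtype, ← sum_filter, sum_const, nsmul_eq_mul,
      mul_one]
  rw [sum_congr rfl fun x _ => h1 x, sum_comm]
  refine sum_le_sum fun w _ => ?_
  have h2 := card_ker_le l 30 (al ρ w)
  have h3 : ∑ x ∈ s, (if rm (l ^ 30) (al ρ w) *ᵥ x = 0 then (1 : ℝ) else 0) ≤
      (Nat.card {x : Fin d → ZMod (l ^ 30) // rm (l ^ 30) (al ρ w) *ᵥ x = 0} : ℝ) := by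
    have hne : NeZero (l ^ 30) := ⟨pow_ne_zero _ (Fact.out : l.Prime).ne_zero⟩
    rw [Nat.card_eq_fintype_card, Fintype.card_subtype, ← sum_filter, sum_const, nsmul_eq_mul,
      mul_one]
    exact_mod_cast card_le_card (filter_subset_filter _ (subset_univ s))
  refine h3.trans ?_
  exact_mod_cast h2

open Classical in
theorem exp_ker {d : ℕ} {G : Type} [Group G] [Fintype G] {ρ : G →* Matrix (Fin d) (Fin d) ℤ}
    {c : G} {N : ℕ} (hA : AI ρ c N) (l : ℕ) [Fact l.Prime] (hl2 : l ≠ 2)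
    (hl : ¬ l ∣ Fintype.card G) (k : ℕ)
    (hk : (31 : ℝ) * d * l ^ 2 * Real.log (62 * d * l) ≤ 4 * k) :
    ∑ x ∈ univ.filter (fun x : Fin d → ZMod (l ^ 30) => Prim x), (NWalk (l ^ 30) ρ k x : ℝ) ≤
      8 * (31 * (l : ℝ) ^ 225 + 1) * (4 * Fintype.card G : ℝ) ^ k := by
  refine (exk_swap ρ l k _).trans ?_
  obtain ⟨Nn, hNn⟩ : ∃ Nn : ℝ, Nn = (4 * Fintype.card G : ℝ) ^ k := ⟨_, rfl⟩
  have hN0 : 0 ≤ Nn := by
    rw [hNn]
    positivity
  have hl2' : 2 ≤ l := (Fact.out : l.Prime).two_le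
  have hlr : (2 : ℝ) ≤ l := by exact_mod_cast hl2'
  have hl1 : (1 : ℝ) ≤ l := by linarith
  have hl0 : (0 : ℝ) < l := by linarith
  -- the pointwise bound
  have h1 : ∀ w : Fin k → G × Fin 4, ((l : ℝ) ^ 30) ^ crk l (al ρ w) ≤
      1 + ∑ j ∈ Icc 1 d, if j ≤ crk l (al ρ w) then ((l : ℝ) ^ 30) ^ j else 0 := by
    intro w
    have h2 := exk_crk_le l (al ρ w)
    have h3 : 0 ≤ ∑ j ∈ Icc 1 d, if j ≤ crk l (al ρ w) then ((l : ℝ) ^ 30) ^ j else 0 := by
      refine sum_nonneg fun j _ => ?_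
      split_ifs
      · positivity
      · exact le_rfl
    rcases Nat.eq_zero_or_pos (crk l (al ρ w)) with h4 | h4
    · rw [h4] at h3 ⊢
      rw [pow_zero]
      linarith
    · have h5 := single_le_sum (f := fun j => if j ≤ crk l (al ρ w) then ((l : ℝ) ^ 30) ^ j else 0)
        (s := Icc 1 d) (fun j _ => by
          show 0 ≤ if j ≤ crk l (al ρ w) then ((l : ℝ) ^ 30) ^ j else 0
          split_ifs
          · positivity
          · exact le_rfl) (mem_Icc.2 ⟨h4, h2⟩)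
      simp only [le_refl, if_true] at h5
      linarith
  refine (sum_le_sum fun w _ => h1 w).trans ?_
  rw [sum_add_distrib, sum_const, card_univ, nsmul_eq_mul, mul_one, sum_comm]
  have hcard : (Fintype.card (Fin k → G × Fin 4) : ℝ) = Nn := by
    rw [Fintype.card_fun, Fintype.card_prod, Fintype.card_fin, Fintype.card_fin, hNn]
    push_cast
    rw [mul_comm]
  rw [hcard]
  -- one term
  have h2 : ∀ j ∈ Icc 1 d, ∑ w : Fin k → G × Fin 4,
      (if j ≤ crk l (al ρ w) then ((l : ℝ) ^ 30) ^ j else 0) ≤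
      8 * Nn * ((if j ≤ 30 then (l : ℝ) ^ 225 else 0) + (1 / 2) ^ j) := by
    intro j hj
    obtain ⟨hj1, hjd⟩ := mem_Icc.1 hj
    have hd1 : 1 ≤ d := hj1.trans hjd
    have hdr : (1 : ℝ) ≤ d := by exact_mod_cast hd1
    obtain ⟨cnt, hcnt⟩ : ∃ cnt : ℝ, cnt =
        (Nat.card {w : Fin k → G × Fin 4 // j ≤ crk l (al ρ w)} : ℝ) := ⟨_, rfl⟩
    have h3 : ∑ w : Fin k → G × Fin 4, (if j ≤ crk l (al ρ w) then ((l : ℝ) ^ 30) ^ j else 0) =
        cnt * (l : ℝ) ^ (30 * j) := by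
      rw [hcnt, Nat.card_eq_fintype_card, Fintype.card_subtype, ← sum_filter, sum_const,
        nsmul_eq_mul, pow_mul]
    have hcnt0 : 0 ≤ cnt := by
      rw [hcnt]
      exact Nat.cast_nonneg _
    rw [h3]
    obtain ⟨J, hJ⟩ : ∃ J, J = min j 31 := ⟨_, rfl⟩
    have hJ1 : 1 ≤ J := by omega
    have hJj : J ≤ j := by omega
    have hJ31 : J ≤ 31 := by omega
    have hJr1 : (1 : ℝ) ≤ J := by exact_mod_cast hJ1
    have hJr : (J : ℝ) ≤ 31 := by exact_mod_cast hJ31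
    have h4 := crk_tail hA l hl2 hl hJ1 j hJj k (by
      refine le_trans ?_ hk
      have e1 : (0 : ℝ) < 2 * J * d * l := by positivity
      have e2 : Real.log (2 * J * d * l) ≤ Real.log (62 * d * l) := by
        refine Real.log_le_log e1 ?_
        have e3 : (0 : ℝ) ≤ d * l := by positivity
        nlinarith
      have e4 : 0 ≤ Real.log (62 * d * l) := by
        refine Real.log_nonneg ?_
        have e3 : (1 : ℝ) ≤ d * l := by nlinarith
        nlinarith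
      have e5 : (0 : ℝ) ≤ d * l ^ 2 := by positivity
      calc (J : ℝ) * d * l ^ 2 * Real.log (2 * J * d * l) ≤
            (J : ℝ) * d * l ^ 2 * Real.log (62 * d * l) :=
            mul_le_mul_of_nonneg_left e2 (by positivity)
        _ ≤ 31 * d * l ^ 2 * Real.log (62 * d * l) := by
            refine mul_le_mul_of_nonneg_right ?_ e4
            rw [mul_assoc, mul_assoc]
            exact mul_le_mul_of_nonneg_right hJr e5)
    rw [← hcnt, ← hNn] at h4
    have hh : (0 : ℝ) ≤ (1 / 2) ^ j := by positivity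
    by_cases h30 : j ≤ 30
    · rw [if_pos h30]
      have e1 : J = j := by omega
      rw [e1] at h4
      have e2 : 30 * j ≤ j * j + 225 := by
        have h5 : (0 : ℤ) ≤ ((j : ℤ) - 15) ^ 2 := sq_nonneg _
        zify
        nlinarith
      calc cnt * (l : ℝ) ^ (30 * j) ≤ cnt * (l : ℝ) ^ (j * j + 225) :=
            mul_le_mul_of_nonneg_left (pow_le_pow_right₀ hl1 e2) hcnt0
        _ = cnt * (l : ℝ) ^ (j * j) * (l : ℝ) ^ 225 := by rw [pow_add, mul_assoc]
        _ ≤ 8 * Nn * (l : ℝ) ^ 225 := mul_le_mul_of_nonneg_right h4 (by positivity)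
        _ ≤ 8 * Nn * ((l : ℝ) ^ 225 + (1 / 2) ^ j) :=
            mul_le_mul_of_nonneg_left (by linarith) (by positivity)
    · rw [if_neg h30, zero_add]
      have e1 : J = 31 := by omega
      rw [e1] at h4
      have e3 : (2 : ℝ) ^ j ≤ (l : ℝ) ^ j := pow_le_pow_left₀ (by norm_num) hlr j
      have e4 : cnt * (l : ℝ) ^ (30 * j) * (2 : ℝ) ^ j ≤ 8 * Nn := by
        refine le_trans ?_ h4
        rw [show 31 * j = 30 * j + j by ring, pow_add, mul_assoc]
        exact mul_le_mul_of_nonneg_left (mul_le_mul_of_nonneg_left e3 (by positivity)) hcnt0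
      rw [one_div, inv_pow, ← div_eq_mul_inv, le_div_iff₀ (by positivity)]
      exact e4
  refine (add_le_add_right (sum_le_sum h2) Nn).trans ?_
  rw [← mul_sum, sum_add_distrib]
  have h5 : ∑ j ∈ Icc 1 d, (if j ≤ 30 then (l : ℝ) ^ 225 else 0) ≤ 30 * (l : ℝ) ^ 225 := by
    rw [← sum_filter, sum_const, nsmul_eq_mul]
    refine mul_le_mul_of_nonneg_right ?_ (by positivity)
    have h6 : ((Icc 1 d).filter fun j => j ≤ 30).card ≤ (Icc 1 30).card := by
      refine card_le_card fun j hj => ?_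
      rw [mem_filter, mem_Icc] at hj
      exact mem_Icc.2 ⟨hj.1.1, hj.2⟩
    rw [Nat.card_Icc] at h6
    exact_mod_cast h6
  have h7 : ∑ j ∈ Icc 1 d, ((1 / 2 : ℝ)) ^ j ≤ 1 := by
    have h8 : ∀ n : ℕ, ∑ j ∈ Icc 1 n, ((1 / 2 : ℝ)) ^ j = 1 - (1 / 2) ^ n := by
      intro n
      induction n with
      | zero => simp
      | succ n ih =>
        rw [sum_Icc_succ_top (by omega), ih, pow_succ]
        ring
    rw [h8]
    have : (0 : ℝ) ≤ (1 / 2) ^ d := by positivity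
    linarith
  have h9 : (1 : ℝ) ≤ (l : ℝ) ^ 225 := one_le_pow₀ hl1
  rw [← hNn]
  have h10 : Nn + 8 * Nn * (30 * (l : ℝ) ^ 225 + 1) ≤ 8 * (31 * (l : ℝ) ^ 225 + 1) * Nn := by
    nlinarith
  refine le_trans ?_ h10
  have h11 : 8 * Nn * (∑ j ∈ Icc 1 d, (if j ≤ 30 then (l : ℝ) ^ 225 else 0) +
      ∑ j ∈ Icc 1 d, ((1 / 2 : ℝ)) ^ j) ≤ 8 * Nn * (30 * (l : ℝ) ^ 225 + 1) :=
    mul_le_mul_of_nonneg_left (add_le_add h5 h7) (by positivity)
  linarith

end Pool.Agent.H9.EC
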