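import Pool.Agent.H9.EC.Defs

set_option autoImplicit false

/-!
A singular integer matrix kills many primitive vectors modulo `l^a` (module H9 EC SGP).

PROOF.  Let `A = mat ρ s f` with `det A = 0`.  There is `z : Fin d → ℤ`, `z ≠ 0`, `A *ᵥ z = 0`
(`Matrix.exists_mulVec_eq_zero_iff`); dividing by the largest power of `l` that divides all coordinates we may assume
that some coordinate `z_i` is prime to `l` (strong induction on `∑ |z_i|`, or `Finset.gcd`, `Finset.extract_gcd`).
For every unit `ε` of `ZMod (l^a)` the vector `ε • (z mod l^a)` is primitive (its coordinate `i` is a unit: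
`ZMod.isUnit_iff_coprime`/`ZMod.unitOfCoprime`) and killed by `rm (l^a) A`; different `ε` give different
vectors (coordinate `i`).  So `φ(l^a) ≤ #{x primitive : rm (l^a) A x = 0}` (`ZMod.card_units_eq_totient`).  Sum over `f` and
exchange the sums (`NSing`, `NKer` are numbers of elements of subtypes; `Nat.card_eq_fintype_card`, `Fintype.card_subtype`,
`Finset.sum_comm`, `Finset.card_eq_sum_ones`/`Finset.sum_card_bipartiteAbove_eq_sum_card_bipartiteBelow`).
-/

namespace Pool.Agent.H9.EC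

open Finset Matrix

private theorem prim_ker {d : ℕ} (A : Matrix (Fin d) (Fin d) ℤ) (hA : A.det = 0) (l : ℕ)
    [hl : Fact l.Prime] : ∃ z : Fin d → ℤ, A *ᵥ z = 0 ∧ ∃ i, ¬ (l : ℤ) ∣ z i := by
  obtain ⟨v, hv0, hv⟩ := Matrix.exists_mulVec_eq_zero_iff.2 hA
  have hne : (univ : Finset (Fin d)).Nonempty := by
    by_contra h
    rw [not_nonempty_iff_eq_empty, univ_eq_empty_iff] at h
    exact hv0 (Subsingleton.elim _ _)
  obtain ⟨g, hg, hg1⟩ := Finset.extract_gcd v hne
  obtain ⟨D, hD⟩ : ∃ D, D = univ.gcd v := ⟨_, rfl⟩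
  rw [← hD] at hg
  have hD0 : D ≠ 0 := by
    intro h
    apply hv0
    funext i
    rw [hg i (mem_univ i), h, zero_mul, Pi.zero_apply]
  refine ⟨g, ?_, ?_⟩
  · have h1 : v = D • g := by
      funext i
      rw [hg i (mem_univ i)]
      rfl
    rw [h1, Matrix.mulVec_smul] at hv
    exact (smul_eq_zero.1 hv).resolve_left hD0
  · by_contra hcon
    push Not at hcon
    have h2 : (l : ℤ) ∣ univ.gcd g := Finset.dvd_gcd fun i _ => hcon i
    rw [hg1] at h2
    have h3 : IsUnit (l : ℤ) := isUnit_of_dvd_one h2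
    exact (Nat.prime_iff_prime_int.1 hl.out).not_unit h3

open Classical in
private theorem count_one {d : ℕ} (A : Matrix (Fin d) (Fin d) ℤ) (hA : A.det = 0) (l a : ℕ)
    [hl : Fact l.Prime] :
    Nat.totient (l ^ a) ≤ (univ.filter (fun x : Fin d → ZMod (l ^ a) => Prim x ∧
      rm (l ^ a) A *ᵥ x = 0)).card := by
  haveI : NeZero (l ^ a) := ⟨(Nat.pow_pos hl.out.pos).ne'⟩
  obtain ⟨z, hz, i, hi⟩ := prim_ker A hA l
  have hu : IsUnit ((z i : ℤ) : ZMod (l ^ a)) := by
    have h1 : IsCoprime ((l : ℤ) ^ a) (z i) :=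
      ((Nat.prime_iff_prime_int.1 hl.out).coprime_iff_not_dvd.2 hi).pow_left
    obtain ⟨u, v, huv⟩ := h1
    have h2 : ((v : ℤ) : ZMod (l ^ a)) * ((z i : ℤ) : ZMod (l ^ a)) = 1 := by
      have h3 := congrArg (Int.cast : ℤ → ZMod (l ^ a)) huv
      push_cast at h3
      have h4 : ((l : ZMod (l ^ a))) ^ a = 0 := by
        have := ZMod.natCast_self (l ^ a)
        push_cast at this
        exact this
      rw [h4, mul_zero, zero_add] at h3
      exact h3
    exact IsUnit.of_mul_eq_one_right _ h2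
  rw [← ZMod.card_units_eq_totient, ← Finset.card_univ]
  refine Finset.card_le_card_of_injOn
    (fun ε : (ZMod (l ^ a))ˣ => fun j => (ε : ZMod (l ^ a)) * ((z j : ℤ) : ZMod (l ^ a))) ?_ ?_
  · intro ε _
    rw [mem_coe, mem_filter]
    refine ⟨mem_univ _, ⟨i, ε.isUnit.mul hu⟩, ?_⟩
    have h5 : (fun j => (ε : ZMod (l ^ a)) * ((z j : ℤ) : ZMod (l ^ a))) =
        (ε : ZMod (l ^ a)) • (fun j => ((z j : ℤ) : ZMod (l ^ a))) := by
      funext j
      rfl
    change rm (l ^ a) A *ᵥ (fun j => (ε : ZMod (l ^ a)) * ((z j : ℤ) : ZMod (l ^ a))) = 0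
    rw [h5, Matrix.mulVec_smul]
    have h6 : rm (l ^ a) A *ᵥ (fun j => ((z j : ℤ) : ZMod (l ^ a))) = 0 := by
      funext k
      have h7 := congrFun hz k
      simp only [Matrix.mulVec, dotProduct, Pi.zero_apply] at h7
      have h8 := congrArg (Int.cast : ℤ → ZMod (l ^ a)) h7
      rw [Int.cast_sum, Int.cast_zero] at h8
      simp only [Matrix.mulVec, dotProduct, rm, Matrix.map_apply, Int.coe_castRingHom, Pi.zero_apply]
      rw [← h8]
      refine sum_congr rfl fun j _ => ?_
      rw [Int.cast_mul]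
    rw [h6, smul_zero]
  · intro ε _ ε' _ h
    apply Units.ext
    exact hu.mul_right_cancel (congrFun h i)

open Classical in
theorem nsing_le {d : ℕ} {G : Type} [Group G] [Fintype G] (ρ : G →* Matrix (Fin d) (Fin d) ℤ)
    {S : Type} [Fintype S] (s : S → G) (l a : ℕ) [Fact l.Prime] (ha : 1 ≤ a) :
    NSing ρ s * Nat.totient (l ^ a) ≤
      ∑ x ∈ univ.filter (fun x : Fin d → ZMod (l ^ a) => Prim x), NKer (l ^ a) ρ s x := by
  have h1 : NSing ρ s = (univ.filter (fun f : S → Bool => (mat ρ s f).det = 0)).card := by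
    unfold NSing
    rw [Nat.card_eq_fintype_card, Fintype.card_subtype]
  have h2 : ∀ x : Fin d → ZMod (l ^ a), NKer (l ^ a) ρ s x =
      (univ.filter (fun f : S → Bool => rm (l ^ a) (mat ρ s f) *ᵥ x = 0)).card := by
    intro x
    unfold NKer
    rw [Nat.card_eq_fintype_card, Fintype.card_subtype]
  have h3 : ∑ x ∈ univ.filter (fun x : Fin d → ZMod (l ^ a) => Prim x), NKer (l ^ a) ρ s x =
      ∑ f : S → Bool, (univ.filter (fun x : Fin d → ZMod (l ^ a) => Prim x ∧
        rm (l ^ a) (mat ρ s f) *ᵥ x = 0)).card := by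
    have h4 : ∑ x ∈ univ.filter (fun x : Fin d → ZMod (l ^ a) => Prim x), NKer (l ^ a) ρ s x =
        ∑ x : Fin d → ZMod (l ^ a), ∑ f : S → Bool,
          if Prim x ∧ rm (l ^ a) (mat ρ s f) *ᵥ x = 0 then 1 else 0 := by
      rw [sum_filter]
      refine sum_congr rfl fun x _ => ?_
      rw [h2, card_filter]
      by_cases hx : Prim x
      · simp [hx]
      · simp [hx]
    rw [h4, sum_comm]
    refine sum_congr rfl fun f _ => ?_
    rw [card_filter]
  rw [h3, h1, ← smul_eq_mul, ← sum_const]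
  refine (sum_le_sum fun f hf => ?_).trans (sum_le_sum_of_subset (filter_subset _ _))
  exact count_one _ (mem_filter.1 hf).2 l a

end Pool.Agent.H9.EC
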