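import Pool.Agent.H9.EC.SnBd
import Pool.Agent.H9.EC.SigN
import Pool.Agent.H9.EC.BasX

set_option autoImplicit false

/-!
The lifts of independent vectors are independent over `ℤ` (module H9 EC IND).

PROOF.  `m = l^a` is odd.  `phi_inj`: if `Yl (th u (γ b_i)) = Yl (th u' (γ b_i))` for all `i` then (by `Yl_cast`)
`2 th (u - u') (γ b_i) = 0`, so `th (u - u') (γ b_i) = 0` (`2` is a unit) and `u = u'` by `hb` (`th` is additive in `u`:
`th_add`).  `y_indep`: let `v_j = u₀ ᵥ* rm (ρ (b'_j))` and `∑ j, k_j Yl (th (v_j) (γ b_i)) = 0` for all `i`.  Modulo `m`: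
`2 th (∑ j, k_j • v_j) (γ b_i) = 0`, so `∑ j, k_j • v_j = 0`, so `l ∣ k_j` for all `j` by `hb'`.  Write `k = l k'`; then the same
relation holds for `k'` (divide by `l ≠ 0`).  So all the `k_j` are divisible by all powers of `l`: they vanish (infinite
descent: strong induction on `∑ j, |k_j|`, or show `l^n ∣ k_j` for all `n` by induction on `n` for all `k` at once).
-/

namespace Pool.Agent.H9.EC

open Finset Matrix

variable {d : ℕ} {G : Type} [Group G] [Fintype G] {ρ : G →* Matrix (Fin d) (Fin d) ℤ}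

omit [Fintype G] in
private theorem th_sub' (m : ℕ) (x u u' : Fin d → ZMod m) (γ : G) :
    th m ρ x (u - u') γ = th m ρ x u γ - th m ρ x u' γ := by
  unfold th
  rw [sub_dotProduct]

omit [Fintype G] in
private theorem th_sum' (m : ℕ) (x : Fin d → ZMod m) (k : Fin d → ZMod m)
    (v : Fin d → Fin d → ZMod m) (γ : G) :
    th m ρ x (∑ j, k j • v j) γ = ∑ j, k j * th m ρ x (v j) γ := by
  unfold th
  rw [sum_dotProduct]
  refine sum_congr rfl fun j _ => ?_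
  rw [smul_dotProduct, smul_eq_mul]

private theorem two_unit (l a : ℕ) [hl : Fact l.Prime] (hl2 : l ≠ 2) :
    IsUnit (2 : ZMod (l ^ a)) := by
  have h1 : Nat.Coprime 2 (l ^ a) := by
    apply Nat.Coprime.pow_right
    rw [Nat.coprime_primes Nat.prime_two hl.out]
    exact fun h => hl2 h.symm
  have h2 := (ZMod.isUnit_iff_coprime 2 (l ^ a)).2 h1
  exact_mod_cast h2

theorem phi_inj (l a : ℕ) [Fact l.Prime] (hl2 : l ≠ 2) (x : Fin d → ZMod (l ^ a)) (b : Fin d → G) (γ : G)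
    (hb : ∀ u : Fin d → ZMod (l ^ a), (∀ i, th (l ^ a) ρ x u (γ * b i) = 0) → u = 0)
    (u u' : Fin d → ZMod (l ^ a))
    (h : ∀ i, (2 : ZMod (l ^ a)) * th (l ^ a) ρ x u (γ * b i) = 2 * th (l ^ a) ρ x u' (γ * b i)) :
    u = u' := by
  have h1 : u - u' = 0 := by
    apply hb
    intro i
    rw [th_sub', sub_eq_zero]
    exact (two_unit l a hl2).mul_left_cancel (h i)
  exact sub_eq_zero.1 h1

private theorem desc {l : ℕ} (hl : 2 ≤ l) (y : Fin d → Fin d → ℤ)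
    (h : ∀ k : Fin d → ℤ, (∀ i, ∑ j, k j * y i j = 0) → ∀ j, (l : ℤ) ∣ k j) (n : ℕ) :
    ∀ k : Fin d → ℤ, (∀ i, ∑ j, k j * y i j = 0) → ∀ j, (l : ℤ) ^ n ∣ k j := by
  have hl0 : (l : ℤ) ≠ 0 := by
    have : (0 : ℤ) < l := by exact_mod_cast (by omega : 0 < l)
    exact this.ne'
  induction n with
  | zero => intro k _ j; rw [pow_zero]; exact one_dvd _
  | succ n ih =>
    intro k hk
    choose k' hk' using h k hk
    have h1 : ∀ i, ∑ j, k' j * y i j = 0 := by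
      intro i
      have h2 := hk i
      have h3 : ∑ j, k j * y i j = (l : ℤ) * ∑ j, k' j * y i j := by
        rw [mul_sum]
        refine sum_congr rfl fun j _ => ?_
        rw [hk' j]
        ring
      rw [h3] at h2
      exact (mul_eq_zero.1 h2).resolve_left hl0
    intro j
    rw [hk' j, pow_succ']
    exact mul_dvd_mul_left _ (ih k' h1 j)

theorem y_indep (l a : ℕ) [Fact l.Prime] (hl2 : l ≠ 2) (ha : 1 ≤ a) (x : Fin d → ZMod (l ^ a))
    (b : Fin d → G) (γ : G)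
    (hb : ∀ u : Fin d → ZMod (l ^ a), (∀ i, th (l ^ a) ρ x u (γ * b i) = 0) → u = 0)
    (u₀ : Fin d → ZMod (l ^ a)) (b' : Fin d → G)
    (hb' : ∀ k : Fin d → ℤ,
      (∑ j, (k j : ZMod (l ^ a)) • (u₀ ᵥ* rm (l ^ a) (ρ (b' j))) = 0) → ∀ j, (l : ℤ) ∣ k j)
    (k : Fin d → ℤ)
    (hk : ∀ i, ∑ j, k j * Yl (th (l ^ a) ρ x (u₀ ᵥ* rm (l ^ a) (ρ (b' j))) (γ * b i)) = 0) :
    ∀ j, k j = 0 := by
  have hl : 2 ≤ l := (Fact.out : l.Prime).two_le
  haveI : NeZero (l ^ a) := ⟨(Nat.pow_pos (by omega)).ne'⟩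
  have h0 : ∀ k : Fin d → ℤ,
      (∀ i, ∑ j, k j * Yl (th (l ^ a) ρ x (u₀ ᵥ* rm (l ^ a) (ρ (b' j))) (γ * b i)) = 0) →
      ∀ j, (l : ℤ) ∣ k j := by
    intro k hk
    apply hb'
    apply hb
    intro i
    have h1 := congrArg (Int.cast : ℤ → ZMod (l ^ a)) (hk i)
    rw [Int.cast_sum, Int.cast_zero] at h1
    have h2 : ∑ j, (((k j * Yl (th (l ^ a) ρ x (u₀ ᵥ* rm (l ^ a) (ρ (b' j))) (γ * b i)) : ℤ)) :
        ZMod (l ^ a)) = 2 * th (l ^ a) ρ x
        (∑ j, (k j : ZMod (l ^ a)) • (u₀ ᵥ* rm (l ^ a) (ρ (b' j)))) (γ * b i) := by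
      rw [th_sum', mul_sum]
      refine sum_congr rfl fun j _ => ?_
      rw [Int.cast_mul, Yl_cast]
      ring
    rw [h2] at h1
    apply (two_unit l a hl2).mul_left_cancel
    rw [h1, mul_zero]
  intro j
  have h3 := desc hl (fun i j => Yl (th (l ^ a) ρ x (u₀ ᵥ* rm (l ^ a) (ρ (b' j))) (γ * b i))) h0
    (k j).natAbs k hk j
  refine Int.eq_zero_of_abs_lt_dvd h3 ?_
  have h4 : (k j).natAbs < l ^ (k j).natAbs := Nat.lt_pow_self (by omega)
  rw [Int.abs_eq_natAbs]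
  exact_mod_cast h4

end Pool.Agent.H9.EC
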