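import Mathlib

set_option autoImplicit false

/-!
Representatives modulo a lattice (module H9 EC LAT; Mathlib only).

PROOF.  `Λ` = the set of the `∑ j, k_j y_·j`, `k : Fin d → ℤ` (an additive subgroup of `Fin d → ℤ`).  On `A` consider the
equivalence relation `Y a - Y a' ∈ Λ`, and let `rep a` be a fixed element of the class of `a` in `A` (for instance: by
`Classical.choice`, from the set `{a' ∈ A | Y a' - Y a ∈ Λ}`, which depends only on the class; `Quotient.out` of a setoid on
`A`, or `Classical.epsilon`/`Exists.choose` applied to the *set*, so that equal sets give equal elements; elements outside of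
`A` are sent to themselves).  Suppose the displayed equality.  `Y a - Y (rep a)`, `Y a' - Y (rep a')` and `∑ j, (n_j - n'_j) y_·j` are in
`Λ`, hence so is `Y (rep a) - Y (rep a')`, the classes of `a` and `a'` are equal and `rep a = rep a'`.  So
`q (Y a - Y a') + ∑ j, (n_j - n'_j) y_·j = 0`, and `Y a - Y a' = ∑ j, k_j y_·j` for some `k`; by `hy`
`q k_j + (n_j - n'_j) = 0` for all `j`; as `|n_j - n'_j| < q`, `k_j = 0` and `n_j = n'_j`.
-/

namespace Pool.Agent.H9.EC

open Finset

private def latRel {d : ℕ} (y : Fin d → Fin d → ℤ) {α : Type} (Y : α → Fin d → ℤ) (a b : α) :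
    Prop := ∃ k : Fin d → ℤ, ∀ i, Y a i - Y b i = ∑ j, k j * y i j

private theorem latRel_symm {d : ℕ} {y : Fin d → Fin d → ℤ} {α : Type} {Y : α → Fin d → ℤ}
    {a b : α} (h : latRel y Y a b) : latRel y Y b a := by
  obtain ⟨k, hk⟩ := h
  refine ⟨fun j => - k j, fun i => ?_⟩
  have h1 : ∑ j, - k j * y i j = - ∑ j, k j * y i j := by
    rw [← Finset.sum_neg_distrib]
    exact Finset.sum_congr rfl fun j _ => by ring
  rw [h1, ← hk i]
  ring

private theorem latRel_trans {d : ℕ} {y : Fin d → Fin d → ℤ} {α : Type} {Y : α → Fin d → ℤ}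
    {a b c : α} (h : latRel y Y a b) (h' : latRel y Y b c) : latRel y Y a c := by
  obtain ⟨k, hk⟩ := h
  obtain ⟨k', hk'⟩ := h'
  refine ⟨fun j => k j + k' j, fun i => ?_⟩
  have h1 : ∑ j, (k j + k' j) * y i j = ∑ j, k j * y i j + ∑ j, k' j * y i j := by
    rw [← Finset.sum_add_distrib]
    exact Finset.sum_congr rfl fun j _ => by ring
  rw [h1, ← hk i, ← hk' i]
  ring

open Classical in
private noncomputable def latPick {α : Type} (s : Set α) (x : α) : α :=
  if h : s.Nonempty then h.some else x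

private theorem latPick_mem {α : Type} {s : Set α} (h : s.Nonempty) (x : α) :
    latPick s x ∈ s := by
  unfold latPick
  rw [dif_pos h]
  exact h.some_mem

private theorem latPick_eq {α : Type} {s : Set α} (h : s.Nonempty) (x x' : α) :
    latPick s x = latPick s x' := by
  unfold latPick
  rw [dif_pos h, dif_pos h]

theorem lat_rep {d q : ℕ} (y : Fin d → Fin d → ℤ)
    (hy : ∀ k : Fin d → ℤ, (∀ i, ∑ j, k j * y i j = 0) → ∀ j, k j = 0)
    {α : Type} (Y : α → Fin d → ℤ) (A : Finset α) :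
    ∃ rep : α → α, (∀ a ∈ A, rep a ∈ A) ∧
      ∀ a ∈ A, ∀ a' ∈ A, ∀ n n' : Fin d → Fin q,
        (∀ i, Y (rep a) i + q * (Y a i - Y (rep a) i) + ∑ j, ((n j : ℕ) : ℤ) * y i j =
          Y (rep a') i + q * (Y a' i - Y (rep a') i) + ∑ j, ((n' j : ℕ) : ℤ) * y i j) →
        Y a = Y a' ∧ n = n' ∧ rep a = rep a' := by
  classical
  let S : α → Set α := fun a => {b | b ∈ A ∧ latRel y Y b a}
  have hS : ∀ a ∈ A, (S a).Nonempty := by
    intro a ha
    exact ⟨a, ha, fun _ => 0, fun i => by simp⟩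
  refine ⟨fun a => latPick (S a) a, ?_, ?_⟩
  · intro a ha
    exact (latPick_mem (hS a ha) a).1
  intro a ha a' ha' n n' h
  simp only at h
  show Y a = Y a' ∧ n = n' ∧ latPick (S a) a = latPick (S a') a'
  have hr1 : latRel y Y (latPick (S a) a) a := (latPick_mem (hS a ha) a).2
  have hr2 : latRel y Y (latPick (S a') a') a' := (latPick_mem (hS a' ha') a').2
  generalize hra : latPick (S a) a = ra at *
  generalize hra' : latPick (S a') a' = ra' at *
  obtain ⟨k1, hk1⟩ := hr1
  obtain ⟨k2, hk2⟩ := hr2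
  have hsum : ∀ i, ∑ j, ((q : ℤ) * k1 j - q * k2 j - (((n j : ℕ) : ℤ) - ((n' j : ℕ) : ℤ))) * y i j =
      q * ∑ j, k1 j * y i j - q * ∑ j, k2 j * y i j -
        (∑ j, ((n j : ℕ) : ℤ) * y i j - ∑ j, ((n' j : ℕ) : ℤ) * y i j) := by
    intro i
    rw [Finset.mul_sum, Finset.mul_sum, ← Finset.sum_sub_distrib, ← Finset.sum_sub_distrib,
      ← Finset.sum_sub_distrib]
    exact Finset.sum_congr rfl fun j _ => by ring
  have hrr : latRel y Y ra ra' := by
    refine ⟨fun j => (q : ℤ) * k1 j - q * k2 j - (((n j : ℕ) : ℤ) - ((n' j : ℕ) : ℤ)), ?_⟩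
    intro i
    rw [hsum i, ← hk1 i, ← hk2 i]
    linear_combination h i
  have haa : latRel y Y a a' :=
    latRel_trans (latRel_symm ⟨k1, hk1⟩) (latRel_trans hrr ⟨k2, hk2⟩)
  have hSS : S a = S a' := by
    ext b
    constructor
    · rintro ⟨h1, h2⟩
      exact ⟨h1, latRel_trans h2 haa⟩
    · rintro ⟨h1, h2⟩
      exact ⟨h1, latRel_trans h2 (latRel_symm haa)⟩
  have hrep : ra = ra' := by
    rw [← hra, ← hra', hSS]
    exact latPick_eq (hS a' ha') a a'
  obtain ⟨k, hk⟩ := haa
  have hz : ∀ j, (q : ℤ) * k j + (((n j : ℕ) : ℤ) - ((n' j : ℕ) : ℤ)) = 0 := by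
    refine hy (fun j => (q : ℤ) * k j + (((n j : ℕ) : ℤ) - ((n' j : ℕ) : ℤ))) ?_
    intro i
    have h1 : ∑ j, ((q : ℤ) * k j + (((n j : ℕ) : ℤ) - ((n' j : ℕ) : ℤ))) * y i j =
        q * ∑ j, k j * y i j + (∑ j, ((n j : ℕ) : ℤ) * y i j - ∑ j, ((n' j : ℕ) : ℤ) * y i j) := by
      rw [Finset.mul_sum, ← Finset.sum_sub_distrib, ← Finset.sum_add_distrib]
      exact Finset.sum_congr rfl fun j _ => by ring
    rw [h1, ← hk i]
    have h2 := h i
    rw [hrep] at h2
    linear_combination h2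
  have hkj : ∀ j, k j = 0 := by
    intro j
    have h1 := hz j
    have h2 : ((n j : ℕ) : ℤ) < q := by exact_mod_cast (n j).2
    have h3 : ((n' j : ℕ) : ℤ) < q := by exact_mod_cast (n' j).2
    have h4 : (0 : ℤ) ≤ ((n j : ℕ) : ℤ) := Int.natCast_nonneg _
    have h5 : (0 : ℤ) ≤ ((n' j : ℕ) : ℤ) := Int.natCast_nonneg _
    by_contra hne
    rcases lt_or_gt_of_ne hne with h6 | h6
    · have : (q : ℤ) * k j ≤ - q := by nlinarith
      linarith
    · have : (q : ℤ) ≤ q * k j := by nlinarith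
      linarith
  have hnn : n = n' := by
    funext j
    have h1 := hz j
    rw [hkj j, mul_zero, zero_add, sub_eq_zero] at h1
    exact Fin.ext (by exact_mod_cast h1)
  refine ⟨?_, hnn, hrep⟩
  funext i
  have h1 := hk i
  simp only [hkj, zero_mul, Finset.sum_const_zero] at h1
  linarith

end Pool.Agent.H9.EC
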