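import Pool.Agent.H9.EC.Pig
import Pool.Agent.H9.EC.Avg
import Pool.Agent.H9.EC.BoxH
import Pool.Agent.H9.EC.Lat
import Pool.Agent.H9.EC.Ind

set_option autoImplicit false

/-!
The growth lemma: a ball of radius `r` with a point different from `0` is much smaller than the ball of radius
`5 q √d r`, `q = 2 h + 1` (module H9 EC GRW).

PROOF.  `m = l^a`; `d ≥ 1` as `x` is primitive.  `b` from `bas_x`, `b'` from `bas_u` (for `u₀`),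
`v_j = u₀ ᵥ* rm (ρ (b'_j))`, so `sig (v_j) = sig u₀ ≤ r²` (`sig_vecMul`).  `choose_translate` with `A = Ball r` gives
`γ` and `A₁ ⊆ Ball r`, `|Ball r| ≤ 2 |A₁|`, with `∑ i, Yl (th u (γ b_i))² ≤ d r² m²` on `A₁`; put `Y u i = Yl (th u (γ b_i))` and
`y i j = Yl (th (v_j) (γ b_i))`, `∑ i j, y_ij² ≤ d² r² m²`.  `box_half` gives a set `N₁` of `n : Fin d → Fin q`,
`q^d ≤ 2 |N₁|`, with `sig (∑ j, (n_j - h) v_j) ≤ q² d r²` and `∑ i, (∑ j, (n_j - h) y_ij)² ≤ q² d² r² m²`.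
`pigeon` with `z u i = Y u i / m` and radius `r`: `A₂ ⊆ A₁`, `|A₁| ≤ 128^d |A₂|`, `|Y u i - Y u' i| < r m` on `A₂`.
`pigeon` with `z n i = (∑ j, (n_j - h) y_ij) / m` and radius `q √d r`: `N₂ ⊆ N₁`, `|N₁| ≤ 128^d |N₂|`, and
`|∑ j, (n_j - n'_j) y_ij| < q √d r m` for `n, n' ∈ N₂`.  If `A₂` or `N₂` is empty then `Ball r` is empty or `q^d = 0`:
impossible (`u₀ ∈ Ball r`).  Let `n⁰ ∈ N₂` be fixed and `rep` from `lat_rep` (for `A₂`, with `y_indep`).  Map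
`(u, n) ∈ A₂ × N₂` to `E(u, n) = rep u + q • (u - rep u) + ∑ j, (n_j - n⁰_j) • v_j`.
It lies in `Ball (5 q √d r)`: by `sig_add`, `sig_nsmul`, `sig_neg`, `√sig ≤ r + 2 q r + 2 q √d r ≤ 5 q √d r`
(`∑ j, (n_j - n⁰_j) v_j = ∑ j, (n_j - h) v_j - ∑ j, (n⁰_j - h) v_j`).
It is injective: if `E(u, n) = E(u', n')`, take `2 th (·) (γ b_i)`: by `Yl_cast` the integers
`P = Y (rep u) i + q (Y u i - Y (rep u) i) + ∑ j, (n_j - n⁰_j) y_ij` and `P'` (for `u', n'`) are congruent modulo `m`, and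
`|P - P'| < r m + 2 q r m + q √d r m ≤ 4 q √d r m ≤ m`; so `P = P'`, and `lat_rep` (the `n⁰` cancel) gives `Y u = Y u'`, `n = n'`; finally
`u = u'` by `phi_inj`.  So `|A₂| |N₂| ≤ |Ball (5 q √d r)|` and
`q^d |Ball r| ≤ 2 · 128^d |N₂| · 2 · 128^d |A₂|`.
-/

namespace Pool.Agent.H9.EC

open Finset Matrix

private theorem th_smul' {d : ℕ} {G : Type} [Group G] [Fintype G] {m : ℕ}
    {ρ : G →* Matrix (Fin d) (Fin d) ℤ} {x : Fin d → ZMod m} (t : ZMod m) (u : Fin d → ZMod m) (γ : G) :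
    th m ρ x (t • u) γ = t * th m ρ x u γ := by
  unfold th
  rw [smul_dotProduct, smul_eq_mul]

private theorem th_sum' {d : ℕ} {G : Type} [Group G] [Fintype G] {m : ℕ}
    {ρ : G →* Matrix (Fin d) (Fin d) ℤ} {x : Fin d → ZMod m} {ι : Type} (s : Finset ι)
    (v : ι → Fin d → ZMod m) (γ : G) :
    th m ρ x (∑ j ∈ s, v j) γ = ∑ j ∈ s, th m ρ x (v j) γ := by
  classical
  unfold th
  exact sum_dotProduct s v _

private theorem sqrt_sig_le {d : ℕ} {G : Type} [Group G] [Fintype G] {m : ℕ}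
    {ρ : G →* Matrix (Fin d) (Fin d) ℤ} {x : Fin d → ZMod m} {u : Fin d → ZMod m} {r : ℝ} (hr : 0 ≤ r)
    (h : sig m ρ x u ≤ r ^ 2) : √(sig m ρ x u) ≤ r := by
  rw [← Real.sqrt_sq hr]
  exact Real.sqrt_le_sqrt h

private theorem mem_Ball {d : ℕ} {G : Type} [Group G] [Fintype G] {m : ℕ} [NeZero m]
    {ρ : G →* Matrix (Fin d) (Fin d) ℤ} {x : Fin d → ZMod m} {u : Fin d → ZMod m} {r : ℝ} :
    u ∈ Ball m ρ x r ↔ sig m ρ x u ≤ r ^ 2 := by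
  unfold Ball
  simp

private theorem real_aux {d h r : ℝ} (hh0 : 0 ≤ h) (hr : 0 < r) (hsd : 1 ≤ √d) :
    (2 * h + 1) * r ≤ (2 * h + 1) * √d * r ∧ r ≤ (2 * h + 1) * r := by
  constructor
  · have h7 : (2 * h + 1) * r * 1 ≤ (2 * h + 1) * r * √d := mul_le_mul_of_nonneg_left hsd (by positivity)
    linarith
  · nlinarith

/-- The size of the elements of the image. -/
private theorem size_E {d : ℕ} {G : Type} [Group G] [Fintype G] {m : ℕ} [NeZero m]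
    (ρ : G →* Matrix (Fin d) (Fin d) ℤ) (x : Fin d → ZMod m) (r : ℝ) (hr : 0 < r) (h : ℕ)
    (hsd : (1 : ℝ) ≤ √d) (u u' w w' z : Fin d → ZMod m) (hz : z = w + -w')
    (hu : √(sig m ρ x u) ≤ r) (hu' : √(sig m ρ x u') ≤ r)
    (hw : √(sig m ρ x w) ≤ (2 * h + 1 : ℝ) * √d * r) (hw' : √(sig m ρ x w') ≤ (2 * h + 1 : ℝ) * √d * r) :
    u' + (2 * h + 1) • (u - u') + z ∈ Ball m ρ x (5 * (2 * h + 1) * √d * r) := by
  rw [mem_Ball]
  have hh0 : (0 : ℝ) ≤ h := Nat.cast_nonneg h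
  have h3 : √(sig m ρ x z) ≤ (2 * h + 1 : ℝ) * √d * r + (2 * h + 1 : ℝ) * √d * r := by
    rw [hz]
    refine (sig_add ρ m x _ _).trans (add_le_add hw ?_)
    rw [sig_neg ρ m x]
    exact hw'
  have h4 : √(sig m ρ x ((2 * h + 1) • (u - u'))) ≤ (2 * h + 1 : ℝ) * (r + r) := by
    have h5 := sig_nsmul ρ m x (2 * h + 1) (u - u')
    push_cast at h5
    refine h5.trans ?_
    apply mul_le_mul_of_nonneg_left _ (by positivity)
    rw [sub_eq_add_neg]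
    refine (sig_add ρ m x _ _).trans (add_le_add hu ?_)
    rw [sig_neg ρ m x]
    exact hu'
  have h5 : √(sig m ρ x (u' + (2 * h + 1) • (u - u') + z)) ≤ (r + (2 * h + 1 : ℝ) * (r + r)) +
      ((2 * h + 1 : ℝ) * √d * r + (2 * h + 1 : ℝ) * √d * r) :=
    (sig_add ρ m x _ _).trans (add_le_add ((sig_add ρ m x _ _).trans (add_le_add hu' h4)) h3)
  obtain ⟨h6, h8⟩ := real_aux (d := d) hh0 hr hsd
  have h1 : √(sig m ρ x (u' + (2 * h + 1) • (u - u') + z)) ≤ 5 * (2 * h + 1) * √d * r := by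
    refine h5.trans ?_
    linarith
  have h0 : 0 ≤ sig m ρ x (u' + (2 * h + 1) • (u - u') + z) := sig_nonneg ρ m x _
  calc sig m ρ x (u' + (2 * h + 1) • (u - u') + z)
      = √(sig m ρ x (u' + (2 * h + 1) • (u - u') + z)) ^ 2 := (Real.sq_sqrt h0).symm
    _ ≤ (5 * (2 * h + 1) * √d * r) ^ 2 := pow_le_pow_left₀ (Real.sqrt_nonneg _) h1 2

/-- The functionals of the elements of the image. -/
private theorem th_E {d : ℕ} {G : Type} [Group G] [Fintype G] {m : ℕ} [NeZero m]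
    (ρ : G →* Matrix (Fin d) (Fin d) ℤ) (x : Fin d → ZMod m) (h : ℕ) (γ : G) (v : Fin d → Fin d → ZMod m)
    (yi : Fin d → ℤ) (hv : ∀ j, (2 : ZMod m) * th m ρ x (v j) γ = ((yi j : ℤ) : ZMod m))
    (u u' : Fin d → ZMod m) (Yu Yu' : ℤ) (hu : (2 : ZMod m) * th m ρ x u γ = (Yu : ZMod m))
    (hu' : (2 : ZMod m) * th m ρ x u' γ = (Yu' : ZMod m)) (k : Fin d → ℤ) :
    (2 : ZMod m) * th m ρ x (u' + (2 * h + 1) • (u - u') + ∑ j, ((k j : ℤ) : ZMod m) • v j) γ =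
      ((Yu' + (2 * h + 1) * (Yu - Yu') + ∑ j, k j * yi j : ℤ) : ZMod m) := by
  have h1 : th m ρ x (u - u') γ = th m ρ x u γ - th m ρ x u' γ := by
    have h2 := th_add ρ m x (u - u') u' γ
    rw [sub_add_cancel] at h2
    rw [h2]
    ring
  rw [th_add, th_add, ← Nat.cast_smul_eq_nsmul (ZMod m) (2 * h + 1), th_smul', th_sum', h1]
  simp only [th_smul']
  push_cast
  rw [← hu, ← hu', mul_add, mul_add, Finset.mul_sum]
  simp only [← hv]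
  congr 1
  · ring
  · exact Finset.sum_congr rfl fun j _ => by ring

private theorem bound_P {d : ℕ} (h : ℕ) (r m : ℝ) (hm : 0 < m) (hr : 0 < r) (hsd : (1 : ℝ) ≤ √d)
    (hh : 4 * (2 * h + 1 : ℝ) * √d * r ≤ 1) (a₁ a₂ a₃ a₄ s : ℝ) (h5 : |a₁ - a₂| < r * m) (h6 : |a₃ - a₄| < r * m)
    (h7 : |s| < (2 * h + 1 : ℝ) * √d * r * m) :
    |(a₁ - a₂) + (2 * h + 1) * ((a₃ - a₄) - (a₁ - a₂)) + s| < m := by
  have hh0 : (0 : ℝ) ≤ h := Nat.cast_nonneg h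
  have h8 : |(a₃ - a₄) - (a₁ - a₂)| ≤ r * m + r * m := (abs_sub _ _).trans (add_le_add h6.le h5.le)
  have h9 : |(2 * h + 1) * ((a₃ - a₄) - (a₁ - a₂))| ≤ (2 * h + 1) * (r * m + r * m) := by
    rw [abs_mul, abs_of_pos (by positivity : (0 : ℝ) < 2 * h + 1)]
    exact mul_le_mul_of_nonneg_left h8 (by positivity)
  have h10 : |(a₁ - a₂) + (2 * h + 1) * ((a₃ - a₄) - (a₁ - a₂)) + s| < r * m + (2 * h + 1) * (r * m + r * m) +
      (2 * h + 1 : ℝ) * √d * r * m :=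
    (abs_add_le _ _).trans_lt (add_lt_add_of_le_of_lt ((abs_add_le _ _).trans (add_le_add h5.le h9)) h7)
  obtain ⟨h11, h12⟩ := real_aux (d := d) hh0 hr hsd
  have h13 : r + (2 * h + 1) * (r + r) + (2 * h + 1 : ℝ) * √d * r ≤ 1 := by linarith
  have h14 := mul_le_mul_of_nonneg_right h13 hm.le
  linarith

private theorem grow_aux {d : ℕ} {G : Type} [Group G] [Fintype G] {m : ℕ} [NeZero m]
    (ρ : G →* Matrix (Fin d) (Fin d) ℤ) (x : Fin d → ZMod m) (r : ℝ) (hr : 0 < r) (h : ℕ)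
    (hsd : (1 : ℝ) ≤ √d) (hh : 4 * (2 * h + 1 : ℝ) * √d * r ≤ 1) (v : Fin d → Fin d → ZMod m)
    (γ : Fin d → G) (Y : (Fin d → ZMod m) → Fin d → ℤ) (y : Fin d → Fin d → ℤ)
    (hT : ∀ u i, (2 : ZMod m) * th m ρ x u (γ i) = ((Y u i : ℤ) : ZMod m))
    (hTv : ∀ i j, (2 : ZMod m) * th m ρ x (v j) (γ i) = ((y i j : ℤ) : ZMod m))
    (hinjT : ∀ u u' : Fin d → ZMod m, (∀ i, (2 : ZMod m) * th m ρ x u (γ i) = 2 * th m ρ x u' (γ i)) → u = u')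
    (A₂ : Finset (Fin d → ZMod m)) (N₂ : Finset (Fin d → Fin (2 * h + 1)))
    (hA₂Y : ∀ u ∈ A₂, ∀ u' ∈ A₂, ∀ i, |(Y u i : ℝ) - Y u' i| < r * m)
    (hN₂Y : ∀ n ∈ N₂, ∀ n' ∈ N₂, ∀ i,
      |∑ j, (((n j : ℕ) : ℝ) - (n' j : ℕ)) * (y i j : ℝ)| < (2 * h + 1 : ℝ) * √d * r * m)
    (hsA : ∀ u ∈ A₂, √(sig m ρ x u) ≤ r)
    (hsN : ∀ n ∈ N₂, √(sig m ρ x (∑ j, ((((n j : ℕ) : ℤ) - h : ℤ) : ZMod m) • v j)) ≤ (2 * h + 1 : ℝ) * √d * r)
    (n₀ : Fin d → Fin (2 * h + 1)) (hn₀ : n₀ ∈ N₂) (rep : (Fin d → ZMod m) → (Fin d → ZMod m))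
    (hrep : ∀ u ∈ A₂, rep u ∈ A₂)
    (hlat : ∀ a ∈ A₂, ∀ a' ∈ A₂, ∀ n n' : Fin d → Fin (2 * h + 1),
        (∀ i, Y (rep a) i + ((2 * h + 1 : ℕ) : ℤ) * (Y a i - Y (rep a) i) + ∑ j, ((n j : ℕ) : ℤ) * y i j =
          Y (rep a') i + ((2 * h + 1 : ℕ) : ℤ) * (Y a' i - Y (rep a') i) + ∑ j, ((n' j : ℕ) : ℤ) * y i j) →
        Y a = Y a' ∧ n = n' ∧ rep a = rep a') :
    A₂.card * N₂.card ≤ (Ball m ρ x (5 * (2 * h + 1) * √d * r)).card := by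
  classical
  have hmR : (0 : ℝ) < m := by exact_mod_cast Nat.pos_of_neZero m
  rw [← Finset.card_product]
  refine Finset.card_le_card_of_injOn (fun z => rep z.1 + (2 * h + 1) • (z.1 - rep z.1) +
    ∑ j, ((((z.2 j : ℕ) : ℤ) - ((n₀ j : ℕ) : ℤ) : ℤ) : ZMod m) • v j) ?_ ?_
  · rintro ⟨u, n⟩ hz
    rw [Finset.mem_coe, mem_product] at hz
    obtain ⟨hu1, hn1⟩ := hz
    refine size_E ρ x r hr h hsd u (rep u) (∑ j, ((((n j : ℕ) : ℤ) - h : ℤ) : ZMod m) • v j)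
      (∑ j, ((((n₀ j : ℕ) : ℤ) - h : ℤ) : ZMod m) • v j) _ ?_ (hsA u hu1) (hsA _ (hrep u hu1)) (hsN n hn1)
      (hsN n₀ hn₀)
    rw [← sub_eq_add_neg, ← Finset.sum_sub_distrib]
    refine Finset.sum_congr rfl fun j _ => ?_
    rw [← sub_smul]
    congr 1
    push_cast
    ring
  · rintro ⟨u, n⟩ hz ⟨u', n'⟩ hz' hEE
    rw [Finset.mem_coe, mem_product] at hz hz'
    obtain ⟨hu1, hn1⟩ := hz
    obtain ⟨hu2, hn2⟩ := hz'
    have hu1' : u ∈ A₂ := hu1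
    have hu2' : u' ∈ A₂ := hu2
    have hn1' : n ∈ N₂ := hn1
    have hn2' : n' ∈ N₂ := hn2
    have hEE' : rep u + (2 * h + 1) • (u - rep u) + ∑ j, ((((n j : ℕ) : ℤ) - ((n₀ j : ℕ) : ℤ) : ℤ) : ZMod m) • v j =
        rep u' + (2 * h + 1) • (u' - rep u') + ∑ j, ((((n' j : ℕ) : ℤ) - ((n₀ j : ℕ) : ℤ) : ℤ) : ZMod m) • v j := hEE
    have hP : ∀ i, Y (rep u) i + (2 * h + 1) * (Y u i - Y (rep u) i) +
          ∑ j, (((n j : ℕ) : ℤ) - ((n₀ j : ℕ) : ℤ)) * y i j =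
        Y (rep u') i + (2 * h + 1) * (Y u' i - Y (rep u') i) +
          ∑ j, (((n' j : ℕ) : ℤ) - ((n₀ j : ℕ) : ℤ)) * y i j := by
      intro i
      have h1 := th_E ρ x h (γ i) v (y i) (hTv i) u (rep u) (Y u i) (Y (rep u) i) (hT u i) (hT (rep u) i)
        (fun j => ((n j : ℕ) : ℤ) - ((n₀ j : ℕ) : ℤ))
      have h2 := th_E ρ x h (γ i) v (y i) (hTv i) u' (rep u') (Y u' i) (Y (rep u') i) (hT u' i) (hT (rep u') i)
        (fun j => ((n' j : ℕ) : ℤ) - ((n₀ j : ℕ) : ℤ))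
      rw [hEE', h2, ZMod.intCast_eq_intCast_iff_dvd_sub] at h1
      have h3 := bound_P (d := d) h r m hmR hr hsd hh (Y (rep u) i) (Y (rep u') i) (Y u i) (Y u' i)
        (∑ j, (((n j : ℕ) : ℝ) - (n' j : ℕ)) * (y i j : ℝ)) (hA₂Y _ (hrep u hu1') _ (hrep u' hu2') i)
        (hA₂Y u hu1' u' hu2' i) (hN₂Y n hn1' n' hn2' i)
      have h4 : ∑ j, (((n j : ℕ) : ℝ) - (n' j : ℕ)) * (y i j : ℝ) =
          ∑ j, (((n j : ℕ) : ℝ) - (n₀ j : ℕ)) * (y i j : ℝ) - ∑ j, (((n' j : ℕ) : ℝ) - (n₀ j : ℕ)) * (y i j : ℝ) := by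
        rw [← Finset.sum_sub_distrib]
        exact Finset.sum_congr rfl fun j _ => by ring
      have h5 : |(Y (rep u) i + (2 * h + 1) * (Y u i - Y (rep u) i) +
          ∑ j, (((n j : ℕ) : ℤ) - ((n₀ j : ℕ) : ℤ)) * y i j) -
          (Y (rep u') i + (2 * h + 1) * (Y u' i - Y (rep u') i) +
          ∑ j, (((n' j : ℕ) : ℤ) - ((n₀ j : ℕ) : ℤ)) * y i j)| < (m : ℤ) := by
        have h6 : (((Y (rep u) i + (2 * h + 1) * (Y u i - Y (rep u) i) +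
          ∑ j, (((n j : ℕ) : ℤ) - ((n₀ j : ℕ) : ℤ)) * y i j) -
          (Y (rep u') i + (2 * h + 1) * (Y u' i - Y (rep u') i) +
          ∑ j, (((n' j : ℕ) : ℤ) - ((n₀ j : ℕ) : ℤ)) * y i j) : ℤ) : ℝ) =
          ((Y (rep u) i : ℝ) - Y (rep u') i) + (2 * h + 1) * (((Y u i : ℝ) - Y u' i) -
            ((Y (rep u) i : ℝ) - Y (rep u') i)) + ∑ j, (((n j : ℕ) : ℝ) - (n' j : ℕ)) * (y i j : ℝ) := by
          rw [h4]
          push_cast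
          ring
        rw [← h6] at h3
        exact_mod_cast h3
      have h7 := Int.eq_zero_of_abs_lt_dvd h1 h5
      linarith
    obtain ⟨hYY, hnn, -⟩ := hlat u hu1' u' hu2' n n' (fun i => by
      have h1 := hP i
      have h2 : ∀ w : Fin d → Fin (2 * h + 1), ∑ j, (((w j : ℕ) : ℤ) - ((n₀ j : ℕ) : ℤ)) * y i j =
          ∑ j, ((w j : ℕ) : ℤ) * y i j - ∑ j, ((n₀ j : ℕ) : ℤ) * y i j := by
        intro w
        rw [← Finset.sum_sub_distrib]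
        exact Finset.sum_congr rfl fun j _ => by ring
      rw [h2, h2] at h1
      push_cast
      linarith)
    have huu : u = u' := hinjT u u' (fun i => by rw [hT, hT, hYY])
    rw [huu, hnn]

theorem grow {d : ℕ} {G : Type} [Group G] [Fintype G] {ρ : G →* Matrix (Fin d) (Fin d) ℤ} {c : G}
    {N : ℕ} (hA : AI ρ c N) (l a : ℕ) [Fact l.Prime] (hl2 : l ≠ 2) (hl : ¬ l ∣ Fintype.card G)
    (ha : 1 ≤ a) (x : Fin d → ZMod (l ^ a)) (hx : Prim x) (r : ℝ) (hr : 0 < r)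
    (u₀ : Fin d → ZMod (l ^ a)) (hu : u₀ ≠ 0) (hur : sig (l ^ a) ρ x u₀ ≤ r ^ 2) (h : ℕ)
    (hh : 4 * (2 * h + 1 : ℝ) * √d * r ≤ 1) :
    ((2 * h + 1 : ℝ)) ^ d * ((Ball (l ^ a) ρ x r).card : ℝ) ≤
      4 * (128 ^ 2 : ℝ) ^ d * ((Ball (l ^ a) ρ x (5 * (2 * h + 1) * √d * r)).card : ℝ) := by
  classical
  have hmpos : 0 < l ^ a := Nat.pos_of_neZero (l ^ a)
  have hmR : (0 : ℝ) < ((l ^ a : ℕ) : ℝ) := by exact_mod_cast hmpos
  have hd : 1 ≤ d := by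
    obtain ⟨i, -⟩ := hx
    exact Nat.succ_le_of_lt (lt_of_le_of_lt (Nat.zero_le _) i.2)
  have hdR : (1 : ℝ) ≤ d := by exact_mod_cast hd
  have hsd : (1 : ℝ) ≤ √d := by
    rw [Real.one_le_sqrt]
    exact hdR
  have hsd2 : √(d : ℝ) * √d = d := Real.mul_self_sqrt (by linarith)
  obtain ⟨b, hb⟩ := bas_x hA l a hl ha x hx
  obtain ⟨b', hb'⟩ := bas_u hA l a hl ha u₀ hu
  obtain ⟨v, hvd⟩ : ∃ v : Fin d → Fin d → ZMod (l ^ a), ∀ j, v j = u₀ ᵥ* rm (l ^ a) (ρ (b' j)) := ⟨_, fun _ => rfl⟩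
  have hv : ∀ j, sig (l ^ a) ρ x (v j) ≤ r ^ 2 := by
    intro j
    rw [hvd, sig_vecMul ρ (l ^ a) x]
    exact hur
  obtain ⟨γ, hA1, hy⟩ := choose_translate ρ (l ^ a) x b r (Ball (l ^ a) ρ x r) (fun u hu => mem_Ball.1 hu) v hv
  obtain ⟨Y, hYd⟩ : ∃ Y : (Fin d → ZMod (l ^ a)) → Fin d → ℤ, ∀ u i, Y u i = Yl (th (l ^ a) ρ x u (γ * b i)) :=
    ⟨_, fun _ _ => rfl⟩
  obtain ⟨y, hyd⟩ : ∃ y : Fin d → Fin d → ℤ, ∀ i j, y i j = Yl (th (l ^ a) ρ x (v j) (γ * b i)) :=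
    ⟨_, fun _ _ => rfl⟩
  simp only [← hYd] at hA1
  simp only [← hyd] at hy
  have hN1 := box_half ρ (l ^ a) x r v hv h y hy
  obtain ⟨A₁, hA₁⟩ : ∃ A₁, A₁ = (Ball (l ^ a) ρ x r).filter (fun u => ∑ i, (Y u i : ℝ) ^ 2 ≤
        d * r ^ 2 * ((l ^ a : ℕ) : ℝ) ^ 2) := ⟨_, rfl⟩
  rw [← hA₁] at hA1
  obtain ⟨N₁, hN₁⟩ : ∃ N₁, N₁ = (univ.filter (fun n : Fin d → Fin (2 * h + 1) =>
      sig (l ^ a) ρ x (∑ j, ((((n j : ℕ) : ℤ) - h : ℤ) : ZMod (l ^ a)) • v j) ≤ (2 * h + 1 : ℝ) ^ 2 * d * r ^ 2 ∧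
      ∑ i, (∑ j, (((n j : ℕ) : ℝ) - h) * (y i j : ℝ)) ^ 2 ≤
        (2 * h + 1 : ℝ) ^ 2 * d ^ 2 * r ^ 2 * ((l ^ a : ℕ) : ℝ) ^ 2)) := ⟨_, rfl⟩
  rw [← hN₁] at hN1
  obtain ⟨A₂, hA₂s, hA₂c, hA₂⟩ := pigeon A₁ d (fun u i => (Y u i : ℝ) / ((l ^ a : ℕ) : ℝ)) r hr (by
    intro u hu
    rw [hA₁, mem_filter] at hu
    have h1 := hu.2
    have h2 : ∑ i, ((Y u i : ℝ) / ((l ^ a : ℕ) : ℝ)) ^ 2 = (∑ i, (Y u i : ℝ) ^ 2) / ((l ^ a : ℕ) : ℝ) ^ 2 := by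
      rw [Finset.sum_div]
      exact Finset.sum_congr rfl fun i _ => div_pow _ _ _
    rw [h2, div_le_iff₀ (by positivity)]
    exact h1)
  have hRpos : 0 < (2 * h + 1 : ℝ) * √d * r := by positivity
  obtain ⟨N₂, hN₂s, hN₂c, hN₂⟩ := pigeon N₁ d
    (fun n i => (∑ j, (((n j : ℕ) : ℝ) - h) * (y i j : ℝ)) / ((l ^ a : ℕ) : ℝ)) ((2 * h + 1 : ℝ) * √d * r) hRpos (by
    intro n hn
    rw [hN₁, mem_filter] at hn
    have h1 := hn.2.2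
    have h2 : ∑ i, ((∑ j, (((n j : ℕ) : ℝ) - h) * (y i j : ℝ)) / ((l ^ a : ℕ) : ℝ)) ^ 2 =
        (∑ i, (∑ j, (((n j : ℕ) : ℝ) - h) * (y i j : ℝ)) ^ 2) / ((l ^ a : ℕ) : ℝ) ^ 2 := by
      rw [Finset.sum_div]
      exact Finset.sum_congr rfl fun i _ => div_pow _ _ _
    rw [h2, div_le_iff₀ (by positivity)]
    refine h1.trans (le_of_eq ?_)
    calc (2 * h + 1 : ℝ) ^ 2 * d ^ 2 * r ^ 2 * ((l ^ a : ℕ) : ℝ) ^ 2
        = (2 * h + 1 : ℝ) ^ 2 * d * (√d * √d) * r ^ 2 * ((l ^ a : ℕ) : ℝ) ^ 2 := by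
          rw [hsd2]; ring
      _ = d * ((2 * h + 1 : ℝ) * √d * r) ^ 2 * ((l ^ a : ℕ) : ℝ) ^ 2 := by ring)
  have hN₂pos : 0 < N₂.card := by
    by_contra hcon
    have h0 : N₂.card = 0 := by omega
    rw [h0, mul_zero] at hN₂c
    have h1 : 0 < (2 * h + 1) ^ d := by positivity
    omega
  obtain ⟨n₀, hn₀⟩ := Finset.card_pos.1 hN₂pos
  obtain ⟨rep, hrep, hlat⟩ := lat_rep (q := 2 * h + 1) y (fun k hk => y_indep l a hl2 ha x b γ (hb γ) u₀ b' hb' k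
    (fun i => by
      have h1 := hk i
      simp only [hyd, hvd] at h1
      exact h1)) Y A₂
  have hfin := grow_aux ρ x r hr h hsd hh v (fun i => γ * b i) Y y (fun u i => by rw [hYd]; exact (Yl_cast _).symm)
    (fun i j => by rw [hyd]; exact (Yl_cast _).symm)
    (fun u u' huu => phi_inj l a hl2 x b γ (hb γ) u u' huu) A₂ N₂ (by
      intro u hu u' hu' i
      have h1 := hA₂ u hu u' hu' i
      have h2 : (Y u i : ℝ) / ((l ^ a : ℕ) : ℝ) - Y u' i / ((l ^ a : ℕ) : ℝ) =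
          ((Y u i : ℝ) - Y u' i) / ((l ^ a : ℕ) : ℝ) := by ring
      rw [h2, abs_div, abs_of_pos hmR, div_lt_iff₀ hmR] at h1
      exact h1) (by
      intro n hn n' hn' i
      have h1 := hN₂ n hn n' hn' i
      have h2 : (∑ j, (((n j : ℕ) : ℝ) - h) * (y i j : ℝ)) / ((l ^ a : ℕ) : ℝ) -
          (∑ j, (((n' j : ℕ) : ℝ) - h) * (y i j : ℝ)) / ((l ^ a : ℕ) : ℝ) =
          (∑ j, (((n j : ℕ) : ℝ) - (n' j : ℕ)) * (y i j : ℝ)) / ((l ^ a : ℕ) : ℝ) := by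
        rw [← sub_div, ← Finset.sum_sub_distrib]
        congr 1
        exact Finset.sum_congr rfl fun j _ => by ring
      rw [h2, abs_div, abs_of_pos hmR, div_lt_iff₀ hmR] at h1
      exact h1) (by
      intro u hu
      have h1 := hA₂s hu
      rw [hA₁, mem_filter] at h1
      exact sqrt_sig_le hr.le (mem_Ball.1 h1.1)) (by
      intro n hn
      have h1 := hN₂s hn
      rw [hN₁, mem_filter] at h1
      apply sqrt_sig_le hRpos.le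
      refine h1.2.1.trans (le_of_eq ?_)
      calc (2 * h + 1 : ℝ) ^ 2 * d * r ^ 2 = (2 * h + 1 : ℝ) ^ 2 * (√d * √d) * r ^ 2 := by rw [hsd2]
        _ = ((2 * h + 1 : ℝ) * √d * r) ^ 2 := by ring) n₀ hn₀ rep hrep hlat
  have hcardR : (A₂.card : ℝ) * N₂.card ≤ ((Ball (l ^ a) ρ x (5 * (2 * h + 1) * √d * r)).card : ℝ) := by
    exact_mod_cast hfin
  have hA1R : ((Ball (l ^ a) ρ x r).card : ℝ) ≤ 2 * A₁.card := by exact_mod_cast hA1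
  have hN1R : ((2 * h + 1 : ℝ)) ^ d ≤ 2 * N₁.card := by exact_mod_cast hN1
  have hA2R : (A₁.card : ℝ) ≤ 128 ^ d * A₂.card := by exact_mod_cast hA₂c
  have hN2R : (N₁.card : ℝ) ≤ 128 ^ d * N₂.card := by exact_mod_cast hN₂c
  calc ((2 * h + 1 : ℝ)) ^ d * ((Ball (l ^ a) ρ x r).card : ℝ)
      ≤ (2 * N₁.card) * (2 * A₁.card) := mul_le_mul hN1R hA1R (by positivity) (by positivity)
    _ ≤ (2 * (128 ^ d * N₂.card)) * (2 * (128 ^ d * A₂.card)) := by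
        apply mul_le_mul (by linarith) (by linarith) (by positivity) (by positivity)
    _ = 4 * (128 ^ 2 : ℝ) ^ d * (A₂.card * N₂.card) := by
        rw [← pow_mul, mul_comm 2 d, pow_mul]
        ring
    _ ≤ 4 * (128 ^ 2 : ℝ) ^ d * ((Ball (l ^ a) ρ x (5 * (2 * h + 1) * √d * r)).card : ℝ) :=
        mul_le_mul_of_nonneg_left hcardR (by positivity)

end Pool.Agent.H9.EC
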