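import Pool.Agent.H9.EC.SigN
import Pool.Agent.H9.EC.Grow

/-!
The Gaussian sum is bounded by the walk sum (module H9 EC SUB).

PROOF.  `m = l^a`, `R = 5 q √d r`, `q = 2 h + 1`.  Split the sum over `u`.  `u = 0` contributes `1`.  The `u` with
`sig u > r²` contribute at most `m^d exp(-(g/2) r²) ≤ m^d exp(- d log m) = 1` (`card (Fin d → ZMod m) = m^d`).  If there is
`u₀ ≠ 0` with `sig u₀ ≤ r²`, the remaining `u` contribute at most
`|Ball r| ≤ 4 (128²)^d / q^d |Ball R|` by `grow` (each term is `≤ 1` by `sig_nonneg`), and for `u ∈ Ball R` one has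
`(1 - sig u)^k ≥ (1 - R²)^k ≥ exp(-2 k R²) ≥ exp(-2 d)`, since `1 - t ≥ exp(-2 t)` for `0 ≤ t ≤ 1/2` (concavity; or
`exp(2 t) ≤ 1/(1-t)`) and `k R² ≤ d`; so `|Ball R| ≤ exp(2 d) ∑ u, (1 - sig u)^k ≤ 8^d ∑ u, (1 - sig u)^k` (all terms are `≥ 0`
by `sig_le_one`; `exp 2 ≤ 8`).  `128² · 8 = 2^17`.
-/

set_option autoImplicit false

namespace Pool.Agent.H9.EC

open Finset Matrix

theorem sum_exp_le {d : ℕ} {G : Type} [Group G] [Fintype G] {ρ : G →* Matrix (Fin d) (Fin d) ℤ}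
    {c : G} {N : ℕ} (hA : AI ρ c N) (l a : ℕ) [Fact l.Prime] (hl2 : l ≠ 2)
    (hl : ¬ l ∣ Fintype.card G) (ha : 1 ≤ a) (x : Fin d → ZMod (l ^ a)) (hx : Prim x) (r : ℝ)
    (hr : 0 < r) (h k : ℕ) (g : ℕ) (hg : d * Real.log ((l ^ a : ℕ) : ℝ) ≤ g / 2 * r ^ 2)
    (hh : 4 * (2 * h + 1 : ℝ) * √d * r ≤ 1)
    (hk : k * (5 * (2 * h + 1) * √d * r) ^ 2 ≤ d)
    (hR : (5 * (2 * h + 1) * √d * r) ^ 2 ≤ 1 / 2) :
    ∑ u : Fin d → ZMod (l ^ a), Real.exp (-(g / 2) * sig (l ^ a) ρ x u) ≤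
      2 + 4 * (2 ^ 17 / (2 * h + 1 : ℝ)) ^ d *
        ∑ u : Fin d → ZMod (l ^ a), (1 - sig (l ^ a) ρ x u) ^ k := by
  classical
  obtain ⟨W, hW⟩ : ∃ W : ℝ, W = ∑ u : Fin d → ZMod (l ^ a), (1 - sig (l ^ a) ρ x u) ^ k := ⟨_, rfl⟩
  rw [← hW]
  have hs0 : ∀ u, 0 ≤ sig (l ^ a) ρ x u := fun u => sig_nonneg ρ (l ^ a) x u
  have hs1 : ∀ u, sig (l ^ a) ρ x u ≤ 1 := fun u => sig_le_one ρ (l ^ a) x u
  have hW0 : 0 ≤ W := by
    rw [hW]
    exact Finset.sum_nonneg fun u _ => pow_nonneg (by have := hs1 u; linarith) _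
  have hq : (0 : ℝ) < 2 * h + 1 := by positivity
  have hg0 : (0 : ℝ) ≤ g / 2 := by positivity
  have hm0 : 0 < l ^ a := Nat.pow_pos (Fact.out : l.Prime).pos
  have hmr : (0 : ℝ) < ((l ^ a : ℕ) : ℝ) := by exact_mod_cast hm0
  -- the tail
  have htail : ((l ^ a : ℕ) : ℝ) ^ d * Real.exp (-(g / 2) * r ^ 2) ≤ 1 := by
    have h1 : Real.exp (-(g / 2) * r ^ 2) ≤ Real.exp (-(d * Real.log ((l ^ a : ℕ) : ℝ))) := by
      apply Real.exp_le_exp.mpr
      linarith
    have h2 : Real.exp (-(d * Real.log ((l ^ a : ℕ) : ℝ))) = (((l ^ a : ℕ) : ℝ) ^ d)⁻¹ := by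
      rw [Real.exp_neg, ← Real.log_pow, Real.exp_log (by positivity)]
    rw [h2] at h1
    calc ((l ^ a : ℕ) : ℝ) ^ d * Real.exp (-(g / 2) * r ^ 2)
        ≤ ((l ^ a : ℕ) : ℝ) ^ d * (((l ^ a : ℕ) : ℝ) ^ d)⁻¹ :=
          mul_le_mul_of_nonneg_left h1 (by positivity)
      _ = 1 := mul_inv_cancel₀ (by positivity)
  have hcard : (Fintype.card (Fin d → ZMod (l ^ a)) : ℝ) = ((l ^ a : ℕ) : ℝ) ^ d := by
    rw [Fintype.card_fun, ZMod.card, Fintype.card_fin]
    push_cast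
    rfl
  have hsum2 : ∑ _u : Fin d → ZMod (l ^ a), Real.exp (-(g / 2) * r ^ 2) ≤ 1 := by
    rw [Finset.sum_const, Finset.card_univ, nsmul_eq_mul, hcard]
    exact htail
  have hbig : ∀ u, r ^ 2 < sig (l ^ a) ρ x u →
      Real.exp (-(g / 2) * sig (l ^ a) ρ x u) ≤ Real.exp (-(g / 2) * r ^ 2) := by
    intro u hu
    apply Real.exp_le_exp.mpr
    nlinarith
  have hone : ∀ u, Real.exp (-(g / 2) * sig (l ^ a) ρ x u) ≤ 1 := by
    intro u
    rw [Real.exp_le_one_iff]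
    have := mul_nonneg hg0 (hs0 u)
    linarith
  by_cases hex : ∃ u₀ : Fin d → ZMod (l ^ a), u₀ ≠ 0 ∧ sig (l ^ a) ρ x u₀ ≤ r ^ 2
  · obtain ⟨u₀, hu0, hur⟩ := hex
    have hgrow := grow hA l a hl2 hl ha x hx r hr u₀ hu0 hur h hh
    obtain ⟨R, hRd⟩ : ∃ R : ℝ, R = 5 * (2 * h + 1) * √d * r := ⟨_, rfl⟩
    rw [← hRd] at hgrow hk hR
    -- the large ball
    have hball : Real.exp (-(2 * d)) * ((Ball (l ^ a) ρ x R).card : ℝ) ≤ W := by
      have h1 : ∀ u ∈ Ball (l ^ a) ρ x R, Real.exp (-(2 * d)) ≤ (1 - sig (l ^ a) ρ x u) ^ k := by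
        intro u hu
        unfold Ball at hu
        rw [Finset.mem_filter] at hu
        have hu2 := hu.2
        have ht0 := hs0 u
        obtain ⟨t, ht⟩ : ∃ t, t = sig (l ^ a) ρ x u := ⟨_, rfl⟩
        rw [← ht] at hu2 ht0 ⊢
        have ht2 : t ≤ 1 / 2 := hu2.trans hR
        have h2 : Real.exp (-(2 * t)) ≤ 1 - t := by
          rw [Real.exp_neg, inv_le_comm₀ (Real.exp_pos _) (by linarith)]
          have h3 := Real.quadratic_le_exp_of_nonneg (x := 2 * t) (by linarith)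
          refine le_trans ?_ h3
          rw [inv_le_iff_one_le_mul₀ (by linarith)]
          nlinarith [mul_nonneg ht0 (sub_nonneg.mpr ht2), mul_nonneg ht0 ht0]
        calc Real.exp (-(2 * d)) ≤ Real.exp (-(2 * t)) ^ k := by
              rw [← Real.exp_nat_mul]
              apply Real.exp_le_exp.mpr
              have h5 : (k : ℝ) * t ≤ k * R ^ 2 := mul_le_mul_of_nonneg_left hu2 (Nat.cast_nonneg _)
              nlinarith
          _ ≤ (1 - t) ^ k := pow_le_pow_left₀ (Real.exp_pos _).le h2 _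
      have h2 : ∑ _u ∈ Ball (l ^ a) ρ x R, Real.exp (-(2 * d)) ≤ W := by
        rw [hW]
        refine (Finset.sum_le_sum h1).trans ?_
        exact Finset.sum_le_univ_sum_of_nonneg fun u => pow_nonneg (by have := hs1 u; linarith) _
      rw [Finset.sum_const, nsmul_eq_mul] at h2
      linarith
    have he8 : Real.exp (2 * d) ≤ 8 ^ d := by
      have h1 : Real.exp 2 ≤ 8 := by
        have h2 := Real.exp_one_lt_d9
        have h3 : Real.exp 2 = Real.exp 1 ^ 2 := by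
          rw [← Real.exp_nat_mul]
          norm_num
        have h4 := Real.exp_pos 1
        rw [h3]
        nlinarith
      calc Real.exp (2 * d) = Real.exp 2 ^ d := by
            rw [← Real.exp_nat_mul]
            congr 1
            ring
        _ ≤ 8 ^ d := pow_le_pow_left₀ (Real.exp_pos _).le h1 _
    have hball2 : ((Ball (l ^ a) ρ x R).card : ℝ) ≤ 8 ^ d * W := by
      have h1 : ((Ball (l ^ a) ρ x R).card : ℝ) = Real.exp (2 * d) *
          (Real.exp (-(2 * d)) * ((Ball (l ^ a) ρ x R).card : ℝ)) := by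
        rw [← mul_assoc, ← Real.exp_add, add_neg_cancel, Real.exp_zero, one_mul]
      rw [h1]
      exact mul_le_mul he8 hball (mul_nonneg (Real.exp_pos _).le (Nat.cast_nonneg _))
        (pow_nonneg (by norm_num) _)
    have hball3 : ((Ball (l ^ a) ρ x r).card : ℝ) ≤ 4 * (2 ^ 17 / (2 * h + 1 : ℝ)) ^ d * W := by
      have hqd : (0 : ℝ) < (2 * h + 1 : ℝ) ^ d := by positivity
      have h1 : (2 * h + 1 : ℝ) ^ d * ((Ball (l ^ a) ρ x r).card : ℝ) ≤
          4 * (2 ^ 17 : ℝ) ^ d * W := by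
        refine hgrow.trans ?_
        calc 4 * (128 ^ 2 : ℝ) ^ d * ((Ball (l ^ a) ρ x R).card : ℝ)
            ≤ 4 * (128 ^ 2 : ℝ) ^ d * (8 ^ d * W) :=
              mul_le_mul_of_nonneg_left hball2 (by positivity)
          _ = 4 * ((128 ^ 2 * 8 : ℝ) ^ d) * W := by
              rw [mul_pow]
              ring
          _ = 4 * (2 ^ 17 : ℝ) ^ d * W := by norm_num
      rw [div_pow]
      have h2 : 4 * ((2 ^ 17 : ℝ) ^ d / (2 * h + 1 : ℝ) ^ d) * W =
          (4 * (2 ^ 17 : ℝ) ^ d * W) / (2 * h + 1 : ℝ) ^ d := by ring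
      rw [h2, le_div_iff₀ hqd]
      linarith
    have hmain : ∑ u : Fin d → ZMod (l ^ a), Real.exp (-(g / 2) * sig (l ^ a) ρ x u) ≤
        ∑ u : Fin d → ZMod (l ^ a), ((if sig (l ^ a) ρ x u ≤ r ^ 2 then (1 : ℝ) else 0) +
          Real.exp (-(g / 2) * r ^ 2)) := by
      apply Finset.sum_le_sum
      intro u _
      have hpos := Real.exp_pos (-(g / 2) * r ^ 2)
      by_cases hu : sig (l ^ a) ρ x u ≤ r ^ 2
      · rw [if_pos hu]
        have := hone u
        linarith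
      · rw [if_neg hu]
        have := hbig u (not_le.mp hu)
        linarith
    rw [Finset.sum_add_distrib, ← Finset.sum_filter, Finset.sum_const, nsmul_eq_mul, mul_one] at hmain
    have hB : ((univ.filter (fun u => sig (l ^ a) ρ x u ≤ r ^ 2)).card : ℝ) =
        ((Ball (l ^ a) ρ x r).card : ℝ) := by
      congr 2
    rw [hB] at hmain
    linarith
  · push Not at hex
    have hmain : ∑ u : Fin d → ZMod (l ^ a), Real.exp (-(g / 2) * sig (l ^ a) ρ x u) ≤
        ∑ u : Fin d → ZMod (l ^ a), ((if u = 0 then (1 : ℝ) else 0) +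
          Real.exp (-(g / 2) * r ^ 2)) := by
      apply Finset.sum_le_sum
      intro u _
      have hpos := Real.exp_pos (-(g / 2) * r ^ 2)
      by_cases hu : u = 0
      · rw [if_pos hu]
        have := hone u
        linarith
      · rw [if_neg hu]
        have := hbig u (hex u hu)
        linarith
    rw [Finset.sum_add_distrib, Finset.sum_ite_eq' Finset.univ, if_pos (Finset.mem_univ _)] at hmain
    have h3 : 0 ≤ 4 * (2 ^ 17 / (2 * h + 1 : ℝ)) ^ d * W := by positivity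
    linarith

end Pool.Agent.H9.EC
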