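import Pool.Agent.H9.EC.Four
import Pool.Agent.H9.EC.SumB
import Pool.Agent.H9.EC.ExpK
import Pool.Agent.H9.EC.SingP

set_option autoImplicit false

/-!
The number of the singular signed sums for one prime (module H9 EC CMB).

PROOF.  `m = l^30` (odd), `q = 2 h + 1`.  For every primitive `x`, by `nker_le`, `sum_exp_le` (`a = 30`) and `nwalk_eq`,
`NKer x · m^d ≤ 2^g (2 + 4 (2^17/q)^d ∑ u, (1 - sig u)^k) = 2^g (2 + 4 (2^17/q)^d NWalk x m^d / (4|G|)^k)`.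
Sum over the primitive `x` (there are at most `m^d`), use `exp_ker` and divide by `m^d`:
`∑_x NKer x ≤ 2^g (2 + 4 (2^17/q)^d · 8 (31 l^225 + 1))`.  By `nsing_le` (`a = 30`), with `φ(l^30) = l^29 (l-1) ≥ l^30 / 2` (and
`≥ 1` for the second term), `NSing ≤ 2^g (4 / l^30 + 32 (31 l^225 + 1) (2^17/q)^d)`.
-/

namespace Pool.Agent.H9.EC

open Finset Matrix

theorem nsing_prime {d : ℕ} {G : Type} [Group G] [Fintype G] {ρ : G →* Matrix (Fin d) (Fin d) ℤ}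
    {c : G} {N : ℕ} (hA : AI ρ c N) {S : Type} [Fintype S] {s : S → G} {g : ℕ} (hE : Eqd c s g)
    (l : ℕ) [Fact l.Prime] (hl2 : l ≠ 2) (hl : ¬ l ∣ Fintype.card G) (r : ℝ) (hr : 0 < r) (h k : ℕ)
    (hg : d * Real.log ((l ^ 30 : ℕ) : ℝ) ≤ g / 2 * r ^ 2)
    (hh : 4 * (2 * h + 1 : ℝ) * √d * r ≤ 1)
    (hk : k * (5 * (2 * h + 1) * √d * r) ^ 2 ≤ d)
    (hR : (5 * (2 * h + 1) * √d * r) ^ 2 ≤ 1 / 2)
    (hk2 : (31 : ℝ) * d * l ^ 2 * Real.log (62 * d * l) ≤ 4 * k) :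
    (NSing ρ s : ℝ) ≤ 2 ^ g * (4 / (l : ℝ) ^ 30 +
      32 * (31 * (l : ℝ) ^ 225 + 1) * (2 ^ 17 / (2 * h + 1 : ℝ)) ^ d) := by
  classical
  have hlp : l.Prime := Fact.out
  have hl2' : 2 ≤ l := hlp.two_le
  have hlr : (2 : ℝ) ≤ l := by exact_mod_cast hl2'
  have hl0 : (0 : ℝ) < l := by linarith
  have hodd : Odd (l ^ 30) := (hlp.odd_of_ne_two hl2).pow
  have hne : NeZero (l ^ 30) := ⟨pow_ne_zero _ hlp.ne_zero⟩
  obtain ⟨q, hq⟩ : ∃ q : ℝ, q = 2 * h + 1 := ⟨_, rfl⟩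
  have hq0 : 0 < q := by
    rw [hq]
    positivity
  obtain ⟨K, hK⟩ : ∃ K : ℝ, K = (2 ^ 17 / (2 * h + 1 : ℝ)) ^ d := ⟨_, rfl⟩
  have hK0 : 0 ≤ K := by
    rw [hK]
    positivity
  obtain ⟨E, hE'⟩ : ∃ E : ℝ, E = (4 * Fintype.card G : ℝ) ^ k := ⟨_, rfl⟩
  have hG : 0 < Fintype.card G := Fintype.card_pos
  have hGr : (0 : ℝ) < Fintype.card G := by exact_mod_cast hG
  have hE0 : 0 < E := by
    rw [hE']
    positivity
  obtain ⟨M, hM⟩ : ∃ M : ℝ, M = ((l ^ 30 : ℕ) : ℝ) ^ d := ⟨_, rfl⟩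
  have hM0 : 0 < M := by
    rw [hM]
    have : (0 : ℝ) < ((l ^ 30 : ℕ) : ℝ) := by
      push_cast
      positivity
    positivity
  obtain ⟨P, hP⟩ : ∃ P : Finset (Fin d → ZMod (l ^ 30)),
      P = univ.filter (fun x : Fin d → ZMod (l ^ 30) => Prim x) := ⟨_, rfl⟩
  -- pointwise bound
  have h1 : ∀ x ∈ P, (NKer (l ^ 30) ρ s x : ℝ) * M ≤
      2 ^ g * (2 + 4 * K * ((NWalk (l ^ 30) ρ k x : ℝ) * M / E)) := by
    intro x hx
    rw [hP, mem_filter] at hx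
    have h2 := nker_le hA hE (l ^ 30) x
    have h3 := sum_exp_le hA l 30 hl2 hl (by norm_num) x hx.2 r hr h k g hg hh hk hR
    have h4 := nwalk_eq ρ (l ^ 30) hodd k x
    rw [← hM] at h2 h4
    rw [← hE'] at h4
    rw [← hK] at h3
    have h5 : (NWalk (l ^ 30) ρ k x : ℝ) * M / E =
        ∑ u : Fin d → ZMod (l ^ 30), (1 - sig (l ^ 30) ρ x u) ^ k := by
      rw [h4]
      field_simp
    rw [h5]
    exact h2.trans (mul_le_mul_of_nonneg_left h3 (by positivity))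
  -- the sum
  have h6 := sum_le_sum h1
  have h7 := exp_ker hA l hl2 hl k hk2
  rw [← hE'] at h7
  have h7' : ∑ x ∈ P, (NWalk (l ^ 30) ρ k x : ℝ) ≤ 8 * (31 * (l : ℝ) ^ 225 + 1) * E := by
    rw [hP]
    exact h7
  have hPc : (P.card : ℝ) ≤ M := by
    have h8 : P.card ≤ (l ^ 30) ^ d := by
      refine (card_le_univ P).trans (le_of_eq ?_)
      rw [Fintype.card_fun, Fintype.card_fin, ZMod.card]
    rw [hM]
    exact_mod_cast h8
  have h9 : (∑ x ∈ P, (NKer (l ^ 30) ρ s x : ℝ)) * M ≤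
      (2 ^ g * (2 + 32 * (31 * (l : ℝ) ^ 225 + 1) * K)) * M := by
    rw [sum_mul]
    refine h6.trans ?_
    have h10 : ∑ x ∈ P, (2 : ℝ) ^ g * (2 + 4 * K * ((NWalk (l ^ 30) ρ k x : ℝ) * M / E)) =
        2 ^ g * (2 * P.card + 4 * K * (M / E) * ∑ x ∈ P, (NWalk (l ^ 30) ρ k x : ℝ)) := by
      rw [← mul_sum, sum_add_distrib, sum_const, nsmul_eq_mul, mul_sum]
      congr 2
      · ring
      · refine sum_congr rfl fun x _ => ?_
        ring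
    rw [h10]
    have h11 : 4 * K * (M / E) * ∑ x ∈ P, (NWalk (l ^ 30) ρ k x : ℝ) ≤
        4 * K * (M / E) * (8 * (31 * (l : ℝ) ^ 225 + 1) * E) :=
      mul_le_mul_of_nonneg_left h7' (by positivity)
    have h12 : 4 * K * (M / E) * (8 * (31 * (l : ℝ) ^ 225 + 1) * E) =
        32 * (31 * (l : ℝ) ^ 225 + 1) * K * M := by
      field_simp
      ring
    have h13 : 2 * (P.card : ℝ) + 4 * K * (M / E) * ∑ x ∈ P, (NWalk (l ^ 30) ρ k x : ℝ) ≤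
        (2 + 32 * (31 * (l : ℝ) ^ 225 + 1) * K) * M := by
      rw [h12] at h11
      linarith
    calc (2 : ℝ) ^ g * (2 * P.card + 4 * K * (M / E) * ∑ x ∈ P, (NWalk (l ^ 30) ρ k x : ℝ))
        ≤ 2 ^ g * ((2 + 32 * (31 * (l : ℝ) ^ 225 + 1) * K) * M) :=
          mul_le_mul_of_nonneg_left h13 (by positivity)
      _ = _ := by ring
  have h14 : ∑ x ∈ P, (NKer (l ^ 30) ρ s x : ℝ) ≤
      2 ^ g * (2 + 32 * (31 * (l : ℝ) ^ 225 + 1) * K) := le_of_mul_le_mul_right h9 hM0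
  have h15 := nsing_le ρ s l 30 (by norm_num)
  have h16 : (NSing ρ s : ℝ) * (Nat.totient (l ^ 30) : ℝ) ≤
      2 ^ g * (2 + 32 * (31 * (l : ℝ) ^ 225 + 1) * K) := by
    refine le_trans ?_ h14
    rw [hP]
    exact_mod_cast h15
  have h17 : (Nat.totient (l ^ 30) : ℝ) = (l : ℝ) ^ 29 * (l - 1) := by
    rw [Nat.totient_prime_pow hlp (by norm_num)]
    push_cast [Nat.cast_sub hlp.one_le]
    norm_num
  have h18 : (l : ℝ) ^ 30 / 2 ≤ (Nat.totient (l ^ 30) : ℝ) := by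
    rw [h17]
    have : (0 : ℝ) < (l : ℝ) ^ 29 := by positivity
    nlinarith
  have h19 : (1 : ℝ) ≤ (Nat.totient (l ^ 30) : ℝ) := by
    have h20 : 0 < Nat.totient (l ^ 30) := Nat.totient_pos.2 (by positivity)
    exact_mod_cast h20
  rw [← hK]
  obtain ⟨F, hF⟩ : ∃ F : ℝ, F = (Nat.totient (l ^ 30) : ℝ) := ⟨_, rfl⟩
  rw [← hF] at h16 h18 h19
  have hF0 : 0 < F := by linarith
  have hL : (0 : ℝ) < (l : ℝ) ^ 30 := by positivity
  have h21 : (NSing ρ s : ℝ) ≤ 2 ^ g * (2 + 32 * (31 * (l : ℝ) ^ 225 + 1) * K) / F := by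
    rw [le_div_iff₀ hF0]
    exact h16
  refine h21.trans ?_
  rw [mul_div_assoc]
  refine mul_le_mul_of_nonneg_left ?_ (by positivity)
  rw [add_div]
  refine add_le_add ?_ ?_
  · rw [div_le_div_iff₀ hF0 hL]
    linarith
  · refine div_le_self ?_ h19
    positivity

end Pool.Agent.H9.EC
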