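import Pool.Agent.H9.EC.Defs

set_option autoImplicit false

/-!
Definitions for small dimensions.

* `AM m ρ x u = ∑ γ, Yl (th γ) • ρ (γ⁻¹)`, an integer matrix congruent to `2 N x uᵀ` modulo `m`.
* `mx A`: the largest absolute value of an entry.  `nv v`: the same for vectors.
* `Bx d T`: the integer vectors with entries at most `T`.  `BM d T`: the same for matrices.
-/

namespace Pool.Agent.H9.EC

open Finset Matrix

section
variable {d : ℕ} {G : Type} [Group G] [Fintype G]

/-- The integer matrix `∑ γ, Yl (th γ) • ρ (γ⁻¹)`. -/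
def AM (m : ℕ) (ρ : G →* Matrix (Fin d) (Fin d) ℤ) (x u : Fin d → ZMod m) : Matrix (Fin d) (Fin d) ℤ :=
  ∑ γ, Yl (th m ρ x u γ) • ρ γ⁻¹

end

/-- The largest absolute value of an entry. -/
def mx {d : ℕ} (A : Matrix (Fin d) (Fin d) ℤ) : ℕ := univ.sup fun i => univ.sup fun j => (A i j).natAbs

/-- The largest absolute value of a coordinate. -/
def nv {d : ℕ} (v : Fin d → ℤ) : ℕ := univ.sup fun i => (v i).natAbs

/-- The integer vectors with coordinates at most `T`. -/
noncomputable def Bx (d T : ℕ) : Finset (Fin d → ℤ) := Fintype.piFinset fun _ => Icc (-(T : ℤ)) T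

/-- The integer matrices with entries at most `T`. -/
noncomputable def BM (d T : ℕ) : Finset (Matrix (Fin d) (Fin d) ℤ) :=
  Fintype.piFinset fun _ => Fintype.piFinset fun _ => Icc (-(T : ℤ)) T

end Pool.Agent.H9.EC
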