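import Pool.Agent.H9.EC.MxB

set_option autoImplicit false

/-!
A singular `2 × 2` integer matrix is `v wᵀ` (module H9 EC FC2).

PROOF.  Let `(a, b; c, d)`, `a d = b c`, not zero.  The columns `(a, c)`, `(b, d)` are proportional over `ℚ`.  Let `v` be the
primitive integer vector with `(a, c) = w₀ v`, or if `(a, c) = 0`, with `(b, d) = w₁ v`: e.g. for `(a, c) ≠ 0` put
`h = gcd a c` (`Int.gcd`), `v = (a/h, c/h)` coprime (`Int.isCoprime_div_gcd_div_gcd`...), `w₀ = h`; `a d = b c` gives
`v₀ d = b v₁`, so `v₀ ∣ b`, ... and `(b, d) = w₁ v` by Bezout (`x v₀ + y v₁ = 1`, `w₁ = x b + y d`).  Both vectors are nonzero as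
`A ≠ 0`.  `mx (v wᵀ) = nv v * nv w` since `|v_i w_j| = |v_i| |w_j|`.
-/

namespace Pool.Agent.H9.EC

open Finset Matrix

theorem fac2 (A : Matrix (Fin 2) (Fin 2) ℤ) (h0 : A ≠ 0) (hd : A.det = 0) :
    ∃ v w : Fin 2 → ℤ, v ≠ 0 ∧ w ≠ 0 ∧ ∀ i j, A i j = v i * w j := by
  rw [Matrix.det_fin_two] at hd
  -- it suffices to factor
  suffices h : ∃ v w : Fin 2 → ℤ, ∀ i j, A i j = v i * w j by
    obtain ⟨v, w, hvw⟩ := h
    refine ⟨v, w, ?_, ?_, hvw⟩
    · rintro rfl
      apply h0
      ext i j
      rw [hvw]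
      simp
    · rintro rfl
      apply h0
      ext i j
      rw [hvw]
      simp
  by_cases hac : A 0 0 = 0 ∧ A 1 0 = 0
  · refine ⟨![A 0 1, A 1 1], ![0, 1], ?_⟩
    intro i j
    fin_cases i <;> fin_cases j <;> simp [hac.1, hac.2]
  · have hg : Int.gcd (A 0 0) (A 1 0) ≠ 0 := by
      intro h
      rw [Int.gcd_eq_zero_iff] at h
      exact hac h
    obtain ⟨a', ha⟩ := Int.gcd_dvd_left (A 0 0) (A 1 0)
    obtain ⟨c', hc⟩ := Int.gcd_dvd_right (A 0 0) (A 1 0)
    have hbez := Int.gcd_eq_gcd_ab (A 0 0) (A 1 0)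
    set g : ℤ := (Int.gcd (A 0 0) (A 1 0) : ℤ) with hgdef
    have hg' : g ≠ 0 := by
      rw [hgdef]
      exact_mod_cast hg
    set x := Int.gcdA (A 0 0) (A 1 0)
    set y := Int.gcdB (A 0 0) (A 1 0)
    have h1 : a' * x + c' * y = 1 := by
      have : g * (a' * x + c' * y) = g * 1 := by
        rw [mul_one]
        calc g * (a' * x + c' * y) = (g * a') * x + (g * c') * y := by ring
          _ = A 0 0 * x + A 1 0 * y := by rw [← ha, ← hc]
          _ = g := hbez.symm
      exact mul_left_cancel₀ hg' this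
    have h2 : a' * A 1 1 = A 0 1 * c' := by
      have : g * (a' * A 1 1) = g * (A 0 1 * c') := by
        calc g * (a' * A 1 1) = (g * a') * A 1 1 := by ring
          _ = A 0 0 * A 1 1 := by rw [← ha]
          _ = A 0 1 * A 1 0 := by linarith
          _ = A 0 1 * (g * c') := by rw [← hc]
          _ = g * (A 0 1 * c') := by ring
      exact mul_left_cancel₀ hg' this
    refine ⟨![a', c'], ![g, x * A 0 1 + y * A 1 1], ?_⟩
    intro i j
    fin_cases i <;> fin_cases j
    · show A 0 0 = a' * g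
      rw [mul_comm]
      exact ha
    · show A 0 1 = a' * (x * A 0 1 + y * A 1 1)
      linear_combination (-A 0 1) * h1 + (-y) * h2
    · show A 1 0 = c' * g
      rw [mul_comm]
      exact hc
    · show A 1 1 = c' * (x * A 0 1 + y * A 1 1)
      linear_combination (-A 1 1) * h1 + x * h2

theorem mx_mul {d : ℕ} (A : Matrix (Fin d) (Fin d) ℤ) (v w : Fin d → ℤ) (h : ∀ i j, A i j = v i * w j) :
    mx A = nv v * nv w := by
  apply le_antisymm
  · rw [mx_le]
    intro i j
    rw [h, abs_mul]
    push_cast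
    exact mul_le_mul (le_nv v i) (le_nv w j) (abs_nonneg _) (by positivity)
  · by_cases hv : v = 0
    · have : nv v = 0 := by
        have := (nv_le v 0).mpr (by intro i; simp [hv])
        omega
      rw [this]
      simp
    · by_cases hw : w = 0
      · have : nv w = 0 := by
          have := (nv_le w 0).mpr (by intro i; simp [hw])
          omega
        rw [this]
        simp
      · obtain ⟨i, hi⟩ := nv_attained v hv
        obtain ⟨j, hj⟩ := nv_attained w hw
        have h1 := le_mx A i j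
        rw [h, abs_mul, hi, hj] at h1
        exact_mod_cast h1

end Pool.Agent.H9.EC
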