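import Mathlib
import Pool.Agent.H52.EC.LinkB

set_option autoImplicit false

/-!
`link` of `H52/EC/LinkB.lean` with the additional conclusion that `ρ` is faithful.
-/

namespace Pool.Agent.H9.EC

open Module Matrix Pool.Agent.H52.AD Pool.Agent.H52.EC

variable {X : Type} [Fintype X] {c : Equiv.Perm X} {𝒢 : Subgroup (Equiv.Perm X)} {g : ℕ}
  {W : Submodule ℚ (X → ℚ)}

theorem card_range_Gm (hst : Stb 𝒢 W) [Fintype (opW hst).range] :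
    Fintype.card (opW hst).range = Nat.card (Gm 𝒢 W) := by
  rw [← Nat.card_eq_fintype_card]
  refine Nat.card_congr (Equiv.ofBijective (fun γ : (opW hst).range =>
    (⟨((γ : W ≃ₗ[ℚ] W) : W →ₗ[ℚ] W), ?_⟩ : Gm 𝒢 W)) ⟨?_, ?_⟩)
  · obtain ⟨π, hπ⟩ := γ.2
    refine ⟨(π : Equiv.Perm X)⁻¹, 𝒢.inv_mem π.2, fun f x => ?_⟩
    rw [← hπ]
    rfl
  · intro γ δ h
    apply Subtype.ext
    exact LinearEquiv.toLinearMap_injective (congrArg Subtype.val h)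
  · rintro ⟨φ, π, hπ, h⟩
    refine ⟨⟨opW hst (⟨π, hπ⟩⁻¹ : 𝒢), ⟨_, rfl⟩⟩, ?_⟩
    apply Subtype.ext
    refine LinearMap.ext fun f => Subtype.ext ?_
    funext x
    rw [h f x]
    show (f : X → ℚ) (((⟨π, hπ⟩⁻¹ : 𝒢) : Equiv.Perm X)⁻¹ x) = (f : X → ℚ) (π x)
    rw [Subgroup.coe_inv, inv_inv]

theorem linkI (hS : Sys c 𝒢 g) (hW : Smp c 𝒢 W) (hG : Gal 𝒢 W) (x₀ : X)
    (he : finrank ℚ (Endo 𝒢 W) = 1) :
    ∃ (G : Type) (_ : Group G) (_ : Fintype G) (ρ : G →* Matrix (Fin (finrank ℚ W)) (Fin (finrank ℚ W)) ℤ)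
      (cc : G) (N : ℕ) (S : Type) (_ : Fintype S) (s : S → G),
      AI ρ cc N ∧ Function.Injective ρ ∧ Fintype.card G ≤ 2 * g ∧ Eqd cc s g ∧
        Nat.card (Fail c 𝒢 W) ≤ NSing ρ s ∧ Fintype.card G = Nat.card (Gm 𝒢 W) := by
  classical
  obtain ⟨R, hR⟩ := Pool.Agent.H52.MF.exists_section (fun x => c x) hS.cc hS.ne
  choose s hs using fun x => hS.trans x₀ x
  let _ : Fintype (opW hW.2.2.1).range := Fintype.ofFinite _
  obtain ⟨b, hb, hb2⟩ := int_basis W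
  obtain ⟨ρ, hρ⟩ := exists_rho hW.2.2.1 b hb hb2
  obtain ⟨N, hN⟩ := exists_AI hW he b ρ hρ ⟨opW hW.2.2.1 ⟨c, hS.mem⟩, ⟨c, hS.mem⟩, rfl⟩
    (fun f => opW_c hS hW f)
  have hinj : Function.Injective ρ := by
    intro γ δ h
    apply Subtype.ext
    have h1 : mW b (γ : W ≃ₗ[ℚ] W) = mW b (δ : W ≃ₗ[ℚ] W) := by rw [← hρ, ← hρ, h]
    unfold mW at h1
    have h2 := (LinearMap.toMatrix b b).injective h1
    exact LinearEquiv.toLinearMap_injective h2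
  refine ⟨(opW hW.2.2.1).range, inferInstance, inferInstance, ρ, _, N, R, inferInstance,
    (fun x => ⟨opW hW.2.2.1 ⟨s x, (hs x).1⟩, ⟨s x, (hs x).1⟩, rfl⟩), hN, hinj,
    card_range_le hS hW hG x₀, exists_Eqd hS hW hG x₀ R hR s hs, ?_, card_range_Gm hW.2.2.1⟩
  unfold NSing
  refine Nat.card_le_card_of_injective (fun Φ : Fail c 𝒢 W =>
    (⟨fun x : R => decide ((x : X) ∈ (Φ : Set X)), sing_of_fail hS hW x₀ R hR s hs b ρ hρ Φ Φ.2 _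
      (fun x => by rw [decide_eq_true_iff])⟩ : {f : R → Bool // (mat ρ (fun x : R =>
        (⟨opW hW.2.2.1 ⟨s x, (hs x).1⟩, ⟨s x, (hs x).1⟩, rfl⟩ : (opW hW.2.2.1).range)) f).det = 0})) ?_
  intro Φ Φ' h
  apply Subtype.ext
  refine Pool.Agent.H52.MF.type_inj c R hR Φ Φ' Φ.2.1 Φ'.2.1 fun x hx => ?_
  have h1 := congrFun (congrArg Subtype.val h) ⟨x, hx⟩
  have h2 : decide (x ∈ (Φ : Set X)) = decide (x ∈ (Φ' : Set X)) := h1
  exact decide_eq_decide.1 h2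

end Pool.Agent.H9.EC
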