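import Mathlib
import Pool.Agent.H52.CS.SmallAb
import Pool.Agent.H52.CS.FewSmall
import Pool.Agent.H52.EC.Huge
import Pool.Agent.H52.EC.BndG2
import Pool.Agent.H9.EC.LinkI
import Pool.Agent.H9.EC.ChA
import Pool.Agent.H9.EC.ChBC

set_option autoImplicit false

/-!
# Theorem E: the sum over all simple spaces, without any condition (H9 EC)
-/

namespace Pool.Agent.H9.EC

open Module Pool.Agent.H52.AD Pool.Agent.H52.CS Pool.Agent.H52.EC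

/-- Chapter B for all `3 ≤ d < 2500` at once. -/
theorem chB_all (ε : ℝ) (hε : 0 < ε) : ∃ g₀ : ℕ, ∀ g : ℕ, g₀ ≤ g → ∀ d : ℕ, 3 ≤ d → d < 2500 →
    ∀ (G : Type) [Group G] [Fintype G] (ρ : G →* Matrix (Fin d) (Fin d) ℤ) (c : G) (N : ℕ),
    AI ρ c N → Function.Injective ρ → ∀ (S : Type) [Fintype S] (s : S → G), Eqd c s g →
    (NSing ρ s : ℝ) ≤ 2 ^ g * (ε / g) := by
  classical
  have h1 : ∀ d : ℕ, ∃ g₀ : ℕ, 3 ≤ d → ∀ g : ℕ, g₀ ≤ g →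
      ∀ (G : Type) [Group G] [Fintype G] (ρ : G →* Matrix (Fin d) (Fin d) ℤ) (c : G) (N : ℕ),
      AI ρ c N → Function.Injective ρ → ∀ (S : Type) [Fintype S] (s : S → G), Eqd c s g →
      (NSing ρ s : ℝ) ≤ 2 ^ g * (ε / g) := by
    intro d
    by_cases hd : 3 ≤ d
    · obtain ⟨g₀, h⟩ := chB d hd ε hε
      exact ⟨g₀, fun _ => h⟩
    · exact ⟨0, fun h => absurd h hd⟩
  choose f hf using h1
  refine ⟨∑ d ∈ Finset.range 2500, f d, ?_⟩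
  intro g hg d hd hd2
  have h2 : f d ≤ ∑ d ∈ Finset.range 2500, f d :=
    Finset.single_le_sum (f := f) (fun _ _ => Nat.zero_le _) (Finset.mem_range.2 hd2)
  exact hf d hd g (h2.trans hg)

/-- One space with `e = 1` and `3 ≤ d < 2500`. -/
theorem one_B (ε : ℝ) (hε : 0 < ε) : ∃ g₀ : ℕ, ∀ {X : Type} [Fintype X] {c : Equiv.Perm X}
    {𝒢 : Subgroup (Equiv.Perm X)} {g : ℕ} {W : Submodule ℚ (X → ℚ)}, Sys c 𝒢 g → Smp c 𝒢 W →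
    Gal 𝒢 W → ∀ _x₀ : X, g₀ ≤ g → finrank ℚ (Endo 𝒢 W) = 1 → 3 ≤ finrank ℚ W →
    finrank ℚ W < 2500 → (Nat.card (Fail c 𝒢 W) : ℝ) ≤ 2 ^ g * (ε / g) := by
  obtain ⟨g₀, h⟩ := chB_all ε hε
  refine ⟨g₀, ?_⟩
  intro X _ c 𝒢 g W hS hW hG x₀ hg he hd hd2
  obtain ⟨G, _, _, ρ, cc, N, S, _, s, h1, h2, h3, h4, h5, -⟩ := linkI hS hW hG x₀ he
  refine le_trans ?_ (h g hg _ hd hd2 G ρ cc N h1 h2 S s h4)
  exact_mod_cast h5

/-- One space with `e = 1`, `2500 ≤ d` and `d ^ 50 ≤ g ^ 17`. -/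
theorem one_A : ∃ g₀ : ℕ, ∀ {X : Type} [Fintype X] {c : Equiv.Perm X}
    {𝒢 : Subgroup (Equiv.Perm X)} {g : ℕ} {W : Submodule ℚ (X → ℚ)}, Sys c 𝒢 g → Smp c 𝒢 W →
    Gal 𝒢 W → ∀ _x₀ : X, g₀ ≤ g → finrank ℚ (Endo 𝒢 W) = 1 → 2500 ≤ finrank ℚ W →
    finrank ℚ W ^ 50 ≤ g ^ 17 → (Nat.card (Fail c 𝒢 W) : ℝ) ≤ 2 ^ g * (1 / (g : ℝ) ^ 2) := by
  obtain ⟨g₀, h⟩ := chA
  refine ⟨g₀, ?_⟩
  intro X _ c 𝒢 g W hS hW hG x₀ hg he hd hd2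
  obtain ⟨G, _, _, ρ, cc, N, S, _, s, h1, h2, h3, h4, h5, -⟩ := linkI hS hW hG x₀ he
  refine le_trans ?_ (h g hg _ hd hd2 G ρ cc N h1 h3 S s h4)
  exact_mod_cast h5

/-- One space with `e = 1` and `d = 2`. -/
theorem one_C : ∃ C : ℝ, 0 ≤ C ∧ ∃ g₀ : ℕ, ∀ {X : Type} [Fintype X] {c : Equiv.Perm X}
    {𝒢 : Subgroup (Equiv.Perm X)} {g : ℕ} {W : Submodule ℚ (X → ℚ)}, Sys c 𝒢 g → Smp c 𝒢 W →
    Gal 𝒢 W → ∀ _x₀ : X, g₀ ≤ g → finrank ℚ (Endo 𝒢 W) = 1 → finrank ℚ W = 2 →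
    (Nat.card (Fail c 𝒢 W) : ℝ) ≤ 2 ^ g * (C * Real.log g / g) := by
  obtain ⟨C, g₀, h⟩ := chC
  refine ⟨max C 0, le_max_right _ _, g₀, ?_⟩
  intro X _ c 𝒢 g W hS hW hG x₀ hg he hd
  have hl := linkI hS hW hG x₀ he
  rw [hd] at hl
  obtain ⟨G, _, _, ρ, cc, N, S, _, s, h1, h2, h3, h4, h5, -⟩ := hl
  have h6 : (Nat.card (Fail c 𝒢 W) : ℝ) ≤ NSing ρ s := by exact_mod_cast h5
  have hgR : (1 : ℝ) ≤ g := by exact_mod_cast hS.pos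
  have hlog : 0 ≤ Real.log g := Real.log_nonneg hgR
  refine (h6.trans (h g hg G ρ cc N h1 h2 S s h4)).trans ?_
  have h7 : C ≤ max C 0 := le_max_left _ _
  gcongr

theorem cover_sum {α : Type} (s : Finset α) (F : α → ℝ) (hF : ∀ a ∈ s, 0 ≤ F a) {n : ℕ}
    (p : Fin n → α → Prop) [∀ i, DecidablePred (p i)] (h : ∀ a ∈ s, ∃ i, p i a) :
    ∑ a ∈ s, F a ≤ ∑ i, ∑ a ∈ s.filter (p i), F a := by
  simp only [Finset.sum_filter]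
  rw [Finset.sum_comm]
  refine Finset.sum_le_sum fun a ha => ?_
  obtain ⟨i, hi⟩ := h a ha
  have h1 : F a = if p i a then F a else 0 := by rw [if_pos hi]
  calc F a = (if p i a then F a else 0) := h1
    _ ≤ ∑ j, (if p j a then F a else 0) :=
      Finset.single_le_sum (f := fun j => if p j a then F a else 0)
        (fun j _ => by
          show 0 ≤ (if p j a then F a else 0)
          split_ifs
          · exact hF a ha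
          · exact le_refl _) (Finset.mem_univ i)

/-- The sum over all spaces. -/
theorem ec_sum : ∃ C : ℝ, 0 ≤ C ∧ ∀ ε : ℝ, 0 < ε → ∃ g₀ : ℕ, ∀ {X : Type} [Fintype X]
    {c : Equiv.Perm X} {𝒢 : Subgroup (Equiv.Perm X)} {g : ℕ}, Sys c 𝒢 g → ∀ x₀ : X, g₀ ≤ g →
    ∀ 𝒲 : Finset (Submodule ℚ (X → ℚ)), (∀ W ∈ 𝒲, Smp c 𝒢 W) →
    ∑ W ∈ 𝒲, finrank ℚ W * (finrank ℚ (Fix 𝒢 x₀ W) / finrank ℚ (Endo 𝒢 W)) ≤ g →
    ∀ n₁ n₂ n₃ : ℕ, (∀ 𝒱 ⊆ 𝒲, (∀ W ∈ 𝒱, finrank ℚ W = 1) → 𝒱.card ≤ n₁) →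
    (∀ 𝒱 ⊆ 𝒲, (∀ W ∈ 𝒱, finrank ℚ W = 2 ∧ (Gal 𝒢 W → finrank ℚ (Endo 𝒢 W) = finrank ℚ W)) →
      𝒱.card ≤ n₂) →
    (∀ 𝒱 ⊆ 𝒲, (∀ W ∈ 𝒱, finrank ℚ W = 2 ∧ Gal 𝒢 W ∧ finrank ℚ (Endo 𝒢 W) = 1) → 𝒱.card ≤ n₃) →
    ∑ W ∈ 𝒲, (Nat.card (Fail c 𝒢 W) : ℝ) ≤
      2 ^ g * (ε + 40 * n₁ / Real.sqrt g + 4400 * n₂ / g + C * n₃ * Real.log g / g) := by
  classical
  obtain ⟨C, hC0, gC, hCC⟩ := one_C
  refine ⟨C, hC0, fun ε hε => ?_⟩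
  obtain ⟨Y, hY2, hY⟩ := exists_Y (ε / 20) (by positivity)
  obtain ⟨g₁, hg₁⟩ := non_gal2
  obtain ⟨g₂, hg₂⟩ := bnd_g
  obtain ⟨g₃, hg₃⟩ := bnd_m Y (ε / 20) (by positivity)
  obtain ⟨g₄, hg₄⟩ := exists_g4 (ε / 20) (by positivity)
  obtain ⟨g₅, hg₅⟩ := gal_sum
  obtain ⟨g₆, hg₆⟩ := gal_huge_sum (ε / 20) (by positivity)
  obtain ⟨g₇, hg₇⟩ := gal_mid
  obtain ⟨g₈, hg₈⟩ := bnd_small 2 (by norm_num)
  obtain ⟨g₉, hg₉⟩ := one_B (ε / 20) (by positivity)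
  obtain ⟨g₁₀, hg₁₀⟩ := one_A
  obtain ⟨g₁₁, hg₁₁⟩ := gal_one_sum (ε / 20) (by positivity)
  obtain ⟨D₂, hD₂⟩ := exists_nat_ge (20 / ε)
  refine ⟨g₁ + g₂ + g₃ + g₄ + g₅ + g₆ + g₇ + g₈ + g₉ + g₁₀ + g₁₁ + gC + D₂ + 4, ?_⟩
  intro X _ c 𝒢 g hS x₀ hg 𝒲 h𝒲 hsum n₁ n₂ n₃ hn₁ hn₂ hn₃
  have hgR : (0 : ℝ) < g := by exact_mod_cast hS.pos
  have h2g : (0 : ℝ) < 2 ^ g := by positivity
  have hgR1 : (1 : ℝ) ≤ g := by exact_mod_cast hS.pos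
  have hlogg : 0 ≤ Real.log g := Real.log_nonneg hgR1
  have hcard𝒲 : 𝒲.card ≤ g := by
    refine le_trans ?_ hsum
    rw [Finset.card_eq_sum_ones]
    exact Finset.sum_le_sum fun W hW => six_mult_pos hS (h𝒲 W hW) x₀
  have hsub : ∀ 𝒱 ⊆ 𝒲,
      ∑ W ∈ 𝒱, finrank ℚ W * (finrank ℚ (Fix 𝒢 x₀ W) / finrank ℚ (Endo 𝒢 W)) ≤ g :=
    fun 𝒱 h => (Finset.sum_le_sum_of_subset h).trans hsum
  -- a uniform bound `B / g` for all members of a subfamily gives `B` in total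
  have huni : ∀ 𝒱 ⊆ 𝒲, ∀ B : ℝ, 0 ≤ B →
      (∀ W ∈ 𝒱, (Nat.card (Fail c 𝒢 W) : ℝ) ≤ 2 ^ g * (B / g)) →
      ∑ W ∈ 𝒱, (Nat.card (Fail c 𝒢 W) : ℝ) ≤ 2 ^ g * B := by
    intro 𝒱 h𝒱 B hB h
    refine (Finset.sum_le_sum h).trans ?_
    rw [Finset.sum_const, nsmul_eq_mul]
    have h2 : (𝒱.card : ℝ) ≤ g := by
      exact_mod_cast (Finset.card_le_card h𝒱).trans hcard𝒲
    calc (𝒱.card : ℝ) * (2 ^ g * (B / g)) ≤ g * (2 ^ g * (B / g)) := by gcongr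
      _ = 2 ^ g * B := by field_simp
  obtain ⟨p, hp⟩ : ∃ p : Fin 10 → Submodule ℚ (X → ℚ) → Prop, p = ![
    (fun W => ¬ Gal 𝒢 W ∧ Y ≤ finrank ℚ W),
    (fun W => (Gal 𝒢 W → 2 ≤ finrank ℚ (Endo 𝒢 W)) ∧ 3 ≤ finrank ℚ W ∧ finrank ℚ W < Y),
    (fun W => finrank ℚ W = 1),
    (fun W => finrank ℚ W = 2 ∧ (Gal 𝒢 W → finrank ℚ (Endo 𝒢 W) = finrank ℚ W)),
    (fun W => finrank ℚ W = 2 ∧ Gal 𝒢 W ∧ finrank ℚ (Endo 𝒢 W) = 1),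
    (fun W => Gal 𝒢 W ∧ 2 ≤ finrank ℚ (Endo 𝒢 W) ∧ Y ≤ finrank ℚ W ∧ finrank ℚ W ^ 20 ≤ g ^ 19),
    (fun W => Gal 𝒢 W ∧ g ^ 19 < finrank ℚ W ^ 20),
    (fun W => Gal 𝒢 W ∧ finrank ℚ (Endo 𝒢 W) = 1 ∧ 3 ≤ finrank ℚ W ∧ finrank ℚ W < 2500),
    (fun W => Gal 𝒢 W ∧ finrank ℚ (Endo 𝒢 W) = 1 ∧ 2500 ≤ finrank ℚ W ∧ finrank ℚ W ^ 50 ≤ g ^ 17),
    (fun W => Gal 𝒢 W ∧ finrank ℚ (Endo 𝒢 W) = 1 ∧ g ^ 17 < finrank ℚ W ^ 50)] := ⟨_, rfl⟩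
  have hcov : ∀ W ∈ 𝒲, ∃ i, p i W := by
    intro W hW
    have h0 := six_pos (h𝒲 W hW)
    have he0 := endo_pos (h𝒲 W hW)
    rw [hp]
    by_cases hG : Gal 𝒢 W
    · by_cases h1 : finrank ℚ W = 1
      · exact ⟨2, h1⟩
      by_cases h2 : finrank ℚ W = 2
      · by_cases he : finrank ℚ (Endo 𝒢 W) = 1
        · exact ⟨4, h2, hG, he⟩
        · refine ⟨3, h2, fun _ => ?_⟩
          have h6 := endo_dvd_dim (h𝒲 W hW)
          rw [h2] at h6 ⊢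
          have h7 := Nat.le_of_dvd (by norm_num) h6
          omega
      by_cases he : finrank ℚ (Endo 𝒢 W) = 1
      · by_cases h3 : finrank ℚ W < 2500
        · exact ⟨7, hG, he, by omega, h3⟩
        · by_cases h4 : finrank ℚ W ^ 50 ≤ g ^ 17
          · exact ⟨8, hG, he, by omega, h4⟩
          · exact ⟨9, hG, he, by omega⟩
      · by_cases h3 : finrank ℚ W < Y
        · exact ⟨1, fun _ => by omega, by omega, h3⟩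
        · by_cases h4 : finrank ℚ W ^ 20 ≤ g ^ 19
          · exact ⟨5, hG, by omega, by omega, h4⟩
          · exact ⟨6, hG, by omega⟩
    · by_cases h1 : finrank ℚ W = 1
      · exact ⟨2, h1⟩
      by_cases h2 : finrank ℚ W = 2
      · exact ⟨3, h2, fun h => absurd h hG⟩
      by_cases h3 : finrank ℚ W < Y
      · exact ⟨1, fun h => absurd h hG, by omega, h3⟩
      · exact ⟨0, hG, by omega⟩
  have hsplit := cover_sum 𝒲 (fun W => (Nat.card (Fail c 𝒢 W) : ℝ))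
    (fun W _ => Nat.cast_nonneg _) p hcov
  -- the ten parts
  have h0 : ∑ W ∈ 𝒲.filter (fun W => ¬ Gal 𝒢 W ∧ Y ≤ finrank ℚ W), (Nat.card (Fail c 𝒢 W) : ℝ) ≤
      2 ^ g * (ε / 20 + ε / 20) := by
    refine (hg₁ hS x₀ (by omega) Y hY2 _ ?_ (hsub _ (Finset.filter_subset _ _))).trans ?_
    · intro W hW
      rw [Finset.mem_filter] at hW
      exact ⟨h𝒲 W hW.1, hW.2.1, hW.2.2⟩
    · have h1 := hg₄ g (by omega)
      gcongr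
  have h1 : ∑ W ∈ 𝒲.filter (fun W => (Gal 𝒢 W → 2 ≤ finrank ℚ (Endo 𝒢 W)) ∧ 3 ≤ finrank ℚ W ∧
      finrank ℚ W < Y), (Nat.card (Fail c 𝒢 W) : ℝ) ≤ 2 ^ g * (ε / 20) := by
    refine huni _ (Finset.filter_subset _ _) _ (by positivity) ?_
    intro W hW
    rw [Finset.mem_filter] at hW
    refine hg₃ hS (h𝒲 W hW.1) x₀ (by omega) hW.2.2.1 hW.2.2.2.le ?_
    have hle := fix_le_dim (𝒢 := 𝒢) (W := W) x₀
    have he := endo_pos (h𝒲 W hW.1)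
    have h3 := hW.2.2.1
    by_cases hG : Gal 𝒢 W
    · have h5 := hW.2.1 hG
      omega
    · have h5 : finrank ℚ (Fix 𝒢 x₀ W) ≠ finrank ℚ W :=
        fun h => hG ((fix_eq_dim hS (h𝒲 W hW.1) x₀).1 h)
      omega
  have h2 : ∑ W ∈ 𝒲.filter (fun W : Submodule ℚ (X → ℚ) => finrank ℚ W = 1),
      (Nat.card (Fail c 𝒢 W) : ℝ) ≤ 2 ^ g * (40 * n₁ / Real.sqrt g) := by
    have h1 : ∀ W ∈ 𝒲.filter (fun W : Submodule ℚ (X → ℚ) => finrank ℚ W = 1),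
        (Nat.card (Fail c 𝒢 W) : ℝ) ≤ 2 ^ g * (40 / Real.sqrt g) := by
      intro W hW
      rw [Finset.mem_filter] at hW
      have h2 := hg₂ hS (h𝒲 W hW.1) (six_gal_one hS (h𝒲 W hW.1) x₀ hW.2) x₀ (by omega)
        (by rw [hW.2]; have := hS.pos; omega)
      rw [hW.2] at h2
      simpa using h2
    refine (Finset.sum_le_sum h1).trans ?_
    rw [Finset.sum_const, nsmul_eq_mul]
    have h2 : ((𝒲.filter (fun W : Submodule ℚ (X → ℚ) => finrank ℚ W = 1)).card : ℝ) ≤ n₁ := by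
      exact_mod_cast hn₁ _ (Finset.filter_subset _ _) (fun W hW => (Finset.mem_filter.1 hW).2)
    calc ((𝒲.filter (fun W : Submodule ℚ (X → ℚ) => finrank ℚ W = 1)).card : ℝ) *
          (2 ^ g * (40 / Real.sqrt g)) ≤ n₁ * (2 ^ g * (40 / Real.sqrt g)) := by gcongr
      _ = 2 ^ g * (40 * n₁ / Real.sqrt g) := by ring
  have h3 : ∑ W ∈ 𝒲.filter (fun W : Submodule ℚ (X → ℚ) => finrank ℚ W = 2 ∧
      (Gal 𝒢 W → finrank ℚ (Endo 𝒢 W) = finrank ℚ W)),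
      (Nat.card (Fail c 𝒢 W) : ℝ) ≤ 2 ^ g * (4400 * n₂ / g) := by
    have hlog := smallAb_log
    have hlog0 : 0 ≤ Real.log (3 * 2) := Real.log_nonneg (by norm_num)
    have h1 : ∀ W ∈ 𝒲.filter (fun W : Submodule ℚ (X → ℚ) => finrank ℚ W = 2 ∧
        (Gal 𝒢 W → finrank ℚ (Endo 𝒢 W) = finrank ℚ W)),
        (Nat.card (Fail c 𝒢 W) : ℝ) ≤ 2 ^ g * (4400 / g) := by
      intro W hW
      rw [Finset.mem_filter] at hW
      obtain ⟨hW1, hW2, hW3⟩ := hW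
      by_cases hG : Gal 𝒢 W
      · have he := hW3 hG
        have h2 := (hg₇ hS (h𝒲 W hW1) hG x₀ (by omega) (by omega) (by omega) (by
          rw [hW2]
          calc 2 ^ 20 ≤ 4 ^ 19 := by norm_num
            _ ≤ g ^ 19 := Nat.pow_le_pow_left (by omega) _)).1
        refine h2.trans (mul_le_mul_of_nonneg_left ?_ h2g.le)
        rw [hW2, ← mul_div_assoc]
        push_cast
        gcongr
        nlinarith
      · have h2 := hg₈ hS (h𝒲 W hW1) hG x₀ (by omega) hW2.le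
        refine h2.trans (mul_le_mul_of_nonneg_left ?_ h2g.le)
        push_cast
        gcongr
        nlinarith
    refine (Finset.sum_le_sum h1).trans ?_
    rw [Finset.sum_const, nsmul_eq_mul]
    have h2 : ((𝒲.filter (fun W : Submodule ℚ (X → ℚ) => finrank ℚ W = 2 ∧
        (Gal 𝒢 W → finrank ℚ (Endo 𝒢 W) = finrank ℚ W))).card : ℝ) ≤ n₂ := by
      exact_mod_cast hn₂ _ (Finset.filter_subset _ _) (fun W hW => (Finset.mem_filter.1 hW).2)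
    calc ((𝒲.filter (fun W : Submodule ℚ (X → ℚ) => finrank ℚ W = 2 ∧
          (Gal 𝒢 W → finrank ℚ (Endo 𝒢 W) = finrank ℚ W))).card : ℝ) *
          (2 ^ g * (4400 / g)) ≤ n₂ * (2 ^ g * (4400 / g)) := by gcongr
      _ = 2 ^ g * (4400 * n₂ / g) := by ring
  have h4 : ∑ W ∈ 𝒲.filter (fun W : Submodule ℚ (X → ℚ) => finrank ℚ W = 2 ∧ Gal 𝒢 W ∧
      finrank ℚ (Endo 𝒢 W) = 1),
      (Nat.card (Fail c 𝒢 W) : ℝ) ≤ 2 ^ g * (C * n₃ * Real.log g / g) := by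
    have h1 : ∀ W ∈ 𝒲.filter (fun W : Submodule ℚ (X → ℚ) => finrank ℚ W = 2 ∧ Gal 𝒢 W ∧
        finrank ℚ (Endo 𝒢 W) = 1),
        (Nat.card (Fail c 𝒢 W) : ℝ) ≤ 2 ^ g * (C * Real.log g / g) := by
      intro W hW
      rw [Finset.mem_filter] at hW
      obtain ⟨hW1, hW2, hW3, hW4⟩ := hW
      exact hCC hS (h𝒲 W hW1) hW3 x₀ (by omega) hW4 hW2
    refine (Finset.sum_le_sum h1).trans ?_
    rw [Finset.sum_const, nsmul_eq_mul]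
    have h2 : ((𝒲.filter (fun W : Submodule ℚ (X → ℚ) => finrank ℚ W = 2 ∧ Gal 𝒢 W ∧
        finrank ℚ (Endo 𝒢 W) = 1)).card : ℝ) ≤ n₃ := by
      exact_mod_cast hn₃ _ (Finset.filter_subset _ _) (fun W hW => (Finset.mem_filter.1 hW).2)
    calc ((𝒲.filter (fun W : Submodule ℚ (X → ℚ) => finrank ℚ W = 2 ∧ Gal 𝒢 W ∧
          finrank ℚ (Endo 𝒢 W) = 1)).card : ℝ) *
          (2 ^ g * (C * Real.log g / g)) ≤ n₃ * (2 ^ g * (C * Real.log g / g)) := by gcongr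
      _ = 2 ^ g * (C * n₃ * Real.log g / g) := by ring
  have h5 : ∑ W ∈ 𝒲.filter (fun W => Gal 𝒢 W ∧ 2 ≤ finrank ℚ (Endo 𝒢 W) ∧ Y ≤ finrank ℚ W ∧
      finrank ℚ W ^ 20 ≤ g ^ 19), (Nat.card (Fail c 𝒢 W) : ℝ) ≤
      2 ^ g * (ε / 20 + 2 * (ε / 20)) := by
    refine (hg₅ hS x₀ (by omega) Y hY2 _ ?_ (hsub _ (Finset.filter_subset _ _))).trans ?_
    · intro W hW
      rw [Finset.mem_filter] at hW
      exact ⟨h𝒲 W hW.1, hW.2.1, hW.2.2.1, hW.2.2.2.1, hW.2.2.2.2⟩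
    · have h1 := hg₄ g (by omega)
      have hY0 : (2 : ℝ) ≤ Y := by exact_mod_cast hY2
      have hlog : 0 ≤ Real.log (3 * Y) := Real.log_nonneg (by linarith)
      have h3 : 0 ≤ Real.log (3 * Y) / Y := div_nonneg hlog (by linarith)
      have h4 : 768 * Real.log (3 * Y) / Y ≤ 2 * (ε / 20) := by
        have h5 : 400 * (Real.log (3 * Y) / Y) ≤ ε / 20 := by
          rw [← mul_div_assoc]
          exact hY
        rw [mul_div_assoc]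
        linarith
      gcongr
  have h6 : ∑ W ∈ 𝒲.filter (fun W => Gal 𝒢 W ∧ g ^ 19 < finrank ℚ W ^ 20),
      (Nat.card (Fail c 𝒢 W) : ℝ) ≤ 2 ^ g * (ε / 20) := by
    refine hg₆ hS x₀ (by omega) _ ?_ (hsub _ (Finset.filter_subset _ _))
    intro W hW
    rw [Finset.mem_filter] at hW
    exact ⟨h𝒲 W hW.1, hW.2.1, hW.2.2⟩
  have h7 : ∑ W ∈ 𝒲.filter (fun W => Gal 𝒢 W ∧ finrank ℚ (Endo 𝒢 W) = 1 ∧ 3 ≤ finrank ℚ W ∧
      finrank ℚ W < 2500), (Nat.card (Fail c 𝒢 W) : ℝ) ≤ 2 ^ g * (ε / 20) := by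
    refine huni _ (Finset.filter_subset _ _) _ (by positivity) ?_
    intro W hW
    rw [Finset.mem_filter] at hW
    obtain ⟨hW1, hW2, hW3, hW4, hW5⟩ := hW
    exact hg₉ hS (h𝒲 W hW1) hW2 x₀ (by omega) hW3 hW4 hW5
  have h8 : ∑ W ∈ 𝒲.filter (fun W => Gal 𝒢 W ∧ finrank ℚ (Endo 𝒢 W) = 1 ∧ 2500 ≤ finrank ℚ W ∧
      finrank ℚ W ^ 50 ≤ g ^ 17), (Nat.card (Fail c 𝒢 W) : ℝ) ≤ 2 ^ g * (ε / 20) := by
    refine huni _ (Finset.filter_subset _ _) _ (by positivity) ?_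
    intro W hW
    rw [Finset.mem_filter] at hW
    obtain ⟨hW1, hW2, hW3, hW4, hW5⟩ := hW
    refine (hg₁₀ hS (h𝒲 W hW1) hW2 x₀ (by omega) hW3 hW4 hW5).trans ?_
    refine mul_le_mul_of_nonneg_left ?_ h2g.le
    have h3 : 20 / ε ≤ (g : ℝ) := by
      refine hD₂.trans ?_
      have : D₂ ≤ g := by omega
      exact_mod_cast this
    have h4 : 1 / (g : ℝ) ≤ ε / 20 := by
      rw [div_le_div_iff₀ hgR (by norm_num)]
      rw [div_le_iff₀ hε] at h3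
      linarith
    calc 1 / (g : ℝ) ^ 2 = 1 / (g : ℝ) / g := by field_simp
      _ ≤ ε / 20 / g := by gcongr
  have h9 : ∑ W ∈ 𝒲.filter (fun W => Gal 𝒢 W ∧ finrank ℚ (Endo 𝒢 W) = 1 ∧
      g ^ 17 < finrank ℚ W ^ 50), (Nat.card (Fail c 𝒢 W) : ℝ) ≤ 2 ^ g * (ε / 20) := by
    refine hg₁₁ hS x₀ (by omega) _ ?_ (hsub _ (Finset.filter_subset _ _))
    intro W hW
    rw [Finset.mem_filter] at hW
    exact ⟨h𝒲 W hW.1, hW.2.1, hW.2.2.1, hW.2.2.2⟩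
  have hsplit2 : ∑ i, ∑ W ∈ 𝒲.filter (p i), (Nat.card (Fail c 𝒢 W) : ℝ) ≤
      2 ^ g * (ε / 20 + ε / 20) + 2 ^ g * (ε / 20) + 2 ^ g * (40 * n₁ / Real.sqrt g) +
      2 ^ g * (4400 * n₂ / g) + 2 ^ g * (C * n₃ * Real.log g / g) +
      2 ^ g * (ε / 20 + 2 * (ε / 20)) + 2 ^ g * (ε / 20) + 2 ^ g * (ε / 20) +
      2 ^ g * (ε / 20) + 2 ^ g * (ε / 20) := by
    have key : ∀ (q : Submodule ℚ (X → ℚ) → Prop) [DecidablePred q] (i : Fin 10) (B : ℝ), p i = q →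
        ∑ W ∈ 𝒲.filter q, (Nat.card (Fail c 𝒢 W) : ℝ) ≤ B →
        ∑ W ∈ 𝒲.filter (p i), (Nat.card (Fail c 𝒢 W) : ℝ) ≤ B := by
      intro q _ i B h h'
      have h2 : 𝒲.filter (p i) = 𝒲.filter q := by
        ext W
        rw [Finset.mem_filter, Finset.mem_filter, h]
      rw [h2]
      exact h'
    have e0 := key _ 0 _ (by rw [hp]; rfl) h0
    have e1 := key _ 1 _ (by rw [hp]; rfl) h1
    have e2 := key _ 2 _ (by rw [hp]; rfl) h2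
    have e3 := key _ 3 _ (by rw [hp]; rfl) h3
    have e4 := key _ 4 _ (by rw [hp]; rfl) h4
    have e5 := key _ 5 _ (by rw [hp]; rfl) h5
    have e6 := key _ 6 _ (by rw [hp]; rfl) h6
    have e7 := key _ 7 _ (by rw [hp]; rfl) h7
    have e8 := key _ 8 _ (by rw [hp]; rfl) h8
    have e9 := key _ 9 _ (by rw [hp]; rfl) h9
    have e10 : ∀ f : Fin 10 → ℝ, ∑ i, f i = f 0 + f 1 + f 2 + f 3 + f 4 + f 5 + f 6 + f 7 + f 8 + f 9 := by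
      intro f
      rw [Fin.sum_univ_castSucc, Fin.sum_univ_castSucc, Fin.sum_univ_eight]
      rfl
    rw [e10]
    linarith
  refine (hsplit.trans hsplit2).trans ?_
  have h20 : 2 ^ g * (ε / 20 + ε / 20) + 2 ^ g * (ε / 20) + 2 ^ g * (40 * n₁ / Real.sqrt g) +
      2 ^ g * (4400 * n₂ / g) + 2 ^ g * (C * n₃ * Real.log g / g) +
      2 ^ g * (ε / 20 + 2 * (ε / 20)) + 2 ^ g * (ε / 20) + 2 ^ g * (ε / 20) +
      2 ^ g * (ε / 20) + 2 ^ g * (ε / 20) =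
      2 ^ g * (10 * (ε / 20) + 40 * n₁ / Real.sqrt g + 4400 * n₂ / g + C * n₃ * Real.log g / g) := by
    ring
  rw [h20]
  refine mul_le_mul_of_nonneg_left ?_ h2g.le
  linarith

end Pool.Agent.H9.EC
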