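import Pool.Agent.H9.EC.Defs

set_option autoImplicit false

/-!
Finite absolutely irreducible groups of `2 × 2` integer matrices containing `-1` have order `8` or `12`
(module H9 EC TWO).

PROOF.  Identify `G` with its image.  `d = 2`, so `2 N = |G|`.  Let `χ(γ) = tr ρ(γ)`.
(1) `∑ γ, χ(γ⁻¹) χ(γ) = ∑ i k, N δ_ik δ_ik = 2 N = |G|` (`schur`).
(2) The form `B = ∑ γ, ρ(γ)ᵀ ρ(γ)` (integer matrix, symmetric, positive definite: `vᵀ B v ≥ vᵀ v`) is invariant: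
`ρ(γ)ᵀ B ρ(γ) = B`; write `⟨v, w⟩ = vᵀ B w`.
(3) `det ρ(γ) = ±1` and `ρ(γ⁻¹) = det ρ(γ) · adj ρ(γ)`, so `χ(γ⁻¹) = det ρ(γ) χ(γ)`; and by (2)
`B ρ(γ⁻¹) = ρ(γ)ᵀ B`, so `χ(γ⁻¹) = χ(γ)` (over `ℚ`, `B` invertible).  So `χ(γ) = 0` if `det ρ(γ) = -1`.
(4) If `det M = 1` for `M = ρ(γ)` then `M + M⁻¹ = χ(γ)` (`Matrix.adjugate_fin_two`), so `2 ⟨M v, v⟩ = χ ⟨v, v⟩`
and by Cauchy-Schwarz (`⟨M v, M v⟩ = ⟨v, v⟩`) `|χ| ≤ 2`, with equality only for `M v = ± v` for all `v`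
(`⟨M v ∓ v, M v ∓ v⟩ = 2 ⟨v, v⟩ ∓ 2 ⟨M v, v⟩ = (2 ∓ χ) ⟨v, v⟩`: this gives `|χ| ≤ 2` directly, and `χ = ± 2` implies `M = ± 1`).
(5) Some `ρ(γ)` has determinant `-1`: otherwise `J = adj(B) ε`, `ε = !![0, 1; -1, 0]`, commutes with all `M = ρ(γ)`
(`Mᵀ ε M = det M ε`, `Mᵀ B M = B`), and by `schur` `∑ γ, ρ(γ⁻¹) J ρ(γ) = N tr(J) 1`, so `|G| J` is a scalar matrix,
`det B ε = B J = a B` is symmetric: contradiction (`det B ≠ 0`).
(6) Count: let `n₁` be the number of the `γ` with `χ(γ) = ±1` (they have determinant `1`), `n₀` the number of the `γ` with determinant `1`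
and `χ = 0`; there are exactly two elements with `χ = ±2` (`1` and `c`; `ρ` is injective).  By (1), (3): `8 + n₁ = |G|`.
By (5) the elements of determinant `1` are half of `G`: `|G| = 2 (2 + n₀ + n₁)`.  So `2 n₀ + n₁ = 4`.  If `n₁ > 0` let `γ` be one of
these elements: `γ, γ⁻¹, c γ, c γ⁻¹` all have `χ = ±1` and are different (`γ = γ⁻¹` would give `χ(γ) = χ(γ⁻¹)`, `M² = 1`, `M + M⁻¹ = 2 M = ±1`:
no; `γ = c γ⁻¹` gives `M = - M⁻¹`, `χ = 0`), so `n₁ ≥ 4`.  Hence `n₁ = 0` and `|G| = 8`, or `n₁ = 4` and `|G| = 12`.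
(Compare `Pool/Agent/H52/EC/PlaneA.lean`, `eps_mul`, `exists_reflection` for (2), (3), (5).)
-/

namespace Pool.Agent.H9.EC

open Finset Matrix

section two

variable {G : Type} [Group G] [Fintype G] {ρ : G →* Matrix (Fin 2) (Fin 2) ℤ} {c : G} {N : ℕ}

omit [Fintype G] in
theorem two_inv_mul (ρ : G →* Matrix (Fin 2) (Fin 2) ℤ) (γ : G) : ρ γ⁻¹ * ρ γ = 1 := by
  rw [← map_mul, inv_mul_cancel, map_one]

omit [Fintype G] in
theorem two_mul_inv (ρ : G →* Matrix (Fin 2) (Fin 2) ℤ) (γ : G) : ρ γ * ρ γ⁻¹ = 1 := by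
  rw [← map_mul, mul_inv_cancel, map_one]

omit [Fintype G] in
theorem two_det (ρ : G →* Matrix (Fin 2) (Fin 2) ℤ) (γ : G) : (ρ γ).det = 1 ∨ (ρ γ).det = -1 := by
  have h := congrArg Matrix.det (two_mul_inv ρ γ)
  rw [Matrix.det_mul, Matrix.det_one] at h
  exact Int.eq_one_or_neg_one_of_mul_eq_one h

omit [Fintype G] in
theorem two_adj (ρ : G →* Matrix (Fin 2) (Fin 2) ℤ) (γ : G) :
    ρ γ⁻¹ = (ρ γ).det • (ρ γ).adjugate := by
  have h1 : (ρ γ).adjugate = (ρ γ).det • ρ γ⁻¹ := by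
    calc (ρ γ).adjugate = ρ γ⁻¹ * (ρ γ * (ρ γ).adjugate) := by
          rw [← Matrix.mul_assoc, two_inv_mul, Matrix.one_mul]
      _ = (ρ γ).det • ρ γ⁻¹ := by
          rw [Matrix.mul_adjugate, Matrix.mul_smul, Matrix.mul_one]
  rw [h1, smul_smul]
  rcases two_det ρ γ with h | h <;> rw [h] <;> simp

theorem trace_adj_two (M : Matrix (Fin 2) (Fin 2) ℤ) : M.adjugate.trace = M.trace := by
  rw [Matrix.adjugate_fin_two]
  simp only [Matrix.trace_fin_two, Matrix.of_apply, Matrix.cons_val', Matrix.cons_val_zero,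
      Matrix.cons_val_one, Matrix.cons_val_fin_one]
  ring

/-- The invariant form. -/
def fB (ρ : G →* Matrix (Fin 2) (Fin 2) ℤ) : Matrix (Fin 2) (Fin 2) ℤ := ∑ γ, (ρ γ)ᵀ * ρ γ

theorem fB_symm : (fB ρ)ᵀ = fB ρ := by
  unfold fB
  rw [Matrix.transpose_sum]
  refine Finset.sum_congr rfl fun γ _ => ?_
  rw [Matrix.transpose_mul, Matrix.transpose_transpose]

theorem fB_inv (γ : G) : (ρ γ)ᵀ * fB ρ * ρ γ = fB ρ := by
  unfold fB
  rw [Matrix.mul_sum, Matrix.sum_mul]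
  refine Fintype.sum_equiv (Equiv.mulRight γ) _ _ fun δ => ?_
  rw [Equiv.coe_mulRight, map_mul, Matrix.transpose_mul]
  simp only [Matrix.mul_assoc]

theorem fB_q (v : Fin 2 → ℤ) : v ⬝ᵥ (fB ρ *ᵥ v) = ∑ γ, (ρ γ *ᵥ v) ⬝ᵥ (ρ γ *ᵥ v) := by
  unfold fB
  rw [Matrix.sum_mulVec, dotProduct_sum]
  refine Finset.sum_congr rfl fun γ _ => ?_
  rw [← Matrix.mulVec_mulVec, Matrix.dotProduct_mulVec, Matrix.vecMul_transpose]

theorem fB_nonneg (v : Fin 2 → ℤ) : 0 ≤ v ⬝ᵥ (fB ρ *ᵥ v) := by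
  rw [fB_q]
  refine Finset.sum_nonneg fun γ _ => ?_
  exact Finset.sum_nonneg fun i _ => mul_self_nonneg _

theorem fB_zero (v : Fin 2 → ℤ) (h : v ⬝ᵥ (fB ρ *ᵥ v) = 0) : v = 0 := by
  rw [fB_q] at h
  have h1 := (Finset.sum_eq_zero_iff_of_nonneg (fun γ _ =>
    Finset.sum_nonneg fun i _ => mul_self_nonneg _)).1 h 1 (Finset.mem_univ _)
  rw [map_one, Matrix.one_mulVec] at h1
  exact dotProduct_self_eq_zero.1 h1

theorem fB_det : (fB ρ).det ≠ 0 := by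
  intro h
  rw [← Matrix.exists_mulVec_eq_zero_iff] at h
  obtain ⟨v, hv, h0⟩ := h
  apply hv
  apply fB_zero (ρ := ρ)
  rw [h0, dotProduct_zero]

theorem fB_cancel {A A' : Matrix (Fin 2) (Fin 2) ℤ} (h : fB ρ * A = fB ρ * A') : A = A' := by
  have h1 : (fB ρ).adjugate * (fB ρ * A) = (fB ρ).adjugate * (fB ρ * A') := by rw [h]
  rw [← Matrix.mul_assoc, ← Matrix.mul_assoc, Matrix.adjugate_mul, Matrix.smul_mul, Matrix.smul_mul,
    Matrix.one_mul, Matrix.one_mul] at h1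
  exact smul_right_injective _ fB_det h1

theorem fB_mv (γ : G) : (ρ γ)ᵀ * fB ρ = fB ρ * ρ γ⁻¹ := by
  calc (ρ γ)ᵀ * fB ρ = ((ρ γ)ᵀ * fB ρ * ρ γ) * ρ γ⁻¹ := by
        rw [Matrix.mul_assoc _ (ρ γ), two_mul_inv, Matrix.mul_one]
    _ = fB ρ * ρ γ⁻¹ := by rw [fB_inv]

theorem tr_inv (γ : G) : (ρ γ⁻¹).trace = (ρ γ).trace := by
  have h1 : (fB ρ).adjugate * ((ρ γ)ᵀ * fB ρ) = (fB ρ).det • ρ γ⁻¹ := by
    rw [fB_mv, ← Matrix.mul_assoc, Matrix.adjugate_mul, Matrix.smul_mul, Matrix.one_mul]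
  have h2 := congrArg Matrix.trace h1
  rw [Matrix.trace_mul_comm, Matrix.mul_assoc, Matrix.mul_adjugate, Matrix.mul_smul, Matrix.mul_one,
    Matrix.trace_smul, Matrix.trace_smul, Matrix.trace_transpose, smul_eq_mul, smul_eq_mul] at h2
  exact (mul_left_cancel₀ fB_det h2).symm

theorem tr_neg (γ : G) (h : (ρ γ).det = -1) : (ρ γ).trace = 0 := by
  have h1 := tr_inv (ρ := ρ) γ
  rw [two_adj, Matrix.trace_smul, trace_adj_two, h, smul_eq_mul] at h1
  linarith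

omit [Fintype G] in
theorem two_sum (γ : G) (h : (ρ γ).det = 1) : ρ γ + ρ γ⁻¹ = (ρ γ).trace • 1 := by
  rw [two_adj, h, one_smul, Matrix.adjugate_fin_two]
  ext i j
  fin_cases i <;> fin_cases j <;> simp [Matrix.trace_fin_two, add_comm]

theorem q_sub (γ : G) (h : (ρ γ).det = 1) (v : Fin 2 → ℤ) (ε : ℤ) (hε : ε * ε = 1) :
    ((ρ γ - ε • 1) *ᵥ v) ⬝ᵥ (fB ρ *ᵥ ((ρ γ - ε • 1) *ᵥ v)) =
      (2 - ε * (ρ γ).trace) * (v ⬝ᵥ (fB ρ *ᵥ v)) := by
  have h1 : (ρ γ - ε • 1)ᵀ * fB ρ * (ρ γ - ε • 1) = (2 - ε * (ρ γ).trace) • fB ρ := by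
    have h2 : (ρ γ)ᵀ * fB ρ + fB ρ * ρ γ = (ρ γ).trace • fB ρ := by
      rw [fB_mv, ← Matrix.mul_add, add_comm (ρ γ⁻¹), two_sum γ h, Matrix.mul_smul, Matrix.mul_one]
    have h3 := fB_inv (ρ := ρ) γ
    calc (ρ γ - ε • 1)ᵀ * fB ρ * (ρ γ - ε • 1) =
        (ρ γ)ᵀ * fB ρ * ρ γ - ε • ((ρ γ)ᵀ * fB ρ + fB ρ * ρ γ) + (ε * ε) • fB ρ := by
          simp only [Matrix.transpose_sub, Matrix.transpose_smul, Matrix.transpose_one, sub_mul, mul_sub,
            Matrix.mul_smul, Matrix.smul_mul, Matrix.mul_one, Matrix.one_mul, smul_add, smul_smul]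
          abel
      _ = (2 - ε * (ρ γ).trace) • fB ρ := by
          rw [h2, h3, hε, smul_smul, sub_smul, two_smul, one_smul]
          abel
  have h4 : ((ρ γ - ε • 1) *ᵥ v) ⬝ᵥ (fB ρ *ᵥ ((ρ γ - ε • 1) *ᵥ v)) =
      v ⬝ᵥ (((ρ γ - ε • 1)ᵀ * fB ρ * (ρ γ - ε • 1)) *ᵥ v) := by
    rw [Matrix.mul_assoc, ← Matrix.mulVec_mulVec, ← Matrix.mulVec_mulVec, Matrix.dotProduct_mulVec v,
      Matrix.vecMul_transpose]
  rw [h4, h1, Matrix.smul_mulVec, dotProduct_smul, smul_eq_mul]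

theorem tr_bound (γ : G) (h : (ρ γ).det = 1) (ε : ℤ) (hε : ε * ε = 1) : ε * (ρ γ).trace ≤ 2 := by
  have h1 := q_sub γ h ![1, 0] ε hε
  have h2 := fB_nonneg (ρ := ρ) ((ρ γ - ε • 1) *ᵥ ![1, 0])
  rw [h1] at h2
  have h3 := fB_nonneg (ρ := ρ) ![1, 0]
  have h4 : (![1, 0] : Fin 2 → ℤ) ⬝ᵥ (fB ρ *ᵥ ![1, 0]) ≠ 0 := by
    intro h5
    have h6 := congrFun (fB_zero _ h5) 0
    simp at h6
  have h5 : 0 < (![1, 0] : Fin 2 → ℤ) ⬝ᵥ (fB ρ *ᵥ ![1, 0]) := lt_of_le_of_ne h3 (Ne.symm h4)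
  have h6 := nonneg_of_mul_nonneg_left h2 h5
  linarith

theorem tr_eq (γ : G) (h : (ρ γ).det = 1) (ε : ℤ) (hε : ε * ε = 1) (h2 : ε * (ρ γ).trace = 2) :
    ρ γ = ε • 1 := by
  have h3 : ∀ v, (ρ γ - ε • 1) *ᵥ v = 0 := by
    intro v
    apply fB_zero (ρ := ρ)
    rw [q_sub γ h v ε hε, h2, sub_self, zero_mul]
  have h4 : ρ γ - ε • 1 = 0 := by
    ext i j
    have h5 := congrFun (h3 (Pi.single j 1)) i
    rw [Matrix.mulVec_single_one] at h5
    exact h5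
  exact sub_eq_zero.1 h4

theorem eps_mulZ (M : Matrix (Fin 2) (Fin 2) ℤ) :
    Mᵀ * !![0, 1; -1, 0] * M = M.det • !![0, 1; -1, 0] := by
  ext i j
  fin_cases i <;> fin_cases j <;>
    simp [Matrix.mul_apply, Fin.sum_univ_two, Matrix.det_fin_two] <;> ring

theorem exists_neg (hA : AI ρ c N) : ∃ γ, (ρ γ).det = -1 := by
  by_contra hcon
  push Not at hcon
  have hdet : ∀ γ, (ρ γ).det = 1 := fun γ => (two_det ρ γ).resolve_right (hcon γ)
  obtain ⟨J, hJ⟩ : ∃ J, J = (fB ρ).adjugate * !![0, 1; -1, 0] := ⟨_, rfl⟩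
  have hBJ : fB ρ * J = (fB ρ).det • !![0, 1; -1, 0] := by
    rw [hJ, ← Matrix.mul_assoc, Matrix.mul_adjugate, Matrix.smul_mul, Matrix.one_mul]
  have hcomm : ∀ γ, ρ γ⁻¹ * J * ρ γ = J := by
    intro γ
    apply fB_cancel (ρ := ρ)
    calc fB ρ * (ρ γ⁻¹ * J * ρ γ) = (ρ γ)ᵀ * (fB ρ * J) * ρ γ := by
          rw [← Matrix.mul_assoc, ← Matrix.mul_assoc, ← fB_mv, Matrix.mul_assoc _ (fB ρ) J]
      _ = fB ρ * J := by
          rw [hBJ, Matrix.mul_smul, Matrix.smul_mul, eps_mulZ, hdet, one_smul]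
  have hsum : (Fintype.card G : ℤ) • J = ((N : ℤ) * J.trace) • 1 := by
    have h1 : (Fintype.card G : ℤ) • J = ∑ γ, ρ γ⁻¹ * J * ρ γ := by
      rw [Finset.sum_congr rfl (fun γ _ => hcomm γ), Finset.sum_const, Finset.card_univ]
      simp
    rw [h1]
    ext i l
    rw [Matrix.sum_apply]
    have h2 : ∀ γ : G, (ρ γ⁻¹ * J * ρ γ) i l = ∑ j, ∑ k, J j k * (ρ γ⁻¹ i j * ρ γ k l) := by
      intro γ
      simp only [Matrix.mul_apply, Fin.sum_univ_two]
      ring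
    rw [Finset.sum_congr rfl (fun γ _ => h2 γ), Finset.sum_comm]
    have h3 : ∀ j, ∑ γ : G, ∑ k, J j k * (ρ γ⁻¹ i j * ρ γ k l) =
        ∑ k, J j k * (if i = l ∧ j = k then (N : ℤ) else 0) := by
      intro j
      rw [Finset.sum_comm]
      refine Finset.sum_congr rfl fun k _ => ?_
      rw [← Finset.mul_sum, hA.schur]
    rw [Finset.sum_congr rfl (fun j _ => h3 j)]
    by_cases hil : i = l
    · subst hil
      simp [Matrix.trace_fin_two]
      ring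
    · simp [hil]
  have h1 : (Fintype.card G : ℤ) • (fB ρ * J) = ((N : ℤ) * J.trace) • fB ρ := by
    rw [← Matrix.mul_smul, hsum, Matrix.mul_smul, Matrix.mul_one]
  rw [hBJ] at h1
  have h01 := congrFun (congrFun h1 0) 1
  have h10 := congrFun (congrFun h1 1) 0
  have hs := congrFun (congrFun (fB_symm (ρ := ρ)) 0) 1
  rw [Matrix.transpose_apply] at hs
  simp only [Matrix.smul_apply, smul_eq_mul, Matrix.of_apply, Matrix.cons_val', Matrix.cons_val_zero,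
    Matrix.cons_val_one, Matrix.cons_val_fin_one] at h01 h10
  rw [hs, ← h01] at h10
  have hc : (Fintype.card G : ℤ) ≠ 0 := by
    have : 0 < Fintype.card G := Fintype.card_pos_iff.2 ⟨1⟩
    positivity
  have h2 : (Fintype.card G : ℤ) * (fB ρ).det ≠ 0 := mul_ne_zero hc fB_det
  apply h2
  linarith

theorem tr_sq (hA : AI ρ c N) : ∑ γ, (ρ γ).trace ^ 2 = (Fintype.card G : ℤ) := by
  have h1 : ∀ γ : G, (ρ γ).trace ^ 2 = ∑ i, ∑ k, ρ γ⁻¹ i i * ρ γ k k := by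
    intro γ
    rw [sq]
    nth_rw 1 [← tr_inv]
    simp only [Matrix.trace, Matrix.diag, Fin.sum_univ_two]
    ring
  rw [Finset.sum_congr rfl (fun γ _ => h1 γ), Finset.sum_comm]
  have h2 : ∀ i, ∑ γ : G, ∑ k, ρ γ⁻¹ i i * ρ γ k k = (N : ℤ) := by
    intro i
    rw [Finset.sum_comm, Finset.sum_congr rfl (fun k _ => hA.schur i i k k)]
    simp
  rw [Finset.sum_congr rfl (fun i _ => h2 i), ← hA.card]
  simp
  ring

end two

theorem card_two {G : Type} [Group G] [Fintype G] {ρ : G →* Matrix (Fin 2) (Fin 2) ℤ} {c : G}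
    {N : ℕ} (hA : AI ρ c N) (hi : Function.Injective ρ) :
    Fintype.card G = 8 ∨ Fintype.card G = 12 := by
  classical
  have hcc : c * c = 1 := by
    apply hi
    rw [map_mul, hA.neg, map_one, neg_mul_neg, Matrix.mul_one]
  have hc1 : c ≠ 1 := by
    intro h
    have h1 := hA.neg
    rw [h, map_one] at h1
    have h2 := congrFun (congrFun h1 0) 0
    simp at h2
  have hnegm : ∀ γ, ρ (c * γ) = - ρ γ := by
    intro γ
    rw [map_mul, hA.neg, neg_mul, Matrix.one_mul]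
  have hdetneg : ∀ γ, (ρ (c * γ)).det = (ρ γ).det := by
    intro γ
    rw [hnegm, Matrix.det_neg]
    simp
  obtain ⟨γ₀, hγ₀⟩ := exists_neg hA
  -- the elements of determinant one
  obtain ⟨D, hD⟩ : ∃ D : Finset G, D = Finset.univ.filter (fun γ => (ρ γ).det = 1) := ⟨_, rfl⟩
  have memD : ∀ γ, γ ∈ D ↔ (ρ γ).det = 1 := by intro γ; rw [hD]; simp
  have hDc : Dᶜ.card = D.card := by
    refine Finset.card_bij (fun γ _ => γ₀ * γ) ?_ ?_ ?_
    · intro γ hγ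
      rw [Finset.mem_compl, memD] at hγ
      have h1 := (two_det ρ γ).resolve_left hγ
      rw [memD, map_mul, Matrix.det_mul, hγ₀, h1]
      norm_num
    · intro γ _ γ' _ h
      exact mul_left_cancel h
    · intro γ hγ
      rw [memD] at hγ
      refine ⟨γ₀⁻¹ * γ, ?_, by group⟩
      rw [Finset.mem_compl, memD, map_mul, Matrix.det_mul, hγ, mul_one]
      have h1 := congrArg Matrix.det (two_inv_mul ρ γ₀)
      rw [Matrix.det_mul, hγ₀, Matrix.det_one] at h1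
      omega
  have hG2 : Fintype.card G = 2 * D.card := by
    have h1 := Finset.card_add_card_compl D
    omega
  -- traces
  have htr : ∀ γ ∈ D, (ρ γ).trace ^ 2 = if γ = 1 ∨ γ = c then 4 else if (ρ γ).trace = 0 then 0 else 1 := by
    intro γ hγ
    rw [memD] at hγ
    have h1 := tr_bound γ hγ 1 (by norm_num)
    have h2 := tr_bound γ hγ (-1) (by norm_num)
    by_cases h3 : γ = 1 ∨ γ = c
    · rw [if_pos h3]
      rcases h3 with rfl | rfl
      · rw [map_one, Matrix.trace_one]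
        norm_num
      · rw [hA.neg, Matrix.trace_neg, Matrix.trace_one]
        norm_num
    · rw [if_neg h3]
      push Not at h3
      have h4 : (ρ γ).trace ≠ 2 := by
        intro h
        apply h3.1
        apply hi
        rw [tr_eq γ hγ 1 (by norm_num) (by rw [h]; norm_num), map_one, one_smul]
      have h5 : (ρ γ).trace ≠ -2 := by
        intro h
        apply h3.2
        apply hi
        rw [tr_eq γ hγ (-1) (by norm_num) (by rw [h]; norm_num), hA.neg, neg_smul, one_smul]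
      by_cases h6 : (ρ γ).trace = 0
      · rw [if_pos h6, h6]
        norm_num
      · rw [if_neg h6]
        have h7 : (ρ γ).trace = 1 ∨ (ρ γ).trace = -1 := by omega
        rcases h7 with h7 | h7 <;> rw [h7] <;> norm_num
  have hcD : c ∈ D := by
    rw [memD, hA.neg, Matrix.det_neg, Matrix.det_one]
    simp
  have h1D : (1 : G) ∈ D := by
    rw [memD, map_one, Matrix.det_one]
  obtain ⟨P, hP⟩ : ∃ P : Finset G, P = D.filter (fun γ => γ = 1 ∨ γ = c) := ⟨_, rfl⟩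
  obtain ⟨Z, hZ⟩ : ∃ Z : Finset G, Z = D.filter (fun γ => (ρ γ).trace = 0) := ⟨_, rfl⟩
  obtain ⟨R, hR⟩ : ∃ R : Finset G, R = (D.filter (fun γ => ¬ (γ = 1 ∨ γ = c))).filter
    (fun γ => ¬ (ρ γ).trace = 0) := ⟨_, rfl⟩
  have hPc : P.card = 2 := by
    have h1 : P = {1, c} := by
      ext γ
      rw [hP, Finset.mem_filter, Finset.mem_insert, Finset.mem_singleton]
      constructor
      · exact fun h => h.2
      · rintro (rfl | rfl)
        · exact ⟨h1D, Or.inl rfl⟩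
        · exact ⟨hcD, Or.inr rfl⟩
    rw [h1, Finset.card_pair (Ne.symm hc1)]
  have hZ2 : (D.filter (fun γ => ¬ (γ = 1 ∨ γ = c))).filter (fun γ => (ρ γ).trace = 0) = Z := by
    rw [hZ, Finset.filter_filter]
    refine Finset.filter_congr fun γ _ => ?_
    constructor
    · exact fun h => h.2
    · intro h
      refine ⟨?_, h⟩
      rintro (rfl | rfl)
      · rw [map_one, Matrix.trace_one] at h
        simp at h
      · rw [hA.neg, Matrix.trace_neg, Matrix.trace_one] at h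
        simp at h
  have hDcard : D.card = 2 + (Z.card + R.card) := by
    rw [← Finset.card_filter_add_card_filter_not (s := D) (fun γ => γ = 1 ∨ γ = c), ← hP, hPc,
      ← Finset.card_filter_add_card_filter_not (s := D.filter (fun γ => ¬ (γ = 1 ∨ γ = c)))
        (fun γ => (ρ γ).trace = 0), hZ2, ← hR]
  have hsum : (Fintype.card G : ℤ) = 8 + R.card := by
    rw [← tr_sq hA, ← Finset.sum_add_sum_compl D]
    have h1 : ∑ γ ∈ Dᶜ, (ρ γ).trace ^ 2 = 0 := by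
      refine Finset.sum_eq_zero fun γ hγ => ?_
      rw [Finset.mem_compl, memD] at hγ
      rw [tr_neg γ ((two_det ρ γ).resolve_left hγ)]
      norm_num
    rw [h1, add_zero, Finset.sum_congr rfl htr, Finset.sum_ite, Finset.sum_ite, ← hP, hZ2, ← hR,
      Finset.sum_const, Finset.sum_const, Finset.sum_const, hPc]
    simp
  have hZeven : Even Z.card := by
    have h1 : ∑ γ ∈ Z, (1 : ZMod 2) = 0 := by
      refine Finset.sum_involution (fun γ _ => c * γ) ?_ ?_ ?_ ?_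
      · intro γ _
        decide
      · intro γ _ _ h
        exact hc1 (mul_eq_right.1 h)
      · intro γ hγ
        rw [hZ, Finset.mem_filter, memD] at hγ ⊢
        refine ⟨by rw [hdetneg]; exact hγ.1, ?_⟩
        rw [hnegm, Matrix.trace_neg, hγ.2, neg_zero]
      · intro γ _
        show c * (c * γ) = γ
        rw [← mul_assoc, hcc, one_mul]
    rw [Finset.sum_const, nsmul_eq_mul, mul_one] at h1
    rwa [← ZMod.natCast_eq_zero_iff_even]
  obtain ⟨z, hz⟩ := hZeven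
  omega

end Pool.Agent.H9.EC
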