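import Mathlib
import Pool.Agent.H52.CS.FewSmall
import Pool.Agent.H52.CS.GalAb
import Pool.Agent.H42.OD.GalCF
import Pool.Agent.H42.OD.Stmt
import Pool.Agent.H9.EC.LinkI
import Pool.Agent.H9.EC.TwoG

set_option autoImplicit false

/-!
# Planes of Galois type with `e = 1` come from nonabelian Galois CM subfields of degree 8 or 12 (H9 EC)
-/

open NumberField Module

namespace Pool.Agent.H9.EC

open Pool.Agent.H52.MF Pool.Agent.H52.AD Pool.Agent.H52.CS Pool.Agent.H42.OD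

variable {K : Type} [Field K] [NumberField K] [IsCMField K]

/-- The fixed field of the kernel of a simple space of Galois type. -/
theorem gen_small3 (c : Equiv.Perm (K →+* ℂ)) (hc : ∀ x, c x = ComplexEmbedding.conjugate x)
    (W : Submodule ℚ ((K →+* ℂ) → ℚ)) (hW : Smp c (autGrp K) W) (hG : Gal (autGrp K) W) :
    ∃ F : IntermediateField ℚ K, IsCMField F ∧ IsGalois ℚ F ∧
      finrank ℚ F ≤ Nat.card (Gm (autGrp K) W) ∧ W ≤ VF F := by
  have hst := hW.2.2.1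
  let N : Subgroup (Equiv.Perm (K →+* ℂ)) :=
    { carrier := {σ | σ ∈ autGrp K ∧ ∀ f ∈ W, ∀ x, f (σ x) = f x}
      one_mem' := ⟨(autGrp K).one_mem, fun _ _ _ => rfl⟩
      mul_mem' := by
        rintro σ σ' ⟨h1, h2⟩ ⟨h1', h2'⟩
        refine ⟨(autGrp K).mul_mem h1 h1', fun f hf x => ?_⟩
        rw [Equiv.Perm.mul_apply, h2 f hf, h2' f hf]
      inv_mem' := by
        rintro σ ⟨h1, h2⟩
        refine ⟨(autGrp K).inv_mem h1, fun f hf x => ?_⟩
        rw [← h2 f hf (σ⁻¹ x), genw_ai] }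
  have hN : N ≤ autGrp K := fun σ hσ => hσ.1
  have hNt : ∀ σ ∈ N, ∀ f ∈ W, ∀ x, f (σ x) = f x := fun σ hσ => hσ.2
  have hn : ∀ π ∈ autGrp K, ∀ σ ∈ N, π * σ * π⁻¹ ∈ N := by
    intro π hπ σ hσ
    refine ⟨(autGrp K).mul_mem ((autGrp K).mul_mem hπ hσ.1) ((autGrp K).inv_mem hπ), ?_⟩
    intro f hf x
    have h1 := hσ.2 _ (hst π hπ f hf) (π⁻¹ x)
    rw [genw_ai] at h1
    exact h1
  obtain ⟨F, hF, hF2⟩ := exists_subfield N hN hn
  refine ⟨F, F_cm N F hF (genw_conj c hc W hW N hNt), hF2 ?_,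
    (F_le N hN F hF).trans ?_, ?_⟩
  · intro σ hσ hx
    exact ⟨hσ, fun f hf x => hG f hf σ hσ hx x⟩
  · -- the index of `N` is at most the number of operators
    let Ψ : autGrp K → (W →ₗ[ℚ] W) := fun π =>
      { toFun := fun f => ⟨fun x => (f : (K →+* ℂ) → ℚ) (π.1 x), hst π.1 π.2 f f.2⟩
        map_add' := fun _ _ => rfl
        map_smul' := fun _ _ => rfl }
    have hΨ : ∀ (π : autGrp K) (f : W) (x : K →+* ℂ),
        (Ψ π f : (K →+* ℂ) → ℚ) x = (f : (K →+* ℂ) → ℚ) (π.1 x) := fun _ _ _ => rfl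
    have hfin : (Gm (autGrp K) W).Finite := by
      refine (Set.finite_range Ψ).subset ?_
      rintro φ ⟨π, hπ, h⟩
      refine ⟨⟨π, hπ⟩, ?_⟩
      ext f x
      rw [hΨ, h f x]
    have : Finite (Gm (autGrp K) W) := hfin.to_subtype
    unfold Subgroup.relIndex
    rw [Subgroup.index_eq_card]
    refine Nat.card_le_card_of_injective
      (fun q : autGrp K ⧸ N.subgroupOf (autGrp K) =>
        (⟨Ψ q.out, ⟨q.out.1, q.out.2, fun f x => hΨ _ f x⟩⟩ : Gm (autGrp K) W)) ?_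
    intro q q' hq
    have h1 : Ψ q.out = Ψ q'.out := congrArg Subtype.val hq
    have h2 : (q.out)⁻¹ * q'.out ∈ N.subgroupOf (autGrp K) := by
      rw [Subgroup.mem_subgroupOf]
      refine ⟨((q.out)⁻¹ * q'.out).2, ?_⟩
      intro f hf x
      have h3 := congrFun (congrArg Subtype.val (LinearMap.congr_fun h1
        ⟨_, hst ((q.out)⁻¹).1 ((q.out)⁻¹).2 f hf⟩)) x
      rw [hΨ, hΨ] at h3
      have h4 : f (((q.out)⁻¹).1 (q.out.1 x)) = f (((q.out)⁻¹).1 (q'.out.1 x)) := h3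
      have h5 : ((q.out)⁻¹).1 (q.out.1 x) = x := by
        rw [Subgroup.coe_inv, genw_ia]
      rw [h5] at h4
      exact h4.symm
    rw [← QuotientGroup.out_eq' q, ← QuotientGroup.out_eq' q']
    exact QuotientGroup.eq.2 h2
  · intro f hf x x' hx
    obtain ⟨σ, hσ, rfl⟩ := (hF x x').1 hx
    exact (hNt σ hσ f hf x).symm

/-- The subfield of a plane of Galois type with `e = 1`. -/
theorem two_field (g : ℕ) (hg : finrank ℚ K = 2 * g) (W : Submodule ℚ ((K →+* ℂ) → ℚ))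
    (hW : Smp (cjp K) (autGrp K) W) (hG : Gal (autGrp K) W) (hd : finrank ℚ W = 2)
    (he : finrank ℚ (Endo (autGrp K) W) = 1) :
    ∃ F : IntermediateField ℚ K, (IsCMField F ∧ IsGalois ℚ F ∧ ¬ AutAb F ∧
      (finrank ℚ F = 8 ∨ finrank ℚ F = 12)) ∧ finrank ℚ F ≤ 12 ∧ W ≤ VF F := by
  have hS := sys_cm (K := K) g hg
  obtain ⟨x₀⟩ : Nonempty (K →+* ℂ) := inferInstance
  obtain ⟨F, hF1, hF2, hF3, hF4⟩ := gen_small3 (cjp K) (fun x => rfl) W hW hG
  have hdvd := gm_dvd_gal W hW.2.2.1 F hF2 hF4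
  have hpos : 0 < finrank ℚ F := finrank_pos
  have heq : finrank ℚ F = Nat.card (Gm (autGrp K) W) :=
    le_antisymm hF3 (Nat.le_of_dvd hpos hdvd)
  have hl := linkI hS hW hG x₀ he
  rw [hd] at hl
  obtain ⟨G, _, _, ρ, cc, N, S, _, s, h1, h2, -, -, -, h6⟩ := hl
  have h7 := card_two h1 h2
  rw [h6, ← heq] at h7
  refine ⟨F, ⟨hF1, hF2, ?_, h7⟩, by omega, hF4⟩
  intro hab
  have h8 := gal_ab (cjp K) W hW F hF2 hab hF4
  omega

end Pool.Agent.H9.EC
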