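import Mathlib
import Pool.Agent.H52.EC.RepsC
import Pool.Agent.H52.EC.PlaneC
import Pool.Agent.H9.EC.Sum
import Pool.Agent.H9.EC.TwoF

set_option autoImplicit false

/-!
# Theorem E: all CM fields (H9 EC)
-/

open NumberField Module

namespace Pool.Agent.H9.EC

open Pool.Agent.H52.MF Pool.Agent.H52.AD Pool.Agent.H52.CS Pool.Agent.H38.CM Pool.Agent.H42.OD

/-- The number of the CM subfields of `K` that are Galois over `ℚ` with nonabelian group, of degree `8` or `12`. -/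
noncomputable def NumNonab (K : Type) [Field K] [NumberField K] : ℕ :=
  Nat.card {F : IntermediateField ℚ K // IsCMField F ∧ IsGalois ℚ F ∧ ¬ AutAb F ∧
    (finrank ℚ F = 8 ∨ finrank ℚ F = 12)}

theorem ec_few : ∃ C : ℝ, 0 ≤ C ∧ ∀ ε : ℝ, 0 < ε → ∃ D : ℕ,
    ∀ (K : Type) [Field K] [NumberField K] [IsCMField K] (g : ℕ), finrank ℚ K = 2 * g → D ≤ g →
    (Nat.card {Φ : Set (K →+* ℂ) // IsCMType Φ ∧ ∃ p, ¬ DivGen Φ p} : ℝ) ≤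
      2 ^ g * (ε + 80 * Nat.card {F : IntermediateField ℚ K // IsCMField F ∧ finrank ℚ F = 2} /
        Real.sqrt g + 26400 * Nat.card {F : IntermediateField ℚ K //
          IsCMField F ∧ (finrank ℚ F = 4 ∨ finrank ℚ F = 6)} / g +
        C * (min (Nat.card {F : IntermediateField ℚ K //
          IsCMField F ∧ (finrank ℚ F = 4 ∨ finrank ℚ F = 6)}) (NumNonab K) : ℕ) *
            Real.log g / g) := by
  classical
  obtain ⟨C, hC0, hC⟩ := ec_sum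
  refine ⟨12 * C, by positivity, fun ε hε => ?_⟩
  obtain ⟨g₀, h₀⟩ := hC ε hε
  refine ⟨g₀, ?_⟩
  intro K _ _ _ g hK hg
  have hS := sys_cm g hK
  have hcard : 0 < Fintype.card (K →+* ℂ) := by
    rw [hS.card]
    have := hS.pos
    omega
  obtain ⟨x₀⟩ := Fintype.card_pos_iff.1 hcard
  obtain ⟨𝒲, h𝒲, hsum, hdim, hiso, hle⟩ := Pool.Agent.H52.EC.bad_le_sum_c g hK x₀
  obtain ⟨a, ha⟩ : ∃ a, a = Nat.card {F : IntermediateField ℚ K // IsCMField F ∧ finrank ℚ F = 2} :=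
    ⟨_, rfl⟩
  obtain ⟨b, hb⟩ : ∃ b, b = Nat.card {F : IntermediateField ℚ K //
      IsCMField F ∧ (finrank ℚ F = 4 ∨ finrank ℚ F = 6)} := ⟨_, rfl⟩
  obtain ⟨k, hk⟩ : ∃ k, k = NumNonab K := ⟨_, rfl⟩
  rw [← ha, ← hb, ← hk]
  have hcnt1 : ∀ 𝒱 ⊆ 𝒲, (∀ W ∈ 𝒱, finrank ℚ W = 1) → 𝒱.card ≤ a * 2 := by
    intro 𝒱 h𝒱 h1
    rw [ha]
    exact fewSmall_count 𝒲 h𝒲 hdim _ 2 𝒱 h𝒱
      (fun W hW => fewSmall_one g hK W (h𝒲 W (h𝒱 hW)) (h1 W hW))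
  have hcnt2 : ∀ 𝒱 ⊆ 𝒲, (∀ W ∈ 𝒱, finrank ℚ W = 2 ∧ (Gal (autGrp K) W →
      finrank ℚ (Endo (autGrp K) W) = finrank ℚ W)) → 𝒱.card ≤ b * 6 := by
    intro 𝒱 h𝒱 h1
    rw [hb]
    exact fewSmall_count 𝒲 h𝒲 hdim _ 6 𝒱 h𝒱
      (fun W hW => fewSmall_two g hK W (h𝒲 W (h𝒱 hW)) (h1 W hW).1 (h1 W hW).2)
  have hcnt3 : ∀ 𝒱 ⊆ 𝒲, (∀ W ∈ 𝒱, finrank ℚ W = 2 ∧ Gal (autGrp K) W ∧
      finrank ℚ (Endo (autGrp K) W) = 1) → 𝒱.card ≤ min b k * 12 := by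
    intro 𝒱 h𝒱 h1
    have h2 : 𝒱.card ≤ k * 12 := by
      rw [hk]
      exact fewSmall_count 𝒲 h𝒲 hdim _ 12 𝒱 h𝒱
        (fun W hW => two_field g hK W (h𝒲 W (h𝒱 hW)) (h1 W hW).2.1 (h1 W hW).1 (h1 W hW).2.2)
    have h3 : 𝒱.card ≤ b * 6 := by
      rw [hb]
      exact Pool.Agent.H52.EC.plane_count g hK 𝒱
        (fun W hW => ⟨h𝒲 W (h𝒱 hW), (h1 W hW).2.1, (h1 W hW).1, (h1 W hW).2.2⟩)
        (fun W hW W' hW' h => hiso W (h𝒱 hW) W' (h𝒱 hW') h)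
    omega
  have h1 := h₀ hS x₀ hg 𝒲 h𝒲 hsum (a * 2) (b * 6) (min b k * 12) hcnt1 hcnt2 hcnt3
  refine (hle.trans h1).trans (le_of_eq ?_)
  push_cast
  ring

end Pool.Agent.H9.EC
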