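import Pool.Agent.H9.EC.AMat

set_option autoImplicit false

/-!
The matrix `AM p ρ x u` has rank one modulo `p` and determines `(x, u)` up to scalars (module H9 EC FIB).

PROOF.  `p` is an odd prime that does not divide `|G| = N d`, so `2 N` is a unit modulo `p`.  `AM_mod`: `AM_ij = 2 N x_i u_j` modulo
`p`.  `AM_ne`: some `x_i u_j ≠ 0`.  `AM_minor`: the `2 × 2` minors of `x uᵀ` vanish (`ZMod.intCast_zmod_eq_zero_iff_dvd`,
`push_cast`, `ring`).  `fib_le`: if the set is empty there is nothing to show; otherwise fix one element `(x₀, u₀)`; every element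
`(x, u)` satisfies `x_i u_j = x₀_i u₀_j`; with `x₀_i ≠ 0`, `u₀_j ≠ 0` for fixed `i`, `j` one gets `x_i ≠ 0`, `u_j ≠ 0` and
`x = t x₀`, `u = t⁻¹ u₀` with `t = u₀_j / u_j` a unit: an injection (`(x, u) ↦ t`) into the units of `ZMod p`, of which there are `p - 1`
(`ZMod.card_units`).
-/

namespace Pool.Agent.H9.EC

open Finset Matrix

variable {d : ℕ} {G : Type} [Group G] [Fintype G] {ρ : G →* Matrix (Fin d) (Fin d) ℤ} {c : G} {N : ℕ}

private theorem two_N (hA : AI ρ c N) (p : ℕ) [hpp : Fact p.Prime] (hp2 : p ≠ 2)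
    (hp : ¬ p ∣ Fintype.card G) : (2 * (N : ZMod p)) ≠ 0 := by
  intro h
  rcases mul_eq_zero.mp h with h | h
  · have h1 : ((2 : ℕ) : ZMod p) = 0 := by exact_mod_cast h
    rw [ZMod.natCast_eq_zero_iff] at h1
    exact hp2 ((Nat.prime_dvd_prime_iff_eq hpp.out Nat.prime_two).mp h1)
  · rw [ZMod.natCast_eq_zero_iff] at h
    exact hp (hA.card ▸ h.mul_right d)

theorem AM_ne (hA : AI ρ c N) (p : ℕ) [Fact p.Prime] (hp2 : p ≠ 2) (hp : ¬ p ∣ Fintype.card G)
    (x u : Fin d → ZMod p) (hx : x ≠ 0) (hu : u ≠ 0) : AM p ρ x u ≠ 0 := by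
  intro h
  obtain ⟨i, hi⟩ := Function.ne_iff.mp hx
  obtain ⟨j, hj⟩ := Function.ne_iff.mp hu
  have h1 := AM_mod hA p x u i j
  rw [h, Matrix.zero_apply, Int.cast_zero] at h1
  exact mul_ne_zero (mul_ne_zero (two_N hA p hp2 hp) hi) hj h1.symm

theorem AM_minor (hA : AI ρ c N) (p : ℕ) [Fact p.Prime] (x u : Fin d → ZMod p) (i j k l : Fin d) :
    (p : ℤ) ∣ AM p ρ x u i j * AM p ρ x u k l - AM p ρ x u i l * AM p ρ x u k j := by
  rw [← ZMod.intCast_zmod_eq_zero_iff_dvd]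
  push_cast
  rw [AM_mod hA, AM_mod hA, AM_mod hA, AM_mod hA]
  ring

theorem fib_le (hA : AI ρ c N) (p : ℕ) [Fact p.Prime] (hp2 : p ≠ 2) (hp : ¬ p ∣ Fintype.card G)
    (A : Matrix (Fin d) (Fin d) ℤ) :
    Nat.card {q : (Fin d → ZMod p) × (Fin d → ZMod p) //
      q.1 ≠ 0 ∧ q.2 ≠ 0 ∧ AM p ρ q.1 q.2 = A} ≤ p - 1 := by
  rcases isEmpty_or_nonempty {q : (Fin d → ZMod p) × (Fin d → ZMod p) //
      q.1 ≠ 0 ∧ q.2 ≠ 0 ∧ AM p ρ q.1 q.2 = A} with hE | ⟨⟨⟨x0, u0⟩, hx0, hu0, h0⟩⟩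
  · rw [Nat.card_of_isEmpty]
    exact Nat.zero_le _
  · obtain ⟨i, hi⟩ := Function.ne_iff.mp hx0
    obtain ⟨j, hj⟩ := Function.ne_iff.mp hu0
    have h2N := two_N hA p hp2 hp
    have key : ∀ q : (Fin d → ZMod p) × (Fin d → ZMod p), AM p ρ q.1 q.2 = A →
        ∀ k l, q.1 k * q.2 l = x0 k * u0 l := by
      intro q hq k l
      have h1 := AM_mod hA p q.1 q.2 k l
      have h2 := AM_mod hA p x0 u0 k l
      rw [hq] at h1
      simp only at h0
      rw [h0, h1, mul_assoc, mul_assoc (2 * (N : ZMod p))] at h2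
      exact mul_left_cancel₀ h2N h2
    have hne : ∀ q : {q : (Fin d → ZMod p) × (Fin d → ZMod p) //
        q.1 ≠ 0 ∧ q.2 ≠ 0 ∧ AM p ρ q.1 q.2 = A}, q.1.1 i ≠ 0 := by
      intro q h
      have h1 := key q.1 q.2.2.2 i j
      rw [h, zero_mul] at h1
      exact mul_ne_zero hi hj h1.symm
    have h1 : Nat.card (ZMod p)ˣ = p - 1 := by
      rw [Nat.card_eq_fintype_card, ZMod.card_units]
    rw [← h1]
    refine Nat.card_le_card_of_injective (fun q => Units.mk0 (q.1.1 i) (hne q)) ?_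
    intro q q' h
    have h2 : q.1.1 i = q'.1.1 i := congrArg Units.val h
    have h3 : q.1.2 = q'.1.2 := by
      funext l
      have h4 := (key q.1 q.2.2.2 i l).trans (key q'.1 q'.2.2.2 i l).symm
      rw [h2] at h4
      exact mul_left_cancel₀ (hne q') h4
    have h5 : q.1.2 j ≠ 0 := by
      intro h6
      have h7 := key q.1 q.2.2.2 i j
      rw [h6, mul_zero] at h7
      exact mul_ne_zero hi hj h7.symm
    have h6 : q.1.1 = q'.1.1 := by
      funext k
      have h4 := (key q.1 q.2.2.2 k j).trans (key q'.1 q'.2.2.2 k j).symm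
      rw [← h3] at h4
      exact mul_right_cancel₀ h5 h4
    exact Subtype.ext (Prod.ext h6 h3)

end Pool.Agent.H9.EC
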