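import Pool.Agent.H9.EC.Itw

set_option autoImplicit false

/-!
A finite group has finitely many absolutely irreducible representations (module H9 EC FNR).

PROOF.  AI forces `d ≥ 1` (`N d = |G| ≥ 1`).  Let `R` be a finite set of AI representations of `G` of dimension `d` that are pairwise not `Eqv`.
The functions `γ ↦ ρ(γ)_00`, `ρ ∈ R`, in `G → ℚ` are linearly independent: for a relation `∑_ρ a_ρ ρ(γ)_00 = 0` multiply by
`ρ'(γ⁻¹)_00` and sum over `γ`: by `itw_or` the terms `ρ ≠ ρ'` vanish and the term `ρ = ρ'` is `a_ρ' N` (`schur`), `N ≠ 0`.  So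
`|R| ≤ |G|`.  Choose such an `R` of maximal cardinality (`Nat.findGreatest`, or `Nat.find` for the complement); then every AI `ρ` is `Eqv` to some `ρ' ∈ R`
(otherwise `R ∪ {ρ}` would be larger, by `itw_symm`).  `K` = the maximum of `|ρ'(γ)_ij|` over `ρ' ∈ R`, `γ`, `i`, `j`.
`ρ' c = -1`: `P ρ(c) = - P = ρ'(c) P`, so `(ρ'(c) + 1) P = 0` and `P` has nonzero determinant.  `N' = N` since `N' d = |G|`.
-/

namespace Pool.Agent.H9.EC

open Finset Matrix

section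
variable {d : ℕ} {G : Type} [Group G] [Fintype G]

/-- a set of pairwise not equivalent absolutely irreducible representations -/
private def Fam (R : Finset (G →* Matrix (Fin d) (Fin d) ℤ)) : Prop :=
  (∀ ρ ∈ R, ∃ c N, AI ρ c N) ∧ ∀ ρ ∈ R, ∀ ρ' ∈ R, ρ ≠ ρ' → ¬ Eqv ρ ρ'

omit [Fintype G] in
private theorem eqv_refl (ρ : G →* Matrix (Fin d) (Fin d) ℤ) : Eqv ρ ρ :=
  ⟨1, by rw [Matrix.det_one]; exact one_ne_zero, fun γ => by rw [one_mul, mul_one]⟩

private theorem ai_pos {ρ : G →* Matrix (Fin d) (Fin d) ℤ} {c : G} {N : ℕ} (h : AI ρ c N) :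
    1 ≤ N ∧ 1 ≤ d := by
  have h1 : 0 < Fintype.card G := Fintype.card_pos_iff.2 ⟨1⟩
  rw [← h.card] at h1
  exact ⟨Nat.pos_of_mul_pos_right h1, Nat.pos_of_mul_pos_left h1⟩

private theorem fam_card {R : Finset (G →* Matrix (Fin d) (Fin d) ℤ)} (h : Fam R) :
    R.card ≤ Fintype.card G := by
  classical
  rcases R.eq_empty_or_nonempty with rfl | ⟨ρ0, hρ0⟩
  · exact Nat.zero_le _
  · obtain ⟨c0, N0, hA0⟩ := h.1 ρ0 hρ0
    have hd : 0 < d := (ai_pos hA0).2
    let i0 : Fin d := ⟨0, hd⟩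
    have hli : LinearIndependent ℚ
        (fun ρ : R => (fun γ => ((ρ.1 γ i0 i0 : ℤ) : ℚ) : G → ℚ)) := by
      rw [Fintype.linearIndependent_iff]
      intro g hg ρ'
      obtain ⟨c', N', hA'⟩ := h.1 ρ'.1 ρ'.2
      have h1 : ∑ γ, ((ρ'.1 γ⁻¹ i0 i0 : ℤ) : ℚ) *
          (∑ ρ : R, g ρ • (fun γ => ((ρ.1 γ i0 i0 : ℤ) : ℚ) : G → ℚ)) γ = 0 := by
        rw [hg]
        simp
      have h2 : ∑ γ, ((ρ'.1 γ⁻¹ i0 i0 : ℤ) : ℚ) *
          (∑ ρ : R, g ρ • (fun γ => ((ρ.1 γ i0 i0 : ℤ) : ℚ) : G → ℚ)) γ =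
          ∑ ρ : R, g ρ * ((∑ γ, ρ'.1 γ⁻¹ i0 i0 * ρ.1 γ i0 i0 : ℤ) : ℚ) := by
        simp only [Finset.sum_apply, Pi.smul_apply, smul_eq_mul, Finset.mul_sum]
        rw [Finset.sum_comm]
        refine Finset.sum_congr rfl fun ρ _ => ?_
        push_cast
        rw [Finset.mul_sum]
        refine Finset.sum_congr rfl fun γ _ => ?_
        ring
      rw [h2, Finset.sum_eq_single ρ'] at h1
      · have h3 : (∑ γ, ρ'.1 γ⁻¹ i0 i0 * ρ'.1 γ i0 i0 : ℤ) = (N' : ℤ) := by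
          rw [hA'.schur i0 i0 i0 i0, if_pos ⟨rfl, rfl⟩]
        rw [h3] at h1
        have h4 : ((N' : ℤ) : ℚ) ≠ 0 := by
          have := (ai_pos hA').1
          exact_mod_cast (by omega : N' ≠ 0)
        exact (mul_eq_zero.1 h1).resolve_right h4
      · intro ρ _ hne
        obtain ⟨c, N, hA⟩ := h.1 ρ.1 ρ.2
        have h5 : ¬ Eqv ρ.1 ρ'.1 := h.2 ρ.1 ρ.2 ρ'.1 ρ'.2 fun e => hne (Subtype.ext e)
        rw [(itw_or hA ρ'.1).resolve_left h5 i0 i0 i0 i0, Int.cast_zero, mul_zero]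
      · intro hn
        exact absurd (Finset.mem_univ _) hn
    have h6 := hli.fintype_card_le_finrank
    rw [Module.finrank_fintype_fun_eq_card, Fintype.card_coe] at h6
    exact h6

omit [Fintype G] in
private theorem eqv_neg {ρ ρ' : G →* Matrix (Fin d) (Fin d) ℤ} (h : Eqv ρ ρ') {c : G}
    (hc : ρ c = -1) : ρ' c = -1 := by
  obtain ⟨P, hP, hPc⟩ := h
  have h1 := hPc c
  rw [hc, mul_neg, mul_one] at h1
  have h2 : (ρ' c + 1) * P = 0 := by
    rw [add_mul, one_mul, ← h1, neg_add_cancel]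
  have h3 : P.det • (ρ' c + 1) = 0 := by
    have h4 : (ρ' c + 1) * P * P.adjugate = 0 := by rw [h2, zero_mul]
    rw [mul_assoc, Matrix.mul_adjugate, mul_smul_comm, mul_one] at h4
    exact h4
  have h5 : ρ' c + 1 = 0 := by
    ext i j
    have h6 := congrFun (congrFun h3 i) j
    rw [Matrix.smul_apply, smul_eq_mul, Matrix.zero_apply] at h6
    rw [Matrix.zero_apply]
    exact (mul_eq_zero.1 h6).resolve_left hP
  exact eq_neg_of_add_eq_zero_left h5

end

theorem fin_reps (G : Type) [Group G] [Fintype G] (d : ℕ) : ∃ K : ℕ,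
    ∀ (ρ : G →* Matrix (Fin d) (Fin d) ℤ) (c : G) (N : ℕ), AI ρ c N →
      ∃ ρ' : G →* Matrix (Fin d) (Fin d) ℤ, AI ρ' c N ∧ (∀ γ i j, |ρ' γ i j| ≤ (K : ℤ)) ∧
        Eqv ρ ρ' := by
  classical
  set Q : ℕ → Prop := fun n => ∃ R : Finset (G →* Matrix (Fin d) (Fin d) ℤ),
    R.card = n ∧ Fam R with hQ
  have hQ0 : Q 0 := ⟨∅, rfl, fun ρ h => absurd h (Finset.notMem_empty ρ),
    fun ρ h => absurd h (Finset.notMem_empty ρ)⟩
  obtain ⟨R, hRc, hR⟩ : Q (Nat.findGreatest Q (Fintype.card G)) :=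
    Nat.findGreatest_spec (Nat.zero_le _) hQ0
  refine ⟨∑ ρ ∈ R, ∑ γ, ∑ i, ∑ j, (ρ γ i j).natAbs, fun ρ c N hA => ?_⟩
  have hex : ∃ ρ' ∈ R, Eqv ρ ρ' := by
    by_contra hno
    push Not at hno
    have hnR : ρ ∉ R := fun h => hno ρ h (eqv_refl ρ)
    have hFam : Fam (insert ρ R) := by
      constructor
      · intro ρ' h'
        rcases Finset.mem_insert.1 h' with rfl | h'
        · exact ⟨c, N, hA⟩
        · exact hR.1 ρ' h'
      · intro ρ1 h1 ρ2 h2 hne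
        rcases Finset.mem_insert.1 h1 with e1 | m1
        · rcases Finset.mem_insert.1 h2 with e2 | m2
          · exact absurd (e1.trans e2.symm) hne
          · rw [e1]
            exact hno ρ2 m2
        · rcases Finset.mem_insert.1 h2 with e2 | m2
          · rw [e2]
            exact fun he => hno ρ1 m1 (itw_symm he)
          · exact hR.2 ρ1 m1 ρ2 m2 hne
    have hc1 : (insert ρ R).card = Nat.findGreatest Q (Fintype.card G) + 1 := by
      rw [Finset.card_insert_of_notMem hnR, hRc]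
    have h1 : Nat.findGreatest Q (Fintype.card G) + 1 ≤ Fintype.card G := by
      rw [← hc1]
      exact fam_card hFam
    have h2 : Nat.findGreatest Q (Fintype.card G) + 1 ≤ Nat.findGreatest Q (Fintype.card G) :=
      Nat.le_findGreatest h1 ⟨insert ρ R, hc1, hFam⟩
    omega
  obtain ⟨ρ', hρ', he⟩ := hex
  obtain ⟨c', N', hA'⟩ := hR.1 ρ' hρ'
  have hN : N' = N := by
    have h1 : N' * d = N * d := by rw [hA'.card, hA.card]
    exact Nat.eq_of_mul_eq_mul_right (ai_pos hA).2 h1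
  refine ⟨ρ', ⟨hA.card, ?_, eqv_neg he hA.neg⟩, ?_, he⟩
  · rw [← hN]
    exact hA'.schur
  · intro γ i j
    have h1 : (ρ' γ i j).natAbs ≤ ∑ ρ ∈ R, ∑ γ, ∑ i, ∑ j, (ρ γ i j).natAbs := by
      calc (ρ' γ i j).natAbs ≤ ∑ j, (ρ' γ i j).natAbs :=
            Finset.single_le_sum (f := fun j => (ρ' γ i j).natAbs) (fun _ _ => Nat.zero_le _)
              (Finset.mem_univ j)
        _ ≤ ∑ i, ∑ j, (ρ' γ i j).natAbs :=
            Finset.single_le_sum (f := fun i => ∑ j, (ρ' γ i j).natAbs)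
              (fun _ _ => Nat.zero_le _) (Finset.mem_univ i)
        _ ≤ ∑ γ, ∑ i, ∑ j, (ρ' γ i j).natAbs :=
            Finset.single_le_sum (f := fun γ => ∑ i, ∑ j, (ρ' γ i j).natAbs)
              (fun _ _ => Nat.zero_le _) (Finset.mem_univ γ)
        _ ≤ ∑ ρ ∈ R, ∑ γ, ∑ i, ∑ j, (ρ γ i j).natAbs :=
            Finset.single_le_sum (f := fun ρ : G →* Matrix (Fin d) (Fin d) ℤ =>
              ∑ γ, ∑ i, ∑ j, (ρ γ i j).natAbs) (fun _ _ => Nat.zero_le _) hρ'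
    rw [Int.abs_eq_natAbs]
    exact_mod_cast h1

end Pool.Agent.H9.EC
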