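import Pool.Agent.H9.EC.SnBd
import Pool.Agent.H87.EC.Orth

set_option autoImplicit false

/-!
Fourier bound for the number of the sign functions with `mat ρ s f x = 0` modulo `m` (module H9 EC FOU).

PROOF.  Let `e(t) = exp(2 π i t.val / m)` be the standard additive character of `ZMod m`
(`ZMod.stdAddChar`, `ZMod.toCircle`).  For `y : Fin d → ZMod m`, `∑ u, e(u ⬝ y) = m^d` if `y = 0` and `0` otherwise
(product over the coordinates of `∑ t, e(t y_i)`: `AddChar.sum_mulShift`, or one coordinate `y_i ≠ 0` and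
`Finset.sum` over the others; `Fintype.piFinset`, `Finset.prod_univ_sum`).  So
`NKer m^d = ∑ f, ∑ u, e(u ⬝ mat f x) = ∑ u, ∏_{x' ∈ S} (e(θ) + e(-θ))`, `θ = th m ρ x u (s x')`
(`u ⬝ mat f x = ∑ x', ± θ_{x'}`, `Finset.prod_univ_sum` / `Fintype.prod_sum` over `f : S → Bool`), and
`|e(θ) + e(-θ)| = 2 |cos (2 π θ.val / m)| ≤ 2 exp(- sn(θ)² / 2)`, since `cos² = 1 - sn² ≤ exp(-sn²)`.  The product is at
most `2^g exp(-(1/2) ∑ x', sn(θ_{x'})²)`, and `∑ x', sn(θ_{x'})² = g sig` by `hE.eqd` with `F γ = sn(th γ)²`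
(`F (c γ) = F γ` since `th (c γ) = - th γ` by `hA.neg`, and `sn_neg`).  `card S = g`.
-/

namespace Pool.Agent.H9.EC

open Finset Matrix

open Pool.Agent.H87.EC

/-- the norm of one factor -/
private theorem four_fac {m : ℕ} [NeZero m] (t : ZMod m) :
    ‖ec t + ec (-t)‖ ≤ 2 * Real.exp (-(sn m t ^ 2) / 2) := by
  rw [ec_two, Complex.norm_real, Real.norm_eq_abs, abs_mul, abs_of_pos (by norm_num : (0 : ℝ) < 2)]
  refine mul_le_mul_of_nonneg_left ?_ (by norm_num)
  obtain ⟨x, hx⟩ : ∃ x : ℝ, x = 2 * Real.pi * t.val / m := ⟨_, rfl⟩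
  have h1 : sn m t ^ 2 = Real.sin x ^ 2 := by
    unfold sn
    rw [sq_abs, hx]
  rw [← hx, h1]
  refine abs_le_of_sq_le_sq ?_ (Real.exp_pos _).le
  have h2 : Real.cos x ^ 2 = -(Real.sin x ^ 2) + 1 := by
    have := Real.sin_sq_add_cos_sq x
    linarith
  rw [h2]
  refine (Real.add_one_le_exp _).trans (le_of_eq ?_)
  rw [← Real.exp_nat_mul]
  congr 1
  push_cast
  ring

theorem nker_le {d : ℕ} {G : Type} [Group G] [Fintype G] {ρ : G →* Matrix (Fin d) (Fin d) ℤ} {c : G}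
    {N : ℕ} (hA : AI ρ c N) {S : Type} [Fintype S] {s : S → G} {g : ℕ} (hE : Eqd c s g) (m : ℕ)
    [NeZero m] (x : Fin d → ZMod m) :
    (NKer m ρ s x : ℝ) * (m : ℝ) ^ d ≤
      2 ^ g * ∑ u : Fin d → ZMod m, Real.exp (-(g / 2) * sig m ρ x u) := by
  classical
  -- the number as a character sum
  have h1 : ((NKer m ρ s x : ℝ) * (m : ℝ) ^ d : ℂ) =
      ∑ u : Fin d → ZMod m, ∏ x' : S, (ec (th m ρ x u (s x')) + ec (-th m ρ x u (s x'))) := by
    have h2 := card_zero (fun f : S → Bool => rm m (mat ρ s f) *ᵥ x)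
    rw [Fintype.card_fin] at h2
    have h3 : ((NKer m ρ s x : ℝ) * (m : ℝ) ^ d : ℂ) =
        (Nat.card {f : S → Bool // rm m (mat ρ s f) *ᵥ x = 0} : ℂ) * (m : ℂ) ^ d := by
      unfold NKer
      push_cast
      rfl
    rw [h3, h2, sum_comm]
    refine sum_congr rfl fun u _ => ?_
    have h4 : ∀ x' : S, ec (th m ρ x u (s x')) + ec (-th m ρ x u (s x')) =
        ∑ b : Bool, ec ((sg b : ZMod m) * th m ρ x u (s x')) := by
      intro x'
      rw [Fintype.sum_bool]
      simp [sg]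
    rw [prod_congr rfl fun x' _ => h4 x', Fintype.prod_sum]
    refine sum_congr rfl fun f _ => ?_
    rw [← ec_sum]
    congr 1
    -- the exponent
    have h5 : rm m (mat ρ s f) = ∑ x', (sg (f x') : ZMod m) • rm m (ρ (s x')) := by
      ext a b
      unfold rm mat
      rw [Matrix.map_apply, Matrix.sum_apply, Matrix.sum_apply, map_sum]
      refine sum_congr rfl fun x' _ => ?_
      rw [Matrix.smul_apply, Matrix.smul_apply, Matrix.map_apply, smul_eq_mul, smul_eq_mul, map_mul]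
      rfl
    show u ⬝ᵥ (rm m (mat ρ s f) *ᵥ x) = _
    rw [h5, Matrix.sum_mulVec, dotProduct_sum]
    refine sum_congr rfl fun x' _ => ?_
    rw [Matrix.smul_mulVec, dotProduct_smul, smul_eq_mul]
    rfl
  -- the norm
  have h2 : (NKer m ρ s x : ℝ) * (m : ℝ) ^ d ≤
      ∑ u : Fin d → ZMod m, ∏ x' : S, (2 * Real.exp (-(sn m (th m ρ x u (s x')) ^ 2) / 2)) := by
    have h3 : (NKer m ρ s x : ℝ) * (m : ℝ) ^ d = ‖((NKer m ρ s x : ℝ) * (m : ℝ) ^ d : ℂ)‖ := by
      rw [norm_mul, norm_pow, Complex.norm_real, Complex.norm_real, Real.norm_eq_abs, Real.norm_eq_abs,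
        abs_of_nonneg (Nat.cast_nonneg _), abs_of_nonneg (Nat.cast_nonneg _)]
    rw [h3, h1]
    refine (norm_sum_le _ _).trans (sum_le_sum fun u _ => ?_)
    rw [norm_prod]
    exact prod_le_prod (fun _ _ => norm_nonneg _) fun x' _ => four_fac _
  refine h2.trans (le_of_eq ?_)
  rw [mul_sum]
  refine sum_congr rfl fun u _ => ?_
  rw [prod_mul_distrib, prod_const, card_univ, hE.card, ← Real.exp_sum]
  congr 2
  have h4 := hE.eqd (fun γ => sn m (th m ρ x u γ) ^ 2) (by
    intro γ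
    have h5 : th m ρ x u (c * γ) = -th m ρ x u γ := by
      unfold th rm
      rw [map_mul, hA.neg, neg_mul, one_mul]
      have h6 : (-ρ γ).map (Int.castRingHom (ZMod m)) = -((ρ γ).map (Int.castRingHom (ZMod m))) := by
        ext a b
        simp
      rw [h6, Matrix.neg_mulVec, dotProduct_neg]
    show sn m (th m ρ x u (c * γ)) ^ 2 = sn m (th m ρ x u γ) ^ 2
    rw [h5, sn_neg])
  have hG : (Fintype.card G : ℝ) ≠ 0 := by
    have : Fintype.card G ≠ 0 := Fintype.card_ne_zero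
    exact_mod_cast this
  have h7 : ∑ x' : S, sn m (th m ρ x u (s x')) ^ 2 = g * sig m ρ x u := by
    unfold sig
    rw [← mul_div_assoc, eq_div_iff hG, mul_comm]
    exact h4
  calc ∑ x' : S, -(sn m (th m ρ x u (s x')) ^ 2) / 2 =
        -(1 / 2) * ∑ x' : S, sn m (th m ρ x u (s x')) ^ 2 := by
        rw [mul_sum]
        exact sum_congr rfl fun _ _ => by ring
    _ = -(g / 2) * sig m ρ x u := by
        rw [h7]
        ring

end Pool.Agent.H9.EC
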