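import Pool.Agent.H9.EC.Defs

set_option autoImplicit false

/-!
Intertwiners of absolutely irreducible representations (module H9 EC ITW).

PROOF.  `itw_det`: suppose `det P = 0`; there is `v ≠ 0` in `ℤ^d` with `P v = 0` (`Matrix.exists_mulVec_eq_zero_iff`).  For every
integer matrix `A`, Schur's relations give `N A = ∑ γ, tr(ρ(γ⁻¹) A) ρ(γ)` (entry `k l`:
`∑ γ, ∑ i j, ρ(γ⁻¹)_ij A_ji ρ(γ)_kl = N A_kl`), so `N P A v = ∑ γ, tr(ρ(γ⁻¹) A) ρ'(γ) P v = 0`, hence `P A v = 0` (`N ≥ 1` as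
`N d = |G| ≥ 1`) for all `A`; with `A` the matrix units `A v` takes a nonzero multiple of every standard vector as value, so `P = 0`.
`itw_or`: for a matrix `E` let `P_E = ∑ γ, ρ'(γ⁻¹) E ρ(γ)`; then `P_E ρ(δ) = ρ'(δ) P_E` (replace `γ` by `γ δ⁻¹`).
If all `P_E = 0` then for the matrix unit `E = e_j e_kᵀ` the entry `(i, l)` is `∑ γ, ρ'(γ⁻¹)_ij ρ(γ)_kl = 0`.  Otherwise `itw_det`.
`itw_symm`: multiply `P ρ = ρ' P` by the adjugate `P*` on both sides: `det P · ρ P* = det P · P* ρ'`, and cancel `det P`;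
`det P* = (det P)^(d-1) ≠ 0` (`Matrix.det_adjugate`).  `itw_trans`: `P' P`.
-/

namespace Pool.Agent.H9.EC

open Finset Matrix

variable {d : ℕ} {G : Type} [Group G] [Fintype G]

/-- There is an intertwiner with nonzero determinant. -/
def Eqv (ρ ρ' : G →* Matrix (Fin d) (Fin d) ℤ) : Prop :=
  ∃ P : Matrix (Fin d) (Fin d) ℤ, P.det ≠ 0 ∧ ∀ γ, P * ρ γ = ρ' γ * P

private theorem exp_all {ρ : G →* Matrix (Fin d) (Fin d) ℤ} {c : G} {N : ℕ} (hA : AI ρ c N)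
    (A : Matrix (Fin d) (Fin d) ℤ) : (N : ℤ) • A = ∑ γ, (ρ γ⁻¹ * A).trace • ρ γ := by
  ext k l
  rw [Matrix.smul_apply, Matrix.sum_apply, smul_eq_mul]
  have h1 : ∀ γ, ((ρ γ⁻¹ * A).trace • ρ γ) k l =
      ∑ i, ∑ j, A j i * (ρ γ⁻¹ i j * ρ γ k l) := by
    intro γ
    rw [Matrix.smul_apply, smul_eq_mul, Matrix.trace, sum_mul]
    refine sum_congr rfl fun i _ => ?_
    rw [Matrix.diag_apply, Matrix.mul_apply, sum_mul]
    refine sum_congr rfl fun j _ => ?_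
    ring
  rw [sum_congr rfl fun γ _ => h1 γ, sum_comm]
  have h2 : ∀ i, ∑ γ, ∑ j, A j i * (ρ γ⁻¹ i j * ρ γ k l) =
      ∑ j, A j i * (if i = l ∧ j = k then (N : ℤ) else 0) := by
    intro i
    rw [sum_comm]
    refine sum_congr rfl fun j _ => ?_
    rw [← mul_sum, hA.schur]
  rw [sum_congr rfl fun i _ => h2 i, sum_eq_single l, sum_eq_single k]
  · rw [if_pos ⟨rfl, rfl⟩, mul_comm]
  · intro j _ hj
    rw [if_neg (fun h => hj h.2), mul_zero]
  · intro h; exact absurd (mem_univ _) h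
  · intro i _ hi
    refine sum_eq_zero fun j _ => ?_
    rw [if_neg (fun h => hi h.1), mul_zero]
  · intro h; exact absurd (mem_univ _) h

theorem itw_det {ρ : G →* Matrix (Fin d) (Fin d) ℤ} {c : G} {N : ℕ} (hA : AI ρ c N)
    (ρ' : G →* Matrix (Fin d) (Fin d) ℤ) (P : Matrix (Fin d) (Fin d) ℤ)
    (hP : ∀ γ, P * ρ γ = ρ' γ * P) (h0 : P ≠ 0) : P.det ≠ 0 := by
  intro hd
  obtain ⟨v, hv0, hv⟩ := Matrix.exists_mulVec_eq_zero_iff.mpr hd
  have hN : (N : ℤ) ≠ 0 := by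
    intro h
    have h1 := hA.card
    have h2 : 0 < Fintype.card G := Fintype.card_pos
    have h3 : N = 0 := by exact_mod_cast h
    rw [h3, zero_mul] at h1
    omega
  have h1 : ∀ A : Matrix (Fin d) (Fin d) ℤ, P *ᵥ (A *ᵥ v) = 0 := by
    intro A
    have h2 : (N : ℤ) • (P *ᵥ (A *ᵥ v)) = 0 := by
      rw [← Matrix.mulVec_smul, ← Matrix.smul_mulVec, exp_all hA, Matrix.mulVec_mulVec, Matrix.mul_sum,
        Matrix.sum_mulVec]
      refine sum_eq_zero fun γ _ => ?_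
      rw [Matrix.mul_smul, Matrix.smul_mulVec, hP, ← Matrix.mulVec_mulVec, hv, Matrix.mulVec_zero,
        smul_zero]
    rcases smul_eq_zero.mp h2 with h3 | h3
    · exact absurd h3 hN
    · exact h3
  obtain ⟨j, hj⟩ : ∃ j, v j ≠ 0 := by
    by_contra h
    push Not at h
    exact hv0 (funext h)
  apply h0
  ext k i
  have h2 := congrFun (h1 (Matrix.single i j 1)) k
  rw [Matrix.single_mulVec] at h2
  rw [Matrix.mulVec, dotProduct, sum_eq_single i] at h2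
  · simp only [Pi.single_eq_same, one_mul, Pi.zero_apply] at h2
    rw [Matrix.zero_apply]
    rcases mul_eq_zero.mp h2 with h3 | h3
    · exact h3
    · exact absurd (by simpa using h3) hj
  · intro b _ hb
    simp [hb]
  · intro h; exact absurd (mem_univ _) h

theorem itw_or {ρ : G →* Matrix (Fin d) (Fin d) ℤ} {c : G} {N : ℕ} (hA : AI ρ c N)
    (ρ' : G →* Matrix (Fin d) (Fin d) ℤ) :
    Eqv ρ ρ' ∨ ∀ i j k l, ∑ γ, ρ' γ⁻¹ i j * ρ γ k l = 0 := by
  by_cases h : ∀ E : Matrix (Fin d) (Fin d) ℤ, ∑ γ, ρ' γ⁻¹ * E * ρ γ = 0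
  · right
    intro i j k l
    have h1 := congrFun (congrFun (h (Matrix.single j k 1)) i) l
    rw [Matrix.sum_apply, Matrix.zero_apply] at h1
    rw [← h1]
    refine sum_congr rfl fun γ _ => ?_
    rw [Matrix.mul_apply, sum_eq_single k]
    · rw [Matrix.mul_single_apply_same, mul_one]
    · intro b _ hb
      rw [Matrix.mul_single_apply_of_ne _ _ _ _ _ hb, zero_mul]
    · intro h; exact absurd (mem_univ _) h
  · left
    push Not at h
    obtain ⟨E, hE⟩ := h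
    have h1 : ∀ δ, (∑ γ, ρ' γ⁻¹ * E * ρ γ) * ρ δ = ρ' δ * ∑ γ, ρ' γ⁻¹ * E * ρ γ := by
      intro δ
      rw [sum_mul, mul_sum]
      refine Fintype.sum_equiv (Equiv.mulRight δ) _ _ fun γ => ?_
      rw [Equiv.coe_mulRight, _root_.mul_inv_rev, map_mul, map_mul]
      have h2 : ρ' δ * ρ' δ⁻¹ = 1 := by rw [← map_mul, _root_.mul_inv_cancel, map_one]
      calc ρ' γ⁻¹ * E * ρ γ * ρ δ = 1 * (ρ' γ⁻¹ * E * ρ γ * ρ δ) := (one_mul _).symm
        _ = ρ' δ * (ρ' δ⁻¹ * ρ' γ⁻¹ * E * (ρ γ * ρ δ)) := by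
          rw [← h2]
          simp only [mul_assoc]
    exact ⟨_, itw_det hA ρ' _ h1 hE, h1⟩

theorem itw_symm {ρ ρ' : G →* Matrix (Fin d) (Fin d) ℤ} (h : Eqv ρ ρ') : Eqv ρ' ρ := by
  obtain ⟨P, hP0, hP⟩ := h
  refine ⟨P.adjugate, ?_, ?_⟩
  · rw [Matrix.det_adjugate]
    exact pow_ne_zero _ hP0
  · intro γ
    have h1 : P.det • (ρ γ * P.adjugate) = P.det • (P.adjugate * ρ' γ) := by
      calc P.det • (ρ γ * P.adjugate) = (P.det • (1 : Matrix (Fin d) (Fin d) ℤ)) * (ρ γ * P.adjugate) := by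
            rw [Matrix.smul_mul, Matrix.one_mul]
        _ = P.adjugate * P * (ρ γ * P.adjugate) := by rw [Matrix.adjugate_mul]
        _ = P.adjugate * (P * ρ γ) * P.adjugate := by simp only [mul_assoc]
        _ = P.adjugate * ρ' γ * (P * P.adjugate) := by rw [hP]; simp only [mul_assoc]
        _ = P.det • (P.adjugate * ρ' γ) := by
          rw [Matrix.mul_adjugate, Matrix.mul_smul, Matrix.mul_one]
    exact (smul_right_injective _ hP0 h1).symm

theorem itw_trans {ρ ρ' ρ'' : G →* Matrix (Fin d) (Fin d) ℤ} (h : Eqv ρ ρ') (h' : Eqv ρ' ρ'') :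
    Eqv ρ ρ'' := by
  obtain ⟨P, hP0, hP⟩ := h
  obtain ⟨Q, hQ0, hQ⟩ := h'
  refine ⟨Q * P, ?_, fun γ => ?_⟩
  · rw [Matrix.det_mul]
    exact mul_ne_zero hQ0 hP0
  · rw [mul_assoc, hP, ← mul_assoc, hQ, mul_assoc]

end Pool.Agent.H9.EC
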