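import Pool.Agent.H9.EC.Defs

set_option autoImplicit false

/-!
The kernel of an integer matrix modulo `l^a` (module H9 EC KER).

PROOF.  `κ_a` = the number of the `x` in `(ZMod (l^a))^d` with `rm (l^a) A *ᵥ x = 0`.  Induction on `a`:
`κ_0 = 1` (`ZMod 1` is trivial), `κ_1 = l^(crk l A)` (`Module.card_eq_pow_finrank`; `l^1 = l`) and `κ_(a+1) ≤ κ_1 κ_a`: the reduction
modulo `l` maps the kernel modulo `l^(a+1)` to the kernel modulo `l`, and a fibre is a translate of (injects into, by
subtraction of one of its elements) the set of the `x` in the kernel modulo `l^(a+1)` with `x ≡ 0` modulo `l`; such an `x` is `l x'` with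
`x' ` modulo `l^a` well defined and `A x' = 0` modulo `l^a`, so there are at most `κ_a` of them.
(One may work with integer vectors `z : Fin d → ℤ`, `0 ≤ z_i < l^a`, `l^a ∣ (A *ᵥ z) i` for all `i`, instead of `ZMod`:
`ZMod.val`, `ZMod.intCast_zmod_eq_zero_iff_dvd`.)
-/

namespace Pool.Agent.H9.EC

open Finset Matrix

private theorem mv_iff {d m : ℕ} [NeZero m] (A : Matrix (Fin d) (Fin d) ℤ) (x : Fin d → ZMod m) :
    rm m A *ᵥ x = 0 ↔ ∀ i, (m : ℤ) ∣ ∑ j, A i j * ((x j).val : ℤ) := by
  rw [funext_iff]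
  refine forall_congr' fun i => ?_
  have h1 : (rm m A *ᵥ x) i = ((∑ j, A i j * ((x j).val : ℤ) : ℤ) : ZMod m) := by
    rw [Int.cast_sum]
    simp only [Matrix.mulVec, dotProduct, rm, Matrix.map_apply, Int.coe_castRingHom]
    refine sum_congr rfl fun j _ => ?_
    rw [Int.cast_mul, Int.cast_natCast, ZMod.natCast_zmod_val]
  rw [h1, Pi.zero_apply, ZMod.intCast_zmod_eq_zero_iff_dvd]

private theorem step {d : ℕ} (l a : ℕ) [Fact l.Prime] (A : Matrix (Fin d) (Fin d) ℤ) :
    Nat.card (LinearMap.ker (Matrix.mulVecLin (rm (l ^ (a + 1)) A))) ≤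
      Nat.card (LinearMap.ker (Matrix.mulVecLin (rm (l ^ a) A))) *
        Nat.card (LinearMap.ker (Matrix.mulVecLin (rm l A))) := by
  have hl : 0 < l := (Fact.out : l.Prime).pos
  haveI : NeZero l := ⟨hl.ne'⟩
  haveI : NeZero (l ^ a) := ⟨(Nat.pow_pos hl).ne'⟩
  haveI : NeZero (l ^ (a + 1)) := ⟨(Nat.pow_pos hl).ne'⟩
  have hdvd : l ∣ l ^ (a + 1) := dvd_pow_self l (Nat.succ_ne_zero a)
  let φ : ZMod (l ^ (a + 1)) →+* ZMod l := ZMod.castHom hdvd (ZMod l)
  let f : LinearMap.ker (Matrix.mulVecLin (rm (l ^ (a + 1)) A)) →+ (Fin d → ZMod l) :=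
    { toFun := fun x j => φ (x.1 j)
      map_zero' := by
        funext j
        simp
      map_add' := by
        intro x y
        funext j
        simp }
  have hf : ∀ x j, f x j = φ (x.1 j) := fun x j => rfl
  have hφ : ∀ z : ZMod (l ^ (a + 1)), φ z = ((z.val : ℕ) : ZMod l) := by
    intro z
    rw [ZMod.natCast_val]
    rfl
  have h1 : Nat.card f.ker * Nat.card f.range =
      Nat.card (LinearMap.ker (Matrix.mulVecLin (rm (l ^ (a + 1)) A))) := by
    rw [← AddSubgroup.index_ker, AddSubgroup.card_mul_index]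
  rw [← h1]
  refine Nat.mul_le_mul ?_ ?_
  · -- the kernel of the reduction
    have hmem : ∀ x : f.ker, ∀ j, l ∣ (x.1.1 j).val := by
      intro x j
      have h2 : f x.1 j = 0 := by
        have := x.2
        rw [AddMonoidHom.mem_ker] at this
        rw [this, Pi.zero_apply]
      rw [hf, hφ, ZMod.natCast_eq_zero_iff] at h2
      exact h2
    have hlt : ∀ z : ZMod (l ^ (a + 1)), z.val / l < l ^ a := by
      intro z
      rw [Nat.div_lt_iff_lt_mul hl, ← pow_succ]
      exact ZMod.val_lt z
    have hval : ∀ z : ZMod (l ^ (a + 1)), ((((z.val / l : ℕ)) : ZMod (l ^ a))).val = z.val / l :=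
      fun z => ZMod.val_natCast_of_lt (hlt z)
    let g : f.ker → LinearMap.ker (Matrix.mulVecLin (rm (l ^ a) A)) := fun x =>
      ⟨fun j => (((x.1.1 j).val / l : ℕ) : ZMod (l ^ a)), by
        rw [LinearMap.mem_ker, Matrix.mulVecLin_apply, mv_iff]
        intro i
        have h3 := x.1.2
        rw [LinearMap.mem_ker, Matrix.mulVecLin_apply, mv_iff] at h3
        have h4 := h3 i
        have h5 : ∑ j, A i j * ((x.1.1 j).val : ℤ) =
            (l : ℤ) * ∑ j, A i j * ((((x.1.1 j).val / l : ℕ) : ZMod (l ^ a)).val : ℤ) := by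
          rw [mul_sum]
          refine sum_congr rfl fun j _ => ?_
          rw [hval]
          obtain ⟨c, hc⟩ := hmem x j
          rw [hc, Nat.mul_div_cancel_left _ hl]
          push_cast
          ring
        have e1 : ((l ^ (a + 1) : ℕ) : ℤ) = (l : ℤ) * ((l ^ a : ℕ) : ℤ) := by
          push_cast
          ring
        rw [h5, e1] at h4
        exact (mul_dvd_mul_iff_left (by exact_mod_cast hl.ne')).1 h4⟩
    refine Nat.card_le_card_of_injective g ?_
    intro x y hxy
    apply Subtype.ext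
    apply Subtype.ext
    funext j
    have h6 : (((x.1.1 j).val / l : ℕ) : ZMod (l ^ a)) = (((y.1.1 j).val / l : ℕ) : ZMod (l ^ a)) :=
      congrFun (congrArg Subtype.val hxy) j
    have h7 := congrArg ZMod.val h6
    rw [hval, hval] at h7
    apply ZMod.val_injective
    obtain ⟨c, hc⟩ := hmem x j
    obtain ⟨c', hc'⟩ := hmem y j
    rw [hc, hc', Nat.mul_div_cancel_left _ hl, Nat.mul_div_cancel_left _ hl] at h7
    rw [hc, hc', h7]
  · -- the image
    have hin : ∀ y : f.range, y.1 ∈ LinearMap.ker (Matrix.mulVecLin (rm l A)) := by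
      rintro ⟨y, x, rfl⟩
      rw [LinearMap.mem_ker, Matrix.mulVecLin_apply]
      have h3 := x.2
      rw [LinearMap.mem_ker, Matrix.mulVecLin_apply] at h3
      have h4 : ∀ i, (rm l A *ᵥ f x) i = φ ((rm (l ^ (a + 1)) A *ᵥ x.1) i) := by
        intro i
        simp only [Matrix.mulVec, dotProduct, rm, Matrix.map_apply, Int.coe_castRingHom, map_sum,
          map_mul, map_intCast]
        rfl
      funext i
      rw [h4, h3, Pi.zero_apply, Pi.zero_apply, map_zero]
    refine Nat.card_le_card_of_injective (fun y : f.range => (⟨y.1, hin y⟩ :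
      LinearMap.ker (Matrix.mulVecLin (rm l A)))) ?_
    intro x y hxy
    have h5 := congrArg Subtype.val hxy
    exact Subtype.ext h5

theorem card_ker_le {d : ℕ} (l a : ℕ) [Fact l.Prime] (A : Matrix (Fin d) (Fin d) ℤ) :
    Nat.card {x : Fin d → ZMod (l ^ a) // rm (l ^ a) A *ᵥ x = 0} ≤ (l ^ a) ^ crk l A := by
  have h0 : ∀ m : ℕ, Nat.card {x : Fin d → ZMod m // rm m A *ᵥ x = 0} =
      Nat.card (LinearMap.ker (Matrix.mulVecLin (rm m A))) := by
    intro m
    refine Nat.card_congr (Equiv.subtypeEquivRight fun x => ?_)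
    rw [LinearMap.mem_ker, Matrix.mulVecLin_apply]
  rw [h0]
  have h1 : Nat.card (LinearMap.ker (Matrix.mulVecLin (rm l A))) = l ^ crk l A := by
    unfold crk
    rw [Module.natCard_eq_pow_finrank (K := ZMod l), Nat.card_zmod]
  induction a with
  | zero =>
    rw [pow_zero, one_pow]
    haveI : Subsingleton (LinearMap.ker (Matrix.mulVecLin (rm (l ^ 0) A))) := by
      rw [pow_zero]
      infer_instance
    exact Finite.card_le_one_iff_subsingleton.2 inferInstance
  | succ a ih =>
    refine (step l a A).trans ?_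
    rw [h1, pow_succ, mul_pow]
    exact Nat.mul_le_mul_right _ ih

end Pool.Agent.H9.EC
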