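import Pool.Agent.H9.EC.Four
import Pool.Agent.H9.EC.SigN
import Pool.Agent.H9.EC.SingP

set_option autoImplicit false

/-!
The number of the singular signed sums and pairs of vectors modulo a prime (module H9 EC PRS).

PROOF.  `nsing_le` with `a = 1` (to replace `p^1` by `p` prove first: for all `m` with `m = p^1` the statement for `m`, by
`subst`), `Prim x ↔ x ≠ 0` modulo a prime (`isUnit_iff_ne_zero`, `Function.ne_iff`), `φ(p) = p - 1`
(`Nat.totient_prime`), `nker_le` for every `x ≠ 0`, and the term `u = 0` is `exp 0 = 1` (`sig_zero`); there are at most `p^d` vectors `x`.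
-/

namespace Pool.Agent.H9.EC

open Finset Matrix

open Classical in
private theorem nsing_m {d : ℕ} {G : Type} [Group G] [Fintype G] (ρ : G →* Matrix (Fin d) (Fin d) ℤ)
    {S : Type} [Fintype S] (s : S → G) (p m : ℕ) [Fact p.Prime] [NeZero m] (hm : m = p ^ 1) :
    NSing ρ s * Nat.totient m ≤
      ∑ x ∈ univ.filter (fun x : Fin d → ZMod m => Prim x), NKer m ρ s x := by
  subst hm
  exact nsing_le ρ s p 1 le_rfl

open Classical in
theorem nsing_pairs {d : ℕ} {G : Type} [Group G] [Fintype G] {ρ : G →* Matrix (Fin d) (Fin d) ℤ} {c : G}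
    {N : ℕ} (hA : AI ρ c N) {S : Type} [Fintype S] {s : S → G} {g : ℕ} (hE : Eqd c s g) (p : ℕ)
    [Fact p.Prime] :
    (NSing ρ s : ℝ) * ((p - 1 : ℝ) * (p : ℝ) ^ d) ≤
      2 ^ g * ((p : ℝ) ^ d + ∑ x ∈ univ.filter (fun x : Fin d → ZMod p => x ≠ 0),
        ∑ u ∈ univ.filter (fun u : Fin d → ZMod p => u ≠ 0), Real.exp (-(g / 2) * sig p ρ x u)) := by
  have hpp : p.Prime := Fact.out
  have h1 := nsing_m ρ s p p (pow_one p).symm
  rw [Nat.totient_prime hpp] at h1
  have h2 : (univ.filter (fun x : Fin d → ZMod p => Prim x)) =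
      univ.filter (fun x : Fin d → ZMod p => x ≠ 0) := by
    refine filter_congr fun x _ => ?_
    unfold Prim
    rw [Function.ne_iff]
    simp only [isUnit_iff_ne_zero, Pi.zero_apply]
  rw [h2] at h1
  have h3 : (NSing ρ s : ℝ) * (p - 1 : ℝ) ≤
      ∑ x ∈ univ.filter (fun x : Fin d → ZMod p => x ≠ 0), (NKer p ρ s x : ℝ) := by
    have h4 : ((p - 1 : ℕ) : ℝ) = (p : ℝ) - 1 := by
      rw [Nat.cast_sub hpp.one_le, Nat.cast_one]
    rw [← h4]
    exact_mod_cast h1
  have hp0 : (0 : ℝ) ≤ (p : ℝ) ^ d := by positivity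
  calc (NSing ρ s : ℝ) * ((p - 1 : ℝ) * (p : ℝ) ^ d) = ((NSing ρ s : ℝ) * (p - 1 : ℝ)) * (p : ℝ) ^ d := by
        ring
    _ ≤ (∑ x ∈ univ.filter (fun x : Fin d → ZMod p => x ≠ 0), (NKer p ρ s x : ℝ)) * (p : ℝ) ^ d :=
        mul_le_mul_of_nonneg_right h3 hp0
    _ = ∑ x ∈ univ.filter (fun x : Fin d → ZMod p => x ≠ 0), (NKer p ρ s x : ℝ) * (p : ℝ) ^ d := by
        rw [sum_mul]
    _ ≤ ∑ x ∈ univ.filter (fun x : Fin d → ZMod p => x ≠ 0),
        (2 ^ g * (1 + ∑ u ∈ univ.filter (fun u : Fin d → ZMod p => u ≠ 0),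
          Real.exp (-(g / 2) * sig p ρ x u))) := by
        refine sum_le_sum fun x _ => ?_
        refine (nker_le hA hE p x).trans (le_of_eq ?_)
        congr 1
        rw [← sum_filter_add_sum_filter_not univ (fun u : Fin d → ZMod p => u = 0)]
        congr 1
        rw [filter_eq', if_pos (mem_univ _), sum_singleton, sig_zero, mul_zero, Real.exp_zero]
    _ = 2 ^ g * (((univ.filter (fun x : Fin d → ZMod p => x ≠ 0)).card : ℝ) +
        ∑ x ∈ univ.filter (fun x : Fin d → ZMod p => x ≠ 0),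
        ∑ u ∈ univ.filter (fun u : Fin d → ZMod p => u ≠ 0), Real.exp (-(g / 2) * sig p ρ x u)) := by
        rw [← mul_sum, sum_add_distrib, sum_const, nsmul_eq_mul, mul_one]
    _ ≤ _ := by
        refine mul_le_mul_of_nonneg_left ?_ (by positivity)
        refine add_le_add ?_ le_rfl
        have h3 : (univ.filter (fun x : Fin d → ZMod p => x ≠ 0)).card ≤ p ^ d := by
          refine (card_le_univ _).trans (le_of_eq ?_)
          rw [Fintype.card_pi]
          simp only [ZMod.card, prod_const, card_univ, Fintype.card_fin]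
        exact_mod_cast h3

end Pool.Agent.H9.EC
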