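import Pool.Agent.H9.EC.PSum
import Pool.Agent.H9.EC.PairS
import Pool.Agent.H9.EC.CntB

set_option autoImplicit false

/-!
Bounded dimension: the bound for one prime (module H9 EC PBB).

PROOF.  `pair_sum` with `𝒜` = the matrices `A ≠ 0` of `BM d T` all of whose `2 × 2` minors are divisible by `p`, `F = 1` and
`E = p^(-2 d)`: if `AM ∉ 𝒜` then `mx(AM) > T` (by `AM_ne`, `AM_minor`), so by `AM_le` and `hT2` (`K |G| p r ≤ 2 T`)
`√sig > r` and `exp(-(g/2) sig) ≤ exp(-(g/2) r²) ≤ p^(-2 d)` by `hr2`.  With `cnt_rank1` and `nsing_pairs`: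
`NSing (p-1) p^d ≤ 2^g (p^d + (p-1) |𝒜| + 1)`, and `NSing ≤ 2^g (2/(p-1) + |𝒜|/p^d)`.
-/

namespace Pool.Agent.H9.EC

open Finset Matrix

theorem nsing_bdd {d : ℕ} (hd : 1 ≤ d) {G : Type} [Group G] [Fintype G]
    {ρ : G →* Matrix (Fin d) (Fin d) ℤ} {c : G} {N : ℕ} (hA : AI ρ c N) (K : ℕ)
    (hK : ∀ γ i j, |ρ γ i j| ≤ (K : ℤ)) {S : Type} [Fintype S] {s : S → G} {g : ℕ} (hE : Eqd c s g)
    (p : ℕ) [Fact p.Prime] (hp2 : p ≠ 2) (hp : ¬ p ∣ Fintype.card G) (T : ℕ) (hT : 1 ≤ T) (r : ℝ)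
    (hr : 0 ≤ r) (hT2 : K * Fintype.card G * p * r ≤ 2 * T)
    (hr2 : 2 * d * Real.log p ≤ g / 2 * r ^ 2) :
    (NSing ρ s : ℝ) ≤ 2 ^ g * (2 / (p - 1 : ℝ) +
      2 * d ^ 2 * 15 ^ (d - 1) * (4 * (T : ℝ) ^ 2 / p + 1) ^ (d ^ 3) * ((T : ℝ) / p) ^ d *
        (1 + Real.log T)) := by
  classical
  have hpp : p.Prime := Fact.out
  have hp1 : (1 : ℝ) < p := by exact_mod_cast hpp.one_lt
  have hp0 : (0 : ℝ) < p := by linarith
  have hp1' : (0 : ℝ) < p - 1 := by linarith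
  set 𝒜 : Finset (Matrix (Fin d) (Fin d) ℤ) := (BM d T).filter (fun A => A ≠ 0 ∧
    ∀ i j k l, (p : ℤ) ∣ A i j * A k l - A i l * A k j) with h𝒜
  set B : ℝ := 2 * d ^ 2 * 15 ^ (d - 1) * (4 * (T : ℝ) ^ 2 / p + 1) ^ (d ^ 3) *
      (T : ℝ) ^ d * (1 + Real.log T) with hB
  have hcard : (𝒜.card : ℝ) ≤ B := by
    apply cnt_rank1 hd T p hT hpp.one_lt.le 𝒜
    · intro A h
      rw [h𝒜, mem_filter] at h
      exact h.2.1
    · intro A h
      rw [h𝒜, mem_filter, mem_BM] at h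
      exact h.1
    · intro A h
      rw [h𝒜, mem_filter] at h
      exact h.2.2
  have hpair := pair_sum hA p hp2 hp 𝒜 (fun x u => Real.exp (-(g / 2) * sig p ρ x u)) (fun _ => 1)
    (fun _ => zero_le_one) (((p : ℝ) ^ (2 * d))⁻¹) (by positivity)
    (by
      intro x u _ _ _
      rw [Real.exp_le_one_iff]
      have h1 : 0 ≤ sig p ρ x u := sig_nonneg ρ p x u
      have h2 : (0 : ℝ) ≤ g / 2 * sig p ρ x u := by positivity
      linarith)
    (by
      intro x u hx hu hxu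
      have h1 : T < mx (AM p ρ x u) := by
        by_contra hcon
        apply hxu
        rw [h𝒜, mem_filter, mem_BM]
        exact ⟨by omega, AM_ne hA p hp2 hp x u hx hu, fun i j k l => AM_minor hA p x u i j k l⟩
      have h2 := AM_le (ρ := ρ) K hK p x u
      have h3 : (T : ℝ) < mx (AM p ρ x u) := by exact_mod_cast h1
      have h4 : K * Fintype.card G * p * r < K * Fintype.card G * p * √(sig p ρ x u) := by linarith
      have h5 : r < √(sig p ρ x u) := lt_of_mul_lt_mul_left h4 (by positivity)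
      have h6 : r ^ 2 ≤ sig p ρ x u := by
        rw [← Real.sq_sqrt (sig_nonneg ρ p x u)]
        exact pow_le_pow_left₀ hr h5.le 2
      have h7 : (g : ℝ) / 2 * r ^ 2 ≤ g / 2 * sig p ρ x u := mul_le_mul_of_nonneg_left h6 (by positivity)
      calc Real.exp (-(g / 2) * sig p ρ x u) ≤ Real.exp (-(2 * d * Real.log p)) := by
            rw [Real.exp_le_exp]
            linarith
        _ = ((p : ℝ) ^ (2 * d))⁻¹ := by
            rw [Real.exp_neg, show (2 : ℝ) * d * Real.log p = ((2 * d : ℕ) : ℝ) * Real.log p by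
              push_cast; ring, Real.exp_nat_mul, Real.exp_log hp0])
  have hns := nsing_pairs hA hE p
  have hpd : (1 : ℝ) ≤ (p : ℝ) ^ d := one_le_pow₀ hp1.le
  have hpd0 : (0 : ℝ) < (p : ℝ) ^ d := by positivity
  have h8 : (NSing ρ s : ℝ) * ((p - 1 : ℝ) * (p : ℝ) ^ d) ≤
      2 ^ g * ((p : ℝ) ^ d + ((p - 1 : ℝ) * B + 1)) := by
    refine hns.trans ?_
    apply mul_le_mul_of_nonneg_left _ (by positivity)
    apply add_le_add le_rfl
    refine hpair.trans ?_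
    rw [Finset.sum_const, nsmul_eq_mul, mul_one, mul_inv_cancel₀ (by positivity)]
    exact add_le_add (mul_le_mul_of_nonneg_left hcard hp1'.le) le_rfl
  have h9 : 2 * (d : ℝ) ^ 2 * 15 ^ (d - 1) * (4 * (T : ℝ) ^ 2 / p + 1) ^ (d ^ 3) * ((T : ℝ) / p) ^ d *
        (1 + Real.log T) = B / (p : ℝ) ^ d := by
    rw [hB, div_pow]
    ring
  rw [h9]
  have h10 : (NSing ρ s : ℝ) ≤ 2 ^ g * ((p : ℝ) ^ d + ((p - 1 : ℝ) * B + 1)) /
      ((p - 1 : ℝ) * (p : ℝ) ^ d) := by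
    rw [le_div_iff₀ (by positivity)]
    exact h8
  refine h10.trans ?_
  rw [mul_div_assoc]
  apply mul_le_mul_of_nonneg_left _ (by positivity)
  rw [div_le_iff₀ (by positivity)]
  have h11 : (2 / (p - 1 : ℝ) + B / (p : ℝ) ^ d) * ((p - 1 : ℝ) * (p : ℝ) ^ d) =
      2 * (p : ℝ) ^ d + (p - 1) * B := by
    field_simp
  rw [h11]
  linarith

end Pool.Agent.H9.EC
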