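import Pool.Agent.H9.EC.Shell
import Pool.Agent.H9.EC.Tel
import Pool.Agent.H9.EC.Fac2

set_option autoImplicit false

/-!
A Gaussian sum over the singular `2 × 2` integer matrices (module H9 EC SG2).

PROOF.  Choose `v(A)`, `w(A)` by `fac2`: nonzero, `mx A = nv v nv w` (`mx_mul`), so `nv v, nv w ≤ T` (each is at least `1`:
`nv_pos`), and `A ↦ (v, w)` is injective.  So the sum is at most
`∑_v ∑_w exp(-β nv(v)² nv(w)²)` over nonzero `v, w ∈ Bx 2 T`.  `shell_sum` with `d = 2` (the weight is `2·2·3·a = 12 a`) and `tel_sum` with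
`s = β nv(v)²`: the inner sum is at most `12 / (β nv(v)²)`; `shell_sum` again: `∑_v 12/(β nv(v)²) ≤ ∑_a 12 a · 12/(β a²) = (144/β) ∑ 1/a`,
and `harm_sum`.
-/

namespace Pool.Agent.H9.EC

open Finset Matrix

private theorem inner_sum (T : ℕ) (s : ℝ) (hs : 0 < s) :
    ∑ w ∈ (Bx 2 T).filter (fun v => v ≠ 0), Real.exp (-(s * (nv w : ℝ) ^ 2)) ≤ 12 / s := by
  refine (shell_sum (d := 2) T (fun a => Real.exp (-(s * (a : ℝ) ^ 2)))
    (fun a => (Real.exp_pos _).le)).trans ?_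
  have h1 := tel_sum s hs T
  calc ∑ a ∈ Icc 1 T, 2 * ((2 : ℕ) : ℝ) * 3 ^ (2 - 1) * (a : ℝ) ^ (2 - 1) * Real.exp (-(s * (a : ℝ) ^ 2))
      = 12 * ∑ a ∈ Icc 1 T, (a : ℝ) * Real.exp (-(s * (a : ℝ) ^ 2)) := by
        rw [mul_sum]
        refine sum_congr rfl fun a _ => ?_
        norm_num
        ring
    _ ≤ 12 * (1 / s) := mul_le_mul_of_nonneg_left h1 (by norm_num)
    _ = 12 / s := by ring

theorem sing2_sum (𝒜 : Finset (Matrix (Fin 2) (Fin 2) ℤ)) (T : ℕ) (hT : 1 ≤ T)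
    (h : ∀ A ∈ 𝒜, A ≠ 0 ∧ A.det = 0 ∧ mx A ≤ T) (β : ℝ) (hβ : 0 < β) :
    ∑ A ∈ 𝒜, Real.exp (-(β * (mx A : ℝ) ^ 2)) ≤ 144 / β * (1 + Real.log T) := by
  classical
  have h1 : ∀ A ∈ 𝒜, ∃ q : (Fin 2 → ℤ) × (Fin 2 → ℤ), q.1 ≠ 0 ∧ q.2 ≠ 0 ∧
      ∀ i j, A i j = q.1 i * q.2 j := by
    intro A hA
    obtain ⟨v, w, hv, hw, hvw⟩ := fac2 A (h A hA).1 (h A hA).2.1
    exact ⟨(v, w), hv, hw, hvw⟩
  choose! f hf1 hf2 hf3 using h1
  obtain ⟨B, hB⟩ : ∃ B : Finset (Fin 2 → ℤ), B = (Bx 2 T).filter (fun v => v ≠ 0) := ⟨_, rfl⟩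
  have hmem : ∀ A ∈ 𝒜, f A ∈ B ×ˢ B := by
    intro A hA
    have h2 := mx_mul A (f A).1 (f A).2 (hf3 A hA)
    have h3 := nv_pos _ (hf1 A hA)
    have h4 := nv_pos _ (hf2 A hA)
    have h5 := (h A hA).2.2
    rw [h2] at h5
    rw [mem_product, hB, mem_filter, mem_filter, mem_Bx, mem_Bx]
    exact ⟨⟨(Nat.le_mul_of_pos_right _ h4).trans h5, hf1 A hA⟩,
      ⟨(Nat.le_mul_of_pos_left _ h3).trans h5, hf2 A hA⟩⟩
  have hinj : Set.InjOn f 𝒜 := by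
    intro A hA A' hA' he
    ext i j
    rw [hf3 A hA, hf3 A' hA', he]
  calc ∑ A ∈ 𝒜, Real.exp (-(β * (mx A : ℝ) ^ 2))
      = ∑ A ∈ 𝒜, Real.exp (-((β * (nv (f A).1 : ℝ) ^ 2) * (nv (f A).2 : ℝ) ^ 2)) := by
        refine sum_congr rfl fun A hA => ?_
        rw [mx_mul A (f A).1 (f A).2 (hf3 A hA)]
        congr 2
        push_cast
        ring
    _ = ∑ q ∈ 𝒜.image f, Real.exp (-((β * (nv q.1 : ℝ) ^ 2) * (nv q.2 : ℝ) ^ 2)) := by
        rw [sum_image hinj]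
    _ ≤ ∑ q ∈ B ×ˢ B, Real.exp (-((β * (nv q.1 : ℝ) ^ 2) * (nv q.2 : ℝ) ^ 2)) := by
        refine sum_le_sum_of_subset_of_nonneg ?_ fun _ _ _ => (Real.exp_pos _).le
        intro q hq
        obtain ⟨A, hA, rfl⟩ := mem_image.mp hq
        exact hmem A hA
    _ = ∑ v ∈ B, ∑ w ∈ B, Real.exp (-((β * (nv v : ℝ) ^ 2) * (nv w : ℝ) ^ 2)) := by
        rw [sum_product]
    _ ≤ ∑ v ∈ B, 12 / (β * (nv v : ℝ) ^ 2) := by
        refine sum_le_sum fun v hv => ?_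
        rw [hB, mem_filter] at hv
        have h2 : (0 : ℝ) < nv v := by exact_mod_cast nv_pos v hv.2
        rw [hB]
        exact inner_sum T _ (by positivity)
    _ ≤ ∑ a ∈ Icc 1 T, 2 * ((2 : ℕ) : ℝ) * 3 ^ (2 - 1) * (a : ℝ) ^ (2 - 1) *
          (12 / (β * (a : ℝ) ^ 2)) := by
        rw [hB]
        exact shell_sum (d := 2) T (fun a => 12 / (β * (a : ℝ) ^ 2)) (fun a => by positivity)
    _ = 144 / β * ∑ a ∈ Icc 1 T, (1 : ℝ) / a := by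
        rw [mul_sum]
        refine sum_congr rfl fun a ha => ?_
        have h2 : (0 : ℝ) < a := by
          have := (mem_Icc.mp ha).1
          exact_mod_cast this
        norm_num
        field_simp
        ring
    _ ≤ 144 / β * (1 + Real.log T) :=
        mul_le_mul_of_nonneg_left (harm_sum T hT) (by positivity)

end Pool.Agent.H9.EC
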