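import Pool.Agent.H9.EC.PSum
import Pool.Agent.H9.EC.PairS
import Pool.Agent.H9.EC.Sing2

set_option autoImplicit false

/-!
Dimension two: the bound for one prime (module H9 EC PCC).

PROOF.  `B = K |G| ≥ 1`, `β = 2 g / (B p)²`.  For nonzero `x, u`: `sig ≥ (2 mx(AM) / (B p))²` by `AM_le`, so
`exp(-(g/2) sig) ≤ exp(-β mx(AM)²)`.  `pair_sum` with `𝒜` = the matrices `A ≠ 0` of `BM 2 p` with `det A = 0`,
`F A = exp(-β mx(A)²)` and `E = 1/p²`: if `AM ∉ 𝒜` then `2 mx(AM)² ≥ p` (if `2 mx² < p` then `det AM` is divisible by `p`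
(`AM_minor`, `Matrix.det_fin_two`) and `|det AM| ≤ 2 mx² < p`, so `det AM = 0`; `AM ≠ 0` by `AM_ne`; `mx ≤ p`), so
`exp(-β mx²) ≤ exp(-β p/2) = exp(- g / (B² p)) ≤ exp(-2 log p) = 1/p²` by `hp3`.  `sing2_sum` with `T = p`.  So by `nsing_pairs`
`NSing (p-1) p² ≤ 2^g (p² + (p-1) (144/β) (1 + log p) + p^4 / p²)`, and
`NSing ≤ 2^g (2/(p-1) + 144 (1 + log p) B² / (2 g))`.
-/

namespace Pool.Agent.H9.EC

open Finset Matrix

theorem nsing_two {G : Type} [Group G] [Fintype G] {ρ : G →* Matrix (Fin 2) (Fin 2) ℤ} {c : G}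
    {N : ℕ} (hA : AI ρ c N) (K : ℕ) (hK1 : 1 ≤ K) (hK : ∀ γ i j, |ρ γ i j| ≤ (K : ℤ)) {S : Type}
    [Fintype S] {s : S → G} {g : ℕ} (hE : Eqd c s g) (p : ℕ) [Fact p.Prime] (hp2 : p ≠ 2)
    (hp : ¬ p ∣ Fintype.card G)
    (hp3 : 2 * Real.log p * ((K * Fintype.card G : ℝ) ^ 2 * p) ≤ g) :
    (NSing ρ s : ℝ) ≤ 2 ^ g * (2 / (p - 1 : ℝ) +
      72 * (1 + Real.log p) * (K * Fintype.card G : ℝ) ^ 2 / g) := by
  classical
  have hG : (1 : ℝ) ≤ Fintype.card G := by exact_mod_cast Fintype.card_pos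
  have hK' : (1 : ℝ) ≤ K := by exact_mod_cast hK1
  set B : ℝ := (K * Fintype.card G : ℝ) with hB
  have hB1 : 1 ≤ B := one_le_mul_of_one_le_of_one_le hK' hG
  have hB0 : 0 < B := by linarith
  have hpp : p.Prime := Fact.out
  have hp3' : 3 ≤ p := by
    have := hpp.two_le
    omega
  have hpR : (3 : ℝ) ≤ p := by exact_mod_cast hp3'
  have hp0 : (0 : ℝ) < p := by linarith
  have hg1 : (1 : ℝ) ≤ g := by exact_mod_cast hE.pos
  have hg0 : (0 : ℝ) < g := by linarith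
  set β : ℝ := 2 * g / (B * p) ^ 2 with hβ
  have hβ0 : 0 < β := by positivity
  -- the bound for one pair
  have hpair : ∀ x u : Fin 2 → ZMod p, Real.exp (-(g / 2) * sig p ρ x u) ≤
      Real.exp (-(β * (mx (AM p ρ x u) : ℝ) ^ 2)) := by
    intro x u
    rw [Real.exp_le_exp]
    have h1 := AM_le K hK p x u
    have hs := sig_nonneg ρ p x u
    have h2 : (2 * (mx (AM p ρ x u) : ℝ)) ^ 2 ≤ (B * p) ^ 2 * sig p ρ x u := by
      calc (2 * (mx (AM p ρ x u) : ℝ)) ^ 2 ≤ (K * Fintype.card G * p * √(sig p ρ x u)) ^ 2 :=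
            pow_le_pow_left₀ (by positivity) h1 2
        _ = (B * p) ^ 2 * sig p ρ x u := by
            rw [mul_pow, Real.sq_sqrt hs]
    have h3 : β * (mx (AM p ρ x u) : ℝ) ^ 2 ≤ g / 2 * sig p ρ x u := by
      rw [hβ, div_mul_eq_mul_div, div_le_iff₀ (by positivity)]
      nlinarith
    linarith
  set 𝒜 : Finset (Matrix (Fin 2) (Fin 2) ℤ) :=
    (BM 2 p).filter (fun A => A ≠ 0 ∧ A.det = 0) with h𝒜
  have hmem : ∀ A ∈ 𝒜, A ≠ 0 ∧ A.det = 0 ∧ mx A ≤ p := by
    intro A hA'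
    rw [h𝒜, Finset.mem_filter, mem_BM] at hA'
    exact ⟨hA'.2.1, hA'.2.2, hA'.1⟩
  have hps := pair_sum hA p hp2 hp 𝒜 (fun x u => Real.exp (-(g / 2) * sig p ρ x u))
    (fun A => Real.exp (-(β * (mx A : ℝ) ^ 2))) (fun A => (Real.exp_pos _).le)
    (1 / (p : ℝ) ^ 2) (by positivity) (fun x u _ _ _ => hpair x u) (by
      intro x u hx hu hn
      refine (hpair x u).trans ?_
      set A := AM p ρ x u with hAd
      have hA0 : A ≠ 0 := AM_ne hA p hp2 hp x u hx hu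
      have h1 : (p : ℤ) ≤ 2 * (mx A : ℤ) ^ 2 := by
        by_contra hlt
        push Not at hlt
        have hmp : mx A ≤ p := by
          by_contra h2
          push Not at h2
          have h3 : (p : ℤ) < (mx A : ℤ) := by exact_mod_cast h2
          have h4 : (3 : ℤ) ≤ p := by exact_mod_cast hp3'
          nlinarith
        have hdvd : (p : ℤ) ∣ A.det := by
          rw [Matrix.det_fin_two]
          exact AM_minor hA p x u 0 0 1 1
        have habs : |A.det| ≤ 2 * (mx A : ℤ) ^ 2 := by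
          rw [Matrix.det_fin_two]
          have e := le_mx A
          calc |A 0 0 * A 1 1 - A 0 1 * A 1 0| ≤ |A 0 0 * A 1 1| + |A 0 1 * A 1 0| := abs_sub _ _
            _ = |A 0 0| * |A 1 1| + |A 0 1| * |A 1 0| := by rw [abs_mul, abs_mul]
            _ ≤ (mx A : ℤ) * mx A + (mx A : ℤ) * mx A :=
                add_le_add (mul_le_mul (e 0 0) (e 1 1) (abs_nonneg _) (by positivity))
                  (mul_le_mul (e 0 1) (e 1 0) (abs_nonneg _) (by positivity))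
            _ = 2 * (mx A : ℤ) ^ 2 := by ring
        have hdet : A.det = 0 := by
          by_contra h5
          have h6 := Int.le_of_dvd (abs_pos.2 h5) ((dvd_abs _ _).2 hdvd)
          linarith
        exact hn (Finset.mem_filter.2 ⟨(mem_BM A p).2 hmp, hA0, hdet⟩)
      have h2 : (p : ℝ) ≤ 2 * (mx A : ℝ) ^ 2 := by exact_mod_cast h1
      have h3 : 2 * Real.log p ≤ β * (mx A : ℝ) ^ 2 := by
        have h4 : β * (p / 2) ≤ β * (mx A : ℝ) ^ 2 :=
          mul_le_mul_of_nonneg_left (by linarith) hβ0.le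
        refine le_trans ?_ h4
        have h5 : β * (p / 2) = g / (B ^ 2 * p) := by
          rw [hβ]
          field_simp
        rw [h5, le_div_iff₀ (by positivity)]
        exact hp3
      calc Real.exp (-(β * (mx A : ℝ) ^ 2)) ≤ Real.exp (-(2 * Real.log p)) := by
            rw [Real.exp_le_exp]
            linarith
        _ = 1 / (p : ℝ) ^ 2 := by
            rw [Real.exp_neg, two_mul, Real.exp_add, Real.exp_log hp0, one_div, sq])
  have hsum : ∑ A ∈ 𝒜, Real.exp (-(β * (mx A : ℝ) ^ 2)) ≤ 144 / β * (1 + Real.log p) :=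
    sing2_sum 𝒜 p (by omega) hmem β hβ0
  have hns := nsing_pairs hA hE p
  have hp1 : (0 : ℝ) < p - 1 := by linarith
  have h1 : (NSing ρ s : ℝ) * ((p - 1 : ℝ) * (p : ℝ) ^ 2) ≤
      2 ^ g * ((p : ℝ) ^ 2 + ((p - 1 : ℝ) * (144 / β * (1 + Real.log p)) +
        (p : ℝ) ^ (2 * 2) * (1 / (p : ℝ) ^ 2))) := by
    refine hns.trans (mul_le_mul_of_nonneg_left ?_ (by positivity))
    refine add_le_add le_rfl (hps.trans ?_)
    exact add_le_add (mul_le_mul_of_nonneg_left hsum hp1.le) le_rfl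
  have h2 : (2 : ℝ) ^ g * ((p : ℝ) ^ 2 + ((p - 1 : ℝ) * (144 / β * (1 + Real.log p)) +
        (p : ℝ) ^ (2 * 2) * (1 / (p : ℝ) ^ 2))) =
      (2 ^ g * (2 / (p - 1 : ℝ) + 72 * (1 + Real.log p) * B ^ 2 / g)) *
        ((p - 1 : ℝ) * (p : ℝ) ^ 2) := by
    rw [hβ]
    field_simp
    ring
  rw [h2] at h1
  exact le_of_mul_le_mul_right h1 (by positivity)

end Pool.Agent.H9.EC
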