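import Pool.Agent.H9.EC.Fib

set_option autoImplicit false

/-!
Sums over pairs of vectors and sums over integer matrices (module H9 EC PSM).

PROOF.  Split the pairs `(x, u)` of nonzero vectors according to whether `AM x u ∈ 𝒜`.  The pairs with `AM x u ∈ 𝒜` contribute
at most `∑_{A ∈ 𝒜} #{(x, u) : AM x u = A} F A ≤ (p - 1) ∑_{A ∈ 𝒜} F A` (`fib_le`, `Finset.sum_fiberwise_of_maps_to`); the others, at
most `p^d p^d` of them, at most `E` each.
-/

namespace Pool.Agent.H9.EC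

open Finset Matrix

open Classical in
theorem pair_sum {d : ℕ} {G : Type} [Group G] [Fintype G] {ρ : G →* Matrix (Fin d) (Fin d) ℤ} {c : G}
    {N : ℕ} (hA : AI ρ c N) (p : ℕ) [Fact p.Prime] (hp2 : p ≠ 2) (hp : ¬ p ∣ Fintype.card G)
    (𝒜 : Finset (Matrix (Fin d) (Fin d) ℤ)) (Φ : (Fin d → ZMod p) → (Fin d → ZMod p) → ℝ)
    (F : Matrix (Fin d) (Fin d) ℤ → ℝ) (hF : ∀ A, 0 ≤ F A) (E : ℝ) (hE0 : 0 ≤ E)
    (h1 : ∀ x u, x ≠ 0 → u ≠ 0 → AM p ρ x u ∈ 𝒜 → Φ x u ≤ F (AM p ρ x u))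
    (h2 : ∀ x u, x ≠ 0 → u ≠ 0 → AM p ρ x u ∉ 𝒜 → Φ x u ≤ E) :
    ∑ x ∈ univ.filter (fun x : Fin d → ZMod p => x ≠ 0),
      ∑ u ∈ univ.filter (fun u : Fin d → ZMod p => u ≠ 0), Φ x u ≤
      (p - 1 : ℝ) * ∑ A ∈ 𝒜, F A + (p : ℝ) ^ (2 * d) * E := by
  rw [← sum_product' (univ.filter (fun x : Fin d → ZMod p => x ≠ 0))
    (univ.filter (fun u : Fin d → ZMod p => u ≠ 0)) Φ]
  obtain ⟨Q, hQ⟩ : ∃ Q : Finset ((Fin d → ZMod p) × (Fin d → ZMod p)),
    Q = (univ.filter (fun x : Fin d → ZMod p => x ≠ 0)) ×ˢ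
      (univ.filter (fun u : Fin d → ZMod p => u ≠ 0)) := ⟨_, rfl⟩
  rw [← hQ]
  have hQm : ∀ q, q ∈ Q ↔ q.1 ≠ 0 ∧ q.2 ≠ 0 := by
    intro q
    rw [hQ, mem_product, mem_filter, mem_filter]
    simp
  rw [← sum_filter_add_sum_filter_not Q (fun q => AM p ρ q.1 q.2 ∈ 𝒜)]
  refine add_le_add ?_ ?_
  · calc ∑ q ∈ Q.filter (fun q => AM p ρ q.1 q.2 ∈ 𝒜), Φ q.1 q.2
        ≤ ∑ q ∈ Q.filter (fun q => AM p ρ q.1 q.2 ∈ 𝒜), F (AM p ρ q.1 q.2) := by
          refine sum_le_sum fun q hq => ?_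
          rw [mem_filter, hQm] at hq
          exact h1 q.1 q.2 hq.1.1 hq.1.2 hq.2
      _ = ∑ A ∈ 𝒜, ∑ q ∈ (Q.filter (fun q => AM p ρ q.1 q.2 ∈ 𝒜)).filter
            (fun q => AM p ρ q.1 q.2 = A), F (AM p ρ q.1 q.2) := by
          refine (sum_fiberwise_of_maps_to (fun q hq => ?_) _).symm
          exact (mem_filter.mp hq).2
      _ ≤ ∑ A ∈ 𝒜, (p - 1 : ℝ) * F A := by
          refine sum_le_sum fun A _ => ?_
          have h3 : ∀ q ∈ (Q.filter (fun q => AM p ρ q.1 q.2 ∈ 𝒜)).filter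
            (fun q => AM p ρ q.1 q.2 = A), F (AM p ρ q.1 q.2) = F A := by
            intro q hq
            rw [(mem_filter.mp hq).2]
          rw [sum_congr rfl h3, sum_const, nsmul_eq_mul]
          refine mul_le_mul_of_nonneg_right ?_ (hF A)
          have h4 := fib_le hA p hp2 hp A
          rw [Nat.card_eq_fintype_card, Fintype.card_subtype] at h4
          have h5 : ((Q.filter (fun q => AM p ρ q.1 q.2 ∈ 𝒜)).filter
            (fun q => AM p ρ q.1 q.2 = A)).card ≤ p - 1 := by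
            refine (card_le_card ?_).trans h4
            intro q hq
            rw [mem_filter, mem_filter, hQm] at hq
            rw [mem_filter]
            exact ⟨mem_univ _, hq.1.1.1, hq.1.1.2, hq.2⟩
          have h6 : 1 ≤ p := (Fact.out : p.Prime).one_le
          have h7 : ((p - 1 : ℕ) : ℝ) = (p : ℝ) - 1 := by
            rw [Nat.cast_sub h6, Nat.cast_one]
          rw [← h7]
          exact_mod_cast h5
      _ = (p - 1 : ℝ) * ∑ A ∈ 𝒜, F A := by rw [mul_sum]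
  · calc ∑ q ∈ Q.filter (fun q => AM p ρ q.1 q.2 ∉ 𝒜), Φ q.1 q.2
        ≤ ∑ q ∈ Q.filter (fun q => AM p ρ q.1 q.2 ∉ 𝒜), E := by
          refine sum_le_sum fun q hq => ?_
          rw [mem_filter, hQm] at hq
          exact h2 q.1 q.2 hq.1.1 hq.1.2 hq.2
      _ = (Q.filter (fun q => AM p ρ q.1 q.2 ∉ 𝒜)).card * E := by
          rw [sum_const, nsmul_eq_mul]
      _ ≤ (p : ℝ) ^ (2 * d) * E := by
          refine mul_le_mul_of_nonneg_right ?_ hE0
          have h3 : (Q.filter (fun q => AM p ρ q.1 q.2 ∉ 𝒜)).card ≤ p ^ (2 * d) := by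
            refine (card_le_univ _).trans (le_of_eq ?_)
            rw [Fintype.card_prod, Fintype.card_pi]
            simp only [ZMod.card, prod_const, card_univ, Fintype.card_fin]
            rw [← pow_add, two_mul]
          exact_mod_cast h3

end Pool.Agent.H9.EC
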