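import Mathlib

set_option autoImplicit false

/-!
A pigeon hole principle for short real vectors (module H9 EC PIG; Mathlib only).

PROOF.  `card_int_vec`: let `B` be the box of the `k : Fin d → ℤ` with `|k i| ≤ 4 d` (`Fintype.piFinset` of
`Finset.Icc (-4d) (4d)`) and `T` the set of the `k ∈ B` with `∑ |k i| ≤ 4 d`.  It contains all `k` with
`∑ (k i)² ≤ 4 d`, as `|k i| ≤ (k i)²`.  With the weights `w(k) = ∏ i, (1/2)^|k i| ≥ (1/2)^(4 d) = 16^(-d)` on `T`:
`|T| ≤ 16^d ∑_{k ∈ B} w(k) = 16^d (∑_{|n| ≤ 4 d} (1/2)^|n|)^d ≤ 16^d 3^d = 48^d ≤ 128^d` (`Finset.prod_univ_sum`).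
`pigeon`: colour `a ∈ A` by the vector `k(a)_i = ⌊z a i / r⌋`.  `|k_i| ≤ |z_i / r| + 1`, so `k_i² ≤ 2 (z_i/r)² + 2` and
`∑ k_i² ≤ 2 d + 2 d`; so `k(a) ∈ T`, and some colour class `A'` has `|A| ≤ |T| |A'|`
(`Finset.exists_le_card_fiber_of_mul_le_card_of_maps_to` or `Finset.card_eq_sum_card_fiberwise`); two elements of one class
have coordinates in the same interval `[r k, r (k+1))`.
-/

namespace Pool.Agent.H9.EC

open Finset

private theorem pig_geo (N : ℕ) :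
    ∑ n ∈ Icc (-(N : ℤ)) N, (1 / 2 : ℝ) ^ n.natAbs = 3 - 2 * (1 / 2) ^ N := by
  induction N with
  | zero =>
    rw [Nat.cast_zero, neg_zero, Icc_self, sum_singleton]
    norm_num
  | succ N ih =>
    have h1 : Icc (-((N + 1 : ℕ) : ℤ)) ((N + 1 : ℕ) : ℤ) =
        insert ((N : ℤ) + 1) (insert (-((N : ℤ) + 1)) (Icc (-(N : ℤ)) N)) := by
      ext k
      rw [mem_insert, mem_insert, mem_Icc, mem_Icc]
      push_cast
      omega
    have h2 : ((N : ℤ) + 1) ∉ insert (-((N : ℤ) + 1)) (Icc (-(N : ℤ)) N) := by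
      rw [mem_insert, mem_Icc]
      omega
    have h3 : (-((N : ℤ) + 1)) ∉ (Icc (-(N : ℤ)) N) := by
      rw [mem_Icc]
      omega
    rw [h1, sum_insert h2, sum_insert h3, ih]
    have e1 : ((N : ℤ) + 1).natAbs = N + 1 := by omega
    have e2 : (-((N : ℤ) + 1)).natAbs = N + 1 := by omega
    rw [e1, e2]
    ring

theorem card_int_vec (d : ℕ) : ∃ T : Finset (Fin d → ℤ),
    (∀ k : Fin d → ℤ, ∑ i, (k i) ^ 2 ≤ 4 * (d : ℤ) → k ∈ T) ∧ T.card ≤ 128 ^ d := by
  classical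
  set B : Finset (Fin d → ℤ) :=
    Fintype.piFinset (fun _ : Fin d => Icc (-((4 * d : ℕ) : ℤ)) ((4 * d : ℕ) : ℤ)) with hB
  set T : Finset (Fin d → ℤ) := B.filter (fun k => ∑ i, (k i).natAbs ≤ 4 * d) with hT
  refine ⟨T, ?_, ?_⟩
  · intro k hk
    have h1 : ∀ i, ((k i).natAbs : ℤ) ≤ (k i) ^ 2 := fun i => Int.natAbs_le_self_sq (k i)
    have h2 : ∑ i, ((k i).natAbs : ℤ) ≤ 4 * (d : ℤ) := (sum_le_sum fun i _ => h1 i).trans hk
    have h3 : ∑ i, (k i).natAbs ≤ 4 * d := by exact_mod_cast h2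
    rw [hT, mem_filter, hB, Fintype.mem_piFinset]
    refine ⟨fun i => ?_, h3⟩
    have h4 : (k i).natAbs ≤ ∑ i, (k i).natAbs :=
      single_le_sum (f := fun i => (k i).natAbs) (fun i _ => Nat.zero_le _) (mem_univ i)
    rw [mem_Icc]
    omega
  · have h1 : (T.card : ℝ) * (1 / 2) ^ (4 * d) ≤ 3 ^ d := by
      calc (T.card : ℝ) * (1 / 2) ^ (4 * d) = ∑ _k ∈ T, (1 / 2 : ℝ) ^ (4 * d) := by
            rw [sum_const, nsmul_eq_mul]
        _ ≤ ∑ k ∈ T, ∏ i, (1 / 2 : ℝ) ^ (k i).natAbs := by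
            refine sum_le_sum fun k hk => ?_
            rw [prod_pow_eq_pow_sum]
            exact pow_le_pow_of_le_one (by norm_num) (by norm_num) (mem_filter.1 hk).2
        _ ≤ ∑ k ∈ B, ∏ i, (1 / 2 : ℝ) ^ (k i).natAbs :=
            sum_le_sum_of_subset_of_nonneg (filter_subset _ _) fun k _ _ => by positivity
        _ = ∏ _i : Fin d, ∑ n ∈ Icc (-((4 * d : ℕ) : ℤ)) ((4 * d : ℕ) : ℤ),
              (1 / 2 : ℝ) ^ n.natAbs := by
            rw [prod_univ_sum]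
        _ = (3 - 2 * (1 / 2) ^ (4 * d)) ^ d := by
            rw [prod_const, card_univ, Fintype.card_fin, pig_geo]
        _ ≤ 3 ^ d := by
            have h2 : (0 : ℝ) < (1 / 2) ^ (4 * d) := by positivity
            have h3 : ((1 : ℝ) / 2) ^ (4 * d) ≤ 1 := pow_le_one₀ (by norm_num) (by norm_num)
            exact pow_le_pow_left₀ (by linarith) (by linarith) d
    have h2 : (T.card : ℝ) ≤ 3 ^ d * 2 ^ (4 * d) := by
      have h3 : ((1 : ℝ) / 2) ^ (4 * d) * 2 ^ (4 * d) = 1 := by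
        rw [← mul_pow]
        norm_num
      calc (T.card : ℝ) = (T.card : ℝ) * ((1 / 2) ^ (4 * d) * 2 ^ (4 * d)) := by
            rw [h3, mul_one]
        _ = ((T.card : ℝ) * (1 / 2) ^ (4 * d)) * 2 ^ (4 * d) := by ring
        _ ≤ 3 ^ d * 2 ^ (4 * d) := mul_le_mul_of_nonneg_right h1 (by positivity)
    have h4 : (3 : ℝ) ^ d * 2 ^ (4 * d) ≤ 128 ^ d := by
      rw [pow_mul, ← mul_pow]
      exact pow_le_pow_left₀ (by norm_num) (by norm_num) d
    exact_mod_cast h2.trans h4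

theorem pigeon {α : Type} (A : Finset α) (d : ℕ) (z : α → Fin d → ℝ) (r : ℝ) (hr : 0 < r)
    (h : ∀ a ∈ A, ∑ i, (z a i) ^ 2 ≤ d * r ^ 2) :
    ∃ A' ⊆ A, A.card ≤ 128 ^ d * A'.card ∧ ∀ a ∈ A', ∀ a' ∈ A', ∀ i, |z a i - z a' i| < r := by
  classical
  obtain ⟨T, hT1, hT2⟩ := card_int_vec d
  rcases A.eq_empty_or_nonempty with rfl | hne
  · exact ⟨∅, Subset.refl _, by simp, by simp⟩
  have hk : ∀ a ∈ A, (fun i => ⌊z a i / r⌋) ∈ T := by
    intro a ha
    apply hT1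
    have h1 : ∀ i, ((⌊z a i / r⌋ : ℤ) : ℝ) ^ 2 ≤ 2 * (z a i / r) ^ 2 + 2 := by
      intro i
      have h2 := Int.floor_le (z a i / r)
      have h3 := Int.lt_floor_add_one (z a i / r)
      have h4 : |((⌊z a i / r⌋ : ℤ) : ℝ)| ≤ |z a i / r| + 1 := by
        rw [abs_le]
        constructor
        · have := neg_abs_le (z a i / r)
          linarith
        · have := le_abs_self (z a i / r)
          linarith
      have h5 := pow_le_pow_left₀ (abs_nonneg _) h4 2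
      rw [sq_abs] at h5
      have h6 : (|z a i / r| + 1) ^ 2 ≤ 2 * (z a i / r) ^ 2 + 2 := by
        have h7 := sq_abs (z a i / r)
        nlinarith [sq_nonneg (|z a i / r| - 1)]
      exact h5.trans h6
    have h2 : ∑ i, (z a i / r) ^ 2 ≤ d := by
      simp_rw [div_pow]
      rw [← sum_div, div_le_iff₀ (by positivity)]
      exact h a ha
    have h3 : ((∑ i, ⌊z a i / r⌋ ^ 2 : ℤ) : ℝ) ≤ ((4 * (d : ℤ) : ℤ) : ℝ) := by
      push_cast
      calc ∑ i, ((⌊z a i / r⌋ : ℤ) : ℝ) ^ 2 ≤ ∑ i, (2 * (z a i / r) ^ 2 + 2) :=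
            sum_le_sum fun i _ => h1 i
        _ = 2 * ∑ i, (z a i / r) ^ 2 + d * 2 := by
            rw [sum_add_distrib, ← mul_sum, sum_const, card_univ, Fintype.card_fin, nsmul_eq_mul]
        _ ≤ 4 * d := by linarith
    exact_mod_cast h3
  have hTne : T.Nonempty := by
    obtain ⟨a, ha⟩ := hne
    exact ⟨_, hk a ha⟩
  obtain ⟨t0, -, ht0⟩ := exists_max_image T
    (fun t => (A.filter (fun a => (fun i => ⌊z a i / r⌋) = t)).card) hTne
  refine ⟨A.filter (fun a => (fun i => ⌊z a i / r⌋) = t0), filter_subset _ _, ?_, ?_⟩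
  · rw [card_eq_sum_card_fiberwise (f := fun a => fun i => ⌊z a i / r⌋) (t := T)
      (fun a ha => hk a ha)]
    calc ∑ t ∈ T, (A.filter (fun a => (fun i => ⌊z a i / r⌋) = t)).card
        ≤ ∑ _t ∈ T, (A.filter (fun a => (fun i => ⌊z a i / r⌋) = t0)).card :=
          sum_le_sum fun t ht => ht0 t ht
      _ = T.card * (A.filter (fun a => (fun i => ⌊z a i / r⌋) = t0)).card := by
          rw [sum_const, smul_eq_mul]
      _ ≤ _ := Nat.mul_le_mul_right _ hT2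
  · intro a ha a' ha' i
    have h1 := (mem_filter.1 ha).2
    have h2 := (mem_filter.1 ha').2
    have h3 : ⌊z a i / r⌋ = ⌊z a' i / r⌋ := by
      have e1 := congrFun h1 i
      have e2 := congrFun h2 i
      exact e1.trans e2.symm
    have h4 := Int.abs_sub_lt_one_of_floor_eq_floor h3
    rw [← sub_div, abs_div, abs_of_pos hr, div_lt_one hr] at h4
    exact h4

end Pool.Agent.H9.EC
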