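import Pool.Agent.H9.EC.MxB

set_option autoImplicit false

/-!
Sums over the nonzero integer vectors by shells (module H9 EC SHL).

PROOF.  The number of the `v : Fin d → ℤ` with `nv v = a ≥ 1` is at most `2 d (2 a + 1)^(d - 1) ≤ 2 d 3^(d-1) a^(d-1)`: some
coordinate is `± a` (`nv_attained`; `d` choices for it), the others lie in `[-a, a]`
(inject `(i, sign, the function with coordinate i removed)`, `Fin.removeNth`/`Fin.insertNth`; or cover the shell by the sets
`{v ∈ Bx d a | v i = ± a}`, each of which is a `piFinset` of cardinality `(2a+1)^(d-1)`).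
Group the sum by the value `a = nv v ∈ [1, T]` (`Finset.sum_fiberwise_of_maps_to`, `nv_pos`, `mem_Bx`).
-/

namespace Pool.Agent.H9.EC

open Finset Matrix

private theorem shell_pi {d : ℕ} (a : ℕ) (i : Fin d) (z : ℤ) :
    (Fintype.piFinset (fun j : Fin d => if j = i then ({z} : Finset ℤ) else
      Icc (-(a : ℤ)) a)).card = (2 * a + 1) ^ (d - 1) := by
  rw [Fintype.card_piFinset, ← mul_prod_erase univ _ (mem_univ i), if_pos rfl, card_singleton,
    one_mul]
  have h1 : ∀ j ∈ univ.erase i, (if j = i then ({z} : Finset ℤ) else Icc (-(a : ℤ)) a).card =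
      2 * a + 1 := by
    intro j hj
    rw [if_neg (mem_erase.1 hj).1, Int.card_Icc]
    omega
  rw [prod_congr rfl h1, prod_const, card_erase_of_mem (mem_univ i), card_univ, Fintype.card_fin]

private theorem shell_card {d : ℕ} (T a : ℕ) (ha : 1 ≤ a) [DecidableEq (Fin d → ℤ)] :
    (((Bx d T).filter (fun v => v ≠ 0)).filter (fun v => nv v = a)).card ≤
      2 * d * (3 ^ (d - 1) * a ^ (d - 1)) := by
  have hsub : ((Bx d T).filter (fun v => v ≠ 0)).filter (fun v => nv v = a) ⊆
      ((univ : Finset (Fin d)) ×ˢ ({(a : ℤ), -(a : ℤ)} : Finset ℤ)).biUnion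
        (fun q => Fintype.piFinset (fun j : Fin d => if j = q.1 then ({q.2} : Finset ℤ) else
          Icc (-(a : ℤ)) a)) := by
    intro v hv
    rw [mem_filter, mem_filter] at hv
    obtain ⟨⟨-, hv0⟩, hva⟩ := hv
    obtain ⟨i, hi⟩ := nv_attained v hv0
    rw [hva] at hi
    rw [mem_biUnion]
    refine ⟨(i, v i), ?_, ?_⟩
    · rw [mem_product, mem_insert, mem_singleton]
      refine ⟨mem_univ _, ?_⟩
      rcases abs_choice (v i) with h | h
      · left
        rw [← h, hi]
      · right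
        have h2 : v i = -|v i| := by rw [h, neg_neg]
        show v i = -(a : ℤ)
        rw [h2, hi]
    · rw [Fintype.mem_piFinset]
      intro j
      by_cases hj : j = i
      · subst hj
        show v j ∈ (if j = j then ({v j} : Finset ℤ) else Icc (-(a : ℤ)) a)
        rw [if_pos rfl, mem_singleton]
      · show v j ∈ (if j = i then ({v i} : Finset ℤ) else Icc (-(a : ℤ)) a)
        rw [if_neg hj, mem_Icc, ← abs_le]
        have h1 := le_nv v j
        rw [hva] at h1
        exact h1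
  refine (card_le_card hsub).trans ?_
  refine (card_biUnion_le_card_mul _ _ ((2 * a + 1) ^ (d - 1)) (fun q _ =>
    (shell_pi a q.1 q.2).le)).trans ?_
  have h1 : ((univ : Finset (Fin d)) ×ˢ ({(a : ℤ), -(a : ℤ)} : Finset ℤ)).card ≤ d * 2 := by
    rw [card_product, card_univ, Fintype.card_fin]
    exact Nat.mul_le_mul_left _ card_le_two
  have h2 : (2 * a + 1) ^ (d - 1) ≤ 3 ^ (d - 1) * a ^ (d - 1) := by
    rw [← mul_pow]
    exact Nat.pow_le_pow_left (by omega) _
  calc _ ≤ (d * 2) * (3 ^ (d - 1) * a ^ (d - 1)) := Nat.mul_le_mul h1 h2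
    _ = _ := by ring

open Classical in
theorem shell_sum {d : ℕ} (T : ℕ) (F : ℕ → ℝ) (hF : ∀ a, 0 ≤ F a) :
    ∑ v ∈ (Bx d T).filter (fun v => v ≠ 0), F (nv v) ≤
      ∑ a ∈ Icc 1 T, 2 * d * 3 ^ (d - 1) * (a : ℝ) ^ (d - 1) * F a := by
  have hmaps : ∀ v ∈ (Bx d T).filter (fun v => v ≠ 0), nv v ∈ Icc 1 T := by
    intro v hv
    rw [mem_filter, mem_Bx] at hv
    rw [mem_Icc]
    exact ⟨nv_pos v hv.2, hv.1⟩
  rw [← sum_fiberwise_of_maps_to hmaps]
  refine sum_le_sum fun a ha => ?_
  rw [mem_Icc] at ha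
  have h1 : ∑ v ∈ ((Bx d T).filter (fun v => v ≠ 0)).filter (fun v => nv v = a), F (nv v) =
      ((((Bx d T).filter (fun v => v ≠ 0)).filter (fun v => nv v = a)).card : ℝ) * F a := by
    rw [← nsmul_eq_mul, ← sum_const]
    refine sum_congr rfl fun v hv => ?_
    rw [(mem_filter.1 hv).2]
  rw [h1]
  refine mul_le_mul_of_nonneg_right ?_ (hF a)
  have h2 := shell_card (d := d) T a ha.1
  have h3 : ((((Bx d T).filter (fun v => v ≠ 0)).filter (fun v => nv v = a)).card : ℝ) ≤
      ((2 * d * (3 ^ (d - 1) * a ^ (d - 1)) : ℕ) : ℝ) := by exact_mod_cast h2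
  refine h3.trans (le_of_eq ?_)
  push_cast
  ring

end Pool.Agent.H9.EC
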