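import Pool.Agent.H9.EC.Defs

set_option autoImplicit false

/-!
The function `sn m t = |sin (2 π t / m)|` (module H9 EC SN; Mathlib only).

PROOF.  `sn_int`: `y = 2 t.val + m z` with an integer `z` (`ZMod.intCast_eq_intCast_iff` or
`ZMod.intCast_zmod_eq_zero_iff_dvd`, `ZMod.natCast_zmod_val`), and
`sin (π y / m) = sin (2 π t.val / m + π z) = ± sin (2 π t.val / m)` (`Real.sin_add_int_mul_pi`, or induction).
`sn_add`: with `y = 2 a.val + 2 b.val`, `|sin (x + x')| ≤ |sin x| + |sin x'|`.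
`sn_neg`: `sn_int` with `y = - 2 t.val`.
`sn_le`: `sn_int` and `|sin x| ≤ |x|`.
`Yl_cast`: `ZMod.coe_valMinAbs`.
`Yl_le`: `|Yl t| ≤ m / 2` (`ZMod.natAbs_valMinAbs_le`), `sn_int` with `y = Yl t`, and `2 / π * x ≤ sin x` for
`0 ≤ x ≤ π / 2` (`Real.mul_le_sin`) with `x = π |Yl t| / m`.
`sn_eq_zero`: if `sn m t = 0` then `Yl t = 0` by `Yl_le`, so `2 t = 0` and `t = 0` (`m` odd, so `2` is a unit).
-/

namespace Pool.Agent.H9.EC

open Finset Matrix

theorem sn_nonneg (m : ℕ) (t : ZMod m) : 0 ≤ sn m t := abs_nonneg _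

theorem sn_le_one (m : ℕ) (t : ZMod m) : sn m t ≤ 1 := Real.abs_sin_le_one _

theorem sn_zero (m : ℕ) : sn m 0 = 0 := by
  unfold sn
  rw [ZMod.val_zero]
  simp

theorem sn_int {m : ℕ} [NeZero m] (t : ZMod m) (y : ℤ) (h : (y : ZMod m) = 2 * t) :
    sn m t = |Real.sin (Real.pi * y / m)| := by
  have hm : (m : ℝ) ≠ 0 := Nat.cast_ne_zero.2 (NeZero.ne m)
  have h1 : (((2 * (t.val : ℤ) : ℤ)) : ZMod m) = ((y : ℤ) : ZMod m) := by
    rw [h]
    push_cast
    rw [ZMod.natCast_zmod_val]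
  rw [ZMod.intCast_eq_intCast_iff_dvd_sub] at h1
  obtain ⟨z, hz⟩ := h1
  have h2 : (y : ℝ) = 2 * (t.val : ℝ) + m * z := by
    have h3 : y = 2 * (t.val : ℤ) + m * z := by linarith
    rw [h3]
    push_cast
    ring
  have h4 : Real.pi * y / m = 2 * Real.pi * t.val / m + z * Real.pi := by
    rw [h2]
    field_simp
  unfold sn
  rw [h4, Real.sin_add_int_mul_pi, abs_mul, abs_zpow, abs_neg, abs_one, _root_.one_zpow, one_mul]

theorem sn_add {m : ℕ} [NeZero m] (a b : ZMod m) : sn m (a + b) ≤ sn m a + sn m b := by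
  have h1 : (((2 * (a.val : ℤ) + 2 * (b.val : ℤ) : ℤ)) : ZMod m) = 2 * (a + b) := by
    push_cast
    rw [ZMod.natCast_zmod_val, ZMod.natCast_zmod_val]
    ring
  rw [sn_int _ _ h1]
  have h2 : Real.pi * ((2 * (a.val : ℤ) + 2 * (b.val : ℤ) : ℤ) : ℝ) / m =
      2 * Real.pi * a.val / m + 2 * Real.pi * b.val / m := by
    push_cast
    ring
  rw [h2, Real.sin_add]
  refine (abs_add_le _ _).trans ?_
  unfold sn
  rw [abs_mul, abs_mul]
  have c1 := Real.abs_cos_le_one (2 * Real.pi * b.val / m)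
  have c2 := Real.abs_cos_le_one (2 * Real.pi * a.val / m)
  have s1 := abs_nonneg (Real.sin (2 * Real.pi * b.val / m))
  have s2 := abs_nonneg (Real.sin (2 * Real.pi * a.val / m))
  nlinarith

theorem sn_neg {m : ℕ} [NeZero m] (a : ZMod m) : sn m (-a) = sn m a := by
  have h1 : (((-(2 * (a.val : ℤ)) : ℤ)) : ZMod m) = 2 * (-a) := by
    push_cast
    rw [ZMod.natCast_zmod_val]
    ring
  rw [sn_int _ _ h1]
  have h2 : Real.pi * ((-(2 * (a.val : ℤ)) : ℤ) : ℝ) / m = -(2 * Real.pi * a.val / m) := by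
    push_cast
    ring
  rw [h2, Real.sin_neg, abs_neg]
  rfl

theorem sn_le {m : ℕ} [NeZero m] (t : ZMod m) (y : ℤ) (h : (y : ZMod m) = 2 * t) :
    sn m t ≤ Real.pi * |(y : ℝ)| / m := by
  rw [sn_int t y h]
  have h1 : |Real.sin (Real.pi * y / m)| ≤ |Real.pi * y / m| := Real.abs_sin_le_abs
  refine h1.trans (le_of_eq ?_)
  rw [abs_div, abs_mul, abs_of_pos Real.pi_pos, Nat.abs_cast]

theorem Yl_cast {m : ℕ} [NeZero m] (t : ZMod m) : ((Yl t : ℤ) : ZMod m) = 2 * t :=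
  ZMod.coe_valMinAbs _

theorem Yl_le {m : ℕ} [NeZero m] (t : ZMod m) : 2 * |(Yl t : ℝ)| ≤ m * sn m t := by
  have hm : (0 : ℝ) < m := Nat.cast_pos.2 (Nat.pos_of_ne_zero (NeZero.ne m))
  have h1 : (Yl t).natAbs ≤ m / 2 := ZMod.natAbs_valMinAbs_le _
  have h2 : 2 * |(Yl t : ℝ)| ≤ m := by
    have h3 : 2 * (Yl t).natAbs ≤ m := by omega
    have h4 : ((Yl t).natAbs : ℝ) = |(Yl t : ℝ)| := by
      rw [Nat.cast_natAbs, Int.cast_abs]
    rw [← h4]
    exact_mod_cast h3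
  have h5 : |Real.sin (Real.pi * (Yl t : ℝ) / m)| = |Real.sin (Real.pi * |(Yl t : ℝ)| / m)| := by
    rcases abs_choice (Yl t : ℝ) with h6 | h6
    · rw [h6]
    · rw [h6, mul_neg, neg_div, Real.sin_neg, abs_neg]
  rw [sn_int t (Yl t) (Yl_cast t), h5]
  have h7 : 0 ≤ Real.pi * |(Yl t : ℝ)| / m := by positivity
  have h8 : Real.pi * |(Yl t : ℝ)| / m ≤ Real.pi / 2 := by
    rw [div_le_div_iff₀ hm two_pos]
    nlinarith [Real.pi_pos]
  have h9 := Real.mul_le_sin h7 h8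
  have h10 : 2 / Real.pi * (Real.pi * |(Yl t : ℝ)| / m) = 2 * |(Yl t : ℝ)| / m := by
    have := Real.pi_pos
    field_simp
  rw [h10, div_le_iff₀ hm] at h9
  have h11 := le_abs_self (Real.sin (Real.pi * |(Yl t : ℝ)| / m))
  calc 2 * |(Yl t : ℝ)| ≤ Real.sin (Real.pi * |(Yl t : ℝ)| / m) * m := h9
    _ ≤ |Real.sin (Real.pi * |(Yl t : ℝ)| / m)| * m := mul_le_mul_of_nonneg_right h11 hm.le
    _ = _ := mul_comm _ _

theorem sn_eq_zero {m : ℕ} [NeZero m] (hm : Odd m) (t : ZMod m) : sn m t = 0 ↔ t = 0 := by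
  constructor
  · intro h
    have h1 := Yl_le t
    rw [h, mul_zero] at h1
    have h2 : (Yl t : ℝ) = 0 := by
      have := abs_nonneg (Yl t : ℝ)
      exact abs_eq_zero.1 (by linarith)
    have h3 : Yl t = 0 := by exact_mod_cast h2
    have h4 := Yl_cast t
    rw [h3, Int.cast_zero] at h4
    have h5 : IsUnit ((2 : ℕ) : ZMod m) :=
      (ZMod.isUnit_iff_coprime 2 m).2 (Nat.coprime_two_left.2 hm)
    rw [Nat.cast_ofNat] at h5
    exact (h5.mul_right_eq_zero).1 h4.symm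
  · rintro rfl
    exact sn_zero m

end Pool.Agent.H9.EC
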