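import Mathlib

set_option autoImplicit false

/-!
The number of the independent tuples in a subspace over a finite field (module H9 EC TUP; Mathlib only).

PROOF.  With `n = finrank K ≥ j ≥ J` and `q = l ≥ 3` the number of the independent `J`-tuples of `K` is
`∏_{i < J} (q^n - q^i)` (`card_linearIndependent`), and an independent tuple of the subspace `K` is an independent tuple of
`V` with values in `K` (`LinearIndependent.map'`, `Submodule.ker_subtype`, injective on tuples).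
`∏_{i < J} (q^n - q^i) = q^(n J) ∏_{i < J} (1 - q^(i-n)) ≥ q^(n J) (1 - ∑_{i < J} q^(i-n)) ≥ q^(n J) (1 - 1/(q-1)) ≥ q^(n J) / 2`, since
`∑_{i < J} q^(i-n) ≤ ∑_{t ≥ 1} q^(-t) = 1/(q-1) ≤ 1/2`.  And `q^(n J) ≥ q^(j J)`.
-/

namespace Pool.Agent.H9.EC

open Finset

private theorem tup_prod (q n : ℕ) (hq : 3 ≤ q) (J : ℕ) (hJ : J ≤ n) :
    ((q : ℝ) ^ n) ^ J * (2 * (q : ℝ) ^ n - (q : ℝ) ^ J) ≤
      2 * (q : ℝ) ^ n * ∏ i ∈ Finset.range J, ((q : ℝ) ^ n - (q : ℝ) ^ i) := by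
  have hq3 : (3 : ℝ) ≤ q := by exact_mod_cast hq
  induction J with
  | zero =>
    rw [pow_zero, Finset.range_zero, Finset.prod_empty, pow_zero]
    linarith
  | succ J ih =>
    have ih' := ih (by omega)
    rw [Finset.prod_range_succ]
    have hb : (q : ℝ) ^ J ≤ (q : ℝ) ^ n := pow_le_pow_right₀ (by linarith) (by omega)
    have hb0 : (0 : ℝ) < (q : ℝ) ^ J := by positivity
    have ha0 : (0 : ℝ) < (q : ℝ) ^ n := by positivity
    have haJ : (0 : ℝ) < ((q : ℝ) ^ n) ^ J := by positivity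
    have h1 := mul_le_mul_of_nonneg_right ih' (sub_nonneg.2 hb)
    have h2 : ((q : ℝ) ^ n) ^ (J + 1) * (2 * (q : ℝ) ^ n - (q : ℝ) ^ (J + 1)) ≤
        ((q : ℝ) ^ n) ^ J * (2 * (q : ℝ) ^ n - (q : ℝ) ^ J) * ((q : ℝ) ^ n - (q : ℝ) ^ J) := by
      rw [pow_succ ((q : ℝ) ^ n) J, pow_succ (q : ℝ) J, mul_assoc, mul_assoc]
      apply mul_le_mul_of_nonneg_left _ haJ.le
      have h3 : (q : ℝ) ^ n * (q : ℝ) ^ J * 3 ≤ (q : ℝ) ^ n * (q : ℝ) ^ J * q :=
        mul_le_mul_of_nonneg_left hq3 (by positivity)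
      nlinarith [mul_pos hb0 hb0]
    refine h2.trans (h1.trans (le_of_eq ?_))
    ring

private theorem tup_half (q n j J : ℕ) (hq : 3 ≤ q) (hJ : J ≤ j) (hj : j ≤ n) :
    (q : ℝ) ^ (J * j) ≤ 4 * ∏ i ∈ Finset.range J, ((q : ℝ) ^ n - (q : ℝ) ^ i) := by
  have h := tup_prod q n hq J (hJ.trans hj)
  have hq3 : (3 : ℝ) ≤ q := by exact_mod_cast hq
  have hb : (q : ℝ) ^ J ≤ (q : ℝ) ^ n := pow_le_pow_right₀ (by linarith) (hJ.trans hj)
  have ha0 : (0 : ℝ) < (q : ℝ) ^ n := by positivity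
  have haJ : (0 : ℝ) < ((q : ℝ) ^ n) ^ J := by positivity
  have h1 : ((q : ℝ) ^ n) ^ J * (q : ℝ) ^ n ≤
      2 * (∏ i ∈ Finset.range J, ((q : ℝ) ^ n - (q : ℝ) ^ i)) * (q : ℝ) ^ n := by
    calc ((q : ℝ) ^ n) ^ J * (q : ℝ) ^ n ≤
        ((q : ℝ) ^ n) ^ J * (2 * (q : ℝ) ^ n - (q : ℝ) ^ J) :=
          mul_le_mul_of_nonneg_left (by linarith) haJ.le
      _ ≤ 2 * (q : ℝ) ^ n * ∏ i ∈ Finset.range J, ((q : ℝ) ^ n - (q : ℝ) ^ i) := h
      _ = _ := by ring
  have h2 := le_of_mul_le_mul_right h1 ha0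
  have h3 : (q : ℝ) ^ (J * j) ≤ ((q : ℝ) ^ n) ^ J := by
    rw [← pow_mul, mul_comm J j]
    exact pow_le_pow_right₀ (by linarith) (Nat.mul_le_mul_right J hj)
  linarith

theorem tup_ge {d : ℕ} (l : ℕ) [Fact l.Prime] (hl2 : l ≠ 2) (K : Submodule (ZMod l) (Fin d → ZMod l))
    (J j : ℕ) (hJ : J ≤ j) (hj : j ≤ Module.finrank (ZMod l) K) :
    l ^ (J * j) ≤ 4 * Nat.card {y : Fin J → Fin d → ZMod l //
      LinearIndependent (ZMod l) y ∧ ∀ i, y i ∈ K} := by
  classical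
  have hl : 3 ≤ l := by
    have h1 := (Fact.out : l.Prime).two_le
    omega
  have hJn : J ≤ Module.finrank (ZMod l) K := hJ.trans hj
  have hcard := card_linearIndependent (K := ZMod l) (V := K) hJn
  rw [ZMod.card] at hcard
  have hinj : Nat.card {s : Fin J → K // LinearIndependent (ZMod l) s} ≤
      Nat.card {y : Fin J → Fin d → ZMod l // LinearIndependent (ZMod l) y ∧ ∀ i, y i ∈ K} := by
    refine Nat.card_le_card_of_injective
      (fun s => ⟨fun i => (s.1 i : Fin d → ZMod l),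
        s.2.map' K.subtype K.ker_subtype, fun i => (s.1 i).2⟩) ?_
    intro s t hst
    apply Subtype.ext
    funext i
    apply Subtype.ext
    have h1 := congrArg Subtype.val hst
    exact congrFun h1 i
  have hreal : ((Nat.card {s : Fin J → K // LinearIndependent (ZMod l) s} : ℕ) : ℝ) =
      ∏ i ∈ Finset.range J, ((l : ℝ) ^ Module.finrank (ZMod l) K - (l : ℝ) ^ i) := by
    rw [hcard, Nat.cast_prod, Finset.prod_range]
    refine Finset.prod_congr rfl fun i _ => ?_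
    rw [Nat.cast_sub (Nat.pow_le_pow_right (by omega) (by have := i.2; omega))]
    push_cast
    rfl
  have h := tup_half l (Module.finrank (ZMod l) K) j J hl hJ hj
  rw [← hreal] at h
  have h2 : l ^ (J * j) ≤ 4 * Nat.card {s : Fin J → K // LinearIndependent (ZMod l) s} := by
    exact_mod_cast h
  omega

end Pool.Agent.H9.EC
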