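import Pool.Agent.H9.EC.MxB

set_option autoImplicit false

/-!
Vectors with given minors (module H9 EC VC1).

PROOF.  `dec_vec`: let `h` be the gcd of the coordinates of `v` (`Finset.gcd`, or the generator of the ideal spanned by them:
`IsPrincipalIdealRing`, `Ideal.span (Set.range v)`, `Submodule.IsPrincipal`), `v = h v'` and `∑ b_k v'_k = 1` from `h = ∑ b_k v_k` and `h ≠ 0`;
choose the sign such that `h > 0`.
`card_minor`: for two elements `w, w₀` of `W` the difference `z` satisfies `v_j z_k = v_k z_j`, so `v'_j z_k = v'_k z_j` (`h ≠ 0`), and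
`z_j = ∑ k, b_k v'_k z_j = (∑ k, b_k z_k) v'_j`, i.e. `z = t v'` with an integer `t`, `|t| nv(v') = nv(z) ≤ 2 T`
(`nv_smul`).  So `w ↦ t` injects `W` into `[-M, M]`, `M = ⌊2 T / nv v'⌋`, and `|W| ≤ 2 M + 1 ≤ 4 T / nv v' + 1`
(`W` empty: clear).
-/

namespace Pool.Agent.H9.EC

open Finset Matrix

theorem dec_vec {d : ℕ} (v : Fin d → ℤ) (hv : v ≠ 0) :
    ∃ (h : ℕ) (v' : Fin d → ℤ), 1 ≤ h ∧ v = (h : ℤ) • v' ∧ ∃ b : Fin d → ℤ, ∑ k, b k * v' k = 1 := by
  obtain ⟨g, hg⟩ := (IsPrincipalIdealRing.principal (Ideal.span (Set.range v))).principal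
  have hg1 : ∀ i, g ∣ v i := by
    intro i
    have h1 : v i ∈ Ideal.span (Set.range v) := Ideal.subset_span ⟨i, rfl⟩
    rw [hg] at h1
    exact Ideal.mem_span_singleton.mp h1
  have hg2 : ∃ c : Fin d → ℤ, ∑ i, c i * v i = g := by
    have h1 : g ∈ Ideal.span (Set.range v) := by
      rw [hg]
      exact Ideal.mem_span_singleton_self g
    exact Ideal.mem_span_range_iff_exists_fun.mp h1
  have hg0 : g ≠ 0 := by
    rintro rfl
    apply hv
    ext i
    exact zero_dvd_iff.mp (hg1 i)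
  obtain ⟨c, hc⟩ := hg2
  choose u hu using hg1
  refine ⟨g.natAbs, fun i => g.sign * u i, Int.natAbs_pos.mpr hg0, ?_, fun i => g.sign * c i, ?_⟩
  · ext i
    rw [Pi.smul_apply, smul_eq_mul, ← mul_assoc, mul_comm (g.natAbs : ℤ), Int.sign_mul_natAbs]
    exact hu i
  · have h1 : g * ∑ i, c i * u i = g * 1 := by
      rw [mul_one, Finset.mul_sum]
      rw [← hc] at *
      calc _ = ∑ i, c i * v i := by
            apply Finset.sum_congr rfl
            intro i _
            rw [hu i]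
            ring
        _ = _ := rfl
    have h2 := mul_left_cancel₀ hg0 h1
    have h3 : g.sign * g.sign = 1 := by
      rcases lt_or_gt_of_ne hg0 with h | h
      · rw [Int.sign_eq_neg_one_of_neg h]
        norm_num
      · rw [Int.sign_eq_one_of_pos h]
        norm_num
    calc ∑ i, g.sign * c i * (g.sign * u i) = (g.sign * g.sign) * ∑ i, c i * u i := by
          rw [Finset.mul_sum]
          apply Finset.sum_congr rfl
          intro i _
          ring
      _ = 1 := by rw [h2, h3, mul_one]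

theorem card_minor {d : ℕ} (v v' : Fin d → ℤ) (h : ℕ) (hh : 1 ≤ h) (hv : v = (h : ℤ) • v')
    (b : Fin d → ℤ) (hb : ∑ k, b k * v' k = 1) (T : ℕ) (μ : Fin d → Fin d → ℤ)
    (W : Finset (Fin d → ℤ)) (hW : ∀ w ∈ W, nv w ≤ T ∧ ∀ j k, v j * w k - v k * w j = μ j k) :
    (W.card : ℝ) ≤ 4 * T / nv v' + 1 := by
  rcases W.eq_empty_or_nonempty with rfl | ⟨w₀, hw₀⟩
  · simp only [Finset.card_empty, Nat.cast_zero]
    positivity
  have hh' : (h : ℤ) ≠ 0 := by exact_mod_cast (by omega : h ≠ 0)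
  have hv'0 : v' ≠ 0 := by
    rintro rfl
    simp at hb
  have hn : 1 ≤ nv v' := nv_pos v' hv'0
  set t : (Fin d → ℤ) → ℤ := fun w => ∑ k, b k * (w k - w₀ k) with ht
  have key : ∀ w ∈ W, w - w₀ = t w • v' := by
    intro w hw
    have h1 : ∀ j k, v' j * (w k - w₀ k) = v' k * (w j - w₀ j) := by
      intro j k
      have h2 := (hW w hw).2 j k
      have h3 := (hW w₀ hw₀).2 j k
      have h4 : (h : ℤ) * (v' j * (w k - w₀ k)) = h * (v' k * (w j - w₀ j)) := by
        rw [hv] at h2 h3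
        simp only [Pi.smul_apply, smul_eq_mul] at h2 h3
        linear_combination h2 - h3
      exact mul_left_cancel₀ hh' h4
    ext j
    rw [Pi.sub_apply, Pi.smul_apply, smul_eq_mul, ht]
    calc w j - w₀ j = (∑ k, b k * v' k) * (w j - w₀ j) := by rw [hb, one_mul]
      _ = ∑ k, b k * (w k - w₀ k) * v' j := by
          rw [Finset.sum_mul]
          apply Finset.sum_congr rfl
          intro k _
          linear_combination (-b k) * h1 j k
      _ = (∑ k, b k * (w k - w₀ k)) * v' j := by rw [Finset.sum_mul]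
  have hbd : ∀ w ∈ W, t w ∈ Icc (-((2 * T / nv v' : ℕ) : ℤ)) ((2 * T / nv v' : ℕ) : ℤ) := by
    intro w hw
    have h1 : (t w).natAbs * nv v' ≤ 2 * T := by
      rw [← nv_smul, ← key w hw, nv_le]
      intro i
      rw [Pi.sub_apply]
      have h2 := (nv_le w T).mp (hW w hw).1 i
      have h3 := (nv_le w₀ T).mp (hW w₀ hw₀).1 i
      push_cast
      rw [abs_le] at *
      constructor <;> linarith [h2.1, h2.2, h3.1, h3.2]
    have h2 : (t w).natAbs ≤ 2 * T / nv v' := (Nat.le_div_iff_mul_le (by omega)).mpr h1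
    rw [mem_Icc]
    omega
  have hinj : Set.InjOn t W := by
    intro w hw w' hw' hww
    have h1 := key w hw
    have h2 := key w' hw'
    rw [hww, ← h2] at h1
    exact sub_left_injective h1
  have hcard : W.card ≤ 2 * (2 * T / nv v') + 1 := by
    calc W.card ≤ (Icc (-((2 * T / nv v' : ℕ) : ℤ)) ((2 * T / nv v' : ℕ) : ℤ)).card :=
          Finset.card_le_card_of_injOn t hbd hinj
      _ = 2 * (2 * T / nv v') + 1 := by
          rw [Int.card_Icc]
          omega
  have h1 : ((2 * T / nv v' : ℕ) : ℝ) ≤ 2 * T / nv v' := by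
    have := @Nat.cast_div_le ℝ _ _ _ (2 * T) (nv v')
    push_cast at this
    exact this
  calc (W.card : ℝ) ≤ ((2 * (2 * T / nv v') + 1 : ℕ) : ℝ) := by exact_mod_cast hcard
    _ = 2 * ((2 * T / nv v' : ℕ) : ℝ) + 1 := by push_cast; ring
    _ ≤ 2 * (2 * T / nv v') + 1 := by linarith
    _ = 4 * T / nv v' + 1 := by ring

end Pool.Agent.H9.EC
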